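import Pool.Agent.VMA.Defs

/-!
# VMA: basic lemmas
-/

set_option autoImplicit false
set_option linter.unusedSectionVars false
set_option linter.unusedVariables false

namespace Pool.Agent.VMA

open Set

section maps

variable {M : Type} [AddCommGroup M] {ι κ α J : Type}

@[simp] theorem re_apply (f : ι → κ) (x : κ → M) (i : ι) : re f x i = x (f i) := rfl

@[simp] theorem pL_elim (x : ι → M) (y : κ → M) : pL (Sum.elim x y) = x := rfl

@[simp] theorem pR_elim (x : ι → M) (y : κ → M) : pR (Sum.elim x y) = y := rfl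

theorem iR_apply (v : κ → M) : (iR v : ι ⊕ κ → M) = Sum.elim (0 : ι → M) v := rfl

theorem iL_apply (v : ι → M) : (iL v : ι ⊕ κ → M) = Sum.elim v (0 : κ → M) := rfl

theorem elim_pL_pR (z : ι ⊕ κ → M) : Sum.elim (pL z) (pR z) = z := by
  funext i; cases i <;> rfl

theorem elim_add (x x' : ι → M) (y y' : κ → M) :
    (Sum.elim (x + x') (y + y') : ι ⊕ κ → M) = Sum.elim x y + Sum.elim x' y' := by
  funext i; cases i <;> rfl

theorem elim_sub (x x' : ι → M) (y y' : κ → M) :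
    (Sum.elim (x - x') (y - y') : ι ⊕ κ → M) = Sum.elim x y - Sum.elim x' y' := by
  funext i; cases i <;> rfl

theorem elim_neg (x : ι → M) (y : κ → M) :
    (Sum.elim (-x) (-y) : ι ⊕ κ → M) = -Sum.elim x y := by
  funext i; cases i <;> rfl

theorem elim_zero : (Sum.elim (0 : ι → M) (0 : κ → M) : ι ⊕ κ → M) = 0 := by
  funext i; cases i <;> rfl

/-- evaluation of an integer row -/
noncomputable def ev (x : ι → M) : (ι →₀ ℤ) →+ M :=
  Finsupp.liftAddHom fun i => (zmultiplesHom M) (x i)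

theorem ev_apply (x : ι → M) (a : ι →₀ ℤ) : ev x a = a.sum fun i n => n • x i := by
  simp only [ev, Finsupp.liftAddHom_apply]
  rfl

theorem ev_single (x : ι → M) (i : ι) (n : ℤ) : ev x (Finsupp.single i n) = n • x i := by
  rw [ev_apply, Finsupp.sum_single_index]
  exact zero_smul _ _

theorem isZ_iff {h : (ι → M) →+ (κ → M)} :
    IsZ h ↔ ∃ A : κ → ι →₀ ℤ, ∀ x k, h x k = ev x (A k) := by
  simp only [IsZ, ev_apply]

theorem isZ_re (f : ι → κ) : IsZ (re f : (κ → M) →+ (ι → M)) :=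
  isZ_iff.2 ⟨fun i => Finsupp.single (f i) 1, fun x i => by rw [ev_single, one_smul]; rfl⟩

theorem isZ_pL : IsZ (pL : (ι ⊕ κ → M) →+ (ι → M)) := isZ_re _

theorem isZ_pR : IsZ (pR : (ι ⊕ κ → M) →+ (κ → M)) := isZ_re _

theorem isZ_iR : IsZ (iR : (κ → M) →+ (ι ⊕ κ → M)) :=
  isZ_iff.2 ⟨Sum.elim (fun _ => 0) fun k => Finsupp.single k 1, fun x i => by
    cases i with
    | inl i => simp [iR]
    | inr i => simp [iR, ev_single]⟩

theorem isZ_iL : IsZ (iL : (ι → M) →+ (ι ⊕ κ → M)) :=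
  isZ_iff.2 ⟨Sum.elim (fun k => Finsupp.single k 1) fun _ => 0, fun x i => by
    cases i with
    | inl i => simp [iL, ev_single]
    | inr i => simp [iL]⟩

theorem IsZ.add {h h' : (ι → M) →+ (κ → M)} (hz : IsZ h) (hz' : IsZ h') : IsZ (h + h') := by
  obtain ⟨A, hA⟩ := isZ_iff.1 hz
  obtain ⟨B, hB⟩ := isZ_iff.1 hz'
  exact isZ_iff.2 ⟨fun k => A k + B k, fun x k => by
    rw [map_add, ← hA, ← hB]; rfl⟩

theorem IsZ.neg {h : (ι → M) →+ (κ → M)} (hz : IsZ h) : IsZ (-h) := by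
  obtain ⟨A, hA⟩ := isZ_iff.1 hz
  exact isZ_iff.2 ⟨fun k => -A k, fun x k => by
    rw [map_neg, ← hA]; rfl⟩

theorem IsZ.sub {h h' : (ι → M) →+ (κ → M)} (hz : IsZ h) (hz' : IsZ h') : IsZ (h - h') := by
  rw [sub_eq_add_neg]
  exact hz.add hz'.neg

theorem isZ_zero : IsZ (0 : (ι → M) →+ (κ → M)) :=
  isZ_iff.2 ⟨fun _ => 0, fun x k => by simp⟩

theorem isZ_id : IsZ (AddMonoidHom.id (ι → M)) := isZ_re id

theorem IsZ.comp {h' : (κ → M) →+ (α → M)} {h : (ι → M) →+ (κ → M)} (hz' : IsZ h')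
    (hz : IsZ h) : IsZ (h'.comp h) := by
  obtain ⟨A, hA⟩ := isZ_iff.1 hz
  obtain ⟨B, hB⟩ := isZ_iff.1 hz'
  refine isZ_iff.2 ⟨fun k => (B k).sum fun j n => n • A j, fun x k => ?_⟩
  rw [map_finsuppSum, AddMonoidHom.comp_apply, hB, ev_apply]
  refine Finsupp.sum_congr fun j _ => ?_
  rw [map_zsmul, ← hA]

open Classical in
/-- the place `j` -/
noncomputable def sg (j : J) : (ι → M) →+ (J × ι → M) where
  toFun x := fun p => if p.1 = j then x p.2 else 0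
  map_zero' := by funext p; simp
  map_add' x y := by
    funext p
    by_cases h : p.1 = j <;> simp [h]

open Classical in
theorem sg_apply (j : J) (x : ι → M) (p : J × ι) :
    sg j x p = if p.1 = j then x p.2 else 0 := rfl

theorem sg_same (j : J) (x : ι → M) : (fun i => sg j x (j, i)) = x := by
  funext i
  simp [sg_apply]

theorem sg_ne {j k : J} (h : k ≠ j) (x : ι → M) : (fun i => sg j x (k, i)) = 0 := by
  funext i
  simp [sg_apply, h]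

theorem isZ_sg (j : J) : IsZ (sg j : (ι → M) →+ (J × ι → M)) := by
  classical
  refine isZ_iff.2 ⟨fun p => if p.1 = j then Finsupp.single p.2 1 else 0, fun x p => ?_⟩
  by_cases h : p.1 = j
  · simp [sg_apply, h, ev_single]
  · simp [sg_apply, h]

theorem sum_sg [Fintype J] (x : J × ι → M) : x = ∑ j, sg j (fun i => x (j, i)) := by
  classical
  funext p
  rw [Finset.sum_apply, Finset.sum_eq_single p.1]
  · simp [sg_apply]
  · intro j _ hj
    rw [sg_apply, if_neg (Ne.symm hj)]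
  · intro h
    exact absurd (Finset.mem_univ _) h

theorem mem_pr {s : AddSubgroup (ι → M)} {t : AddSubgroup (κ → M)} {z : ι ⊕ κ → M} :
    z ∈ pr s t ↔ pL z ∈ s ∧ pR z ∈ t := Iff.rfl

theorem elim_mem_pr {s : AddSubgroup (ι → M)} {t : AddSubgroup (κ → M)} {x : ι → M} {y : κ → M} :
    Sum.elim x y ∈ pr s t ↔ x ∈ s ∧ y ∈ t := Iff.rfl

theorem mem_pw {r : AddSubgroup (ι → M)} {x : J × ι → M} :
    x ∈ pw J r ↔ ∀ j, (fun i => x (j, i)) ∈ r := by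
  simp only [pw, AddSubgroup.mem_iInf]
  rfl

theorem pw_mono {r s : AddSubgroup (ι → M)} (h : r ≤ s) : pw J r ≤ pw J s := by
  intro x hx
  rw [mem_pw] at hx ⊢
  exact fun j => h (hx j)

theorem sg_mem_pw {r : AddSubgroup (ι → M)} {j : J} {x : ι → M} (hx : x ∈ r) : sg j x ∈ pw J r := by
  rw [mem_pw]
  intro k
  by_cases h : k = j
  · subst h
    rw [sg_same]
    exact hx
  · rw [sg_ne h]
    exact r.zero_mem

theorem pw_le_of_sg [Finite J] {r : AddSubgroup (ι → M)} {T : AddSubgroup (J × ι → M)}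
    (h : ∀ j, ∀ x ∈ r, sg j x ∈ T) : pw J r ≤ T := by
  intro x hx
  have := Fintype.ofFinite J
  rw [mem_pw] at hx
  rw [sum_sg x]
  exact T.sum_mem fun j _ => h j _ (hx j)

theorem mem_fib {G : AddSubgroup (ι ⊕ κ → M)} {v : κ → M} : v ∈ fib G ↔ Sum.elim (0 : ι → M) v ∈ G := Iff.rfl

theorem mem_img {G : AddSubgroup (ι ⊕ κ → M)} {s : AddSubgroup (ι → M)} {y : κ → M} :
    y ∈ img G s ↔ ∃ x ∈ s, Sum.elim x y ∈ G := by
  constructor
  · rintro ⟨z, ⟨hz, hz'⟩, rfl⟩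
    refine ⟨pL z, hz', ?_⟩
    rw [elim_pL_pR]
    exact hz
  · rintro ⟨x, hx, h⟩
    exact ⟨Sum.elim x y, ⟨h, hx⟩, rfl⟩

theorem mem_map_iR {b : AddSubgroup (κ → M)} {z : ι ⊕ κ → M} :
    z ∈ b.map iR ↔ pL z = 0 ∧ pR z ∈ b := by
  constructor
  · rintro ⟨v, hv, rfl⟩
    exact ⟨rfl, hv⟩
  · rintro ⟨h, h'⟩
    refine ⟨pR z, h', ?_⟩
    rw [iR_apply, ← h, elim_pL_pR]

/-- `(a, x) ∈ G ⊔ {0} × b` -/
theorem mem_sup_iR {G : AddSubgroup (ι ⊕ κ → M)} {b : AddSubgroup (κ → M)} {x : ι → M}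
    {y : κ → M} : Sum.elim x y ∈ G ⊔ b.map iR ↔ ∃ v ∈ b, Sum.elim x (y - v) ∈ G := by
  rw [AddSubgroup.mem_sup]
  constructor
  · rintro ⟨z, hz, w, ⟨v, hv, rfl⟩, h⟩
    refine ⟨v, hv, ?_⟩
    have : Sum.elim x (y - v) = z := by
      have h1 : (Sum.elim x (y - v) : ι ⊕ κ → M) = Sum.elim x y - Sum.elim (0 : ι → M) v := by
        rw [← elim_sub, sub_zero]
      rw [h1, ← h, iR_apply, add_sub_cancel_right]
    rw [this]
    exact hz
  · rintro ⟨v, hv, h⟩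
    refine ⟨_, h, iR v, ⟨v, hv, rfl⟩, ?_⟩
    rw [iR_apply, ← elim_add, add_zero, sub_add_cancel]

end maps

/-! ### finite index -/

section index

variable {G : Type} [AddCommGroup G]

theorem finite_between {c d : AddSubgroup G} (h : c.relIndex d ≠ 0) :
    {s : AddSubgroup G | c ≤ s ∧ s ≤ d}.Finite := by
  have hfin : (c.addSubgroupOf d).FiniteIndex := ⟨h⟩
  have : Finite (d ⧸ c.addSubgroupOf d) := AddSubgroup.finite_quotient_of_finiteIndex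
  let F : AddSubgroup G → Set (d ⧸ c.addSubgroupOf d) := fun s =>
    (QuotientAddGroup.mk) '' {x : d | (x : G) ∈ s}
  refine Set.Finite.of_finite_image (f := F) (Set.toFinite _) ?_
  rintro s ⟨hs, hs'⟩ t ⟨ht, ht'⟩ hst
  have key : ∀ s t : AddSubgroup G, c ≤ s → s ≤ d → c ≤ t → t ≤ d → F s = F t → s ≤ t := by
    intro s t hs hs' ht ht' hst x hx
    have h1 : (QuotientAddGroup.mk (⟨x, hs' hx⟩ : d) : d ⧸ c.addSubgroupOf d) ∈ F s :=
      ⟨_, hx, rfl⟩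
    rw [hst] at h1
    obtain ⟨y, hy, hxy⟩ := h1
    rw [QuotientAddGroup.eq] at hxy
    have h2 : -(y : G) + x ∈ c := hxy
    have h3 : x = y + (-(y : G) + x) := by abel
    rw [h3]
    exact t.add_mem hy (ht h2)
  exact le_antisymm (key s t hs hs' ht ht' hst) (key t s ht ht' hs hs' hst.symm)

theorem antitone_stab {c d : AddSubgroup G} (h : c.relIndex d ≠ 0) {s : ℕ → AddSubgroup G}
    (hs : Antitone s) (h1 : ∀ n, c ≤ s n) (h2 : ∀ n, s n ≤ d) : ∃ N, ∀ n, N ≤ n → s n = s N := by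
  have hfin := finite_between h
  have h3 : (Set.range s).Finite := hfin.subset (by rintro _ ⟨n, rfl⟩; exact ⟨h1 n, h2 n⟩)
  obtain ⟨m, hm, hmin⟩ := h3.exists_minimal (Set.range_nonempty s)
  obtain ⟨N, rfl⟩ := hm
  exact ⟨N, fun n hn => le_antisymm (hs hn) (hmin ⟨n, rfl⟩ (hs hn))⟩

/-- a maximal proper member between two subgroups -/
theorem exists_max {c d : AddSubgroup G} (h : c.relIndex d ≠ 0) (P : AddSubgroup G → Prop)
    {s : AddSubgroup G} (hP : P s) (hc : c ≤ s) (hd : s ≤ d) (hne : s ≠ d) :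
    ∃ m, P m ∧ s ≤ m ∧ m ≤ d ∧ m ≠ d ∧ ∀ t, P t → m ≤ t → t ≤ d → t = m ∨ t = d := by
  have hfin : {t | P t ∧ s ≤ t ∧ t ≤ d ∧ t ≠ d}.Finite :=
    (finite_between h).subset fun t ht => ⟨hc.trans ht.2.1, ht.2.2.1⟩
  obtain ⟨m, hm, hmax⟩ := hfin.exists_maximal ⟨s, hP, le_rfl, hd, hne⟩
  refine ⟨m, hm.1, hm.2.1, hm.2.2.1, hm.2.2.2, fun t ht hmt htd => ?_⟩
  by_cases htd' : t = d
  · exact Or.inr htd'
  · exact Or.inl (le_antisymm (hmax ⟨ht, hm.2.1.trans hmt, htd, htd'⟩ hmt) hmt)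

end index

namespace Abs

variable {M : Type} [AddCommGroup M] (S : Abs M) {ι κ α J : Type}

theorem isT_iff {q : AddSubgroup (ι → M)} :
    S.IsT q ↔ ∀ x, (∀ φ ∈ S.PP ι, q ≤ φ → x ∈ φ) → x ∈ q := by
  constructor
  · rintro ⟨P, hP, rfl⟩ x hx
    rw [AddSubgroup.mem_sInf]
    exact fun φ hφ => hx φ (hP hφ) (sInf_le hφ)
  · intro h
    refine ⟨{φ | φ ∈ S.PP ι ∧ q ≤ φ}, fun φ hφ => hφ.1, le_antisymm ?_ fun x hx => ?_⟩
    · exact le_sInf fun φ hφ => hφ.2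
    · rw [AddSubgroup.mem_sInf] at hx
      exact h x fun φ hφ hq => hx φ ⟨hφ, hq⟩

theorem isT_of_mem {φ : AddSubgroup (ι → M)} (h : φ ∈ S.PP ι) : S.IsT φ :=
  S.isT_iff.2 fun x hx => hx φ h le_rfl

theorem isT_top [Finite ι] : S.IsT (⊤ : AddSubgroup (ι → M)) := S.isT_of_mem (S.top_mem ι)

theorem isT_bot [Finite ι] : S.IsT (⊥ : AddSubgroup (ι → M)) := S.isT_of_mem (S.bot_mem ι)

theorem isT_sInf {Q : Set (AddSubgroup (ι → M))} (h : ∀ q ∈ Q, S.IsT q) : S.IsT (sInf Q) := by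
  rw [isT_iff]
  intro x hx
  rw [AddSubgroup.mem_sInf]
  intro q hq
  exact S.isT_iff.1 (h q hq) x fun φ hφ hqφ => hx φ hφ ((sInf_le hq).trans hqφ)

theorem isT_iInf {β : Sort*} {q : β → AddSubgroup (ι → M)} (h : ∀ i, S.IsT (q i)) :
    S.IsT (⨅ i, q i) := S.isT_sInf (by rintro _ ⟨i, rfl⟩; exact h i)

theorem isT_inf {p q : AddSubgroup (ι → M)} (hp : S.IsT p) (hq : S.IsT q) : S.IsT (p ⊓ q) := by
  rw [← sInf_pair]
  exact S.isT_sInf (by
    intro s hs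
    rcases hs with rfl | hs
    · exact hp
    · rw [Set.mem_singleton_iff] at hs
      subst hs
      exact hq)

theorem isT_comap [Finite ι] [Finite κ] {h : (ι → M) →+ (κ → M)} (hz : IsZ h)
    {q : AddSubgroup (κ → M)} (hq : S.IsT q) : S.IsT (q.comap h) := by
  rw [isT_iff]
  intro x hx
  rw [AddSubgroup.mem_comap]
  exact S.isT_iff.1 hq _ fun φ hφ hqφ =>
    hx (φ.comap h) (S.comap_mem ι κ h hz φ hφ) (AddSubgroup.comap_mono hqφ)

/-- a type is the intersection of a decreasing sequence of formulas -/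
theorem isT_seq [Finite ι] {q : AddSubgroup (ι → M)} (hq : S.IsT q) :
    ∃ φ : ℕ → AddSubgroup (ι → M), Antitone φ ∧ (∀ n, φ n ∈ S.PP ι) ∧ (∀ n, q ≤ φ n) ∧
      (∀ x, (∀ n, x ∈ φ n) → x ∈ q) ∧ ∀ ψ ∈ S.PP ι, q ≤ ψ → ∃ n, φ n ≤ ψ := by
  have hc : {φ | φ ∈ S.PP ι ∧ q ≤ φ}.Countable := (S.cnt ι).mono fun φ h => h.1
  obtain ⟨e, he⟩ := hc.exists_eq_range ⟨⊤, S.top_mem ι, le_top⟩
  have he1 : ∀ n, e n ∈ S.PP ι ∧ q ≤ e n := fun n => by
    have : e n ∈ Set.range e := ⟨n, rfl⟩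
    rw [← he] at this
    exact this
  let φ : ℕ → AddSubgroup (ι → M) := fun n => Nat.rec (e 0) (fun k p => p ⊓ e (k + 1)) n
  have hs : ∀ n, φ (n + 1) = φ n ⊓ e (n + 1) := fun n => rfl
  have h1 : ∀ n, φ n ∈ S.PP ι ∧ q ≤ φ n := by
    intro n
    induction n with
    | zero => exact he1 0
    | succ n ih =>
      rw [hs]
      exact ⟨S.inf_mem ι _ ih.1 _ (he1 _).1, le_inf ih.2 (he1 _).2⟩
  have h2 : ∀ n, φ n ≤ e n := by
    intro n
    cases n with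
    | zero => exact le_rfl
    | succ n => rw [hs]; exact inf_le_right
  have h3 : ∀ ψ ∈ S.PP ι, q ≤ ψ → ∃ n, φ n ≤ ψ := by
    intro ψ hψ hq'
    have : ψ ∈ {φ | φ ∈ S.PP ι ∧ q ≤ φ} := ⟨hψ, hq'⟩
    rw [he] at this
    obtain ⟨n, rfl⟩ := this
    exact ⟨n, h2 n⟩
  refine ⟨φ, antitone_nat_of_succ_le fun n => by rw [hs]; exact inf_le_left, fun n => (h1 n).1,
    fun n => (h1 n).2, fun x hx => ?_, h3⟩
  refine S.isT_iff.1 hq x fun ψ hψ hq' => ?_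
  obtain ⟨n, hn⟩ := h3 ψ hψ hq'
  exact hn (hx n)

/-- SAT for types: countably many types `t` and countably many excluded formulas `φ`. -/
theorem sat_t [Finite ι] [Finite κ] {β : Type} [Countable β] (a : ι → M)
    (t : ℕ → AddSubgroup (ι ⊕ κ → M)) (ht : ∀ n, S.IsT (t n))
    (φ : β → AddSubgroup (ι ⊕ κ → M)) (hφ : ∀ i, φ i ∈ S.PP (ι ⊕ κ))
    (h : ∀ (n : ℕ) (F : Finset β), ∃ x : κ → M, (∀ j < n, Sum.elim a x ∈ t j) ∧
      ∀ i ∈ F, Sum.elim a x ∉ φ i) :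
    ∃ x : κ → M, (∀ j, Sum.elim a x ∈ t j) ∧ ∀ i, Sum.elim a x ∉ φ i := by
  classical
  choose τ hanti hmem hle hinf hcof using fun n => S.isT_seq (ht n)
  obtain ⟨e, he⟩ := exists_surjective_nat ((ℕ × ℕ) ⊕ β)
  let Φ : (ℕ × ℕ) ⊕ β → AddSubgroup (ι ⊕ κ → M) := Sum.elim (fun p => τ p.1 p.2) φ
  let B : (ℕ × ℕ) ⊕ β → Prop := Sum.elim (fun _ => True) fun _ => False
  obtain ⟨x, hx⟩ := S.sat ι κ a (fun j => Φ (e j)) (fun j => B (e j)) (fun j => by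
    rcases e j with p | i
    · exact hmem p.1 p.2
    · exact hφ i) (fun n => by
    let F : Finset ((ℕ × ℕ) ⊕ β) := (Finset.range n).image e
    obtain ⟨x, hx, hx'⟩ := h ((F.toLeft.sup Prod.fst) + 1) F.toRight
    refine ⟨x, fun j hj => ?_⟩
    have hF : e j ∈ F := Finset.mem_image_of_mem _ (Finset.mem_range.2 hj)
    show Sum.elim a x ∈ Φ (e j) ↔ B (e j)
    rcases hej : e j with p | i
    · rw [hej] at hF
      have h1 : p ∈ F.toLeft := Finset.mem_toLeft.2 hF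
      have h2 : p.1 < F.toLeft.sup Prod.fst + 1 :=
        Nat.lt_succ_of_le (Finset.le_sup (f := Prod.fst) h1)
      exact ⟨fun _ => trivial, fun _ => hle p.1 p.2 (hx p.1 h2)⟩
    · rw [hej] at hF
      exact ⟨fun h => hx' i (Finset.mem_toRight.2 hF) h, fun h => h.elim⟩)
  refine ⟨x, fun j => hinf j _ fun m => ?_, fun i hi => ?_⟩
  · obtain ⟨k, hk⟩ := he (Sum.inl (j, m))
    have := hx k
    simp only [hk] at this
    exact this.2 trivial
  · obtain ⟨k, hk⟩ := he (Sum.inr i)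
    have := hx k
    simp only [hk] at this
    exact this.1 hi

/-- SAT for types, without excluded formulas -/
theorem sat_p [Finite ι] [Finite κ] (a : ι → M) (t : ℕ → AddSubgroup (ι ⊕ κ → M))
    (ht : ∀ n, S.IsT (t n)) (h : ∀ n, ∃ x : κ → M, ∀ j < n, Sum.elim a x ∈ t j) :
    ∃ x : κ → M, ∀ j, Sum.elim a x ∈ t j := by
  obtain ⟨x, hx, -⟩ := S.sat_t (β := Empty) a t ht (fun i => i.elim) (fun i => i.elim)
    fun n F => by
      obtain ⟨x, hx⟩ := h n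
      exact ⟨x, hx, fun i _ => i.elim⟩
  exact ⟨x, hx⟩

/-- SAT without parameters -/
theorem sat_0 [Finite κ] {β : Type} [Countable β] (t : ℕ → AddSubgroup (κ → M))
    (ht : ∀ n, S.IsT (t n)) (φ : β → AddSubgroup (κ → M)) (hφ : ∀ i, φ i ∈ S.PP κ)
    (h : ∀ (n : ℕ) (F : Finset β), ∃ x : κ → M, (∀ j < n, x ∈ t j) ∧ ∀ i ∈ F, x ∉ φ i) :
    ∃ x : κ → M, (∀ j, x ∈ t j) ∧ ∀ i, x ∉ φ i := by
  obtain ⟨x, hx, hx'⟩ := S.sat_t (ι := Empty) (κ := κ) (fun i => i.elim)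
    (fun n => (t n).comap pR) (fun n => S.isT_comap isZ_pR (ht n)) (fun i => (φ i).comap pR)
    (fun i => S.comap_mem _ _ _ isZ_pR _ (hφ i)) h
  exact ⟨x, hx, hx'⟩

theorem isT_map [Finite ι] [Finite κ] {h : (ι → M) →+ (κ → M)} (hz : IsZ h)
    {q : AddSubgroup (ι → M)} (hq : S.IsT q) : S.IsT (q.map h) := by
  rw [isT_iff]
  intro y hy
  obtain ⟨φ, hanti, hmem, hle, hinf, -⟩ := S.isT_seq hq
  let k : (κ ⊕ ι → M) →+ (κ → M) := h.comp pR - pL
  have hk : IsZ k := (hz.comp isZ_pR).sub isZ_pL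
  obtain ⟨x, hx⟩ := S.sat_p (ι := κ) (κ := ι) y
    (fun n => (φ n).comap pR ⊓ (⊥ : AddSubgroup (κ → M)).comap k)
    (fun n => S.isT_inf (S.isT_comap isZ_pR (S.isT_of_mem (hmem n))) (S.isT_comap hk S.isT_bot))
    (fun n => by
      obtain ⟨x, hx, hxy⟩ := hy ((φ n).map h) (S.map_mem _ _ h hz _ (hmem n))
        (AddSubgroup.map_mono (hle n))
      refine ⟨x, fun j hj => ⟨hanti hj.le hx, ?_⟩⟩
      show h x - y ∈ (⊥ : AddSubgroup (κ → M))
      rw [hxy, sub_self]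
      exact AddSubgroup.zero_mem _)
  refine ⟨x, hinf x fun n => (hx n).1, ?_⟩
  have h1 : h x - y ∈ (⊥ : AddSubgroup (κ → M)) := (hx 0).2
  rw [AddSubgroup.mem_bot, sub_eq_zero] at h1
  exact h1

theorem isT_pr [Finite ι] [Finite κ] {p : AddSubgroup (ι → M)} {q : AddSubgroup (κ → M)}
    (hp : S.IsT p) (hq : S.IsT q) : S.IsT (pr p q) :=
  S.isT_inf (S.isT_comap isZ_pL hp) (S.isT_comap isZ_pR hq)

theorem isT_pw [Finite ι] [Finite J] {r : AddSubgroup (ι → M)} (hr : S.IsT r) :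
    S.IsT (pw J r) := S.isT_iInf fun j => S.isT_comap (isZ_re _) hr

theorem isT_fib [Finite ι] [Finite κ] {G : AddSubgroup (ι ⊕ κ → M)} (hG : S.IsT G) :
    S.IsT (fib G) := S.isT_comap isZ_iR hG

theorem isT_img [Finite ι] [Finite κ] {G : AddSubgroup (ι ⊕ κ → M)} (hG : S.IsT G)
    {s : AddSubgroup (ι → M)} (hs : S.IsT s) : S.IsT (img G s) :=
  S.isT_map isZ_pR (S.isT_inf hG (S.isT_comap isZ_pL hs))

theorem pp_img_mem [Finite ι] [Finite κ] {G : AddSubgroup (ι ⊕ κ → M)} (hG : G ∈ S.PP (ι ⊕ κ))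
    {s : AddSubgroup (ι → M)} (hs : s ∈ S.PP ι) : img G s ∈ S.PP κ :=
  S.map_mem _ _ _ isZ_pR _ (S.inf_mem _ _ hG _ (S.comap_mem _ _ _ isZ_pL _ hs))

theorem sup_eq_map (p q : AddSubgroup (ι → M)) : p ⊔ q = (pr p q).map (pL + pR) := by
  apply le_antisymm
  · refine sup_le (fun x hx => ?_) fun x hx => ?_
    · exact ⟨Sum.elim x 0, ⟨hx, q.zero_mem⟩, add_zero x⟩
    · exact ⟨Sum.elim 0 x, ⟨p.zero_mem, hx⟩, zero_add x⟩
  · rintro _ ⟨z, ⟨h1, h2⟩, rfl⟩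
    exact AddSubgroup.add_mem_sup h1 h2

theorem isT_sup [Finite ι] {p q : AddSubgroup (ι → M)} (hp : S.IsT p) (hq : S.IsT q) :
    S.IsT (p ⊔ q) := by
  rw [sup_eq_map]
  exact S.isT_map (isZ_pL.add isZ_pR) (S.isT_pr hp hq)

theorem pp_sup_mem [Finite ι] {p q : AddSubgroup (ι → M)} (hp : p ∈ S.PP ι) (hq : q ∈ S.PP ι) :
    p ⊔ q ∈ S.PP ι := by
  rw [sup_eq_map]
  exact S.map_mem _ _ _ (isZ_pL.add isZ_pR) _ (S.inf_mem _ _ (S.comap_mem _ _ _ isZ_pL _ hp) _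
    (S.comap_mem _ _ _ isZ_pR _ hq))

theorem pp_pr_mem [Finite ι] [Finite κ] {p : AddSubgroup (ι → M)} {q : AddSubgroup (κ → M)}
    (hp : p ∈ S.PP ι) (hq : q ∈ S.PP κ) : pr p q ∈ S.PP (ι ⊕ κ) :=
  S.inf_mem _ _ (S.comap_mem _ _ _ isZ_pL _ hp) _ (S.comap_mem _ _ _ isZ_pR _ hq)

theorem pp_fib_mem [Finite ι] [Finite κ] {G : AddSubgroup (ι ⊕ κ → M)} (hG : G ∈ S.PP (ι ⊕ κ)) :
    fib G ∈ S.PP κ := S.comap_mem _ _ _ isZ_iR _ hG

theorem pp_iInf_mem [Finite ι] {β : Type} [Finite β] {φ : β → AddSubgroup (ι → M)}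
    (h : ∀ i, φ i ∈ S.PP ι) : ⨅ i, φ i ∈ S.PP ι := by
  have := Fintype.ofFinite β
  have key : ∀ s : Finset β, (⨅ i ∈ s, φ i) ∈ S.PP ι := by
    classical
    intro s
    induction s using Finset.induction_on with
    | empty =>
      have : (⨅ i ∈ (∅ : Finset β), φ i) = ⊤ := by simp
      rw [this]
      exact S.top_mem ι
    | insert a s ha ih =>
      rw [Finset.iInf_insert]
      exact S.inf_mem _ _ (h a) _ ih
  have h1 := key Finset.univ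
  simpa using h1

theorem pp_pw_mem [Finite ι] [Finite J] {φ : AddSubgroup (ι → M)} (h : φ ∈ S.PP ι) :
    pw J φ ∈ S.PP (J × ι) := S.pp_iInf_mem fun j => S.comap_mem _ _ _ (isZ_re _) _ h

/-! ### the type of a tuple -/

theorem isT_pp (a : ι → M) : S.IsT (S.pp a) := ⟨_, fun _ h => h.1, rfl⟩

theorem mem_pp (a : ι → M) : a ∈ S.pp a := by
  rw [pp, AddSubgroup.mem_sInf]
  exact fun φ h => h.2

theorem pp_le_iff {a : ι → M} {q : AddSubgroup (ι → M)} (hq : S.IsT q) : S.pp a ≤ q ↔ a ∈ q := by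
  constructor
  · exact fun h => h (S.mem_pp a)
  · intro h x hx
    refine S.isT_iff.1 hq x fun φ hφ hqφ => ?_
    rw [pp, AddSubgroup.mem_sInf] at hx
    exact hx φ ⟨hφ, hqφ h⟩

theorem pp_le_pp {a b : ι → M} : S.pp a ≤ S.pp b ↔ a ∈ S.pp b := S.pp_le_iff (S.isT_pp b)

theorem mem_pp_iff {a x : ι → M} : x ∈ S.pp a ↔ ∀ φ ∈ S.PP ι, a ∈ φ → x ∈ φ := by
  rw [pp, AddSubgroup.mem_sInf]
  exact ⟨fun h φ h1 h2 => h φ ⟨h1, h2⟩, fun h φ hφ => h φ hφ.1 hφ.2⟩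

theorem pp_map [Finite ι] [Finite κ] {h : (ι → M) →+ (κ → M)} (hz : IsZ h) (a : ι → M) :
    S.pp (h a) = (S.pp a).map h := by
  apply le_antisymm
  · exact (S.pp_le_iff (S.isT_map hz (S.isT_pp a))).2 ⟨a, S.mem_pp a, rfl⟩
  · rw [AddSubgroup.map_le_iff_le_comap]
    exact (S.pp_le_iff (S.isT_comap hz (S.isT_pp _))).2 (S.mem_pp (h a))

theorem pp_pL [Finite ι] [Finite κ] (a : ι → M) (c : κ → M) :
    (S.pp (Sum.elim a c)).map pL = S.pp a := (S.pp_map isZ_pL (Sum.elim a c)).symm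

theorem pp_pR [Finite ι] [Finite κ] (a : ι → M) (c : κ → M) :
    (S.pp (Sum.elim a c)).map pR = S.pp c := (S.pp_map isZ_pR (Sum.elim a c)).symm

theorem exists_right [Finite ι] [Finite κ] {a : ι → M} {c : κ → M} {x : ι → M}
    (hx : x ∈ S.pp a) : ∃ y, Sum.elim x y ∈ S.pp (Sum.elim a c) := by
  rw [← S.pp_pL a c] at hx
  obtain ⟨z, hz, rfl⟩ := hx
  exact ⟨pR z, by rw [elim_pL_pR]; exact hz⟩

theorem exists_left [Finite ι] [Finite κ] {a : ι → M} {c : κ → M} {y : κ → M}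
    (hy : y ∈ S.pp c) : ∃ x, Sum.elim x y ∈ S.pp (Sum.elim a c) := by
  rw [← S.pp_pR a c] at hy
  obtain ⟨z, hz, rfl⟩ := hy
  exact ⟨pL z, by rw [elim_pL_pR]; exact hz⟩

theorem left_mem [Finite ι] [Finite κ] {a : ι → M} {c : κ → M} {x : ι → M} {y : κ → M}
    (h : Sum.elim x y ∈ S.pp (Sum.elim a c)) : x ∈ S.pp a := by
  rw [← S.pp_pL a c]
  exact ⟨_, h, rfl⟩

theorem right_mem [Finite ι] [Finite κ] {a : ι → M} {c : κ → M} {x : ι → M} {y : κ → M}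
    (h : Sum.elim x y ∈ S.pp (Sum.elim a c)) : y ∈ S.pp c := by
  rw [← S.pp_pR a c]
  exact ⟨_, h, rfl⟩

/-! ### automorphisms -/

theorem inv_t [Finite ι] {q : AddSubgroup (ι → M)} (hq : S.IsT q) {γ : M ≃+ M} (hγ : γ ∈ S.Gam)
    {x : ι → M} (hx : x ∈ q) : (fun i => γ (x i)) ∈ q := by
  refine S.isT_iff.1 hq _ fun φ hφ hqφ => S.inv ι φ hφ γ hγ x (hqφ hx)

theorem inv_iff [Finite ι] {q : AddSubgroup (ι → M)} (hq : S.IsT q) {γ : M ≃+ M} (hγ : γ ∈ S.Gam)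
    {x : ι → M} : (fun i => γ (x i)) ∈ q ↔ x ∈ q := by
  refine ⟨fun h => ?_, fun h => S.inv_t hq hγ h⟩
  have := S.inv_t hq (S.g_symm γ hγ) h
  simpa using this

theorem pp_act [Finite ι] {γ : M ≃+ M} (hγ : γ ∈ S.Gam) (x : ι → M) :
    S.pp (fun i => γ (x i)) = S.pp x := by
  apply le_antisymm
  · exact (S.pp_le_iff (S.isT_pp x)).2 (S.inv_t (S.isT_pp x) hγ (S.mem_pp x))
  · exact (S.pp_le_iff (S.isT_pp _)).2 ((S.inv_iff (S.isT_pp _) hγ).1 (S.mem_pp _))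

theorem hom_pp [Finite ι] {a b : ι → M} (h : S.pp a = S.pp b) :
    ∃ γ ∈ S.Gam, ∀ i, γ (a i) = b i := by
  refine S.hom ι a b fun φ hφ => ?_
  rw [← S.pp_le_iff (S.isT_of_mem hφ), h, S.pp_le_iff (S.isT_of_mem hφ)]

/-! ### types of finite index -/

theorem FI.ty {s q : AddSubgroup (ι → M)} (h : S.FI s q) : S.IsT s := h.1

theorem FI.le {s q : AddSubgroup (ι → M)} (h : S.FI s q) : s ≤ q := h.2.1

theorem FI.ne {s q : AddSubgroup (ι → M)} (h : S.FI s q) : s.relIndex q ≠ 0 := h.2.2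

theorem FI.refl {q : AddSubgroup (ι → M)} (h : S.IsT q) : S.FI q q :=
  ⟨h, le_rfl, by rw [AddSubgroup.relIndex_self]; exact one_ne_zero⟩

theorem FI.trans {p s q : AddSubgroup (ι → M)} (h : S.FI p s) (h' : S.FI s q) : S.FI p q :=
  ⟨h.1, h.2.1.trans h'.2.1, AddSubgroup.relIndex_ne_zero_trans h.2.2 h'.2.2⟩

theorem FI.mid {p s q : AddSubgroup (ι → M)} (h : S.FI p q) (hs : S.IsT s) (h1 : p ≤ s)
    (h2 : s ≤ q) : S.FI s q :=
  ⟨hs, h2, fun h0 => h.2.2 (AddSubgroup.relIndex_eq_zero_of_le_left h1 h0)⟩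

theorem FI.sub {p s q : AddSubgroup (ι → M)} (h : S.FI p q) (h1 : p ≤ s) (h2 : s ≤ q) :
    S.FI p s :=
  ⟨h.1, h1, fun h0 => h.2.2 (AddSubgroup.relIndex_eq_zero_of_le_right h2 h0)⟩

theorem FI.inf {p s q : AddSubgroup (ι → M)} (h : S.FI p q) (h' : S.FI s q) : S.FI (p ⊓ s) q :=
  ⟨S.isT_inf h.1 h'.1, inf_le_left.trans h.2.1, AddSubgroup.relIndex_inf_ne_zero h.2.2 h'.2.2⟩

theorem FI.inf_t {p q t : AddSubgroup (ι → M)} (h : S.FI p q) (ht : S.IsT t) :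
    S.FI (p ⊓ t) (q ⊓ t) :=
  ⟨S.isT_inf h.1 ht, inf_le_inf_right t h.2.1, AddSubgroup.relIndex_inter_ne_zero h.2.2 t⟩

theorem con_le {q s : AddSubgroup (ι → M)} (h : S.FI s q) : S.con q ≤ s := sInf_le h

theorem isT_con {q : AddSubgroup (ι → M)} : S.IsT (S.con q) := S.isT_sInf fun s hs => hs.1

theorem relIndex_pw [Finite J] {s q : AddSubgroup (ι → M)} (h : s.relIndex q ≠ 0) :
    (pw J s).relIndex (pw J q) ≠ 0 := by
  unfold pw
  refine AddSubgroup.relIndex_iInf_ne_zero fun j => ?_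
  refine fun h0 => AddSubgroup.relIndex_comap_ne_zero (re fun i => (j, i)) h ?_
  exact AddSubgroup.relIndex_eq_zero_of_le_right (iInf_le _ j) h0

theorem FI.pw [Finite ι] [Finite J] {s q : AddSubgroup (ι → M)} (h : S.FI s q) :
    S.FI (pw J s) (pw J q) := ⟨S.isT_pw h.1, pw_mono h.2.1, relIndex_pw h.2.2⟩

end Abs

end Pool.Agent.VMA
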