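import Pool.Agent.VMA.St
import Pool.Agent.VMA.Api

/-!
# VMA: [CPT], compactness for types and finitely many cosets of formulas
-/

set_option autoImplicit false
set_option linter.unusedSectionVars false
set_option linter.unusedVariables false

namespace Pool.Agent.VMA

open Set

/-- [CPT] -/
theorem thm_CPT : St_CPT := by
  intro M _ S ι _ p hanti hp k c ψ hψ hcov
  by_contra hcon
  have hcon' : ∀ n, ∃ x ∈ p n, ∀ i, x - c i ∉ ψ i := by
    intro n
    by_contra hn
    apply hcon
    refine ⟨n, fun x hx => ?_⟩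
    by_contra hx'
    exact hn ⟨x, hx, fun i hi => hx' ⟨i, hi⟩⟩
  let h : Fin k → (((Fin k × ι) ⊕ ι → M) →+ (ι → M)) := fun i =>
    pR - (re fun j => (i, j)).comp pL
  have hz : ∀ i, IsZ (h i) := fun i => isZ_pR.sub ((isZ_re _).comp isZ_pL)
  have hval : ∀ (i : Fin k) (x : ι → M),
      h i (Sum.elim (fun q : Fin k × ι => c q.1 q.2) x) = x - c i := fun i x => rfl
  obtain ⟨x, hx, hx'⟩ := S.sat_t (ι := Fin k × ι) (κ := ι) (β := Fin k)
    (fun q => c q.1 q.2) (fun n => (p n).comap pR) (fun n => S.isT_comap isZ_pR (hp n))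
    (fun i => (ψ i).comap (h i)) (fun i => S.comap_mem _ _ _ (hz i) _ (hψ i))
    (fun n F => by
      obtain ⟨x, hx, hxn⟩ := hcon' n
      refine ⟨x, fun j hj => ?_, fun i _ => ?_⟩
      · show x ∈ p j
        exact hanti hj.le hx
      · intro hi
        rw [AddSubgroup.mem_comap, hval] at hi
        exact hxn i hi)
  obtain ⟨i, hi⟩ := hcov x fun n => hx n
  refine hx' i ?_
  rw [AddSubgroup.mem_comap, hval]
  exact hi

end Pool.Agent.VMA
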