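import Pool.Agent.VMA.AFD
import Pool.Agent.VMA.CPT

/-!
# VMA: affine structures given by their formulas (helper73)

`AF ι` are the nonempty affine formulas (subsets of `ι → M` which are 0-definable cosets). The lemma
`AffF.aff` gives the structure `Aff S` of `AFD.lean`.
-/

set_option autoImplicit false
set_option linter.unusedSectionVars false
set_option linter.unusedVariables false

namespace Pool.Agent.VMA

open Set

/-- affine structures over `S`, given by the nonempty affine formulas -/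
structure AffF {M : Type} [AddCommGroup M] (S : Abs M) where
  /-- the nonempty affine formulas -/
  AF : (ι : Type) → Set (Set (ι → M))
  dir : ∀ (ι : Type) [Finite ι], ∀ F ∈ AF ι, ∀ w ∈ F, ∃ φ ∈ S.PP ι, ∀ x, x ∈ F ↔ x - w ∈ φ
  hom : ∀ (ι : Type) [Finite ι], ∀ φ ∈ S.PP ι, (φ : Set (ι → M)) ∈ AF ι
  inf : ∀ (ι : Type) [Finite ι], ∀ F ∈ AF ι, ∀ G ∈ AF ι, (F ∩ G).Nonempty → F ∩ G ∈ AF ι
  comap : ∀ (ι κ : Type) [Finite ι] [Finite κ] (h : (ι → M) →+ (κ → M)), IsZ h →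
    ∀ F ∈ AF κ, (h ⁻¹' F).Nonempty → h ⁻¹' F ∈ AF ι
  map : ∀ (ι κ : Type) [Finite ι] [Finite κ] (h : (ι → M) →+ (κ → M)), IsZ h →
    ∀ F ∈ AF ι, h '' F ∈ AF κ
  sat : ∀ (ι κ : Type) [Finite ι] [Finite κ] (a : ι → M) (F : ℕ → Set (ι ⊕ κ → M))
    (b : ℕ → Prop), (∀ j, F j ∈ AF (ι ⊕ κ)) →
    (∀ n, ∃ x : κ → M, ∀ j < n, (Sum.elim a x ∈ F j ↔ b j)) →
    ∃ x : κ → M, ∀ j, (Sum.elim a x ∈ F j ↔ b j)

namespace AffF

variable {M : Type} [AddCommGroup M] {S : Abs M} (T : AffF S) {ι κ : Type}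

/-- the direction of the affine type of `a` -/
def D (a : ι → M) : AddSubgroup (ι → M) :=
  sInf {φ | φ ∈ S.PP ι ∧ {y | y - a ∈ φ} ∈ T.AF ι}

theorem mem_D {a v : ι → M} :
    v ∈ T.D a ↔ ∀ φ ∈ S.PP ι, {y | y - a ∈ φ} ∈ T.AF ι → v ∈ φ := by
  unfold D
  rw [AddSubgroup.mem_sInf]
  exact ⟨fun h φ h1 h2 => h φ ⟨h1, h2⟩, fun h φ hφ => h φ hφ.1 hφ.2⟩

/-- the affine type of `a` is the coset `a + D a` -/
theorem mem_D_iff [Finite ι] {a x : ι → M} :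
    x - a ∈ T.D a ↔ ∀ F ∈ T.AF ι, a ∈ F → x ∈ F := by
  rw [mem_D]
  constructor
  · intro h F hF ha
    obtain ⟨φ, hφ, hx⟩ := T.dir ι F hF a ha
    have h1 : {y | y - a ∈ φ} = F := by
      ext y
      exact (hx y).symm
    rw [hx]
    exact h φ hφ (by rw [h1]; exact hF)
  · intro h φ hφ hF
    exact h _ hF (by show a - a ∈ φ; rw [sub_self]; exact φ.zero_mem)

theorem isT_D (a : ι → M) : S.IsT (T.D a) := ⟨_, fun _ h => h.1, rfl⟩

theorem D_le [Finite ι] {x : ι → M} {φ : AddSubgroup (ι → M)} (hφ : φ ∈ S.PP ι) (hx : x ∈ φ) :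
    T.D x ≤ φ := by
  intro v hv
  refine T.mem_D.1 hv φ hφ ?_
  have h1 : {y | y - x ∈ φ} = (φ : Set (ι → M)) := by
    ext y
    exact ⟨fun h => by
      have h2 := φ.add_mem h hx
      rwa [sub_add_cancel] at h2, fun h => φ.sub_mem h hx⟩
  rw [h1]
  exact T.hom ι φ hφ

/-- a decreasing sequence of formulas -/
theorem D_seq [Finite ι] (x : ι → M) : ∃ τ : ℕ → AddSubgroup (ι → M), Antitone τ ∧
    (∀ n, τ n ∈ S.PP ι ∧ {y | y - x ∈ τ n} ∈ T.AF ι) ∧ ⨅ n, τ n = T.D x := by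
  classical
  have hc : {φ | φ ∈ S.PP ι ∧ {y | y - x ∈ φ} ∈ T.AF ι}.Countable :=
    (S.cnt ι).mono fun φ h => h.1
  have hne : {φ | φ ∈ S.PP ι ∧ {y | y - x ∈ φ} ∈ T.AF ι}.Nonempty := by
    refine ⟨⊤, S.top_mem ι, ?_⟩
    have h1 : {y | y - x ∈ (⊤ : AddSubgroup (ι → M))} =
        ((⊤ : AddSubgroup (ι → M)) : Set (ι → M)) := by
      ext y
      exact ⟨fun _ => trivial, fun _ => trivial⟩
    rw [h1]
    exact T.hom ι _ (S.top_mem ι)
  obtain ⟨σ, hσ⟩ := hc.exists_eq_range hne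
  have hσm : ∀ n, σ n ∈ S.PP ι ∧ {y | y - x ∈ σ n} ∈ T.AF ι := fun n => by
    have h1 : σ n ∈ {φ | φ ∈ S.PP ι ∧ {y | y - x ∈ φ} ∈ T.AF ι} := by
      rw [hσ]
      exact ⟨n, rfl⟩
    exact h1
  let τ : ℕ → AddSubgroup (ι → M) := fun n => Nat.rec (σ 0) (fun k s => s ⊓ σ (k + 1)) n
  have hτs : ∀ n, τ (n + 1) = τ n ⊓ σ (n + 1) := fun n => rfl
  have hτm : ∀ n, τ n ∈ S.PP ι ∧ {y | y - x ∈ τ n} ∈ T.AF ι := by
    intro n
    induction n with
    | zero => exact hσm 0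
    | succ n ih =>
      rw [hτs]
      refine ⟨S.inf_mem ι _ ih.1 _ (hσm (n + 1)).1, ?_⟩
      have h1 : {y | y - x ∈ τ n ⊓ σ (n + 1)} = {y | y - x ∈ τ n} ∩ {y | y - x ∈ σ (n + 1)} := by
        ext y
        exact Iff.rfl
      rw [h1]
      refine T.inf ι _ ih.2 _ (hσm (n + 1)).2 ⟨x, ?_, ?_⟩
      · show x - x ∈ τ n
        rw [sub_self]
        exact (τ n).zero_mem
      · show x - x ∈ σ (n + 1)
        rw [sub_self]
        exact (σ (n + 1)).zero_mem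
  have hanti : Antitone τ := antitone_nat_of_succ_le fun n => by
    rw [hτs]
    exact inf_le_left
  refine ⟨τ, hanti, hτm, le_antisymm ?_ ?_⟩
  · refine le_sInf fun φ hφ => ?_
    rw [hσ] at hφ
    obtain ⟨n, rfl⟩ := hφ
    refine (iInf_le τ n).trans ?_
    cases n with
    | zero => exact le_rfl
    | succ n =>
      rw [hτs]
      exact inf_le_right
  · exact le_iInf fun n => sInf_le (hτm n)

theorem D_map [Finite ι] [Finite κ] (h : (ι → M) →+ (κ → M)) (hz : IsZ h) (x : ι → M) :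
    T.D (h x) = (T.D x).map h := by
  apply le_antisymm
  · intro v hv
    obtain ⟨τ, hanti, hτ, hinf⟩ := T.D_seq x
    have hmem : ∀ n, v ∈ (τ n).map h := by
      intro n
      refine T.mem_D.1 hv _ (S.map_mem _ _ h hz _ (hτ n).1) ?_
      have h1 : {y | y - h x ∈ (τ n).map h} = h '' {y | y - x ∈ τ n} := by
        ext y
        constructor
        · rintro ⟨u, hu, huy⟩
          refine ⟨x + u, ?_, ?_⟩
          · show x + u - x ∈ τ n
            rw [add_sub_cancel_left]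
            exact hu
          · rw [map_add, huy]
            exact add_sub_cancel _ _
        · rintro ⟨u, hu, rfl⟩
          exact ⟨u - x, hu, by rw [map_sub]⟩
      rw [h1]
      exact T.map _ _ h hz _ (hτ n).2
    have hz2 : IsZ (h.comp (pR : (κ ⊕ ι → M) →+ (ι → M)) - pL) :=
      (hz.comp isZ_pR).sub isZ_pL
    obtain ⟨u, hu⟩ := S.sat_p (ι := κ) (κ := ι) v
      (fun n => (τ n).comap pR ⊓ (⊥ : AddSubgroup (κ → M)).comap
        (h.comp (pR : (κ ⊕ ι → M) →+ (ι → M)) - pL))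
      (fun n => S.isT_inf (S.isT_comap isZ_pR (S.isT_of_mem (hτ n).1))
        (S.isT_comap hz2 S.isT_bot))
      (fun n => by
        obtain ⟨u, hu, huv⟩ := hmem n
        refine ⟨u, fun j hj => ⟨hanti hj.le hu, ?_⟩⟩
        show h u - v ∈ (⊥ : AddSubgroup (κ → M))
        rw [huv, sub_self]
        exact AddSubgroup.zero_mem _)
    refine ⟨u, ?_, ?_⟩
    · rw [← hinf]
      exact AddSubgroup.mem_iInf.2 fun n => (hu n).1
    · have h1 : h u - v ∈ (⊥ : AddSubgroup (κ → M)) := (hu 0).2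
      exact sub_eq_zero.1 (AddSubgroup.mem_bot.1 h1)
  · rintro _ ⟨u, hu, rfl⟩
    refine T.mem_D.2 fun ψ hψ hF => ?_
    refine T.mem_D.1 hu (ψ.comap h) (S.comap_mem _ _ h hz _ hψ) ?_
    have h1 : {y | y - x ∈ ψ.comap h} = h ⁻¹' {y | y - h x ∈ ψ} := by
      ext y
      show h (y - x) ∈ ψ ↔ h y - h x ∈ ψ
      rw [map_sub]
    rw [h1]
    refine T.comap _ _ h hz _ hF ⟨x, ?_⟩
    show h x - h x ∈ ψ
    rw [sub_self]
    exact ψ.zero_mem

/-- a coset which is invariant over `a` is given by an affine formula over `a` -/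
theorem coset_def [Finite ι] [Finite κ] (a : ι → M) (w : κ → M) (φ : AddSubgroup (κ → M))
    (hφ : φ ∈ S.PP κ) (h : fib (T.D (Sum.elim a w)) ≤ φ) :
    ∃ F ∈ T.AF (ι ⊕ κ), ∀ x : κ → M, Sum.elim a x ∈ F ↔ x - w ∈ φ := by
  obtain ⟨τ, hanti, hτ, hinf⟩ := T.D_seq (Sum.elim a w)
  obtain ⟨n, hn⟩ := thm_CPT M S κ (fun n => fib (τ n)) (fun i j hij v hv => hanti hij hv)
    (fun n => S.isT_fib (S.isT_of_mem (hτ n).1)) 1 (fun _ => 0) (fun _ => φ) (fun _ => hφ)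
    (fun x hx => ⟨0, by
      rw [sub_zero]
      refine h ?_
      rw [mem_fib, ← hinf]
      exact AddSubgroup.mem_iInf.2 fun n => mem_fib.1 (hx n)⟩)
  have hn' : fib (τ n) ≤ φ := by
    intro v hv
    obtain ⟨i, hi⟩ := hn v hv
    rwa [sub_zero] at hi
  -- `(x', v, y)` with `(x', v) ∈ F`, `y ∈ φ`
  let G1 : Set ((ι ⊕ κ) ⊕ κ → M) := (pL : ((ι ⊕ κ) ⊕ κ → M) →+ (ι ⊕ κ → M)) ⁻¹'
    {y | y - Sum.elim a w ∈ τ n}
  let G2 : Set ((ι ⊕ κ) ⊕ κ → M) := (pR : ((ι ⊕ κ) ⊕ κ → M) →+ (κ → M)) ⁻¹' (φ : Set (κ → M))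
  have hw1 : Sum.elim (Sum.elim a w) (0 : κ → M) ∈ G1 := by
    show Sum.elim a w - Sum.elim a w ∈ τ n
    rw [sub_self]
    exact (τ n).zero_mem
  have hw2 : Sum.elim (Sum.elim a w) (0 : κ → M) ∈ G2 := φ.zero_mem
  have hG1 : G1 ∈ T.AF ((ι ⊕ κ) ⊕ κ) := T.comap _ _ pL isZ_pL _ (hτ n).2 ⟨_, hw1⟩
  have hG2 : G2 ∈ T.AF ((ι ⊕ κ) ⊕ κ) := T.comap _ _ pR isZ_pR _ (T.hom _ _ hφ) ⟨_, hw2⟩
  have hG : G1 ∩ G2 ∈ T.AF ((ι ⊕ κ) ⊕ κ) := T.inf _ _ hG1 _ hG2 ⟨_, hw1, hw2⟩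
  let k : ((ι ⊕ κ) ⊕ κ → M) →+ (ι ⊕ κ → M) := pL + iR.comp pR
  have hk : IsZ k := isZ_pL.add (isZ_iR.comp isZ_pR)
  have hk1 : ∀ (u : ι → M) (v y : κ → M), k (Sum.elim (Sum.elim u v) y) = Sum.elim u (v + y) := by
    intro u v y
    show Sum.elim u v + iR y = _
    rw [iR_apply, ← elim_add, add_zero]
  refine ⟨k '' (G1 ∩ G2), T.map _ _ k hk _ hG, fun x => ⟨?_, fun hx => ?_⟩⟩
  · rintro ⟨z, ⟨hz1, hz2⟩, hz⟩
    rw [← elim_pL_pR z, ← elim_pL_pR (pL z), hk1] at hz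
    have h1 : pL (pL z) = a := by
      have := congrArg pL hz
      rwa [pL_elim, pL_elim] at this
    have h2 : pR (pL z) + pR z = x := by
      have := congrArg pR hz
      rwa [pR_elim, pR_elim] at this
    have h3 : pL z - Sum.elim a w ∈ τ n := hz1
    rw [← elim_pL_pR (pL z), h1, ← elim_sub, sub_self] at h3
    have h4 : pR (pL z) - w ∈ φ := hn' (mem_fib.2 h3)
    have h5 : pR z ∈ φ := hz2
    have h6 : x - w = (pR (pL z) - w) + pR z := by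
      rw [← h2]
      abel
    rw [h6]
    exact φ.add_mem h4 h5
  · refine ⟨Sum.elim (Sum.elim a w) (x - w), ⟨?_, hx⟩, ?_⟩
    · show Sum.elim a w - Sum.elim a w ∈ τ n
      rw [sub_self]
      exact (τ n).zero_mem
    · rw [hk1, add_sub_cancel]

/-- the structure of `AFD.lean` -/
def aff : Aff S where
  D := fun x => T.D x
  isT := fun ι _ x => T.isT_D x
  map := fun ι κ _ _ h hz x => T.D_map h hz x
  le := fun ι _ x φ hφ hx => T.D_le hφ hx
  sat := by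
    intro ι κ _ _ a w φ b hφ h
    choose F hF hFx using fun j => T.coset_def a (w j) (φ j) (hφ j).1 (hφ j).2
    obtain ⟨x, hx⟩ := T.sat ι κ a F b hF fun n => by
      obtain ⟨x, hx⟩ := h n
      exact ⟨x, fun j hj => (hFx j x).trans (hx j hj)⟩
    exact ⟨x, fun j => (hFx j x).symm.trans (hx j)⟩

theorem aff_D (x : ι → M) : T.aff.D x = T.D x := rfl

/-- affinely isolated tuples -/
theorem iso_of [Finite ι] [Finite κ] {d : ι → M} {c : κ → M} {Θ : Set (ι ⊕ κ → M)}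
    (hΘ : Θ ∈ T.AF (ι ⊕ κ)) (hdc : Sum.elim d c ∈ Θ)
    (h : ∀ (x : ι → M) (y : κ → M), (∀ F ∈ T.AF ι, d ∈ F → x ∈ F) → Sum.elim x y ∈ Θ →
      ∀ F ∈ T.AF (ι ⊕ κ), Sum.elim d c ∈ F → Sum.elim x y ∈ F) : T.aff.Iso d c := by
  obtain ⟨φ, hφ, hx⟩ := T.dir _ _ hΘ _ hdc
  refine ⟨φ, hφ, le_antisymm (le_inf ?_ ?_) ?_⟩
  · intro z hz
    rw [← elim_pL_pR z] at hz
    exact T.aff.left_mem hz
  · intro z hz
    refine T.mem_D.1 hz φ hφ ?_
    have h1 : {y | y - Sum.elim d c ∈ φ} = Θ := by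
      ext y
      exact (hx y).symm
    rw [h1]
    exact hΘ
  · rintro z ⟨hz1, hz2⟩
    have hz1' : pL z ∈ T.D d := hz1
    have h1 : (Sum.elim d c + z) - Sum.elim d c ∈ T.D (Sum.elim d c) := by
      rw [T.mem_D_iff]
      intro F hF hdF
      have h2 : Sum.elim d c + z = Sum.elim (d + pL z) (c + pR z) := by
        rw [elim_add, elim_pL_pR]
      rw [h2]
      refine h _ _ ?_ ?_ F hF hdF
      · rw [← T.mem_D_iff, add_sub_cancel_left]
        exact hz1'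
      · rw [← h2, hx, add_sub_cancel_left]
        exact hz2
    rwa [add_sub_cancel_left] at h1

end AffF

end Pool.Agent.VMA
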