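import Pool.Agent.VMA.St
import Pool.Agent.VMA.Api

/-!
# VMA, module ACC: ascending chain condition for types above the connected component
-/

set_option autoImplicit false

namespace Pool.Agent.VMA

open Set

/-- [ACC] -/
theorem thm_ACC (h1 : St_CNC) (h2 : St_TOP) (h3 : St_NAK) : St_ACC := by
  intro M _ S ι _ q hq
  have key : ∀ s : ℕ → AddSubgroup (ι → M), Monotone s →
      (∀ n, S.IsT (s n) ∧ S.con q ≤ s n ∧ s n ≤ q) → ∃ n, ∀ m, n ≤ m → s m = s n := by
    intro s hs hsq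
    set r : AddSubgroup (ι → M) := sInf {t | S.IsT t ∧ ∀ n, s n ≤ t} with hr
    have hrT : S.IsT r := S.isT_sInf fun t ht => ht.1
    have hsr : ∀ n, s n ≤ r := fun n => le_sInf fun t ht => ht.2 n
    have hrq : r ≤ q := sInf_le ⟨hq, fun n => (hsq n).2.2⟩
    have hqr : S.con q ≤ r := (hsq 0).2.1.trans (hsr 0)
    have hcon : S.con r = S.con q := (h1 M S ι q hq).2.1 r hrT hqr hrq
    have hfin := h2 M S ι r hrT
    have hex : ∀ m, S.IsMx m r → ∃ i, ¬ s i ≤ m := by
      intro m hm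
      by_contra hcon'
      have h4 : r ≤ m := sInf_le ⟨hm.1.1, fun n => not_not.1 fun h => hcon' ⟨n, h⟩⟩
      exact hm.2.1 (le_antisymm hm.1.2.1 h4)
    choose! f hf using hex
    obtain ⟨N, hN⟩ := (hfin.image f).bddAbove
    have hNr : s N = r := by
      by_contra hne
      obtain ⟨m, hm, hsm⟩ := h3 M S ι r (s N) hrT (hsq N).1 (by rw [hcon]; exact (hsq N).2.1)
        (hsr N) hne
      exact hf m hm ((hs (hN ⟨m, hm, rfl⟩)).trans hsm)
    exact ⟨N, fun m hm => le_antisymm ((hsr m).trans hNr.ge) (hs hm)⟩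
  refine ⟨key, fun D hD hDq hdir => ?_⟩
  by_contra hcon
  push Not at hcon
  have hstep : ∀ u : D, ∃ w : D, (u : AddSubgroup (ι → M)) < w := by
    rintro ⟨u, hu⟩
    obtain ⟨s, hs, hsu⟩ := hcon u hu
    obtain ⟨w, hw, huw, hsw⟩ := hdir u hu s hs
    refine ⟨⟨w, hw⟩, lt_of_le_of_ne huw fun h => hsu ?_⟩
    have h4 : u = w := h
    rw [h4]
    exact hsw
  choose f hf using hstep
  obtain ⟨u0, hu0⟩ := hD
  let t : ℕ → D := fun n => f^[n] ⟨u0, hu0⟩
  have ht : ∀ n, (t n : AddSubgroup (ι → M)) < t (n + 1) := by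
    intro n
    show (t n : AddSubgroup (ι → M)) < (f^[n + 1] ⟨u0, hu0⟩ : D)
    rw [Function.iterate_succ_apply']
    exact hf _
  obtain ⟨n, hn⟩ := key (fun n => (t n : AddSubgroup (ι → M)))
    (monotone_nat_of_le_succ fun n => (ht n).le) fun n => hDq _ (t n).2
  exact absurd (hn (n + 1) (Nat.le_succ n)) (ht n).ne'

end Pool.Agent.VMA
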