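import Pool.Agent.VMA.St
import Pool.Agent.VMA.Api

/-!
# VMA: CHN
-/

set_option autoImplicit false

namespace Pool.Agent.VMA

open Set

/-- [CHN] a cofinal chain of types of finite index. -/
theorem thm_CHN (h1 : St_FIF) : St_CHN := by
  intro M _ S ι _ q hq
  have hc : {s | S.FI s q}.Countable := by
    refine ((S.cnt ι).image fun ψ => q ⊓ ψ).mono ?_
    intro s hs
    obtain ⟨ψ, hψ, h⟩ := h1 M S ι s q hs
    exact ⟨ψ, hψ, h.symm⟩
  obtain ⟨e, he⟩ := hc.exists_eq_range ⟨q, Abs.FI.refl S hq⟩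
  have he1 : ∀ n, S.FI (e n) q := fun n => by
    have h2 : e n ∈ Set.range e := ⟨n, rfl⟩
    rw [← he] at h2
    exact h2
  let Q : ℕ → AddSubgroup (ι → M) := fun n => Nat.rec (e 0) (fun k p => p ⊓ e (k + 1)) n
  have hs : ∀ n, Q (n + 1) = Q n ⊓ e (n + 1) := fun n => rfl
  have h2 : ∀ n, S.FI (Q n) q := by
    intro n
    induction n with
    | zero => exact he1 0
    | succ n ih =>
      rw [hs]
      exact Abs.FI.inf S ih (he1 _)
  have h3 : ∀ n, Q n ≤ e n := by
    intro n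
    cases n with
    | zero => exact le_rfl
    | succ n => rw [hs]; exact inf_le_right
  have h4 : ∀ s, S.FI s q → ∃ n, Q n ≤ s := by
    intro s hs'
    have h5 : s ∈ {s | S.FI s q} := hs'
    rw [he] at h5
    obtain ⟨n, rfl⟩ := h5
    exact ⟨n, h3 n⟩
  refine ⟨Q, antitone_nat_of_succ_le fun n => by rw [hs]; exact inf_le_left, h2, h4, ?_⟩
  apply le_antisymm
  · refine le_sInf fun s hs' => ?_
    obtain ⟨n, hn⟩ := h4 s hs'
    exact (iInf_le Q n).trans hn
  · exact le_iInf fun n => Abs.con_le S (h2 n)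

end Pool.Agent.VMA
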