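import Pool.Agent.VMA.St
import Pool.Agent.VMA.Api

/-!
# VMA [CHO]: the sequence
-/

set_option autoImplicit false
set_option linter.unusedSectionVars false
set_option linter.unusedVariables false

namespace Pool.Agent.VMA

open Set

theorem thm_CHO (h1 : St_NOP) (h2 : St_STP) (h3 : St_STQ) : St_CHO := by
  intro M _ S ι _ r b V I hF hb hI
  have hKt : S.IsT (⨅ m, I m) := S.isT_iInf hI.ty
  have hbK : b ≤ ⨅ m, I m := le_iInf hI.bI
  have hKr : ⨅ m, I m ≤ r := (iInf_le _ 0).trans (hI.Ir 0)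
  have hK0 : (⨅ m, I m).relIndex r = 0 := h1 M S ι r b V I hF hb hI
  have key : ∀ (k : ℕ) (g : ℕ → ι → M) (n0 : ℕ), ∃ (m : ℕ) (x : ι → M) (m0 : ℕ), n0 < m ∧
      x ∈ V m ∧ (fib (S.pp (Sum.elim (tup g fun j : Fin k => (j : ℕ)) x))).relIndex r ≠ 0 ∧
      ∀ m', m0 ≤ m' → ∀ c ∈ r, S.pp c ⊔ b = S.pp x ⊔ b →
        ¬ fib (S.pp (Sum.elim (tup g fun j : Fin k => (j : ℕ)) c)) ≤ I m' := by
    intro k g n0
    obtain ⟨m, x, hm, hx, -, hfi, hav⟩ := h2 M S ι (Fin k × ι) r b (⨅ m, I m) V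
      (tup g fun j : Fin k => (j : ℕ)) n0 hF hKt hbK hKr hK0
    obtain ⟨m0, hm0⟩ := h3 M S ι (Fin k × ι) r b V I (tup g fun j : Fin k => (j : ℕ)) x hF hI.anti
      (fun m => ⟨hI.ty m, hI.bI m, hI.Ir m⟩) ((hF.fi m).2.1 hx) hav
    exact ⟨m, x, m0, hm, hx, hfi, hm0⟩
  choose m x m0 hm hx hfi hav using key
  let s : ℕ → (ℕ → ι → M) × ℕ := fun n => Nat.rec (0, 0) (fun k p =>
    (Function.update p.1 k (x k p.1 p.2), max (m k p.1 p.2) (m0 k p.1 p.2))) n
  have hs : ∀ k, s (k + 1) = (Function.update (s k).1 k (x k (s k).1 (s k).2),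
    max (m k (s k).1 (s k).2) (m0 k (s k).1 (s k).2)) := fun k => rfl
  let a : ℕ → ι → M := fun k => x k (s k).1 (s k).2
  let μ : ℕ → ℕ := fun k => m k (s k).1 (s k).2
  have ha : ∀ k j, j < k → (s k).1 j = a j := by
    intro k
    induction k with
    | zero => exact fun j hj => absurd hj (Nat.not_lt_zero j)
    | succ k ih =>
      intro j hj
      rw [hs]
      by_cases hjk : j = k
      · subst hjk
        exact Function.update_self _ _ _
      · exact (Function.update_of_ne hjk _ _).trans (ih j (by omega))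
  have htup : ∀ k, tup (s k).1 (fun j : Fin k => (j : ℕ)) = tup a (fun j : Fin k => (j : ℕ)) := by
    intro k
    funext p
    show (s k).1 (p.1 : ℕ) p.2 = a (p.1 : ℕ) p.2
    rw [ha k p.1 p.1.2]
  have hn : ∀ k, (s (k + 1)).2 = max (μ k) (m0 k (s k).1 (s k).2) := fun k => by rw [hs]
  refine ⟨a, μ, ⟨strictMono_nat_of_lt_succ fun k => ?_, fun k => hx k _ _, fun k => ?_,
    fun k c hc hcb => ?_⟩⟩
  · refine lt_of_le_of_lt ?_ (hm (k + 1) (s (k + 1)).1 (s (k + 1)).2)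
    rw [hn]
    exact le_max_left _ _
  · rw [← htup]
    exact hfi k _ _
  · rw [← htup]
    refine hav k (s k).1 (s k).2 (μ (k + 1)) ?_ c hc hcb
    refine le_of_lt (lt_of_le_of_lt ?_ (hm (k + 1) (s (k + 1)).1 (s (k + 1)).2))
    rw [hn]
    exact le_max_right _ _

end Pool.Agent.VMA
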