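import Pool.Agent.VMA.St
import Pool.Agent.VMA.Api

/-!
# VMA, module CNC: the connected component is connected (helper81)
-/

set_option autoImplicit false
set_option linter.unusedSectionVars false
set_option linter.unusedVariables false

namespace Pool.Agent.VMA

open Set

/-- representatives of the cosets -/
private theorem CNC_reps {G : Type} [AddCommGroup G] {s q : AddSubgroup G}
    (h : s.relIndex q ≠ 0) : ∃ (k : ℕ) (c : Fin k → G), ∀ x ∈ q, ∃ i, x - c i ∈ s := by
  have h1 : (s.addSubgroupOf q).FiniteIndex := ⟨h⟩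
  have h2 : Finite (q ⧸ s.addSubgroupOf q) := AddSubgroup.finite_quotient_of_finiteIndex
  have := Fintype.ofFinite (q ⧸ s.addSubgroupOf q)
  let e := Fintype.equivFin (q ⧸ s.addSubgroupOf q)
  refine ⟨_, fun i => ((Quotient.out (e.symm i) : q) : G), fun x hx => ?_⟩
  refine ⟨e (QuotientAddGroup.mk ⟨x, hx⟩), ?_⟩
  simp only [Equiv.symm_apply_apply]
  have h3 : (QuotientAddGroup.mk (Quotient.out
      (QuotientAddGroup.mk (⟨x, hx⟩ : q) : q ⧸ s.addSubgroupOf q)) : q ⧸ s.addSubgroupOf q) =
      QuotientAddGroup.mk ⟨x, hx⟩ := QuotientAddGroup.out_eq' _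
  rw [QuotientAddGroup.eq, AddSubgroup.mem_addSubgroupOf] at h3
  have h4 : x - ((Quotient.out (QuotientAddGroup.mk (⟨x, hx⟩ : q) : q ⧸ s.addSubgroupOf q) : q) : G)
      = ((-(Quotient.out (QuotientAddGroup.mk (⟨x, hx⟩ : q) : q ⧸ s.addSubgroupOf q)) +
        ⟨x, hx⟩ : q) : G) := by
    rw [AddSubgroup.coe_add, AddSubgroup.coe_neg]
    abel
  rw [h4]
  exact h3

/-- finitely many cosets suffice only if the index is finite -/
private theorem CNC_fin {G : Type} [AddCommGroup G] {s q : AddSubgroup G} {k : ℕ} (c : Fin k → G)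
    (h : ∀ x ∈ q, ∃ i, x - c i ∈ s) : s.relIndex q ≠ 0 := by
  choose f hf using h
  let F : q ⧸ s.addSubgroupOf q → Fin k := fun z => f _ (Quotient.out z).2
  have hF : Function.Injective F := by
    intro z w hzw
    have h1 := hf _ (Quotient.out z).2
    have h2 := hf _ (Quotient.out w).2
    have h3 : f _ (Quotient.out z).2 = f _ (Quotient.out w).2 := hzw
    rw [h3] at h1
    have h4 := s.sub_mem h2 h1
    rw [← QuotientAddGroup.out_eq' z, ← QuotientAddGroup.out_eq' w, QuotientAddGroup.eq,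
      AddSubgroup.mem_addSubgroupOf, AddSubgroup.coe_add, AddSubgroup.coe_neg]
    have h5 : -((Quotient.out z : q) : G) + ((Quotient.out w : q) : G) =
        ((Quotient.out w : q) : G) - c (f _ (Quotient.out w).2) -
          (((Quotient.out z : q) : G) - c (f _ (Quotient.out w).2)) := by
      abel
    rw [h5]
    exact h4
  have h1 : Finite (q ⧸ s.addSubgroupOf q) := Finite.of_injective F hF
  have h2 : (s.addSubgroupOf q).FiniteIndex := AddSubgroup.finiteIndex_of_finite_quotient
  exact h2.index_ne_zero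

theorem thm_CNC (hCPT : St_CPT) (hFIF : St_FIF) (hCHN : St_CHN) : St_CNC := by
  intro M _ S ι _ q hq
  have hconn : S.Conn (S.con q) := by
    refine ⟨S.isT_con, fun s hs => ?_⟩
    obtain ⟨ψ, hψ, rfl⟩ := hFIF M S ι s (S.con q) hs
    obtain ⟨Q, hanti, hFI, -, hinf⟩ := hCHN M S ι q hq
    obtain ⟨k, c, hc⟩ := CNC_reps hs.2.2
    obtain ⟨n, hn⟩ := hCPT M S ι Q hanti (fun n => (hFI n).1) k c (fun _ => ψ) (fun _ => hψ) (by
      intro x hx
      have h1 : x ∈ S.con q := by
        rw [← hinf, AddSubgroup.mem_iInf]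
        exact hx
      obtain ⟨i, hi⟩ := hc x h1
      exact ⟨i, hi.2⟩)
    have h1 : S.FI (Q n ⊓ ψ) (Q n) := by
      refine ⟨S.isT_inf (hFI n).1 (S.isT_of_mem hψ), inf_le_left, ?_⟩
      rw [AddSubgroup.inf_relIndex_left]
      exact CNC_fin c hn
    exact inf_eq_left.2 ((S.con_le (Abs.FI.trans S h1 (hFI n))).trans inf_le_right)
  refine ⟨hconn, ?_, ?_⟩
  · intro s hs h1 h2
    apply le_antisymm
    · refine le_sInf fun p hp => ?_
      have h3 := Abs.FI.inf_t S hp hs
      rw [inf_eq_right.2 h2] at h3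
      exact (S.con_le h3).trans inf_le_left
    · refine le_sInf fun p hp => ?_
      have h3 := Abs.FI.inf_t S hp (S.isT_con (q := q))
      rw [inf_eq_right.2 h1] at h3
      exact inf_eq_right.1 (hconn.2 _ h3)
  · intro J _
    apply le_antisymm
    · intro x hx
      rw [mem_pw]
      intro j
      rw [Abs.con, AddSubgroup.mem_sInf]
      intro p hp
      exact mem_pw.1 (S.con_le (Abs.FI.pw S (J := J) hp) hx) j
    · refine le_sInf fun p hp => pw_le_of_sg fun j x hx => ?_
      have h1 : S.FI (p.comap (sg j) ⊓ q) q := by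
        refine ⟨S.isT_inf (S.isT_comap (isZ_sg j) hp.1) hq, inf_le_right, ?_⟩
        rw [AddSubgroup.inf_relIndex_right]
        refine fun h0 => AddSubgroup.relIndex_comap_ne_zero (sg j) hp.2.2 ?_
        refine AddSubgroup.relIndex_eq_zero_of_le_right ?_ h0
        intro y hy
        exact sg_mem_pw hy
      exact (S.con_le h1 hx).1

end Pool.Agent.VMA
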