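import Pool.Agent.VMA.St
import Pool.Agent.VMA.Api

/-!
# VMA, module CNJ: conjugation (helper30)
-/

set_option autoImplicit false

namespace Pool.Agent.VMA

open Set

variable {M : Type} [AddCommGroup M] (S : Abs M) {ι κ : Type}

/-- the type of `(a, x1)` for an element `x1` of `x + b` which is generic over `a` -/
private theorem CNJ_pp [Finite ι] [Finite κ] {b : AddSubgroup (κ → M)} (hb : S.IsT b)
    (a : ι → M) (x x1 : κ → M) (hx : x1 - x ∈ b) (hf : b ≤ fib (S.pp (Sum.elim a x1))) :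
    S.pp (Sum.elim a x1) = S.pp (Sum.elim a x) ⊔ b.map iR := by
  have h1 : Sum.elim a x1 = Sum.elim a x + (iR (x1 - x) : ι ⊕ κ → M) := by
    rw [iR_apply, ← elim_add, add_zero, add_sub_cancel]
  apply le_antisymm
  · rw [S.pp_le_iff (S.isT_sup (S.isT_pp _) (S.isT_map isZ_iR hb)), h1]
    exact AddSubgroup.add_mem_sup (S.mem_pp _) ⟨_, hx, rfl⟩
  · refine sup_le ((S.pp_le_iff (S.isT_pp _)).2 ?_) ?_
    · have h2 : Sum.elim a x = Sum.elim a x1 - (iR (x1 - x) : ι ⊕ κ → M) := by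
        rw [h1, add_sub_cancel_right]
      rw [h2]
      exact AddSubgroup.sub_mem _ (S.mem_pp _) (hf hx)
    · rw [AddSubgroup.map_le_iff_le_comap]
      exact hf

theorem thm_CNJ (h : St_GEN) : St_CNJ := by
  intro M _ S ι κ _ _ b a x x' hb he
  obtain ⟨x1, hx1, hf1⟩ := (h M S ι κ b a x hb.1).2 hb
  obtain ⟨x2, hx2, hf2⟩ := (h M S ι κ b a x' hb.1).2 hb
  have e1 := CNJ_pp S hb.1 a x x1 hx1 hf1
  have e2 := CNJ_pp S hb.1 a x' x2 hx2 hf2
  obtain ⟨γ, hγ, hγ'⟩ := S.hom_pp (e1.trans (he.trans e2.symm))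
  refine ⟨γ, hγ, fun i => hγ' (Sum.inl i), ?_⟩
  have h3 : (fun k => γ (x1 k)) = x2 := funext fun k => hγ' (Sum.inr k)
  have h4 : (fun k => γ ((x1 - x) k)) ∈ b := S.inv_t hb.1 hγ hx1
  have h5 : (fun k => γ (x k)) - x' = (x2 - x') - (fun k => γ ((x1 - x) k)) := by
    rw [← h3]
    funext k
    simp only [Pi.sub_apply, map_sub]
    abel
  rw [h5]
  exact AddSubgroup.sub_mem _ hx2 h4

end Pool.Agent.VMA
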