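import Pool.Agent.VMA.St
import Pool.Agent.VMA.Api

/-!
# VMA: [CNQ], types which contain the connected component
-/

set_option autoImplicit false
set_option linter.unusedSectionVars false
set_option linter.unusedVariables false

namespace Pool.Agent.VMA

open Set

/-- [CNQ] -/
theorem thm_CNQ (h1 : St_CHN) (h2 : St_CPT) : St_CNQ := by
  intro M _ S ι _ q hq
  have hF : ∀ φ ∈ S.PP ι, S.con q ≤ φ → ∃ s, S.FI s q ∧ s ≤ φ := by
    intro φ hφ hle
    obtain ⟨Q, hanti, hfi, -, hinf⟩ := h1 M S ι q hq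
    obtain ⟨n, hn⟩ := h2 M S ι Q hanti (fun n => (hfi n).1) 1 (fun _ => 0) (fun _ => φ)
      (fun _ => hφ) (fun x hx => ⟨0, by
        rw [sub_zero]
        apply hle
        rw [← hinf, AddSubgroup.mem_iInf]
        exact hx⟩)
    refine ⟨Q n, hfi n, fun x hx => ?_⟩
    obtain ⟨i, hi⟩ := hn x hx
    rw [sub_zero] at hi
    exact hi
  refine ⟨S.isT_con, Abs.con_le S (Abs.FI.refl S hq), hF, fun s hs hcs hsq => ?_⟩
  have hX : ∀ x ∈ q, (∀ p, S.FI p q → s ≤ p → x ∈ p) → x ∈ s := by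
    intro x hx hall
    refine S.isT_iff.1 hs x fun φ hφ hsφ => ?_
    obtain ⟨t, ht, htφ⟩ := hF φ hφ (hcs.trans hsφ)
    have hp : S.FI (q ⊓ φ) q :=
      Abs.FI.mid S ht (S.isT_inf hq (S.isT_of_mem hφ)) (le_inf ht.2.1 htφ) inf_le_left
    exact (hall (q ⊓ φ) hp (le_inf hsq hsφ)).2
  refine ⟨hX, fun hne => ?_⟩
  by_contra hcon
  refine hne (le_antisymm hsq fun x hx => hX x hx fun p hp hsp => ?_)
  have hpq : p = q := by
    by_contra h
    exact hcon ⟨p, hp, hsp, h⟩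
  rw [hpq]
  exact hx

end Pool.Agent.VMA
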