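import Pool.Agent.VMA.St
import Pool.Agent.VMA.Api

/-!
# VMA: Claim A
-/

set_option autoImplicit false

namespace Pool.Agent.VMA

open Set

theorem thm_ClaimA (hQ1 : St_Q1) (hFLT : St_FLT) (hIDL : St_IDL) (hCHO : St_CHO)
    (hLST : St_LST) : St_ClaimA := by
  intro M _ S ι _ r hr
  obtain ⟨hq, hc, hqr, -, -⟩ := hQ1 M S ι r hr
  by_cases h0 : (S.q1 r).relIndex r = 0
  · right
    obtain ⟨V, hV⟩ := hFLT.1 M S ι r (S.q1 r) hr hq hc hqr
    obtain ⟨I, hI⟩ := hIDL M S ι r (S.q1 r) V hV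
    obtain ⟨a, m, ha⟩ := hCHO M S ι r (S.q1 r) V I hV h0 hI
    have har : ∀ k, a k ∈ r := fun k => (hV.fi (m k)).2.1 (ha.mem k)
    refine ⟨a, fun k => {c | c ∈ r ∧ S.pp c ⊔ S.q1 r = S.pp (a k) ⊔ S.q1 r},
      fun k => ⟨har k, rfl⟩, fun k x y hxy hx => ⟨?_, ?_⟩, ?_⟩
    · have h1 : S.pp y ≤ r := by
        rw [← hxy]
        exact (S.pp_le_iff hr).2 hx.1
      exact h1 (S.mem_pp y)
    · rw [← hxy]
      exact hx.2
    · intro α _ f hf k hk c hiso hcO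
      exact hLST M S ι r V I a m hV hI ha α f hf k hk c hcO.1 hiso hcO.2
  · left
    exact ⟨hq, hqr, h0⟩

end Pool.Agent.VMA
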