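import Pool.Agent.VMA.St
import Pool.Agent.VMA.Api

/-!
# VMA, module FIF: types of finite index are given by one formula (helper57)
-/

set_option autoImplicit false

namespace Pool.Agent.VMA

theorem thm_FIF : St_FIF := by
  intro M _ S ι _ s q h
  obtain ⟨φ, hanti, hmem, hle, hinf, -⟩ := S.isT_seq h.1
  obtain ⟨N, hN⟩ := antitone_stab h.2.2 (s := fun n => q ⊓ φ n)
    (fun a b hab => inf_le_inf_left q (hanti hab)) (fun n => le_inf h.2.1 (hle n))
    (fun n => inf_le_left)
  refine ⟨φ N, hmem N, le_antisymm (le_inf h.2.1 (hle N)) ?_⟩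
  intro x hx
  refine hinf x fun n => ?_
  have h1 : x ∈ q ⊓ φ (max n N) := by
    have h2 : q ⊓ φ (max n N) = q ⊓ φ N := hN (max n N) (le_max_right n N)
    rw [h2]
    exact hx
  exact hanti (le_max_left n N) h1.2

end Pool.Agent.VMA
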