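import Pool.Agent.VMA.St
import Pool.Agent.VMA.Api

/-!
# VMA: the definable closure of a tuple modulo `I` is finite
-/

set_option autoImplicit false
set_option linter.unusedSectionVars false
set_option linter.unusedVariables false

namespace Pool.Agent.VMA

open Set

section closure

variable {M : Type} [AddCommGroup M] (S : Abs M) {ι κ : Type} [Finite ι] [Finite κ]

private theorem fib_zero (a : ι → M) (I : AddSubgroup (κ → M)) :
    fib (S.pp (Sum.elim a (0 : κ → M))) ≤ I := by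
  intro v hv
  rw [mem_fib, ← iL_apply, S.pp_map isZ_iL a] at hv
  obtain ⟨x, -, hx⟩ := hv
  have h1 := congrArg pR hx
  rw [iL_apply, pR_elim, pR_elim] at h1
  rw [← h1]
  exact I.zero_mem

private theorem fib_neg (a : ι → M) (z : κ → M) (I : AddSubgroup (κ → M))
    (h : fib (S.pp (Sum.elim a z)) ≤ I) : fib (S.pp (Sum.elim a (-z))) ≤ I := by
  let k : (ι ⊕ κ → M) →+ (ι ⊕ κ → M) := iL.comp pL - iR.comp pR
  have hk : IsZ k := (isZ_iL.comp isZ_pL).sub (isZ_iR.comp isZ_pR)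
  have hk1 : ∀ (x : ι → M) (y : κ → M), k (Sum.elim x y) = Sum.elim x (-y) := by
    intro x y
    show iL x - iR y = _
    rw [iL_apply, iR_apply, ← elim_sub, sub_zero, zero_sub]
  intro v hv
  rw [mem_fib, ← hk1, S.pp_map hk] at hv
  obtain ⟨u, hu, hu'⟩ := hv
  rw [← elim_pL_pR u, hk1] at hu'
  have h1 := congrArg pL hu'
  have h2 := congrArg pR hu'
  rw [pL_elim, pL_elim] at h1
  rw [pR_elim, pR_elim] at h2
  have h3 : pR u ∈ fib (S.pp (Sum.elim a z)) := by
    rw [mem_fib, ← h1, elim_pL_pR]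
    exact hu
  rw [← h2]
  exact I.neg_mem (h h3)

private theorem fib_add (a : ι → M) (z z' : κ → M) (I : AddSubgroup (κ → M))
    (h : fib (S.pp (Sum.elim a z)) ≤ I) (h' : fib (S.pp (Sum.elim a z')) ≤ I) :
    fib (S.pp (Sum.elim a (z + z'))) ≤ I := by
  let h1 : (ι ⊕ (κ ⊕ κ) → M) →+ (ι ⊕ κ → M) := re (Sum.elim Sum.inl (Sum.inr ∘ Sum.inl))
  let h2 : (ι ⊕ (κ ⊕ κ) → M) →+ (ι ⊕ κ → M) := re (Sum.elim Sum.inl (Sum.inr ∘ Sum.inr))
  let h3 : (ι ⊕ (κ ⊕ κ) → M) →+ (ι ⊕ κ → M) := h1 + iR.comp (pR.comp h2)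
  have z1 : IsZ h1 := isZ_re _
  have z2 : IsZ h2 := isZ_re _
  have z3 : IsZ h3 := z1.add (isZ_iR.comp (isZ_pR.comp z2))
  let w : ι ⊕ (κ ⊕ κ) → M := Sum.elim a (Sum.elim z z')
  have e1 : h1 w = Sum.elim a z := by funext i; cases i <;> rfl
  have e2 : h2 w = Sum.elim a z' := by funext i; cases i <;> rfl
  have e3 : h3 w = Sum.elim a (z + z') := by
    show h1 w + iR (pR (h2 w)) = _
    rw [e1, e2, pR_elim, iR_apply, ← elim_add, add_zero]
  intro v hv
  rw [mem_fib, ← e3, S.pp_map z3] at hv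
  obtain ⟨u, hu, hu'⟩ := hv
  have hu3 : h1 u + iR (pR (h2 u)) = Sum.elim (0 : ι → M) v := hu'
  have f1 : h1 u ∈ S.pp (Sum.elim a z) := by
    rw [← e1, S.pp_map z1]
    exact ⟨u, hu, rfl⟩
  have f2 : h2 u ∈ S.pp (Sum.elim a z') := by
    rw [← e2, S.pp_map z2]
    exact ⟨u, hu, rfl⟩
  have g1 : pL (h1 u) = 0 := by
    have := congrArg pL hu3
    rw [map_add, iR_apply, pL_elim, pL_elim, add_zero] at this
    exact this
  have g2 : pL (h2 u) = 0 := g1
  have g3 : pR (h1 u) + pR (h2 u) = v := by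
    have := congrArg pR hu3
    rw [map_add, iR_apply, pR_elim, pR_elim] at this
    exact this
  rw [← g3]
  refine I.add_mem (h ?_) (h' ?_)
  · rw [mem_fib, ← g1, elim_pL_pR]
    exact f1
  · rw [mem_fib, ← g2, elim_pL_pR]
    exact f2

end closure

/-- [FIN] -/
theorem thm_FIN (hC : St_CHN) (hN : St_CNQ) : St_FIN := by
  classical
  intro M _ S ι κ _ _ q I a hq hI hcI hIq
  obtain ⟨D, hD⟩ : ∃ D : AddSubgroup (κ → M), ∀ z, z ∈ D ↔
      z ∈ q ∧ fib (S.pp (Sum.elim a z)) ≤ I := ⟨{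
    carrier := {z | z ∈ q ∧ fib (S.pp (Sum.elim a z)) ≤ I}
    zero_mem' := ⟨q.zero_mem, fib_zero S a I⟩
    add_mem' := fun h h' => ⟨q.add_mem h.1 h'.1, fib_add S a _ _ I h.2 h'.2⟩
    neg_mem' := fun h => ⟨q.neg_mem h.1, fib_neg S a _ I h.2⟩ }, fun z => Iff.rfl⟩
  obtain ⟨Q, hanti, hFI, hcof, -⟩ := hC M S κ q hq
  obtain ⟨-, -, -, h4⟩ := hN M S κ q hq
  have hint : ∀ x ∈ q, (∀ n, x ∈ Q n ⊔ I) → x ∈ I := fun x hx h =>
    (h4 I hI hcI hIq).1 x hx fun p hp hIp => by
      obtain ⟨n, hn⟩ := hcof p hp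
      exact (sup_le hn hIp) (h n)
  by_contra hcon
  have hA : ∀ n, ∃ d, d ∈ D ∧ d ∈ Q n ⊔ I ∧ d ∉ I := by
    intro n
    by_contra hn
    push Not at hn
    apply hcon
    have hfi : ((Q n).addSubgroupOf q).FiniteIndex := ⟨(hFI n).2.2⟩
    have hfin : Finite (q ⧸ (Q n).addSubgroupOf q) := AddSubgroup.finite_quotient_of_finiteIndex
    let P : (q ⧸ (Q n).addSubgroupOf q) → (κ → M) → Prop := fun c z =>
      z ∈ D ∧ ∃ hz : z ∈ q, (QuotientAddGroup.mk (⟨z, hz⟩ : q) : q ⧸ (Q n).addSubgroupOf q) = c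
    let f : (q ⧸ (Q n).addSubgroupOf q) → (κ → M) := fun c =>
      if h : ∃ z, P c z then h.choose else 0
    refine ⟨Set.range f, Set.finite_range f, fun z hz hzI => ?_⟩
    have hex : ∃ w, P (QuotientAddGroup.mk (⟨z, hz⟩ : q)) w :=
      ⟨z, (hD z).2 ⟨hz, hzI⟩, hz, rfl⟩
    have hf : f (QuotientAddGroup.mk (⟨z, hz⟩ : q)) = hex.choose := dif_pos hex
    obtain ⟨h1, h2, h3⟩ := hex.choose_spec
    refine ⟨hex.choose, ⟨_, hf⟩, hn _ (D.sub_mem ((hD z).2 ⟨hz, hzI⟩) h1) ?_⟩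
    rw [QuotientAddGroup.eq] at h3
    have h4 : -hex.choose + z ∈ Q n := h3
    have h5 : z - hex.choose = -hex.choose + z := by abel
    rw [h5]
    exact (le_sup_left : Q n ≤ Q n ⊔ I) h4
  choose d hdD hdQ hdI using hA
  have hB : ∀ n, ∃ m, n < m ∧ d n ∉ Q m ⊔ I := by
    intro n
    by_contra hn
    push Not at hn
    refine hdI n (hint _ ((hD _).1 (hdD n)).1 fun m => ?_)
    rcases lt_or_ge n m with h | h
    · exact hn m h
    · exact (sup_le_sup_right (hanti h) I) (hdQ n)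
  choose nx hnx hnd using hB
  let N : ℕ → ℕ := fun k => Nat.rec 0 (fun _ m => nx m) k
  have hNs : ∀ k, N (k + 1) = nx (N k) := fun k => rfl
  have hmono : StrictMono N := strictMono_nat_of_lt_succ fun k => by
    rw [hNs]
    exact hnx _
  let z : Set ℕ → ℕ → κ → M := fun E k =>
    ∑ i ∈ Finset.range k, if i ∈ E then d (N i) else 0
  have hzs : ∀ E k, z E (k + 1) = z E k + if k ∈ E then d (N k) else 0 := fun E k =>
    Finset.sum_range_succ _ _
  have hzD : ∀ E k, z E k ∈ D := fun E k => D.sum_mem fun i _ => by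
    by_cases h : i ∈ E
    · rw [if_pos h]; exact hdD _
    · rw [if_neg h]; exact D.zero_mem
  have hdiff : ∀ E j l, z E (j + l) - z E j ∈ Q (N j) ⊔ I := by
    intro E j l
    induction l with
    | zero =>
      rw [Nat.add_zero, sub_self]
      exact AddSubgroup.zero_mem _
    | succ l ih =>
      have e1 : z E (j + (l + 1)) - z E j =
          (z E (j + l) - z E j) + if (j + l) ∈ E then d (N (j + l)) else 0 := by
        rw [← add_assoc, hzs]
        abel
      rw [e1]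
      refine AddSubgroup.add_mem _ ih ?_
      by_cases h : (j + l) ∈ E
      · rw [if_pos h]
        exact (sup_le_sup_right (hanti (hmono.monotone (Nat.le_add_right j l))) I) (hdQ _)
      · rw [if_neg h]; exact AddSubgroup.zero_mem _
  have hX : ∀ (w : κ → M), w ∈ D → ∀ (m : ℕ) (x : κ → M),
      Sum.elim a x ∈ S.pp (Sum.elim a w) ⊔ (I ⊔ Q m).map iR ↔ x - w ∈ I ⊔ Q m := by
    intro w hw m x
    rw [mem_sup_iR]
    constructor
    · rintro ⟨v, hv, h⟩
      have h1 := (S.pp (Sum.elim a w)).sub_mem h (S.mem_pp (Sum.elim a w))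
      rw [← elim_sub, sub_self] at h1
      have h2 : x - v - w ∈ I := ((hD w).1 hw).2 h1
      have h3 : x - w = (x - v - w) + v := by abel
      rw [h3]
      exact AddSubgroup.add_mem _ ((le_sup_left : I ≤ I ⊔ Q m) h2) hv
    · intro h
      refine ⟨x - w, h, ?_⟩
      rw [sub_sub_cancel]
      exact S.mem_pp _
  have hsat : ∀ E : Set ℕ, ∃ x : κ → M, ∀ k, x - z E k ∈ I ⊔ Q (N k) := by
    intro E
    obtain ⟨x, hx⟩ := S.sat_p a
      (fun k => S.pp (Sum.elim a (z E k)) ⊔ (I ⊔ Q (N k)).map iR)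
      (fun k => S.isT_sup (S.isT_pp _) (S.isT_map isZ_iR (S.isT_sup hI (hFI _).1)))
      (fun n => ⟨z E n, fun j hj => by
        rw [hX _ (hzD E j), sup_comm]
        obtain ⟨l, rfl⟩ := Nat.exists_eq_add_of_le hj.le
        exact hdiff E j l⟩)
    exact ⟨x, fun k => (hX _ (hzD E k) _ _).1 (hx k)⟩
  choose f hf using hsat
  have hinj : Function.Injective f := by
    intro E E' hEE
    by_contra hne
    have hex : ∃ i, ¬ (i ∈ E ↔ i ∈ E') := by
      by_contra h
      push Not at h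
      exact hne (Set.ext h)
    have hi := Nat.find_spec hex
    have hlt : ∀ j < Nat.find hex, (j ∈ E ↔ j ∈ E') := fun j hj =>
      not_not.1 (Nat.find_min hex hj)
    generalize Nat.find hex = i at hi hlt
    have hz : z E i = z E' i := Finset.sum_congr rfl fun j hj => by
      have h1 := hlt j (Finset.mem_range.1 hj)
      by_cases h2 : j ∈ E
      · rw [if_pos h2, if_pos (h1.1 h2)]
      · rw [if_neg h2, if_neg (fun h3 => h2 (h1.2 h3))]
    have h1 := hf E (i + 1)
    have h2 := hf E' (i + 1)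
    rw [← hEE] at h2
    have h3 := AddSubgroup.sub_mem _ h2 h1
    have h4 : f E - z E' (i + 1) - (f E - z E (i + 1)) = z E (i + 1) - z E' (i + 1) := by abel
    rw [h4, hzs, hzs, hz, sup_comm, hNs] at h3
    apply hnd (N i)
    by_cases h5 : i ∈ E
    · have h6 : i ∉ E' := fun h => hi ⟨fun _ => h, fun _ => h5⟩
      rw [if_pos h5, if_neg h6] at h3
      have h7 : z E' i + d (N i) - (z E' i + 0) = d (N i) := by abel
      rw [h7] at h3
      exact h3
    · have h6 : i ∈ E' := by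
        by_contra h
        exact hi ⟨fun h' => absurd h' h5, fun h' => absurd h' h⟩
      rw [if_neg h5, if_pos h6] at h3
      have h7 : z E' i + 0 - (z E' i + d (N i)) = -d (N i) := by abel
      rw [h7] at h3
      exact neg_mem_iff.1 h3
  have hcM : Countable M := S.ctbl
  obtain ⟨g, hg⟩ := exists_injective_nat (κ → M)
  exact Function.cantor_injective (g ∘ f) (hg.comp hinj)

end Pool.Agent.VMA
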