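import Pool.Agent.VMA.St
import Pool.Agent.VMA.Api

/-!
# VMA: existence of the chain `V`, cofinality
-/

set_option autoImplicit false
set_option linter.unusedSectionVars false
set_option linter.unusedVariables false

namespace Pool.Agent.VMA

open Set

theorem thm_FLT (h1 : St_CPT) (h2 : St_FIF) (h3 : St_CNQ) : St_FLT := by
  refine ⟨?_, ?_, ?_⟩
  · intro M _ S ι _ r b hr hb hcb hbr
    let D : Set (AddSubgroup (ι → M)) := {s | S.FI s r ∧ b ≤ s}
    have hD : D.Countable := by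
      refine ((S.cnt ι).image fun ψ => r ⊓ ψ).mono ?_
      rintro s ⟨hs, -⟩
      obtain ⟨ψ, hψ, rfl⟩ := h2 M S ι s r hs
      exact ⟨ψ, hψ, rfl⟩
    obtain ⟨e, he⟩ := hD.exists_eq_range ⟨r, Abs.FI.refl S hr, hbr⟩
    have he1 : ∀ n, S.FI (e n) r ∧ b ≤ e n := fun n => by
      have : e n ∈ D := by rw [he]; exact ⟨n, rfl⟩
      exact this
    let V : ℕ → AddSubgroup (ι → M) := fun n => Nat.rec (e 0) (fun k p => p ⊓ e (k + 1)) n
    have hs : ∀ n, V (n + 1) = V n ⊓ e (n + 1) := fun n => rfl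
    have hV1 : ∀ n, S.FI (V n) r ∧ b ≤ V n := by
      intro n
      induction n with
      | zero => exact he1 0
      | succ n ih => exact ⟨Abs.FI.inf S ih.1 (he1 _).1, le_inf ih.2 (he1 _).2⟩
    have hV2 : ∀ n, V n ≤ e n := by
      intro n
      cases n with
      | zero => exact le_rfl
      | succ n => rw [hs]; exact inf_le_right
    refine ⟨V, ⟨hr, hb, hcb, hbr, antitone_nat_of_succ_le fun n => by rw [hs]; exact inf_le_left,
      fun n => (hV1 n).1, fun n => (hV1 n).2, le_antisymm ?_ (le_iInf fun n => (hV1 n).2)⟩⟩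
    intro x hx
    rw [AddSubgroup.mem_iInf] at hx
    refine ((h3 M S ι r hr).2.2.2 b hb hcb hbr).1 x ((hV1 0).1.2.1 (hx 0)) ?_
    intro p hp hbp
    have : p ∈ D := ⟨hp, hbp⟩
    rw [he] at this
    obtain ⟨n, rfl⟩ := this
    exact hV2 n (hx n)
  · intro M _ S ι _ r b V hV s hs hbs
    obtain ⟨ψ, hψ, rfl⟩ := h2 M S ι s r hs
    obtain ⟨n, hn⟩ := h1 M S ι V hV.anti (fun n => (hV.fi n).1) 1 (fun _ => 0) (fun _ => ψ)
      (fun _ => hψ) (fun x hx => ⟨0, by
        rw [sub_zero]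
        have hxb : x ∈ b := by
          rw [← hV.inf, AddSubgroup.mem_iInf]
          exact hx
        exact (hbs hxb).2⟩)
    refine ⟨n, fun x hx => ⟨(hV.fi n).2.1 hx, ?_⟩⟩
    obtain ⟨i, hi⟩ := hn x hx
    rwa [sub_zero] at hi
  · intro M _ S ι _ r b V hV J _ H hH
    obtain ⟨hH1, hH2⟩ := hH
    obtain ⟨ψ, hψ, rfl⟩ := h2 M S (J × ι) H (pw J r) hH1
    obtain ⟨n, hn⟩ := h1 M S (J × ι) (fun n => pw J (V n)) (fun m n hmn => pw_mono (hV.anti hmn))
      (fun n => S.isT_pw (hV.fi n).1) 1 (fun _ => 0) (fun _ => ψ) (fun _ => hψ)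
      (fun x hx => ⟨0, by
        rw [sub_zero]
        have hxb : x ∈ pw J b := by
          rw [mem_pw]
          intro j
          rw [← hV.inf, AddSubgroup.mem_iInf]
          intro n
          exact mem_pw.1 (hx n) j
        exact (hH2 hxb).2⟩)
    refine ⟨n, fun x hx => ⟨pw_mono (hV.fi n).2.1 hx, ?_⟩⟩
    obtain ⟨i, hi⟩ := hn x hx
    rwa [sub_zero] at hi

end Pool.Agent.VMA
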