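import Pool.Agent.VMA.St
import Pool.Agent.VMA.Api

/-!
# VMA, module GEN: generic elements
-/

set_option autoImplicit false
set_option linter.unusedSectionVars false
set_option linter.unusedVariables false

namespace Pool.Agent.VMA

open Set
open scoped Pointwise

/-- a coset is not covered by finitely many cosets of subgroups of infinite index -/
private theorem gen_cover {G β : Type} [AddCommGroup G] (q : AddSubgroup G) (F : Finset β)
    (H : β → AddSubgroup G) (A : β → Set G) (z : G)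
    (hA : ∀ i, ∀ x ∈ A i, ∀ y ∈ A i, y - x ∈ H i) (hH : ∀ i ∈ F, (H i).relIndex q = 0) :
    ∃ x, x - z ∈ q ∧ ∀ i ∈ F, x ∉ A i := by
  classical
  by_contra hno
  push Not at hno
  have hex : ∀ i, ∃ g : q, (∃ x ∈ A i, x - z ∈ q) → z + (g : G) ∈ A i := by
    intro i
    by_cases h : ∃ x ∈ A i, x - z ∈ q
    · obtain ⟨x, hx, hxz⟩ := h
      refine ⟨⟨x - z, hxz⟩, fun _ => ?_⟩
      rw [add_sub_cancel]
      exact hx
    · exact ⟨0, fun h' => absurd h' h⟩
  choose g hg using hex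
  have hc : ⋃ i ∈ F, g i +ᵥ (((H i).addSubgroupOf q : AddSubgroup q) : Set q) = Set.univ := by
    rw [Set.eq_univ_iff_forall]
    intro y
    obtain ⟨i, hi, hy⟩ := hno (z + y) (by rw [add_sub_cancel_left]; exact y.2)
    refine Set.mem_biUnion hi ?_
    rw [Set.mem_vadd_set]
    have h1 := hg i ⟨z + y, hy, by rw [add_sub_cancel_left]; exact y.2⟩
    refine ⟨y - g i, ?_, ?_⟩
    · change ((y - g i : q) : G) ∈ H i
      have h2 := hA i _ h1 _ hy
      rw [add_sub_add_left_eq_sub] at h2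
      exact h2
    · change g i + (y - g i) = y
      exact add_sub_cancel _ _
  obtain ⟨i, hi, hfi⟩ := AddSubgroup.exists_finiteIndex_of_leftCoset_cover hc
  exact hfi.index_ne_zero (hH i hi)

theorem thm_GEN : St_GEN := by
  intro M _ S ι κ _ _ q c z hq
  have key : ∃ z', z' - z ∈ q ∧ ∀ φ ∈ S.PP (ι ⊕ κ), Sum.elim c z' ∈ φ →
      (fib φ).relIndex q ≠ 0 := by
    have hct : Countable {φ // φ ∈ S.PP (ι ⊕ κ) ∧ (fib φ).relIndex q = 0} :=
      ((S.cnt (ι ⊕ κ)).mono fun φ h => h.1).to_subtype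
    have hz1 : IsZ ((pR : ((ι ⊕ κ) ⊕ κ → M) →+ (κ → M)) - (pR : (ι ⊕ κ → M) →+ (κ → M)).comp pL) :=
      isZ_pR.sub (isZ_pR.comp isZ_pL)
    obtain ⟨x, hx, hx'⟩ := S.sat_t (β := {φ // φ ∈ S.PP (ι ⊕ κ) ∧ (fib φ).relIndex q = 0})
      (Sum.elim c z) (κ := κ)
      (fun _ => q.comap ((pR : ((ι ⊕ κ) ⊕ κ → M) →+ (κ → M)) -
        (pR : (ι ⊕ κ → M) →+ (κ → M)).comp pL)) (fun _ => S.isT_comap hz1 hq)
      (fun φ => φ.1.comap (re (Sum.elim (fun i => Sum.inl (Sum.inl i)) Sum.inr)))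
      (fun φ => S.comap_mem _ _ _ (isZ_re _) _ φ.2.1) (by
        intro n F
        obtain ⟨x, hx, hx'⟩ := gen_cover q F (fun φ => fib φ.1)
          (fun φ => {x | (Sum.elim c x : ι ⊕ κ → M) ∈ φ.1}) z (by
            intro φ x hx y hy
            rw [mem_fib]
            have h1 := φ.1.sub_mem hy hx
            rw [← elim_sub, sub_self] at h1
            exact h1) (fun φ _ => φ.2.2)
        refine ⟨x, fun j _ => hx, fun φ hφ h => hx' φ hφ ?_⟩
        have h2 : re (Sum.elim (fun i => Sum.inl (Sum.inl i)) Sum.inr)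
            (Sum.elim (Sum.elim c z) x : (ι ⊕ κ) ⊕ κ → M) = (Sum.elim c x : ι ⊕ κ → M) := by
          funext i
          cases i <;> rfl
        change re _ _ ∈ φ.1 at h
        rw [h2] at h
        exact h)
    refine ⟨x, hx 0, fun φ hφ hmem h0 => hx' ⟨φ, hφ, h0⟩ ?_⟩
    have h2 : re (Sum.elim (fun i => Sum.inl (Sum.inl i)) Sum.inr)
        (Sum.elim (Sum.elim c z) x : (ι ⊕ κ) ⊕ κ → M) = (Sum.elim c x : ι ⊕ κ → M) := by
      funext i
      cases i <;> rfl
    change re _ _ ∈ φ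
    rw [h2]
    exact hmem
  refine ⟨key, fun hconn => ?_⟩
  obtain ⟨z', hz', hgen⟩ := key
  refine ⟨z', hz', fun v hv => ?_⟩
  rw [mem_fib, S.mem_pp_iff]
  intro φ hφ hmem
  have h1 := hgen φ hφ hmem
  have h2 : S.FI (q ⊓ fib φ) q :=
    ⟨S.isT_inf hq (S.isT_fib (S.isT_of_mem hφ)), inf_le_left, by
      rw [AddSubgroup.inf_relIndex_left]
      exact h1⟩
  have h3 := hconn.2 _ h2
  rw [← h3] at hv
  exact hv.2

end Pool.Agent.VMA
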