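import Pool.Agent.VMA.St
import Pool.Agent.VMA.Api

/-!
# VMA, module IDL: the ideals `I_m` (helper4)
-/

set_option autoImplicit false

namespace Pool.Agent.VMA

open Set

namespace IDL

variable {M : Type} [AddCommGroup M] {ι J J' : Type}

/-- the first part of the index -/
def e1 (J J' ι : Type) : J × ι → (J ⊕ J') × ι := fun p => (Sum.inl p.1, p.2)

/-- the second part of the index -/
def e2 (J J' ι : Type) : J' × ι → (J ⊕ J') × ι := fun p => (Sum.inr p.1, p.2)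

/-- the product of the domains -/
def dom (H : AddSubgroup (J × ι → M)) (H' : AddSubgroup (J' × ι → M)) :
    AddSubgroup ((J ⊕ J') × ι → M) :=
  H.comap (re (e1 J J' ι)) ⊓ H'.comap (re (e2 J J' ι))

theorem mem_dom {H : AddSubgroup (J × ι → M)} {H' : AddSubgroup (J' × ι → M)}
    {z : (J ⊕ J') × ι → M} : z ∈ dom H H' ↔ re (e1 J J' ι) z ∈ H ∧ re (e2 J J' ι) z ∈ H' :=
  Iff.rfl

theorem pw_sum {r : AddSubgroup (ι → M)} {z : (J ⊕ J') × ι → M} :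
    z ∈ pw (J ⊕ J') r ↔ re (e1 J J' ι) z ∈ pw J r ∧ re (e2 J J' ι) z ∈ pw J' r := by
  rw [mem_pw, mem_pw, mem_pw]
  constructor
  · intro h
    exact ⟨fun j => h (Sum.inl j), fun j => h (Sum.inr j)⟩
  · rintro ⟨h, h'⟩ (j | j)
    · exact h j
    · exact h' j

/-- the sum map `(z, (y1, y2)) ↦ (z, y1 + y2)` -/
def sm (J J' ι M : Type) [AddCommGroup M] :
    (((J ⊕ J') × ι) ⊕ (ι ⊕ ι) → M) →+ (((J ⊕ J') × ι) ⊕ ι → M) :=
  re (Sum.map id Sum.inl) + iR.comp (re fun i => Sum.inr (Sum.inr i))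

theorem isZ_sm : IsZ (sm J J' ι M) := (isZ_re _).add (isZ_iR.comp (isZ_re _))

theorem sm_elim (z : (J ⊕ J') × ι → M) (y1 y2 : ι → M) :
    sm J J' ι M (Sum.elim z (Sum.elim y1 y2)) = Sum.elim z (y1 + y2) := by
  funext i
  rcases i with i | i
  · show z i + 0 = z i
    exact add_zero _
  · rfl

/-- the sum of two homomorphisms -/
def gg (g : AddSubgroup ((J × ι) ⊕ ι → M)) (g' : AddSubgroup ((J' × ι) ⊕ ι → M)) :
    AddSubgroup (((J ⊕ J') × ι) ⊕ ι → M) :=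
  (g.comap (re (Sum.map (e1 J J' ι) Sum.inl)) ⊓
    g'.comap (re (Sum.map (e2 J J' ι) Sum.inr))).map (sm J J' ι M)

theorem re_elim1 (z : (J ⊕ J') × ι → M) (y1 y2 : ι → M) :
    re (Sum.map (e1 J J' ι) Sum.inl) (Sum.elim z (Sum.elim y1 y2)) =
      Sum.elim (re (e1 J J' ι) z) y1 := by
  funext i
  rcases i with i | i <;> rfl

theorem re_elim2 (z : (J ⊕ J') × ι → M) (y1 y2 : ι → M) :
    re (Sum.map (e2 J J' ι) Sum.inr) (Sum.elim z (Sum.elim y1 y2)) =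
      Sum.elim (re (e2 J J' ι) z) y2 := by
  funext i
  rcases i with i | i <;> rfl

theorem mem_gg {g : AddSubgroup ((J × ι) ⊕ ι → M)} {g' : AddSubgroup ((J' × ι) ⊕ ι → M)}
    {z : (J ⊕ J') × ι → M} {y : ι → M} :
    Sum.elim z y ∈ gg g g' ↔ ∃ y1 y2, Sum.elim (re (e1 J J' ι) z) y1 ∈ g ∧
      Sum.elim (re (e2 J J' ι) z) y2 ∈ g' ∧ y = y1 + y2 := by
  constructor
  · rintro ⟨w, ⟨hw1, hw2⟩, hw⟩
    obtain ⟨z', y', rfl⟩ : ∃ z' y', w = Sum.elim z' y' := ⟨pL w, pR w, (elim_pL_pR w).symm⟩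
    obtain ⟨y1, y2, rfl⟩ : ∃ y1 y2, y' = Sum.elim y1 y2 := ⟨pL y', pR y', (elim_pL_pR y').symm⟩
    rw [sm_elim] at hw
    have hz : z' = z := by
      have := congrArg pL hw
      rwa [pL_elim, pL_elim] at this
    have hy : y1 + y2 = y := by
      have := congrArg pR hw
      rwa [pR_elim, pR_elim] at this
    subst hz
    have h1 : re (Sum.map (e1 J J' ι) Sum.inl) (Sum.elim z' (Sum.elim y1 y2)) ∈ g := hw1
    have h2 : re (Sum.map (e2 J J' ι) Sum.inr) (Sum.elim z' (Sum.elim y1 y2)) ∈ g' := hw2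
    rw [re_elim1] at h1
    rw [re_elim2] at h2
    exact ⟨y1, y2, h1, h2, hy.symm⟩
  · rintro ⟨y1, y2, h1, h2, rfl⟩
    refine ⟨Sum.elim z (Sum.elim y1 y2), ⟨?_, ?_⟩, sm_elim z y1 y2⟩
    · show re (Sum.map (e1 J J' ι) Sum.inl) (Sum.elim z (Sum.elim y1 y2)) ∈ g
      rw [re_elim1]
      exact h1
    · show re (Sum.map (e2 J J' ι) Sum.inr) (Sum.elim z (Sum.elim y1 y2)) ∈ g'
      rw [re_elim2]
      exact h2

/-- two tuples together -/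
def jn (x : J × ι → M) (x' : J' × ι → M) : (J ⊕ J') × ι → M := fun p =>
  Sum.elim (fun j => x (j, p.2)) (fun j => x' (j, p.2)) p.1

theorem re_jn1 (x : J × ι → M) (x' : J' × ι → M) : re (e1 J J' ι) (jn x x') = x := rfl

theorem re_jn2 (x : J × ι → M) (x' : J' × ι → M) : re (e2 J J' ι) (jn x x') = x' := rfl

variable (S : Abs M) [Finite ι] {r b : AddSubgroup (ι → M)}

theorem isT_gg [Finite J] [Finite J'] {g : AddSubgroup ((J × ι) ⊕ ι → M)}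
    {g' : AddSubgroup ((J' × ι) ⊕ ι → M)} (hg : S.IsT g) (hg' : S.IsT g') : S.IsT (gg g g') :=
  S.isT_map isZ_sm (S.isT_inf (S.isT_comap (isZ_re _) hg) (S.isT_comap (isZ_re _) hg'))

theorem op_dom [Finite J] [Finite J'] {H : AddSubgroup (J × ι → M)} {H' : AddSubgroup (J' × ι → M)}
    (h : S.Op r b J H) (h' : S.Op r b J' H') : S.Op r b (J ⊕ J') (dom H H') := by
  refine ⟨⟨S.isT_inf (S.isT_comap (isZ_re _) h.1.1) (S.isT_comap (isZ_re _) h'.1.1), ?_, ?_⟩, ?_⟩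
  · intro z hz
    rw [mem_dom] at hz
    exact pw_sum.2 ⟨h.1.2.1 hz.1, h'.1.2.1 hz.2⟩
  · refine AddSubgroup.relIndex_inf_ne_zero ?_ ?_
    · intro h0
      refine AddSubgroup.relIndex_comap_ne_zero (re (e1 J J' ι)) h.1.2.2 ?_
      refine AddSubgroup.relIndex_eq_zero_of_le_right ?_ h0
      intro z hz
      exact (pw_sum.1 hz).1
    · intro h0
      refine AddSubgroup.relIndex_comap_ne_zero (re (e2 J J' ι)) h'.1.2.2 ?_
      refine AddSubgroup.relIndex_eq_zero_of_le_right ?_ h0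
      intro z hz
      exact (pw_sum.1 hz).2
  · intro z hz
    rw [pw_sum] at hz
    exact mem_dom.2 ⟨h.2 hz.1, h'.2 hz.2⟩

theorem homR_gg [Finite J] [Finite J'] {H : AddSubgroup (J × ι → M)}
    {H' : AddSubgroup (J' × ι → M)} {g : AddSubgroup ((J × ι) ⊕ ι → M)}
    {g' : AddSubgroup ((J' × ι) ⊕ ι → M)} (h : S.HomR r b J H g) (h' : S.HomR r b J' H' g') :
    S.HomR r b (J ⊕ J') (dom H H') (gg g g') where
  ty := isT_gg S h.ty h'.ty
  src := by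
    intro z y hz
    obtain ⟨y1, y2, h1, h2, -⟩ := mem_gg.1 hz
    exact mem_dom.2 ⟨h.src _ _ h1, h'.src _ _ h2⟩
  tgt := by
    intro z y hz
    obtain ⟨y1, y2, h1, h2, rfl⟩ := mem_gg.1 hz
    exact r.add_mem (h.tgt _ _ h1) (h'.tgt _ _ h2)
  ex := by
    intro z hz
    rw [mem_dom] at hz
    obtain ⟨y1, h1⟩ := h.ex _ hz.1
    obtain ⟨y2, h2⟩ := h'.ex _ hz.2
    exact ⟨y1 + y2, mem_gg.2 ⟨y1, y2, h1, h2, rfl⟩⟩
  bb := by
    intro z hz y hy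
    rw [pw_sum] at hz
    exact mem_gg.2 ⟨y, 0, h.bb _ hz.1 _ hy, h'.bb _ hz.2 _ b.zero_mem, (add_zero y).symm⟩
  ker := by
    intro z y hzy hz
    rw [pw_sum] at hz
    obtain ⟨y1, y2, h1, h2, rfl⟩ := mem_gg.1 hzy
    exact b.add_mem (h.ker _ _ h1 hz.1) (h'.ker _ _ h2 hz.2)

theorem inJ_ty {W T : AddSubgroup (ι → M)} (h : S.InJ r b W T) : S.IsT T ∧ b ≤ T ∧ T ≤ r := by
  obtain ⟨J, hJ, H, g, hO, -, hg, rfl⟩ := h
  refine ⟨S.isT_img hg.ty hO.1.1, ?_, ?_⟩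
  · intro y hy
    exact mem_img.2 ⟨0, H.zero_mem, hg.bb _ (pw J b).zero_mem _ hy⟩
  · intro y hy
    obtain ⟨x, -, h1⟩ := mem_img.1 hy
    exact hg.tgt _ _ h1

theorem inJ_dir {W T T' : AddSubgroup (ι → M)} (h : S.InJ r b W T) (h' : S.InJ r b W T') :
    ∃ U, S.InJ r b W U ∧ T ≤ U ∧ T' ≤ U := by
  obtain ⟨J, hJ, H, g, hO, hW, hg, rfl⟩ := h
  obtain ⟨J', hJ', H', g', hO', hW', hg', rfl⟩ := h'
  refine ⟨_, ⟨J ⊕ J', inferInstance, dom H H', gg g g', op_dom S hO hO', ?_, homR_gg S hg hg', rfl⟩,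
    ?_, ?_⟩
  · intro z hz
    rw [mem_dom] at hz
    exact pw_sum.2 ⟨hW hz.1, hW' hz.2⟩
  · intro y hy
    obtain ⟨x, hx, h1⟩ := mem_img.1 hy
    refine mem_img.2 ⟨jn x 0, mem_dom.2 ⟨hx, H'.zero_mem⟩, mem_gg.2 ⟨y, 0, h1, ?_,
      (add_zero y).symm⟩⟩
    rw [re_jn2, elim_zero]
    exact g'.zero_mem
  · intro y hy
    obtain ⟨x, hx, h1⟩ := mem_img.1 hy
    refine mem_img.2 ⟨jn 0 x, mem_dom.2 ⟨H.zero_mem, hx⟩, mem_gg.2 ⟨0, y, ?_, h1,
      (zero_add y).symm⟩⟩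
    rw [re_jn1, elim_zero]
    exact g.zero_mem

theorem inJ_ne {W : AddSubgroup (ι → M)} (hr : S.IsT r) (hb : S.IsT b) (hbr : b ≤ r) :
    ∃ T, S.InJ r b W T := by
  have hpw : ∀ (s : AddSubgroup (ι → M)) (x : Empty × ι → M), x ∈ pw Empty s := fun s x =>
    mem_pw.2 fun j => j.elim
  refine ⟨_, Empty, inferInstance, pw Empty r, pr (pw Empty r) b, ⟨?_, pw_mono hbr⟩,
    fun x _ => hpw W x, ?_, rfl⟩
  · exact Abs.FI.refl (S := S) (S.isT_pw hr)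
  · refine ⟨S.isT_pr (S.isT_pw hr) hb, fun x y h => h.1, fun x y h => hbr h.2,
      fun x hx => ⟨0, elim_mem_pr.2 ⟨hx, b.zero_mem⟩⟩,
      fun x hx y hy => elim_mem_pr.2 ⟨hpw r x, hy⟩, fun x y h _ => h.2⟩

theorem inJ_mono {W W' T : AddSubgroup (ι → M)} (hW : W ≤ W') (h : S.InJ r b W T) :
    S.InJ r b W' T := by
  obtain ⟨J, hJ, H, g, hO, hH, hg, hT⟩ := h
  exact ⟨J, hJ, H, g, hO, hH.trans (pw_mono hW), hg, hT⟩

end IDL

/-- [IDL] 2.4: the ideals `I_m`. -/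
theorem thm_IDL (hA : St_ACC) : St_IDL := by
  intro M _ S ι _ r b V hV
  have key : ∀ m, ∃ u, S.InJ r b (V m) u ∧ ∀ T, S.InJ r b (V m) T → T ≤ u := by
    intro m
    obtain ⟨u, hu, hu'⟩ := (hA M S ι r hV.tr).2 {T | S.InJ r b (V m) T}
      (IDL.inJ_ne S hV.tr hV.tb hV.br)
      (fun T hT => by
        obtain ⟨h1, h2, h3⟩ := IDL.inJ_ty S hT
        exact ⟨h1, hV.cb.trans h2, h3⟩)
      (fun T hT T' hT' => by
        obtain ⟨U, h1, h2, h3⟩ := IDL.inJ_dir S hT hT'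
        exact ⟨U, h1, h2, h3⟩)
    exact ⟨u, hu, fun T hT => hu' T hT⟩
  choose I hI hmax using key
  exact ⟨I, fun m n hmn => hmax m _ (IDL.inJ_mono S (hV.anti hmn) (hI n)),
    fun m => (IDL.inJ_ty S (hI m)).1, fun m => (IDL.inJ_ty S (hI m)).2.1,
    fun m => (IDL.inJ_ty S (hI m)).2.2, hI, hmax⟩

end Pool.Agent.VMA
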