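import Pool.Agent.VMA.St
import Pool.Agent.VMA.Api

/-!
# VMA, [LAT]: invariant lattices
-/

set_option autoImplicit false
set_option linter.unusedSectionVars false
set_option linter.unusedVariables false

namespace Pool.Agent.VMA

open Set

private theorem LAT_fin {G : Type} [AddCommGroup G] {K U : AddSubgroup G} {α : Type} [Finite α]
    (f : U → α) (h : ∀ x y : U, f x = f y → (x : G) - y ∈ K) : K.relIndex U ≠ 0 := by
  have hf : Finite (U ⧸ K.addSubgroupOf U) := by
    refine Finite.of_injective (fun q => f q.out) ?_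
    intro q q' hq
    have h1 := h q'.out q.out hq.symm
    rw [← QuotientAddGroup.out_eq' q, ← QuotientAddGroup.out_eq' q', QuotientAddGroup.eq,
      AddSubgroup.mem_addSubgroupOf]
    have h2 : ((-q.out + q'.out : U) : G) = (q'.out : G) - q.out := by
      rw [AddSubgroup.coe_add, AddSubgroup.coe_neg]; abel
    rw [h2]
    exact h1
  exact AddSubgroup.index_ne_zero_of_finite

section

variable {M : Type} [AddCommGroup M] {ι J : Type}

/-- the elements whose image at the place `j` is in `W` -/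
private noncomputable def LAT_T (g : AddSubgroup ((J × ι) ⊕ ι → M)) (W : AddSubgroup (ι → M)) (j : J) :
    AddSubgroup (ι → M) :=
  ((g ⊓ W.comap pR).map pL).comap (sg j)

private theorem LAT_mem {g : AddSubgroup ((J × ι) ⊕ ι → M)} {W : AddSubgroup (ι → M)} {j : J}
    {x : ι → M} : x ∈ LAT_T g W j ↔ ∃ y ∈ W, Sum.elim (sg j x) y ∈ g := by
  constructor
  · rintro ⟨z, ⟨hz, hz'⟩, h⟩
    refine ⟨pR z, hz', ?_⟩
    rw [← h, elim_pL_pR]
    exact hz
  · rintro ⟨y, hy, h⟩
    exact ⟨Sum.elim (sg j x) y, ⟨h, hy⟩, rfl⟩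

/-- one step -/
private noncomputable def LAT_S (g : AddSubgroup ((J × ι) ⊕ ι → M)) (W : AddSubgroup (ι → M)) :
    AddSubgroup (ι → M) := W ⊓ ⨅ j, LAT_T g W j

private theorem LAT_memS {g : AddSubgroup ((J × ι) ⊕ ι → M)} {W : AddSubgroup (ι → M)}
    {x : ι → M} : x ∈ LAT_S g W ↔ x ∈ W ∧ ∀ j, ∃ y ∈ W, Sum.elim (sg j x) y ∈ g := by
  rw [LAT_S, AddSubgroup.mem_inf, AddSubgroup.mem_iInf]
  simp only [LAT_mem]

end

theorem thm_LAT (h1 : St_LCT) : St_LAT := by
  intro M _ S ι _ r b U J _ H g hr hb hcb hbr hOp hg hU hbU hUH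
  have : Fintype J := Fintype.ofFinite J
  have hgT : S.IsT g := hg.ty
  -- one step
  have step : ∀ W : AddSubgroup (ι → M), S.FI W r → b ≤ W → W ≤ U →
      S.FI (LAT_S g W) r ∧ b ≤ LAT_S g W ∧ LAT_S g W ≤ U := by
    intro W hW hbW hWU
    refine ⟨⟨?_, inf_le_left.trans hW.le, ?_⟩, ?_, inf_le_left.trans hWU⟩
    · refine S.isT_inf hW.ty (S.isT_iInf fun j => ?_)
      exact S.isT_comap (isZ_sg j) (S.isT_map isZ_pL (S.isT_inf hgT (S.isT_comap isZ_pR hW.ty)))
    · have hT : ∀ j, (LAT_T g W j ⊓ U).relIndex r ≠ 0 := by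
        intro j
        have hex : ∀ x : U, ∃ y : r, Sum.elim (sg j (x : ι → M)) (y : ι → M) ∈ g := by
          intro x
          obtain ⟨y, hy⟩ := hg.ex (sg j (x : ι → M)) (hUH (sg_mem_pw x.2))
          exact ⟨⟨y, hg.tgt _ _ hy⟩, hy⟩
        choose f hf using hex
        have hfin : (W.addSubgroupOf r).FiniteIndex := ⟨hW.ne⟩
        have : Finite (r ⧸ W.addSubgroupOf r) := AddSubgroup.finite_quotient_of_finiteIndex
        have h2 : (LAT_T g W j ⊓ U).relIndex U ≠ 0 := by
          refine LAT_fin (fun x => (QuotientAddGroup.mk (f x) : r ⧸ W.addSubgroupOf r)) ?_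
          intro x y hxy
          refine AddSubgroup.mem_inf.2 ⟨?_, U.sub_mem x.2 y.2⟩
          rw [LAT_mem]
          refine ⟨(f x : ι → M) - f y, ?_, ?_⟩
          · have h3 := QuotientAddGroup.eq.mp hxy.symm
            rw [AddSubgroup.mem_addSubgroupOf, AddSubgroup.coe_add, AddSubgroup.coe_neg] at h3
            have h4 : (f x : ι → M) - f y = -(f y : ι → M) + f x := by abel
            rw [h4]
            exact h3
          · rw [map_sub, elim_sub]
            exact g.sub_mem (hf x) (hf y)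
        exact AddSubgroup.relIndex_ne_zero_trans h2 hU.ne
      have h3 : (W ⊓ ⨅ j, (LAT_T g W j ⊓ U)).relIndex r ≠ 0 :=
        AddSubgroup.relIndex_inf_ne_zero hW.ne (AddSubgroup.relIndex_iInf_ne_zero hT)
      refine fun h0 => h3 (AddSubgroup.relIndex_eq_zero_of_le_left ?_ h0)
      exact inf_le_inf le_rfl (iInf_mono fun j => inf_le_left)
    · intro x hx
      rw [LAT_memS]
      exact ⟨hbW hx, fun j => ⟨0, W.zero_mem, hg.bb _ (sg_mem_pw hx) 0 b.zero_mem⟩⟩
  -- the sequence
  let V : ℕ → AddSubgroup (ι → M) := fun n => (LAT_S g)^[n] U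
  have hV0 : V 0 = U := rfl
  have hVs : ∀ n, V (n + 1) = LAT_S g (V n) := fun n => Function.iterate_succ_apply' _ _ _
  have hV : ∀ n, S.FI (V n) r ∧ b ≤ V n ∧ V n ≤ U := by
    intro n
    induction n with
    | zero => exact ⟨hU, hbU, le_rfl⟩
    | succ n ih => rw [hVs]; exact step _ ih.1 ih.2.1 ih.2.2
  have hanti : Antitone V := antitone_nat_of_succ_le fun n => by
    rw [hVs]; exact inf_le_left
  obtain ⟨N, hN⟩ := h1 M S ι r V hr hanti (fun n => (hV n).1) (by
    intro n γ hγ htriv x hx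
    rw [hV0] at hx
    rw [hVs, LAT_memS]
    have hxr : x ∈ r := hU.2.1 hx
    refine ⟨htriv x hxr, fun j => ?_⟩
    obtain ⟨y, hy⟩ := hg.ex (sg j x) (hUH (sg_mem_pw hx))
    have hyr := hg.tgt _ _ hy
    refine ⟨(fun i => γ (y i)) - y, htriv y hyr, ?_⟩
    have h2 := S.inv_t hgT hγ hy
    have h3 : (fun i => γ ((Sum.elim (sg j x) y : (J × ι) ⊕ ι → M) i)) =
        Sum.elim (sg j fun i => γ (x i)) (fun i => γ (y i)) := by
      funext i
      rcases i with p | i
      · simp only [Sum.elim_inl, sg_apply]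
        split_ifs <;> simp
      · rfl
    rw [h3] at h2
    rw [map_sub, elim_sub]
    exact g.sub_mem h2 hy)
  refine ⟨V N, (hV N).1, (hV N).2.1, (hV N).2.2, ?_⟩
  have hfix : V (N + 1) = V N := hN (N + 1) (Nat.le_succ N)
  intro y hy
  obtain ⟨x, hx, hxy⟩ := mem_img.1 hy
  rw [mem_pw] at hx
  have hex : ∀ j, ∃ z ∈ V N, Sum.elim (sg j fun i => x (j, i)) z ∈ g := by
    intro j
    have h2 := hx j
    rw [← hfix, hVs, LAT_memS] at h2
    exact h2.2 j
  choose z hz hz' using hex
  have h2 : Sum.elim x (∑ j, z j) ∈ g := by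
    have h3 : (Sum.elim x (∑ j, z j) : (J × ι) ⊕ ι → M) =
        ∑ j, Sum.elim (sg j fun i => x (j, i)) (z j) := by
      funext i
      rcases i with p | i
      · rw [Sum.elim_inl, Finset.sum_apply]
        simp only [Sum.elim_inl]
        have h4 := congrFun (sum_sg x) p
        rw [Finset.sum_apply] at h4
        exact h4
      · rw [Sum.elim_inr, Finset.sum_apply, Finset.sum_apply]
        rfl
    rw [h3]
    exact g.sum_mem fun j _ => hz' j
  have h3 : Sum.elim (0 : J × ι → M) (y - ∑ j, z j) ∈ g := by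
    have := g.sub_mem hxy h2
    rwa [← elim_sub, sub_self] at this
  have h4 : y - ∑ j, z j ∈ b := hg.ker _ _ h3 (AddSubgroup.zero_mem _)
  have h5 : y = (y - ∑ j, z j) + ∑ j, z j := by abel
  rw [h5]
  exact (V N).add_mem ((hV N).2.1 h4) ((V N).sum_mem fun j _ => hz j)

end Pool.Agent.VMA
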