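import Pool.Agent.VMA.Defs

/-!
# VMA: the statements (Claim A in an abstract saturated structure)

Every `def St_X : Prop` is a module `VMA/X.lean` with `theorem thm_X : St_X` or
`theorem thm_X (h : St_Y) : St_X` (cite the other statements as hypotheses).
Basic lemmas (types are closed under intersections, images, sums, ..) are in `VMA/Api.lean`.
`SAT` = saturation over finite tuples for countably many conditions (`Abs.sat`, `sat_t` in Api).
-/

set_option autoImplicit false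
set_option linter.unusedSectionVars false
set_option linter.unusedVariables false

namespace Pool.Agent.VMA

open Set

/-! ### 1. Tools -/

/-- [CPT] 1.2, compactness.
Proof. Suppose not: for every `n` some `x ∈ p n` is in no coset `c i + ψ i`. SAT with the parameters
`c` and the conditions `x ∈ p n` (all `n`), `x - c i ∉ ψ i` gives `x` in all `p n` outside the
cosets. (The condition `x - c i ∈ ψ i` is a formula in `(c, x)`: `comap_mem` for an integer
matrix.) -/
def St_CPT : Prop :=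
  ∀ (M : Type) [AddCommGroup M] (S : Abs M) (ι : Type) [Finite ι] (p : ℕ → AddSubgroup (ι → M)),
    Antitone p → (∀ n, S.IsT (p n)) → ∀ (k : ℕ) (c : Fin k → ι → M)
    (ψ : Fin k → AddSubgroup (ι → M)), (∀ i, ψ i ∈ S.PP ι) →
    (∀ x, (∀ n, x ∈ p n) → ∃ i, x - c i ∈ ψ i) → ∃ n, ∀ x ∈ p n, ∃ i, x - c i ∈ ψ i

/-- [FIF] 1.3: types of finite index are given by one formula.
Proof. `s = ⨅ φ_n` with a decreasing sequence of formulas (`IsT.seq` in Api); the subgroups
`q ⊓ φ_n` are between `s` and `q`; as the index of `s` in `q` is finite the relative indices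
`(q ⊓ φ_n).relIndex q` are bounded and increasing, so `q ⊓ φ_n` is constant for large `n`, so equal
to `s`. -/
def St_FIF : Prop :=
  ∀ (M : Type) [AddCommGroup M] (S : Abs M) (ι : Type) [Finite ι] (s q : AddSubgroup (ι → M)),
    S.FI s q → ∃ ψ ∈ S.PP ι, s = q ⊓ ψ

/-- [CHN] 1.3: a cofinal chain of types of finite index.
Proof. `{s | FI s q}` is countable ([FIF], `cnt`), nonempty (`q`), closed under finite
intersections. Enumerate, intersect. -/
def St_CHN : Prop :=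
  ∀ (M : Type) [AddCommGroup M] (S : Abs M) (ι : Type) [Finite ι] (q : AddSubgroup (ι → M)),
    S.IsT q → ∃ Q : ℕ → AddSubgroup (ι → M), Antitone Q ∧ (∀ n, S.FI (Q n) q) ∧
      (∀ s, S.FI s q → ∃ n, Q n ≤ s) ∧ ⨅ n, Q n = S.con q

/-- [CNQ] 1.3: types which contain the connected component.
Proof. `Q` from [CHN], [CPT] with one coset (`k = 1`, `c = 0`): if `con q ≤ φ` then `Q n ≤ φ` for
some `n`. If `s = ⨅ φ_n` then the `φ_n ⊓ q` have finite index in `q` (contain some `Q m`) and are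
types of finite index; the rest follows. -/
def St_CNQ : Prop :=
  ∀ (M : Type) [AddCommGroup M] (S : Abs M) (ι : Type) [Finite ι] (q : AddSubgroup (ι → M)),
    S.IsT q → S.IsT (S.con q) ∧ S.con q ≤ q ∧
      (∀ φ ∈ S.PP ι, S.con q ≤ φ → ∃ s, S.FI s q ∧ s ≤ φ) ∧
      ∀ s, S.IsT s → S.con q ≤ s → s ≤ q →
        (∀ x ∈ q, (∀ p, S.FI p q → s ≤ p → x ∈ p) → x ∈ s) ∧
        (s ≠ q → ∃ p, S.FI p q ∧ s ≤ p ∧ p ≠ q)

/-- [CNC] 1.4: the connected component is connected.
Proof. Let `p` be of finite index in `con q`, `p = con q ⊓ ψ` ([FIF]); `con q` is contained in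
finitely many cosets `c i + ψ`, so some `Q n` of [CHN] is ([CPT]), so `Q n ⊓ ψ` has finite index in
`Q n`, hence in `q`, and `con q ≤ ψ`. Second part: `FI p q → FI (p ⊓ s) s`; and for `FI p s` the
type `p ⊓ con q` has finite index in `con q`. Third part: `FI p q → FI (pw J p) (pw J q)`;
conversely for `FI p (pw J q)` and `j : J` the preimage of `p` in `q` (at the place `j`, zero
elsewhere) has finite index in `q`, so it contains `con q`; an element of `pw J (con q)` is a sum of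
such. -/
def St_CNC : Prop :=
  ∀ (M : Type) [AddCommGroup M] (S : Abs M) (ι : Type) [Finite ι] (q : AddSubgroup (ι → M)),
    S.IsT q → S.Conn (S.con q) ∧
      (∀ s, S.IsT s → S.con q ≤ s → s ≤ q → S.con s = S.con q) ∧
      ∀ (J : Type) [Finite J], S.con (pw J q) = pw J (S.con q)

/-- [GEN] 1.5: generic elements.
Proof. SAT over the parameters `(c, z)`: conditions `z' - z ∈ q` and `(c, z') ∉ φ` for all (countably
many) `φ` with `(fib φ).relIndex q = 0`. Finitely many are solvable: the solutions of `(c, z') ∈ φ`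
form a coset of `fib φ` (or nothing), and `z + q` is not covered by finitely many cosets of
subgroups of infinite index (B. H. Neumann; in Mathlib `AddSubgroup.exists_finiteIndex_of_leftCoset_cover`
in the group `q`). Second part: if `q` is connected then `(fib φ).relIndex q ≠ 0` implies
`q ≤ fib φ`. -/
def St_GEN : Prop :=
  ∀ (M : Type) [AddCommGroup M] (S : Abs M) (ι κ : Type) [Finite ι] [Finite κ]
    (q : AddSubgroup (κ → M)) (c : ι → M) (z : κ → M), S.IsT q →
    (∃ z', z' - z ∈ q ∧ ∀ φ ∈ S.PP (ι ⊕ κ), Sum.elim c z' ∈ φ → (fib φ).relIndex q ≠ 0) ∧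
    (S.Conn q → ∃ z', z' - z ∈ q ∧ q ≤ fib (S.pp (Sum.elim c z')))

/-- [CNJ] 1.6: conjugation.
Proof. By [GEN] take `x1 ∈ x + b`, `x1' ∈ x' + b` with `b ≤ fib (pp (a, x1))`,
`b ≤ fib (pp (a, x1'))`. Then `pp (a, x1) = pp (a, x) ⊔ b.map iR` (both inclusions are clear:
`(a, x1) = (a, x) + (0, x1 - x)`), so `pp (a, x1) = pp (a, x1')`, and `hom` gives `γ`. `b` is
invariant. -/
def St_CNJ : Prop :=
  ∀ (M : Type) [AddCommGroup M] (S : Abs M) (ι κ : Type) [Finite ι] [Finite κ]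
    (b : AddSubgroup (κ → M)) (a : ι → M) (x x' : κ → M), S.Conn b →
    S.pp (Sum.elim a x) ⊔ b.map iR = S.pp (Sum.elim a x') ⊔ b.map iR →
    ∃ γ ∈ S.Gam, (∀ i, γ (a i) = a i) ∧ (fun k => γ (x k)) - x' ∈ b

/-- [TOP] 1.7: finitely many maximal types of finite index.
Proof. Suppose there are infinitely many. Between a type of finite index and `r` there are only
finitely many subgroups, so one can choose `m_0, m_1, ..` maximal with `⨅_(j < i) m_j` not contained
in `m_i`, so `m_i ⊔ ⨅_(j < i) m_j = r`. Then for each `E : Set ℕ` and `n` there is `x ∈ r` with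
`x ∈ m_i ↔ i ∈ E` for `i < n` (induction: correct `x` by an element of `⨅_(j < i) m_j`). With
`m_i = r ⊓ ψ_i` ([FIF]) SAT gives `x_E ∈ r` with `x_E ∈ m_i ↔ i ∈ E` for all `i`. `E ↦ x_E` is
injective, but `M` (so `ι → M`) is countable. -/
def St_TOP : Prop :=
  ∀ (M : Type) [AddCommGroup M] (S : Abs M) (ι : Type) [Finite ι] (r : AddSubgroup (ι → M)),
    S.IsT r → {m | S.IsMx m r}.Finite

/-- [NAK] 1.8.
Proof. [CNQ]: `s ≤ p` for some `p ≠ r` of finite index; between `p` and `r` there are only finitely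
many types, so there is a maximal one which is not `r`. -/
def St_NAK : Prop :=
  ∀ (M : Type) [AddCommGroup M] (S : Abs M) (ι : Type) [Finite ι] (r s : AddSubgroup (ι → M)),
    S.IsT r → S.IsT s → S.con r ≤ s → s ≤ r → s ≠ r → ∃ m, S.IsMx m r ∧ s ≤ m

/-- [ACC] 1.9.
Proof. First part. `r` := intersection of all formulas which contain all `s n`; `con q ≤ s n ≤ r ≤ q`,
`con r = con q` ([CNC]). For each of the finitely many ([TOP]) `m` with `IsMx m r` some `s i` is not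
contained in `m` (`m = r ⊓ ψ` ([FIF]); if all `s i ≤ ψ` then `r ≤ ψ`). So for a large `i` the type
`s i` is in no maximal `m`, and `s i = r` by [NAK]. Second part: from the first one. -/
def St_ACC : Prop :=
  ∀ (M : Type) [AddCommGroup M] (S : Abs M) (ι : Type) [Finite ι] (q : AddSubgroup (ι → M)),
    S.IsT q →
    (∀ s : ℕ → AddSubgroup (ι → M), Monotone s →
      (∀ n, S.IsT (s n) ∧ S.con q ≤ s n ∧ s n ≤ q) → ∃ n, ∀ m, n ≤ m → s m = s n) ∧
    ∀ D : Set (AddSubgroup (ι → M)), D.Nonempty →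
      (∀ s ∈ D, S.IsT s ∧ S.con q ≤ s ∧ s ≤ q) → (∀ s ∈ D, ∀ t ∈ D, ∃ u ∈ D, s ≤ u ∧ t ≤ u) →
      ∃ u ∈ D, ∀ s ∈ D, s ≤ u

/-- [Q1]: the structure of `q1 q`.
Proof. The types `χ ⊔ con q`, `χ` a formula `≤ q`, are directed; let `χ ⊔ con q` be the largest one
([ACC]). It is contained in every member of the set which defines `q1`; conversely it is the
intersection of the types of finite index which contain it ([CNQ]), and these are in that set. -/
def St_Q1 : Prop :=
  ∀ (M : Type) [AddCommGroup M] (S : Abs M) (ι : Type) [Finite ι] (q : AddSubgroup (ι → M)),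
    S.IsT q → S.IsT (S.q1 q) ∧ S.con q ≤ S.q1 q ∧ S.q1 q ≤ q ∧
      (∃ χ ∈ S.PP ι, χ ≤ q ∧ S.q1 q = χ ⊔ S.con q) ∧ ∀ χ ∈ S.PP ι, χ ≤ q → χ ≤ S.q1 q

/-- [OPN] 1.10: open orbits.
Proof (without Baire). Suppose not. Let `Q` be the chain of [CHN] for `q`, `con q` is connected. For
`s ∈ 2^(< ω)` construct `x_s` with `con q ≤ fib (pp (a, x_s))` and `n_s`, `x_s - y ∈ p`, as
follows. `Q (n_()) ≤ p`, `x_()` generic in `y + con q` ([GEN] second part). Given `x_s`, `n_s`: as
`fib (pp (a, x_s))` has infinite index in `q` it does not contain `Q (n_s)`, so there are a formula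
`φ_s` with `(a, x_s) ∈ φ_s` and `v ∈ Q (n_s)`, `v ∉ fib φ_s`. As `con q ≤ fib φ_s` there is
`n' > n_s` with `Q n' ≤ fib φ_s` ([CNQ]). Put `x_(s0) := x_s`, `x_(s1) :=` generic in
`x_s + v + con q`, `n_(s0) = n_(s1) = n'`. Then `(a, x) ∈ φ_s` for `x ∈ x_(s0) + Q n'` and
`(a, x) ∉ φ_s` for `x ∈ x_(s1) + Q n'`. For `β ∈ 2^ω` SAT over `a` gives `z_β` with
`(a, z_β) ∈ φ_s ↔ s0 < β` for all `s < β` (finitely many conditions are solved by `x_(β | n)`, as
`x_t ∈ x_s + Q (n_s)` for `s ≤ t`). The `z_β` are different, but `M` is countable. -/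
def St_OPN : Prop :=
  ∀ (M : Type) [AddCommGroup M] (S : Abs M) (ι κ : Type) [Finite ι] [Finite κ]
    (q p : AddSubgroup (κ → M)) (a : ι → M) (y : κ → M), S.IsT q → y ∈ q → S.FI p q →
    ∃ x, x - y ∈ p ∧ (fib (S.pp (Sum.elim a x))).relIndex q ≠ 0

/-- [FIN] 1.11: the pp-definable closure of `a` modulo `I` is finite.
Proof. `D := {z ∈ q | fib (pp (a, z)) ≤ I}` is a subgroup containing `I`
(`fib (pp (a, z + z')) ≤ fib (pp (a, z)) ⊔ fib (pp (a, z'))`, and `fib (pp (a, z)) ≤ I` if `z ∈ I`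
is not needed: use `D` as a set closed under `+`, `-` and under adding elements of `I`). Suppose
infinitely many classes modulo `I`. `Q` := chain of [CHN], `⨅ (Q n ⊔ I) = I` (SAT or [CNQ]). Choose
`d_0, d_1, ..` in `D` and `n_0 < n_1 < ..` with `d_i ∈ Q (n_i) ⊔ I`, `d_i ∉ Q (n_(i+1)) ⊔ I`
(infinitely many classes, so some non-zero class in the subgroup `Q n ⊔ I` of finite index). For
`E : Set ℕ` put `z_k := ∑_(i < k, i ∈ E) d_i`, `Ξ_k := pp (a, z_k) ⊔ (I ⊔ Q (n_k)).map iR`. As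
`fib (pp (a, z_k)) ≤ I`: `(a, x) ∈ Ξ_k ↔ x - z_k ∈ I ⊔ Q (n_k)`. SAT over `a`: there is `z_E` with
`(a, z_E) ∈ Ξ_k` for all `k`. The `z_E` are different, but `M` is countable. -/
def St_FIN : Prop :=
  ∀ (M : Type) [AddCommGroup M] (S : Abs M) (ι κ : Type) [Finite ι] [Finite κ]
    (q I : AddSubgroup (κ → M)) (a : ι → M), S.IsT q → S.IsT I → S.con q ≤ I → I ≤ q →
    ∃ E : Set (κ → M), E.Finite ∧ ∀ z ∈ q, fib (S.pp (Sum.elim a z)) ≤ I → ∃ e ∈ E, z - e ∈ I

/-! ### 2. The chain `V` and the radical -/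

/-- [FLT]: existence of the chain, cofinality.
Proof. First part: as [CHN], for the types of finite index in `r` which contain `b`; the intersection
is `b` by [CNQ]. Second and third part: [FIF], and [CPT] for the chain `V n`, `pw J (V n)` with
intersection `b`, `pw J b`. -/
def St_FLT : Prop :=
  (∀ (M : Type) [AddCommGroup M] (S : Abs M) (ι : Type) [Finite ι] (r b : AddSubgroup (ι → M)),
    S.IsT r → S.IsT b → S.con r ≤ b → b ≤ r → ∃ V, S.Flt r b V) ∧
  (∀ (M : Type) [AddCommGroup M] (S : Abs M) (ι : Type) [Finite ι] (r b : AddSubgroup (ι → M))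
    (V : ℕ → AddSubgroup (ι → M)), S.Flt r b V → ∀ s, S.FI s r → b ≤ s → ∃ n, V n ≤ s) ∧
  (∀ (M : Type) [AddCommGroup M] (S : Abs M) (ι : Type) [Finite ι] (r b : AddSubgroup (ι → M))
    (V : ℕ → AddSubgroup (ι → M)), S.Flt r b V → ∀ (J : Type) [Finite J]
    (H : AddSubgroup (J × ι → M)), S.Op r b J H → ∃ n, pw J (V n) ≤ H)

/-- [LCT] 2.1: the counting lemma.
Proof. `e := (U 0).relIndex r`, `t_1, .., t_e ∈ r` representatives of `r / U 0`.
Upper bound. If `γ, δ` have the same action on `r / U 0` and `γ t_i ≡ δ t_i` modulo `U n` for all `i`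
then they have the same action on `r / U n` (induction on `n`: if `δ⁻¹ γ` is trivial on `r / U n` then
`δ⁻¹ γ x - x ∈ U (n+1)` for `x ∈ U 0` by hypothesis, and also for `x = t_i`, so for all `x ∈ r`). So
the action of `γ` on `r / U n` takes at most `C * e_n ^ e` values, `C` the number of maps
`r / U 0 → r / U 0`, `e_n := (U n).relIndex r`.
Lower bound. Let `J := Fin (e + 1)`. [OPN] for `pw J r` (with `ι` empty) gives `x ∈ pw J r` with
`Λ := pp x` of finite index in `pw J r`. `Rad := Λ ⊓ ⨅ (the finitely many maximal m of Λ)` ([TOP]).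
For `u ∈ Rad` the element `x + u ∈ Λ` is in no maximal `m` (`x` is not), so
`pp (x + u) ⊔ con Λ = Λ = pp x ⊔ con Λ` by [NAK], `con Λ = pw J (con r)` is connected ([CNC]), so
[CNJ] (with `ι` empty) gives `γ` with `γ x - x - u ∈ pw J (con r) ≤ pw J (U n)`. So the values
`γ x` modulo `pw J (U n)` are at least `[pw J r : pw J (U n)] / [pw J r : Rad] = e_n ^ (e + 1) / C'`
in number. Together `e_n ≤ C * C'` for all `n`; as `U` is decreasing it is constant for large
`n`. -/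
def St_LCT : Prop :=
  ∀ (M : Type) [AddCommGroup M] (S : Abs M) (ι : Type) [Finite ι] (r : AddSubgroup (ι → M))
    (U : ℕ → AddSubgroup (ι → M)), S.IsT r → Antitone U → (∀ n, S.FI (U n) r) →
    (∀ n, ∀ γ ∈ S.Gam, (∀ x ∈ r, (fun i => γ (x i)) - x ∈ U n) →
      ∀ x ∈ U 0, (fun i => γ (x i)) - x ∈ U (n + 1)) → ∃ N, ∀ n, N ≤ n → U n = U N

/-- [LAT] 2.1: invariant lattices.
Proof. For `j : J` and `x : ι → M` let `x e_j : J × ι → M` be `x` at the place `j` and zero elsewhere.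
`U_0 := U`, `U_(n+1) := {x ∈ U_n | ∀ j, ∀ y, (x e_j, y) ∈ g → y ∈ U_n}`; because of `HomR.ker` and
`b ≤ U_n` one may also say `∃ y`; so `U_(n+1)` is a type, of finite index, contains `b`. Hypothesis of
[LCT]: let `γ` be trivial on `r / U_n`, `x ∈ U`, `(x e_j, y) ∈ g`. Then
`((γ x - x) e_j, γ y - y) ∈ g` (`g` is invariant) and `γ y - y ∈ U_n` as `y ∈ r`; and
`γ x - x ∈ U_n`; so `γ x - x ∈ U_(n+1)`. By [LCT] `U_(n+1) = U_n =: U'` for some `n`. An element of
`pw J U'` is the sum of the `x_j e_j`, so `img g (pw J U') ≤ U'`. -/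
def St_LAT : Prop :=
  ∀ (M : Type) [AddCommGroup M] (S : Abs M) (ι : Type) [Finite ι] (r b U : AddSubgroup (ι → M))
    (J : Type) [Finite J] (H : AddSubgroup (J × ι → M)) (g : AddSubgroup ((J × ι) ⊕ ι → M)),
    S.IsT r → S.IsT b → S.con r ≤ b → b ≤ r → S.Op r b J H → S.HomR r b J H g → S.FI U r →
    b ≤ U → pw J U ≤ H → ∃ U', S.FI U' r ∧ b ≤ U' ∧ U' ≤ U ∧ img g (pw J U') ≤ U'

/-- [SSP] 2.2 (iii): powers of semisimple pairs are semisimple.
Proof. Products: let `A = d1 / c1`, `B = d2 / c2` be semisimple, `s` between `pr c1 c2` and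
`pr d1 d2`. `t2` := complement of `{y ∈ d2 | (0, y) ∈ s}` (it contains `c2`) in `[c2, d2]`, `t1` :=
complement of `{x ∈ d1 | ∃ y, (x, y) ∈ s}` in `[c1, d1]`. Then `pr t1 t2` is a complement of `s`
(if `(x, y) ∈ s`, `x ∈ t1`, `y ∈ t2` then `x ∈ c1`, so `(0, y) ∈ s`, `y ∈ c2`). Then induction on the
finite type `J` (`Finite.induction_empty_option`; semisimple pairs are preserved by reindexing along
equivalences), `Option J × ι ≃ (J × ι) ⊕ ι`. -/
def St_SSP : Prop :=
  ∀ (M : Type) [AddCommGroup M] (S : Abs M) (ι J : Type) [Finite ι] [Finite J]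
    (c d : AddSubgroup (ι → M)), S.SS c d → S.SS (pw J c) (pw J d)

/-- [LLS] 2.2 (i): subobjects.
Proof. Induction on `t`: `LL t c e`, `SS e d`: `e ⊓ s` for the chain; `SS (e ⊓ s) s`: for `w` between
take the complement `k` of `w ⊔ e` in `[e, d]`; `k ⊓ s` is a complement of `w` in `[e ⊓ s, s]`
(modular law). -/
def St_LLS : Prop :=
  ∀ (M : Type) [AddCommGroup M] (S : Abs M) (ι : Type) [Finite ι] (t : ℕ)
    (c d s : AddSubgroup (ι → M)), S.LL t c d → S.IsT s → c ≤ s → s ≤ d → S.LL t c s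

/-- [LLI] 2.2 (ii): images.
Proof. Induction on `t` with `s` replaced by the members of the chain: for `SS e s` the pair
`(img g e ⊔ d, s')` is semisimple: given `w` between, `w' := {x ∈ s | ∃ y ∈ w, (x, y) ∈ g}` contains
`e`; let `k` be a complement of `w'` in `[e, s]`; then `img g k ⊔ d` is a complement of `w`. Finite
index: the map induces a surjection of `s / e` onto `s' / (img g e ⊔ d)`. -/
def St_LLI : Prop :=
  ∀ (M : Type) [AddCommGroup M] (S : Abs M) (ι κ : Type) [Finite ι] [Finite κ] (t : ℕ)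
    (c s : AddSubgroup (ι → M)) (d s' : AddSubgroup (κ → M)) (g : AddSubgroup (ι ⊕ κ → M)),
    S.IsT g → S.IsT d → S.IsT s' → d ≤ s' → S.LL t c s →
    (∀ x ∈ c, ∀ y, Sum.elim x y ∈ g → y ∈ d) → (∀ x ∈ s, ∃ y, Sum.elim x y ∈ g) →
    (∀ x ∈ s, ∀ y, Sum.elim x y ∈ g → y ∈ s') →
    (∀ y ∈ s', ∃ x ∈ s, ∃ y0, Sum.elim x y0 ∈ g ∧ y - y0 ∈ d) → S.LL t d s'

/-- [LLE] 2.2 (iv), (v): existence of Loewy chains; the radical.
Proof. (1) Induction on the relative index: if `c ≠ d` take a maximal type `e`, `c ≤ e < d`; `SS e d`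
(only two types between) and `LL t c e` by induction. (2) Let `D` be the intersection of `d` and
all maximal `m ≥ e`; if `D ≠ e` let `k` be a complement of `D` in `[e, d]`; `k ≠ d`, so `k` is
contained in some maximal `m` (finite index), `m ≥ D ⊔ k = d`: contradiction. -/
def St_LLE : Prop :=
  ∀ (M : Type) [AddCommGroup M] (S : Abs M) (ι : Type) [Finite ι],
    (∀ c d : AddSubgroup (ι → M), S.IsT c → S.IsT d → c ≤ d → c.relIndex d ≠ 0 →
      ∃ t, S.LL t c d) ∧
    ∀ e d : AddSubgroup (ι → M), S.SS e d → ∀ x ∈ d, (∀ m, S.IsMx m d → e ≤ m → x ∈ m) → x ∈ e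

/-- [NOE] 2.3: no expansion.
Proof. `R` is not `≤ b` (finite and infinite index), so by [FLT] and `⨅ V n = b` there is `n` with
`pw J (V n) ≤ H` and not `R ≤ V n`. `U := V n`, `U'` from [LAT]. By [LLE] let `t` be least with
`LL t U' (R ⊔ U')`; `t ≠ 0` as not `R ≤ U'`; so `LL (t-1) U' e`, `SS e (R ⊔ U')`. For each maximal
`m' ≥ e` of `R ⊔ U'` the type `m' ⊓ R` is maximal in `R` (modular law: `R ⊔ m' = R ⊔ U'`) and
contains `b`; so `Rad ≤ m'`, and so `Rad ≤ e` ([LLE] (2); `Rad ≤ R` may be assumed: replace `Rad` by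
`Rad ⊓ R`, `H ≤ pw J (Rad ⊓ R)` needs `H ≤ pw J R`, given). So `H ⊔ pw J U' ≤ pw J e`, and
`LL (t-1) (pw J U') (H ⊔ pw J U')` by [SSP] (powers of the chain) and [LLS]. The relation
`g' := g ⊔ pr (pw J U') U'` satisfies the hypotheses of [LLI] for `c = pw J U'`,
`s = H ⊔ pw J U' = H`, `d = U'`, `s' = R ⊔ U'`: if `x ∈ pw J U'`, `(x, y) ∈ g'` then `y ∈ U'` because
`img g (pw J U') ≤ U'`. So `LL (t-1) U' (R ⊔ U')`: contradiction. -/
def St_NOE : Prop :=
  ∀ (M : Type) [AddCommGroup M] (S : Abs M) (ι : Type) [Finite ι]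
    (r b R Rad : AddSubgroup (ι → M)) (V : ℕ → AddSubgroup (ι → M)) (J : Type) [Finite J]
    (H : AddSubgroup (J × ι → M)) (g : AddSubgroup ((J × ι) ⊕ ι → M)),
    S.Flt r b V → b.relIndex r = 0 → S.FI R r → b ≤ R → Rad ≤ R →
    (∀ m, S.IsMx m R → b ≤ m → Rad ≤ m) → S.Op r b J H → H ≤ pw J Rad → S.HomR r b J H g →
    img g H ≠ R

/-- [IDL] 2.4: the ideals `I_m`.
Proof. For each `m` the set of all `T` with `InJ r b (V m) T` is not empty (`J` empty, or `J = Unit`,
`H = V m`, `g = pr (V m) b`: image `b`), directed (`J ⊕ J'`, `H × H'`,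
`{(x, x', y) | ∃ y1 y2, (x, y1) ∈ g, (x', y2) ∈ g', y = y1 + y2}`), its members are types between `b`
and `r`; [ACC] gives the largest one. `V (m+1) ≤ V m` gives `Antitone`. -/
def St_IDL : Prop :=
  ∀ (M : Type) [AddCommGroup M] (S : Abs M) (ι : Type) [Finite ι] (r b : AddSubgroup (ι → M))
    (V : ℕ → AddSubgroup (ι → M)), S.Flt r b V → ∃ I, S.Idl r b V I

/-- [NOP] 2.4: the intersection of the `I_m` is not of finite index.
Proof. Suppose it has finite index; then `I m = R := ⨅ I` for `m ≥ m0` (decreasing, finitely many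
subgroups between). `Rad := R ⊓ ⨅ (the finitely many ([TOP]) maximal types of R which contain b)`
has finite index, so `V m ≤ Rad` for some `m ≥ m0` ([FLT]). `Idl.mem m` gives `J, H, g` with
`H ≤ pw J (V m) ≤ pw J Rad`, `R = img g H`: contradiction to [NOE]. -/
def St_NOP : Prop :=
  ∀ (M : Type) [AddCommGroup M] (S : Abs M) (ι : Type) [Finite ι] (r b : AddSubgroup (ι → M))
    (V I : ℕ → AddSubgroup (ι → M)), S.Flt r b V → b.relIndex r = 0 → S.Idl r b V I →
    (⨅ m, I m).relIndex r = 0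

/-! ### 3. The sequence -/

/-- [STP] 2.5 (m), (i), (ii), (a).
Proof. `E` from [FIN] for `a`, `K`. For `e ∈ E`, `e ∉ K`, one has `e ∉ V m ⊔ K` for large `m`
(`⨅ (V m ⊔ K) = K`, SAT); choose such an `m > n0` for all the finitely many `e`. `V m` is not `≤ K`
(finite and infinite index): `y ∈ V m`, `y ∉ K`, so `y ∉ V l ⊔ K` for some `l ≥ m`. [OPN] with
`p = V l`: `x - y ∈ V l`, so `x ∈ V m`, `x ∉ K`. Let `c ∈ r`, `pp c ⊔ b = pp x ⊔ b`,
`fib (pp (a, c)) ≤ K`. Then `c ∈ pp x ⊔ b ≤ V m`, and `c - e ∈ K` for some `e ∈ E`, so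
`e ∈ V m ⊔ K`, so `e ∈ K`, so `c ∈ K`, so `x ∈ pp c ⊔ b ≤ K`: contradiction. -/
def St_STP : Prop :=
  ∀ (M : Type) [AddCommGroup M] (S : Abs M) (ι α : Type) [Finite ι] [Finite α]
    (r b K : AddSubgroup (ι → M)) (V : ℕ → AddSubgroup (ι → M)) (a : α → M) (n0 : ℕ),
    S.Flt r b V → S.IsT K → b ≤ K → K ≤ r → K.relIndex r = 0 →
    ∃ (m : ℕ) (x : ι → M), n0 < m ∧ x ∈ V m ∧ x ∉ K ∧
      (fib (S.pp (Sum.elim a x))).relIndex r ≠ 0 ∧
      ∀ c ∈ r, S.pp c ⊔ b = S.pp x ⊔ b → ¬ fib (S.pp (Sum.elim a c)) ≤ K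

/-- [STQ] 2.5 (b).
Proof. `K := ⨅ I m`. Suppose for each `m` there is `c_m` with `pp c_m ⊔ b = pp x ⊔ b =: rx`,
`fib (pp (a, c_m)) ≤ I m` (the sets decrease with `m`). The `V n` have finite index in `r`: by a
diagonal argument there is an increasing `m(n) ≥ n` with `z_n := c_(m(n))`,
`z_(n+1) - z_n ∈ V n`. `Ξ_n := pp (a, z_n) ⊔ (I n ⊔ V n).map iR`: `(a, x') ∈ Ξ_n ↔
x' - z_n ∈ I n ⊔ V n`. SAT over `a`: `c'` with `c' - z_n ∈ I n ⊔ V n` for all `n`, and
`fib (pp (a, c')) ≤ fib Ξ_n ≤ I n ⊔ V n`, so `≤ ⨅ (I n ⊔ V n) = K`. SAT over `c'`: conditions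
`c ∈ rx`, `c` in none of the finitely many maximal types `m` of `rx` which contain `b` ([TOP]),
`c - c' ∈ K`: finitely many are solved by some `z_n` (a formula `φ ≥ K` contains `I n ⊔ V n` for
some `n`, [CPT]). So `pp c ⊔ b = rx` ([NAK], `con rx = con r ≤ b`, [CNC]), and
`fib (pp (a, c)) ≤ K` as `c - c' ∈ K`. Contradiction to the hypothesis. -/
def St_STQ : Prop :=
  ∀ (M : Type) [AddCommGroup M] (S : Abs M) (ι α : Type) [Finite ι] [Finite α]
    (r b : AddSubgroup (ι → M)) (V I : ℕ → AddSubgroup (ι → M)) (a : α → M) (x : ι → M),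
    S.Flt r b V → Antitone I → (∀ m, S.IsT (I m) ∧ b ≤ I m ∧ I m ≤ r) → x ∈ r →
    (∀ c ∈ r, S.pp c ⊔ b = S.pp x ⊔ b → ¬ fib (S.pp (Sum.elim a c)) ≤ ⨅ m, I m) →
    ∃ m0, ∀ m, m0 ≤ m → ∀ c ∈ r, S.pp c ⊔ b = S.pp x ⊔ b → ¬ fib (S.pp (Sum.elim a c)) ≤ I m

/-- [CHO] 2.5: the sequence.
Proof. Recursion with [STP] (`K := ⨅ I m`, [NOP]; `n0` larger than the previous `m_k` and than the
number `m0` of [STQ] for the previous step). -/
def St_CHO : Prop :=
  ∀ (M : Type) [AddCommGroup M] (S : Abs M) (ι : Type) [Finite ι] (r b : AddSubgroup (ι → M))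
    (V I : ℕ → AddSubgroup (ι → M)), S.Flt r b V → b.relIndex r = 0 → S.Idl r b V I →
    ∃ a m, S.Cho r b V I a m

/-! ### 4. The conclusion -/

/-- [OPH] 2.6: finite index of the fibres.
Proof. For `k ≤ n` the group `H n := {z : (k, .., n-1) → r | (0, z) ∈ pp (a_0, .., a_(n-1))}` has
finite index in the power of `r` (induction on `n`: `pp (a_(<n+1))` projects onto `pp (a_(<n))`, so
`H (n+1)` projects onto `H n`, with kernel `fib (pp (a_(<n), a_n))` of finite index). Take `n` larger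
than all `e j`; `(tup a f, tup a e)` is obtained from `a_(<n)` by forgetting and repeating
coordinates, so the fibre contains the image of `H n`, and `e` is injective. The second part is the
case `α` empty. -/
def St_OPH : Prop :=
  ∀ (M : Type) [AddCommGroup M] (S : Abs M) (ι : Type) [Finite ι] (r : AddSubgroup (ι → M))
    (a : ℕ → ι → M), S.IsT r → (∀ k, a k ∈ r) →
    (∀ k, (fib (S.pp (Sum.elim (tup a fun j : Fin k => (j : ℕ)) (a k)))).relIndex r ≠ 0) →
    ∀ (α J : Type) [Finite α] [Finite J] (f : α → ℕ) (e : J → ℕ) (k : ℕ),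
      (∀ i, f i < k) → (∀ j, k ≤ e j) → Function.Injective e →
      (fib (S.pp (Sum.elim (tup a f) (tup a e)))).relIndex (pw J r) ≠ 0 ∧
      (S.pp (tup a e)).relIndex (pw J r) ≠ 0

/-- [WDF] 2.6: the map is well defined.
Proof. `G := pp (d, c) = pp d & Θ` (`Iso`), `q1 r = χ ⊔ con r`, `χ ≤ r` a formula ([Q1]). As `pp d`
has finite index in `pw J r` it contains `pw J (con r)`, and `pp d ⊓ pw J r = pw J r ⊓ ψ` ([FIF]). Let
`x ∈ pw J (q1 r)`, `(x, y) ∈ G`, so `x ∈ pp d`. Write `x = x1 + x2`, `x1 ∈ pw J χ`,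
`x2 ∈ pw J (con r) ≤ pp d`, so `x1 ∈ pp d`. There are `y1, y2` with `(x1, y1), (x2, y2) ∈ G`
(`pp d` is the projection of `pp (d, c)`), so `y - y1 - y2 ∈ fib G`.
(1) `fib G = fib Θ` is a formula `≤ r`, so `≤ q1 r`. (2) `img Θ (pw J χ ⊓ ψ)` is a formula; it is
`≤ r` because `pw J χ ⊓ ψ ≤ pp d` and `G ≤ {(x, y) | y ∈ r}` (as `c ∈ r`); so `y1 ∈ q1 r`.
(3) For `p` of finite index in `r` which contains `fib G` (e.g. all `p ≥ q1 r`) the type
`{x ∈ pw J (con r) | ∃ y ∈ p, (x, y) ∈ G}` has finite index in `pw J (con r)`, so it is equal to it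
([CNC]); so `y2 ∈ p`; `q1 r` is the intersection of such `p` ([CNQ]). -/
def St_WDF : Prop :=
  ∀ (M : Type) [AddCommGroup M] (S : Abs M) (ι : Type) [Finite ι] (r : AddSubgroup (ι → M))
    (J : Type) [Finite J] (d : J × ι → M) (c : ι → M), S.IsT r → d ∈ pw J r →
    (S.pp d).relIndex (pw J r) ≠ 0 → c ∈ r → S.Iso d c →
    ∀ x ∈ pw J (S.q1 r), ∀ y, Sum.elim x y ∈ S.pp (Sum.elim d c) → y ∈ S.q1 r

/-- [MUI] 2.6: the image of the later coordinates is in `I_m`.
Proof. `H := fib (pp (u, w))`, `H ≤ pw J (V m)` as `w ∈ pw J (V m)`. `H' := H ⊓ pw J r ⊔ pw J b`,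
`Op`. `g := {(y, z) | (0, y, z) ∈ pp (u, w, c)} ⊔ pr (pw J b) b` is a `HomR` from `H'` (`ex`: `pp (u, w)`
is the projection of `pp (u, w, c)`; `tgt`: `c ∈ r`; `ker`: the hypothesis). So `img g H' ≤ I m`
(`Idl.max`). If `(0, v) ∈ pp (u, c)` then there is `y` with `(0, y, v) ∈ pp (u, w, c)` (projection),
so `v ∈ img g H'`. -/
def St_MUI : Prop :=
  ∀ (M : Type) [AddCommGroup M] (S : Abs M) (ι α J : Type) [Finite ι] [Finite α] [Finite J]
    (r b : AddSubgroup (ι → M)) (V I : ℕ → AddSubgroup (ι → M)) (m : ℕ) (u : α → M)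
    (w : J × ι → M) (c : ι → M), S.Flt r b V → S.Idl r b V I → w ∈ pw J (V m) → c ∈ r →
    (fib (S.pp (Sum.elim u w))).relIndex (pw J r) ≠ 0 →
    (∀ y ∈ pw J b, ∀ z, Sum.elim (Sum.elim (0 : α → M) y) z ∈ S.pp (Sum.elim (Sum.elim u w) c) → z ∈ b) →
    fib (S.pp (Sum.elim u c)) ≤ I m

/-- [LST] 2.6: tuples isolated over `a_F`, `k ∉ F`, are not in `O_k`.
Proof. Suppose `pp c ⊔ q1 r = pp (a k) ⊔ q1 r`. `α' := {i | f i < k}`, `J := {i | k < f i}`; reindex:
`Iso (tup a f) c` gives the same for `(tup a f', tup a e)` (`f', e` the restrictions). [OPH], [WDF]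
(for the whole tuple; `(0, y)` with `y ∈ pw J (q1 r)` is in `pw α (q1 r)`), [MUI] for the number
`m (k+1)` (`a_j ∈ V (m j) ≤ V (m (k+1))` for `j > k`): `fib (pp (tup a f', c)) ≤ I (m (k+1))`. If
`(0, v) ∈ pp (a_(<k), c)` then `(0, v) ∈ pp (tup a f', c)` (forget and repeat coordinates). So
`fib (pp (a_(<k), c)) ≤ I (m (k+1))`: contradiction to `Cho.avd`. -/
def St_LST : Prop :=
  ∀ (M : Type) [AddCommGroup M] (S : Abs M) (ι : Type) [Finite ι] (r : AddSubgroup (ι → M))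
    (V I : ℕ → AddSubgroup (ι → M)) (a : ℕ → ι → M) (m : ℕ → ℕ), S.Flt r (S.q1 r) V →
    S.Idl r (S.q1 r) V I → S.Cho r (S.q1 r) V I a m →
    ∀ (α : Type) [Finite α] (f : α → ℕ), Function.Injective f → ∀ k, (∀ i, f i ≠ k) →
      ∀ c ∈ r, S.Iso (tup a f) c → S.pp c ⊔ S.q1 r ≠ S.pp (a k) ⊔ S.q1 r

/-- CLAIM A, with coding data instead of the count of models.
Proof. If `q1 r` has infinite index in `r`: [Q1], [FLT], [IDL], [CHO], [LST],
`O k := {c ∈ r | pp c ⊔ q1 r = pp (a k) ⊔ q1 r}`. -/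
def St_ClaimA : Prop :=
  ∀ (M : Type) [AddCommGroup M] (S : Abs M) (ι : Type) [Finite ι] (r : AddSubgroup (ι → M)),
    S.IsT r → S.FI (S.q1 r) r ∨
      ∃ (a : ℕ → ι → M) (O : ℕ → Set (ι → M)), (∀ k, a k ∈ O k) ∧
        (∀ k x y, S.pp x = S.pp y → x ∈ O k → y ∈ O k) ∧
        ∀ (α : Type) [Finite α] (f : α → ℕ), Function.Injective f → ∀ k, (∀ i, f i ≠ k) →
          ∀ c, S.Iso (tup a f) c → c ∉ O k

end Pool.Agent.VMA
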