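import Pool.Agent.VMA.Api
import Pool.Agent.VMA.St

/-!
# VMA, module LCT: the counting lemma (helper26)
-/

set_option autoImplicit false
set_option linter.unusedSectionVars false
set_option linter.unusedVariables false

namespace Pool.Agent.VMA

open Set

section

variable {M : Type} [AddCommGroup M] (S : Abs M) {ι κ J : Type}

private theorem LCT_isZ_iR : IsZ (iR : (κ → M) →+ (ι ⊕ κ → M)) := by
  classical
  refine ⟨Sum.elim (fun _ => 0) fun k => Finsupp.single k 1, fun x k => ?_⟩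
  cases k with
  | inl i => simp [iR]
  | inr k => simp [iR]

private theorem LCT_isZ_re (f : ι → κ) : IsZ (re f : (κ → M) →+ (ι → M)) := by
  classical
  exact ⟨fun i => Finsupp.single (f i) 1, fun x k => by simp [re]⟩

private theorem LCT_mem_pp {a z : ι → M} :
    z ∈ S.pp a ↔ ∀ φ ∈ S.PP ι, a ∈ φ → z ∈ φ := by
  unfold Abs.pp
  rw [AddSubgroup.mem_sInf]
  exact ⟨fun h φ h1 h2 => h φ ⟨h1, h2⟩, fun h φ hφ => h φ hφ.1 hφ.2⟩

private theorem LCT_pp_T (a : ι → M) : S.IsT (S.pp a) :=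
  ⟨_, fun φ h => h.1, rfl⟩

private theorem LCT_self (a : ι → M) : a ∈ S.pp a := (LCT_mem_pp S).2 fun _ _ h => h

private theorem LCT_pp_le {a : ι → M} {q : AddSubgroup (ι → M)} (hq : S.IsT q) (h : a ∈ q) :
    S.pp a ≤ q := by
  obtain ⟨P, hP, rfl⟩ := hq
  intro z hz
  rw [AddSubgroup.mem_sInf] at h ⊢
  exact fun φ hφ => (LCT_mem_pp S).1 hz φ (hP hφ) (h φ hφ)

private theorem LCT_inv [Finite ι] {q : AddSubgroup (ι → M)} (hq : S.IsT q) {γ : M ≃+ M}
    (hγ : γ ∈ S.Gam) {x : ι → M} (hx : x ∈ q) : (fun i => γ (x i)) ∈ q := by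
  obtain ⟨P, hP, rfl⟩ := hq
  rw [AddSubgroup.mem_sInf] at hx ⊢
  exact fun φ hφ => S.inv ι φ (hP hφ) γ hγ x (hx φ hφ)

private theorem LCT_pw_T [Finite ι] [Finite J] {q : AddSubgroup (ι → M)} (hq : S.IsT q) :
    S.IsT (pw J q) := by
  obtain ⟨P, hP, rfl⟩ := hq
  refine ⟨{φ | ∃ j : J, ∃ ψ ∈ P, φ = ψ.comap (re fun i => (j, i))}, ?_, ?_⟩
  · rintro φ ⟨j, ψ, hψ, rfl⟩
    exact S.comap_mem _ _ _ (LCT_isZ_re _) ψ (hP hψ)
  · ext z
    unfold pw
    rw [AddSubgroup.mem_iInf, AddSubgroup.mem_sInf]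
    constructor
    · rintro h φ ⟨j, ψ, hψ, rfl⟩
      exact (AddSubgroup.mem_sInf.1 (h j)) ψ hψ
    · intro h j
      exact AddSubgroup.mem_sInf.2 fun ψ hψ => h _ ⟨j, ψ, hψ, rfl⟩

private theorem LCT_mem_pw {q : AddSubgroup (ι → M)} {z : J × ι → M} :
    z ∈ pw J q ↔ ∀ j, (fun i => z (j, i)) ∈ q := by
  unfold pw
  rw [AddSubgroup.mem_iInf]
  exact Iff.rfl

/-- types over the empty tuple -/
private theorem LCT_emp [Finite κ] (a : Empty → M) (x : κ → M) :
    S.pp (Sum.elim a x) = (S.pp x).map iR := by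
  have hz : ∀ z : Empty ⊕ κ → M, z = iR (pR z) := by
    intro z
    funext i
    cases i with
    | inl e => exact e.elim
    | inr k => rfl
  have hax : Sum.elim a x = (iR x : Empty ⊕ κ → M) := by
    funext i
    cases i with
    | inl e => exact e.elim
    | inr k => rfl
  ext z
  constructor
  · intro h
    refine ⟨pR z, ?_, (hz z).symm⟩
    refine (LCT_mem_pp S).2 fun ψ hψ hx => ?_
    exact (LCT_mem_pp S).1 h (ψ.comap pR) (S.comap_mem _ _ _ (LCT_isZ_re _) ψ hψ) hx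
  · rintro ⟨v, hv, rfl⟩
    refine (LCT_mem_pp S).2 fun φ hφ hx => ?_
    rw [hax] at hx
    exact (LCT_mem_pp S).1 hv (φ.comap iR) (S.comap_mem _ _ _ LCT_isZ_iR φ hφ) hx

end

/-- the orbit of a generic tuple is large -/
private theorem LCT_orb (hTOP : St_TOP) (hNAK : St_NAK) (hCNC : St_CNC) (hCNJ : St_CNJ) (hOPN : St_OPN)
    {M : Type} [AddCommGroup M] (S : Abs M) {ι : Type} [Finite ι] {r : AddSubgroup (ι → M)}
    (hr : S.IsT r) (J : Type) [Finite J] :
    ∃ (x : J × ι → M) (Rad : AddSubgroup (J × ι → M)), x ∈ pw J r ∧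
      Rad.relIndex (pw J r) ≠ 0 ∧ ∀ u ∈ Rad, ∃ γ ∈ S.Gam,
        ∀ j, ((fun i => γ (x (j, i))) - (fun i => x (j, i)) - fun i => u (j, i)) ∈ S.con r := by
  have hq : S.IsT (pw J r) := LCT_pw_T S hr
  have hqq : S.FI (pw J r) (pw J r) := ⟨hq, le_rfl, by simp⟩
  obtain ⟨x, hx, hxi⟩ := hOPN M S Empty (J × ι) (pw J r) (pw J r) (fun e => e.elim) 0 hq
    (AddSubgroup.zero_mem _) hqq
  rw [sub_zero] at hx
  have hfib : fib (S.pp (Sum.elim (fun e : Empty => (e.elim : M)) x)) ≤ S.pp x := by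
    intro v hv
    rw [LCT_emp] at hv
    obtain ⟨w, hw, hwv⟩ := hv
    have : w = v := by
      funext k
      exact congrFun hwv (Sum.inr k)
    rw [← this]
    exact hw
  have hΛT : S.IsT (S.pp x) := LCT_pp_T S x
  have hΛq : S.pp x ≤ pw J r := LCT_pp_le S hq hx
  have hΛi : (S.pp x).relIndex (pw J r) ≠ 0 :=
    fun h => hxi (AddSubgroup.relIndex_eq_zero_of_le_left hfib h)
  have hΛF : S.FI (S.pp x) (pw J r) := ⟨hΛT, hΛq, hΛi⟩
  obtain ⟨_, h2, h3⟩ := hCNC M S (J × ι) (pw J r) hq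
  have hcΛ : S.con (S.pp x) = pw J (S.con r) := by
    rw [h2 (S.pp x) hΛT (sInf_le hΛF) hΛq]
    exact (hCNC M S ι r hr).2.2 J
  have hconn : S.Conn (S.con (S.pp x)) := (hCNC M S (J × ι) (S.pp x) hΛT).1
  have hfin := hTOP M S (J × ι) (S.pp x) hΛT
  have : Finite {m // S.IsMx m (S.pp x)} := hfin
  refine ⟨x, S.pp x ⊓ ⨅ m : {m // S.IsMx m (S.pp x)}, m.1, hx, ?_, ?_⟩
  · refine AddSubgroup.relIndex_ne_zero_trans (K := S.pp x) ?_ hΛi
    rw [AddSubgroup.inf_relIndex_left]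
    exact AddSubgroup.relIndex_iInf_ne_zero fun m => m.2.1.2.2
  · intro u hu
    obtain ⟨hu1, hu2⟩ := AddSubgroup.mem_inf.1 hu
    rw [AddSubgroup.mem_iInf] at hu2
    have hxu : x + u ∈ S.pp x := AddSubgroup.add_mem _ (LCT_self S x) hu1
    have hcle : S.con (S.pp x) ≤ S.pp x := sInf_le ⟨hΛT, le_rfl, by simp⟩
    have hs : S.pp (x + u) ⊔ S.con (S.pp x) = S.pp x := by
      by_contra hne
      obtain ⟨m, hm, hsm⟩ := hNAK M S (J × ι) (S.pp x) (S.pp (x + u) ⊔ S.con (S.pp x)) hΛT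
        (S.isT_sup (LCT_pp_T S _) hconn.1) le_sup_right
        (sup_le (LCT_pp_le S hΛT hxu) hcle) hne
      have h4 : x + u ∈ m := hsm (AddSubgroup.mem_sup_left (LCT_self S _))
      have h5 : x ∈ m := by
        have h6 := AddSubgroup.sub_mem _ h4 (hu2 ⟨m, hm⟩)
        rwa [add_sub_cancel_right] at h6
      exact hm.2.1 (le_antisymm hm.1.2.1 (LCT_pp_le S hm.1.1 h5))
    have hs0 : S.pp x ⊔ S.con (S.pp x) = S.pp x := sup_eq_left.2 hcle
    obtain ⟨γ, hγ, _, hγ2⟩ := hCNJ M S Empty (J × ι) (S.con (S.pp x)) (fun e => e.elim) x (x + u)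
      hconn (by rw [LCT_emp, LCT_emp, ← AddSubgroup.map_sup, ← AddSubgroup.map_sup, hs, hs0])
    refine ⟨γ, hγ, fun j => ?_⟩
    rw [hcΛ] at hγ2
    have h4 := LCT_mem_pw.1 hγ2 j
    have h5 : ((fun i => γ (x (j, i))) - (fun i => x (j, i)) - fun i => u (j, i)) =
        fun i => ((fun k => γ (x k)) - (x + u)) (j, i) := by
      funext i
      simp only [Pi.sub_apply, Pi.add_apply]
      abel
    rw [h5]
    exact h4

theorem thm_LCT (hTOP : St_TOP) (hNAK : St_NAK) (hCNC : St_CNC) (hCNJ : St_CNJ) (hOPN : St_OPN) :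
    St_LCT := by
  classical
  intro M _ S ι _ r U hr hanti hFI hyp
  have hcU : ∀ n, S.con r ≤ U n := fun n => sInf_le (hFI n)
  -- the quotients
  let Q : ℕ → Type := fun n => ↥r ⧸ (U n).addSubgroupOf r
  let mk : ∀ n, ↥r →+ Q n := fun n => QuotientAddGroup.mk' _
  have hcard : ∀ n, Nat.card (Q n) = (U n).relIndex r := fun n => rfl
  have hQfin : ∀ n, Finite (Q n) := fun n => Nat.finite_of_card_ne_zero (by
    rw [hcard]
    exact (hFI n).2.2)
  have hsurj : ∀ n, Function.Surjective (mk n) := fun n => QuotientAddGroup.mk'_surjective _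
  have hmk : ∀ n (x y : ↥r), mk n x = mk n y ↔ (x : ι → M) - y ∈ U n := by
    intro n x y
    have h1 : mk n x = mk n y ↔ -x + y ∈ (U n).addSubgroupOf r := QuotientAddGroup.eq
    rw [h1, AddSubgroup.mem_addSubgroupOf, ← AddSubgroup.neg_mem_iff]
    have h2 : -((-x + y : ↥r) : ι → M) = (x : ι → M) - y := by
      push_cast
      abel
    rw [h2]
  -- the action of the automorphisms
  let ac : S.Gam → ↥r → ↥r := fun γ x => ⟨fun i => γ.1 (x.1 i), LCT_inv S hr γ.2 x.2⟩
  let t : Q 0 → ↥r := Function.surjInv (hsurj 0)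
  have ht : ∀ τ, mk 0 (t τ) = τ := fun τ => Function.surjInv_eq (hsurj 0) τ
  -- the action modulo `U n` is determined by the images of the `t τ`
  have hup : ∀ n (γ δ : S.Gam), (∀ τ, mk n (ac γ (t τ)) = mk n (ac δ (t τ))) →
      ∀ x, mk n (ac γ x) = mk n (ac δ x) := by
    intro n γ δ h x
    have hη : γ.1.trans δ.1.symm ∈ S.Gam := S.g_trans _ γ.2 _ (S.g_symm _ δ.2)
    have hδ : δ.1.symm ∈ S.Gam := S.g_symm _ δ.2
    have hval : ∀ y : ι → M, (fun i => (γ.1.trans δ.1.symm) (y i)) - y =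
        fun i => δ.1.symm (((fun i => γ.1 (y i)) - fun i => δ.1 (y i)) i) := by
      intro y
      funext i
      simp only [Pi.sub_apply, AddEquiv.trans_apply, map_sub, AddEquiv.symm_apply_apply]
    have ht2 : ∀ τ, (fun i => (γ.1.trans δ.1.symm) ((t τ).1 i)) - (t τ).1 ∈ U n := by
      intro τ
      rw [hval]
      exact LCT_inv S (hFI n).1 hδ ((hmk n _ _).1 (h τ))
    have hdec : ∀ y ∈ r, ∃ τ, y - (t τ).1 ∈ U 0 := by
      intro y hy
      refine ⟨mk 0 ⟨y, hy⟩, ?_⟩
      exact (hmk 0 ⟨y, hy⟩ (t (mk 0 ⟨y, hy⟩))).1 (ht _).symm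
    have hstep : ∀ m, m ≤ n → ∀ y ∈ r, (fun i => (γ.1.trans δ.1.symm) (y i)) - y ∈ U m := by
      intro m
      induction m with
      | zero =>
        intro _ y hy
        obtain ⟨τ, hτ⟩ := hdec y hy
        have h1 : (fun i => (γ.1.trans δ.1.symm) (y i)) - y =
            ((fun i => (γ.1.trans δ.1.symm) ((t τ).1 i)) - (t τ).1) +
            ((fun i => (γ.1.trans δ.1.symm) ((y - (t τ).1) i)) - (y - (t τ).1)) := by
          funext i
          simp only [Pi.sub_apply, Pi.add_apply, map_sub]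
          abel
        rw [h1]
        exact AddSubgroup.add_mem _ (hanti (Nat.zero_le n) (ht2 τ))
          (AddSubgroup.sub_mem _ (LCT_inv S (hFI 0).1 hη hτ) hτ)
      | succ m ih =>
        intro hm y hy
        obtain ⟨τ, hτ⟩ := hdec y hy
        have h1 : (fun i => (γ.1.trans δ.1.symm) (y i)) - y =
            ((fun i => (γ.1.trans δ.1.symm) ((t τ).1 i)) - (t τ).1) +
            ((fun i => (γ.1.trans δ.1.symm) ((y - (t τ).1) i)) - (y - (t τ).1)) := by
          funext i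
          simp only [Pi.sub_apply, Pi.add_apply, map_sub]
          abel
        rw [h1]
        exact AddSubgroup.add_mem _ (hanti hm (ht2 τ))
          (hyp m _ hη (ih (by omega)) _ hτ)
    refine (hmk n _ _).2 ?_
    have h1 := LCT_inv S (hFI n).1 δ.2 (hstep n le_rfl x.1 x.2)
    rw [hval] at h1
    have h2 : (fun i => δ.1 ((fun i => δ.1.symm (((fun i => γ.1 (x.1 i)) -
        fun i => δ.1 (x.1 i)) i)) i)) = ((ac γ x : ↥r) : ι → M) - (ac δ x : ↥r) := by
      funext i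
      simp only [AddEquiv.apply_symm_apply]
      rfl
    rw [h2] at h1
    exact h1
  -- a generic tuple
  obtain ⟨x, Rad, hx, hRad, horb⟩ := LCT_orb hTOP hNAK hCNC hCNJ hOPN S hr (Option (Q 0))
  have hx' : ∀ j, (fun i => x (j, i)) ∈ r := LCT_mem_pw.1 hx
  let J : Type := Option (Q 0)
  let em : (J → ↥r) →+ (J × ι → M) :=
    { toFun := fun w p => (w p.1).1 p.2
      map_zero' := rfl
      map_add' := fun _ _ => rfl }
  have hrange : em.range = pw J r := by
    ext z
    constructor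
    · rintro ⟨w, rfl⟩
      exact LCT_mem_pw.2 fun j => (w j).2
    · intro hz
      exact ⟨fun j => ⟨fun i => z (j, i), LCT_mem_pw.1 hz j⟩, rfl⟩
  have hRi : (Rad.comap em).index ≠ 0 := by
    rw [AddSubgroup.index_comap, hrange]
    exact hRad
  have hbound : ∀ n, (U n).relIndex r ≤ (Rad.comap em).index := by
    intro n
    have := hQfin n
    have := hQfin 0
    let F : (J → ↥r) →+ (J → Q n) := (mk n).compLeft J
    have hFs : Function.Surjective F := by
      intro w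
      refine ⟨fun j => Function.surjInv (hsurj n) (w j), ?_⟩
      funext j
      exact Function.surjInv_eq (hsurj n) (w j)
    let Rn : AddSubgroup (J → Q n) := (Rad.comap em).map F
    have h1 : Rn.index ≤ (Rad.comap em).index :=
      Nat.le_of_dvd (Nat.pos_of_ne_zero hRi) (AddSubgroup.index_map_dvd _ hFs)
    have h2 : Rn.index * Nat.card Rn = Nat.card (J → Q n) := AddSubgroup.index_mul_card Rn
    have h3 : Nat.card Rn ≤ Nat.card (Q 0 → Q n) := by
      have hch : ∀ ρ : Rn, ∃ (u : J → ↥r) (γ : S.Gam), F u = ρ.1 ∧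
          ∀ j, mk n (ac γ ⟨_, hx' j⟩) = mk n (⟨_, hx' j⟩ + u j) := by
        rintro ⟨ρ, u, hu, rfl⟩
        obtain ⟨γ, hγ, hγu⟩ := horb (em u) hu
        refine ⟨u, ⟨γ, hγ⟩, rfl, fun j => (hmk n _ _).2 (hcU n ?_)⟩
        have h4 := hγu j
        have h5 : ((ac ⟨γ, hγ⟩ ⟨_, hx' j⟩ : ↥r) : ι → M) -
            ((⟨_, hx' j⟩ + u j : ↥r) : ι → M) =
            (fun i => γ (x (j, i))) - (fun i => x (j, i)) - fun i => em u (j, i) := by
          funext i
          simp only [Pi.sub_apply, AddSubgroup.coe_add, Pi.add_apply]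
          change γ (x (j, i)) - (x (j, i) + (u j).1 i) = γ (x (j, i)) - x (j, i) - (u j).1 i
          abel
        rw [h5]
        exact h4
      choose u γ hu hγ using hch
      refine Nat.card_le_card_of_injective (fun ρ τ => mk n (ac (γ ρ) (t τ))) ?_
      intro ρ ρ' h
      have h4 := hup n (γ ρ) (γ ρ') (fun τ => congrFun h τ)
      apply Subtype.ext
      rw [← hu ρ, ← hu ρ']
      funext j
      have h5 : mk n (⟨_, hx' j⟩ + u ρ j) = mk n (⟨_, hx' j⟩ + u ρ' j) := by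
        rw [← hγ ρ j, ← hγ ρ' j]
        exact h4 _
      rw [map_add, map_add] at h5
      exact add_left_cancel h5
    have h4 : Nat.card (J → Q n) = (U n).relIndex r ^ (Nat.card (Q 0) + 1) := by
      rw [Nat.card_fun, hcard]
      congr 1
      exact Finite.card_option
    have h5 : Nat.card (Q 0 → Q n) = (U n).relIndex r ^ Nat.card (Q 0) := by
      rw [Nat.card_fun, hcard]
    rw [h4] at h2
    rw [h5] at h3
    have h6 : 0 < (U n).relIndex r ^ Nat.card (Q 0) := pow_pos (Nat.pos_of_ne_zero (hFI n).2.2) _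
    have h7 : (U n).relIndex r ^ Nat.card (Q 0) * (U n).relIndex r ≤
        (U n).relIndex r ^ Nat.card (Q 0) * (Rad.comap em).index := by
      rw [← pow_succ, ← h2, mul_comm]
      exact Nat.mul_le_mul h3 h1
    exact Nat.le_of_mul_le_mul_left h7 h6
  -- the sequence is constant
  have hdvd : ∀ m n, m ≤ n → (U m).relIndex r ∣ (U n).relIndex r :=
    fun m n h => AddSubgroup.relIndex_dvd_of_le_left r (hanti h)
  obtain ⟨N, hN⟩ : ∃ N, ∀ n, (U n).relIndex r ≤ (U N).relIndex r := by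
    have hb : BddAbove (Set.range fun n => (U n).relIndex r) :=
      ⟨_, by rintro _ ⟨n, rfl⟩; exact hbound n⟩
    obtain ⟨N, hN⟩ := Nat.sSup_mem (Set.range_nonempty fun n => (U n).relIndex r) hb
    exact ⟨N, fun n => by
      change (fun n => (U n).relIndex r) n ≤ (fun n => (U n).relIndex r) N
      rw [hN]
      exact le_csSup hb ⟨n, rfl⟩⟩
  refine ⟨N, fun n hn => le_antisymm (hanti hn) ?_⟩
  have h1 : (U n).relIndex r = (U N).relIndex r :=
    le_antisymm (hN n) (Nat.le_of_dvd (Nat.pos_of_ne_zero (hFI n).2.2) (hdvd N n hn))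
  have h2 := AddSubgroup.relIndex_mul_relIndex (U n) (U N) r (hanti hn) (hFI N).2.1
  rw [h1] at h2
  have h3 : (U n).relIndex (U N) = 1 := by
    have h4 : (U n).relIndex (U N) * (U N).relIndex r = 1 * (U N).relIndex r := by
      rw [h2, one_mul]
    exact Nat.eq_of_mul_eq_mul_right (Nat.pos_of_ne_zero (hFI N).2.2) h4
  exact AddSubgroup.relIndex_eq_one.1 h3

end Pool.Agent.VMA
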