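import Pool.Agent.VMA.St
import Pool.Agent.VMA.Api

/-!
# VMA: LLE (helper60)
-/

set_option autoImplicit false

namespace Pool.Agent.VMA

open Set

private theorem LLE_ss {M : Type} [AddCommGroup M] (S : Abs M) {ι : Type}
    {c d m : AddSubgroup (ι → M)} (hd : S.IsT d) (h : c.relIndex d ≠ 0) (hm : S.IsT m)
    (h1 : c ≤ m) (h2 : m ≤ d) (h3 : ∀ t, S.IsT t → m ≤ t → t ≤ d → t = m ∨ t = d) :
    S.SS m d := by
  refine ⟨hm, hd, h2, fun h0 => h (AddSubgroup.relIndex_eq_zero_of_le_left h1 h0),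
    fun s hs hs1 hs2 => ?_⟩
  rcases h3 s hs hs1 hs2 with rfl | rfl
  · exact ⟨d, hd, h2, le_rfl, inf_eq_left.2 h2, sup_eq_right.2 h2⟩
  · exact ⟨m, hm, le_rfl, h2, inf_eq_right.2 h2, sup_eq_left.2 h2⟩

private theorem LLE_one {M : Type} [AddCommGroup M] (S : Abs M) {ι : Type} (n : ℕ) :
    ∀ c d : AddSubgroup (ι → M), S.IsT c → S.IsT d → c ≤ d → c.relIndex d ≠ 0 →
      c.relIndex d = n → ∃ t, S.LL t c d := by
  induction n using Nat.strong_induction_on with
  | _ n ih =>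
    intro c d hc hd hcd h hn
    by_cases hne : c = d
    · exact ⟨0, hc, hne⟩
    · obtain ⟨m, hm1, hm2, hm3, hm4, hm5⟩ := exists_max h S.IsT hc le_rfl hcd hne
      have h1 := AddSubgroup.relIndex_mul_relIndex c m d hm2 hm3
      have h2 : m.relIndex d ≠ 1 := fun h2 =>
        hm4 (le_antisymm hm3 (AddSubgroup.relIndex_eq_one.1 h2))
      have h3 : c.relIndex m ≠ 0 := fun h3 => h (by rw [← h1, h3, zero_mul])
      have h4 : m.relIndex d ≠ 0 := fun h4 => h (by rw [← h1, h4, mul_zero])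
      have h5 : c.relIndex m < n := by
        rw [← hn, ← h1]
        have h6 : 2 ≤ m.relIndex d := by omega
        have h7 : 0 < c.relIndex m := Nat.pos_of_ne_zero h3
        nlinarith
      obtain ⟨t, ht⟩ := ih _ h5 c m hc hm1 hm2 h3 rfl
      exact ⟨t + 1, m, ht, LLE_ss S hd h hm1 hm2 hm3 hm5⟩

theorem thm_LLE : St_LLE := by
  intro M _ S ι _
  refine ⟨fun c d hc hd hcd h => LLE_one S _ c d hc hd hcd h rfl, ?_⟩
  intro e d hed x hx hm
  by_contra hxe
  obtain ⟨he, hd, hle, hidx, hss⟩ := hed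
  obtain ⟨D, hD⟩ : ∃ D : AddSubgroup (ι → M), D = sInf {m | m = d ∨ (S.IsMx m d ∧ e ≤ m)} :=
    ⟨_, rfl⟩
  have hDT : S.IsT D := by
    rw [hD]
    refine S.isT_sInf fun q hq => ?_
    rcases hq with rfl | hq
    · exact hd
    · exact hq.1.1.1
  have heD : e ≤ D := by
    rw [hD]
    refine le_sInf fun q hq => ?_
    rcases hq with rfl | hq
    · exact hle
    · exact hq.2
  have hDd : D ≤ d := by
    rw [hD]
    exact sInf_le (Or.inl rfl)
  have hxD : x ∈ D := by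
    rw [hD, AddSubgroup.mem_sInf]
    intro q hq
    rcases hq with rfl | hq
    · exact hx
    · exact hm q hq.1 hq.2
  obtain ⟨t, ht, het, htd, h1, h2⟩ := hss D hDT heD hDd
  have htne : t ≠ d := by
    rintro rfl
    rw [inf_eq_left.2 hDd] at h1
    rw [h1] at hxD
    exact hxe hxD
  obtain ⟨m, hm1, hm2, hm3, hm4, hm5⟩ := exists_max hidx S.IsT ht het htd htne
  have hmx : S.IsMx m d := ⟨⟨hm1, hm3, fun h0 =>
    hidx (AddSubgroup.relIndex_eq_zero_of_le_left (het.trans hm2) h0)⟩, hm4, hm5⟩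
  have hDm : D ≤ m := by
    rw [hD]
    exact sInf_le (Or.inr ⟨hmx, het.trans hm2⟩)
  refine hm4 (le_antisymm hm3 ?_)
  rw [← h2]
  exact sup_le hDm hm2

end Pool.Agent.VMA
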