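import Pool.Agent.VMA.St
import Pool.Agent.VMA.Api

/-!
# VMA: LLS
-/

set_option autoImplicit false
set_option linter.unusedSectionVars false
set_option linter.unusedVariables false

namespace Pool.Agent.VMA

open Set

private theorem lls_basic {M : Type} [AddCommGroup M] (S : Abs M) {ι : Type} [Finite ι] (t : ℕ)
    (c d : AddSubgroup (ι → M)) (h : S.LL t c d) : S.IsT c ∧ S.IsT d ∧ c ≤ d := by
  induction t generalizing d with
  | zero => exact ⟨h.1, h.2 ▸ h.1, h.2.le⟩
  | succ t ih =>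
    obtain ⟨e, he, hed⟩ := h
    obtain ⟨h1, -, h3⟩ := ih e he
    exact ⟨h1, hed.2.1, h3.trans hed.2.2.1⟩

private theorem lls_ss {M : Type} [AddCommGroup M] (S : Abs M) {ι : Type} [Finite ι]
    (e d s : AddSubgroup (ι → M)) (h : S.SS e d) (hs : S.IsT s) (hsd : s ≤ d) :
    S.SS (e ⊓ s) s := by
  obtain ⟨he, hd, hed, hi, hc⟩ := h
  refine ⟨S.isT_inf he hs, hs, inf_le_right, ?_, ?_⟩
  · rw [AddSubgroup.inf_relIndex_right]
    exact fun h0 => hi (AddSubgroup.relIndex_eq_zero_of_le_right hsd h0)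
  · intro w hw hew hws
    obtain ⟨k, hk, hek, hkd, h1, h2⟩ := hc (w ⊔ e) (S.isT_sup hw he) le_sup_right
      (sup_le (hws.trans hsd) hed)
    refine ⟨k ⊓ s, S.isT_inf hk hs, inf_le_inf_right s hek, inf_le_right, ?_, ?_⟩
    · apply le_antisymm
      · rintro x ⟨hx, hx', hx''⟩
        refine ⟨?_, hx''⟩
        have : x ∈ (w ⊔ e) ⊓ k := ⟨(le_sup_left : w ≤ w ⊔ e) hx, hx'⟩
        rw [h1] at this
        exact this
      · exact le_inf hew (inf_le_inf_right s hek)
    · apply le_antisymm (sup_le hws inf_le_right)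
      intro x hx
      have h3 : w ⊔ k = d := by
        rw [← h2]
        apply le_antisymm
        · exact sup_le (le_sup_of_le_left le_sup_left) le_sup_right
        · exact sup_le (sup_le le_sup_left (hek.trans le_sup_right)) le_sup_right
      have h4 : x ∈ w ⊔ k := by
        rw [h3]
        exact hsd hx
      obtain ⟨y, hy, z, hz, rfl⟩ := AddSubgroup.mem_sup.1 h4
      refine AddSubgroup.add_mem_sup hy ⟨hz, ?_⟩
      have h5 : z = (y + z) - y := by abel
      rw [h5]
      exact s.sub_mem hx (hws hy)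

theorem thm_LLS : St_LLS := by
  intro M _ S ι _ t
  induction t with
  | zero =>
    intro c d s h hs hcs hsd
    exact ⟨h.1, le_antisymm hcs (h.2 ▸ hsd)⟩
  | succ t ih =>
    intro c d s h hs hcs hsd
    obtain ⟨e, he, hed⟩ := h
    obtain ⟨-, he1, hce⟩ := lls_basic S t c e he
    exact ⟨e ⊓ s, ih c e (e ⊓ s) he (S.isT_inf he1 hs) (le_inf hce hcs) inf_le_left,
      lls_ss S e d s hed hs hsd⟩

end Pool.Agent.VMA
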