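import Pool.Agent.VMA.St
import Pool.Agent.VMA.Api

/-!
# VMA, module LST: tuples isolated over `a_F`, `k ∉ F`
-/

set_option autoImplicit false

namespace Pool.Agent.VMA

open Set

open Classical in
/-- `(u, w, c) ↦ (d, c)` -/
private noncomputable def LST_g {α ι : Type} (f : α → ℕ) (k : ℕ) (hk : ∀ i, f i ≠ k) :
    (α × ι) ⊕ ι → (({i // f i < k} × ι) ⊕ ({i // k < f i} × ι)) ⊕ ι
  | Sum.inl p => if h : f p.1 < k then Sum.inl (Sum.inl (⟨p.1, h⟩, p.2))
      else Sum.inl (Sum.inr (⟨p.1, lt_of_le_of_ne (not_lt.1 h) (hk p.1).symm⟩, p.2))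
  | Sum.inr t => Sum.inr t

/-- `(a_(<k), c) ↦ (u, c)` -/
private def LST_g' {α ι : Type} (f : α → ℕ) (k : ℕ) :
    ({i // f i < k} × ι) ⊕ ι → (Fin k × ι) ⊕ ι
  | Sum.inl p => Sum.inl (⟨f p.1.1, p.1.2⟩, p.2)
  | Sum.inr t => Sum.inr t

/-- [LST] -/
theorem thm_LST (h1 : St_OPH) (h2 : St_WDF) (h3 : St_MUI) : St_LST := by
  classical
  intro M _ S ι _ r V I a m hF hI hC α _ f hf k hk c hc hIso hEq
  have hVr : ∀ j, V j ≤ r := fun j => (hF.fi j).le
  have har : ∀ j, a j ∈ r := fun j => hVr _ (hC.mem j)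
  have hop := h1 M S ι r a hF.tr har hC.opn
  set A : Type := {i // f i < k} with hA
  set J : Type := {i // k < f i} with hJ
  set u : A × ι → M := tup a fun i => f i.1 with hu
  set w : J × ι → M := tup a fun i => f i.1 with hw
  have hwV : w ∈ pw J (V (m (k + 1))) := by
    rw [mem_pw]
    intro j
    exact hF.anti (hC.mono.monotone (Nat.succ_le_of_lt j.2)) (hC.mem (f j.1))
  have hfib : (fib (S.pp (Sum.elim u w))).relIndex (pw J r) ≠ 0 :=
    (hop A J (fun i => f i.1) (fun i => f i.1) k (fun i => i.2) (fun j => j.2.le)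
      fun i j hij => Subtype.ext (hf hij)).1
  have hwdf := h2 M S ι r α (tup a f) c hF.tr
    (by rw [mem_pw]; exact fun j => har (f j))
    (hop Empty α (fun i => i.elim) f 0 (fun i => i.elim) (fun j => Nat.zero_le _) hf).2 hc hIso
  have hker : ∀ y ∈ pw J (S.q1 r), ∀ z, Sum.elim (Sum.elim (0 : A × ι → M) y) z ∈
      S.pp (Sum.elim (Sum.elim u w) c) → z ∈ S.q1 r := by
    intro y hy z hz
    have hmap := S.pp_map (isZ_re (M := M) (LST_g (ι := ι) f k hk)) (Sum.elim (Sum.elim u w) c)
    have h4 : re (LST_g (ι := ι) f k hk) (Sum.elim (Sum.elim u w) c) = Sum.elim (tup a f) c := by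
      funext p
      rcases p with p | t
      · rw [re_apply]
        simp only [LST_g, Sum.elim_inl]
        split_ifs with h
        · rfl
        · rfl
      · rfl
    rw [h4] at hmap
    have h5 : re (LST_g (ι := ι) f k hk) (Sum.elim (Sum.elim (0 : A × ι → M) y) z) ∈
        S.pp (Sum.elim (tup a f) c) := by
      rw [hmap]
      exact ⟨_, hz, rfl⟩
    set x : α × ι → M := pL (re (LST_g (ι := ι) f k hk)
      (Sum.elim (Sum.elim (0 : A × ι → M) y) z)) with hx
    have h6 : re (LST_g (ι := ι) f k hk) (Sum.elim (Sum.elim (0 : A × ι → M) y) z) =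
        Sum.elim x z := by
      funext p
      rcases p with p | t
      · rfl
      · rfl
    rw [h6] at h5
    refine hwdf x ?_ z h5
    rw [mem_pw] at hy ⊢
    intro i
    by_cases h : f i < k
    · have h7 : (fun t => x (i, t)) = 0 := by
        funext t
        show re (LST_g (ι := ι) f k hk) (Sum.elim (Sum.elim (0 : A × ι → M) y) z)
          (Sum.inl (i, t)) = 0
        rw [re_apply]
        simp only [LST_g]
        rw [dif_pos h]
        rfl
      rw [h7]
      exact AddSubgroup.zero_mem _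
    · have h8 : k < f i := lt_of_le_of_ne (not_lt.1 h) (hk i).symm
      have h7 : (fun t => x (i, t)) = fun t => y (⟨i, h8⟩, t) := by
        funext t
        show re (LST_g (ι := ι) f k hk) (Sum.elim (Sum.elim (0 : A × ι → M) y) z)
          (Sum.inl (i, t)) = _
        rw [re_apply]
        simp only [LST_g]
        rw [dif_neg h]
        rfl
      rw [h7]
      exact hy ⟨i, h8⟩
  have hmui := h3 M S ι (A × ι) J r (S.q1 r) V I (m (k + 1)) u w c hF hI hwV hc hfib hker
  refine hC.avd k c hc hEq fun v hv => hmui ?_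
  rw [mem_fib] at hv ⊢
  have hmap := S.pp_map (isZ_re (M := M) (LST_g' (ι := ι) f k))
    (Sum.elim (tup a fun j : Fin k => (j : ℕ)) c)
  have h4 : re (LST_g' (ι := ι) f k) (Sum.elim (tup a fun j : Fin k => (j : ℕ)) c) =
      Sum.elim u c := by
    funext p
    rcases p with p | t
    · rfl
    · rfl
  rw [h4] at hmap
  rw [hmap]
  refine ⟨_, hv, ?_⟩
  funext p
  rcases p with p | t
  · rfl
  · rfl

end Pool.Agent.VMA
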