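import Pool.Agent.VMA.St
import Pool.Agent.VMA.Api

/-!
# VMA, module MUI: the image of the later coordinates is in `I_m`
-/

set_option autoImplicit false

namespace Pool.Agent.VMA

open Set

/-- the map `(y, z) ↦ ((0, y), z)` -/
private def MUI_h {M α β ι : Type} [AddCommGroup M] : (β ⊕ ι → M) →+ ((α ⊕ β) ⊕ ι → M) :=
  (re (Equiv.sumAssoc α β ι)).comp iR

private theorem MUI_hZ {M α β ι : Type} [AddCommGroup M] :
    IsZ (MUI_h : (β ⊕ ι → M) →+ ((α ⊕ β) ⊕ ι → M)) := (isZ_re _).comp isZ_iR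

private theorem MUI_h_elim {M α β ι : Type} [AddCommGroup M] (y : β → M) (z : ι → M) :
    (MUI_h (Sum.elim y z) : (α ⊕ β) ⊕ ι → M) = Sum.elim (Sum.elim (0 : α → M) y) z := by
  funext i
  rcases i with (i | i) | i
  · rfl
  · rfl
  · rfl

/-- [MUI] -/
theorem thm_MUI : St_MUI := by
  intro M _ S ι α J _ _ _ r b V I m u w c hF hI hw hc hidx hker
  have hVr : V m ≤ r := (hF.fi m).le
  set H0 : AddSubgroup (J × ι → M) := fib (S.pp (Sum.elim u w)) with hH0
  have hH0T : S.IsT H0 := S.isT_fib (S.isT_pp _)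
  have hH0V : H0 ≤ pw J (V m) := by
    intro y hy
    have h1 : y ∈ S.pp w := S.right_mem (mem_fib.1 hy)
    exact (S.pp_le_iff (S.isT_pw (hF.fi m).ty)).2 hw h1
  have hbV : pw J b ≤ pw J (V m) := pw_mono (hF.bV m)
  have hVr' : pw J (V m) ≤ pw J r := pw_mono hVr
  set H : AddSubgroup (J × ι → M) := H0 ⊔ pw J b with hH
  have hHV : H ≤ pw J (V m) := sup_le hH0V hbV
  set g : AddSubgroup ((J × ι) ⊕ ι → M) :=
    (S.pp (Sum.elim (Sum.elim u w) c)).comap MUI_h ⊔ pr (pw J b) b with hg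
  have hgm : ∀ x y, Sum.elim x y ∈ g → ∃ x0 y0 p q, Sum.elim (Sum.elim (0 : α → M) x0) y0 ∈
      S.pp (Sum.elim (Sum.elim u w) c) ∧ p ∈ pw J b ∧ q ∈ b ∧ x = x0 + p ∧ y = y0 + q := by
    intro x y hxy
    obtain ⟨s, hs, t, ht, hst⟩ := AddSubgroup.mem_sup.1 hxy
    refine ⟨pL s, pR s, pL t, pR t, ?_, ht.1, ht.2, ?_, ?_⟩
    · rw [← MUI_h_elim, elim_pL_pR]
      exact hs
    · have h1 := congrArg pL hst
      rw [map_add, pL_elim] at h1
      exact h1.symm
    · have h1 := congrArg pR hst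
      rw [map_add, pR_elim] at h1
      exact h1.symm
  have hOp : S.Op r b J H := by
    refine ⟨Abs.FI.mid S (p := H0) ⟨hH0T, hH0V.trans hVr', hidx⟩
      (S.isT_sup hH0T (S.isT_pw hF.tb)) le_sup_left (hHV.trans hVr'), le_sup_right⟩
  have hHom : S.HomR r b J H g := by
    refine ⟨?_, ?_, ?_, ?_, ?_, ?_⟩
    · exact S.isT_sup (S.isT_comap MUI_hZ (S.isT_pp _)) (S.isT_pr (S.isT_pw hF.tb) hF.tb)
    · intro x y hxy
      obtain ⟨x0, y0, p, q, h1, hp, hq, rfl, rfl⟩ := hgm x y hxy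
      exact AddSubgroup.add_mem_sup (mem_fib.2 (S.left_mem h1)) hp
    · intro x y hxy
      obtain ⟨x0, y0, p, q, h1, hp, hq, rfl, rfl⟩ := hgm x y hxy
      exact r.add_mem ((S.pp_le_iff hF.tr).2 hc (S.right_mem h1)) (hF.br hq)
    · intro x hx
      obtain ⟨x0, hx0, p, hp, rfl⟩ := AddSubgroup.mem_sup.1 hx
      obtain ⟨z, hz⟩ := S.exists_right (c := c) (mem_fib.1 hx0)
      refine ⟨z, AddSubgroup.mem_sup.2 ⟨Sum.elim x0 z, ?_, Sum.elim p 0,
        elim_mem_pr.2 ⟨hp, b.zero_mem⟩, ?_⟩⟩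
      · rw [AddSubgroup.mem_comap, MUI_h_elim]
        exact hz
      · rw [← elim_add, add_zero]
    · intro x hx y hy
      exact AddSubgroup.mem_sup_right (elim_mem_pr.2 ⟨hx, hy⟩)
    · intro x y hxy hx
      obtain ⟨x0, y0, p, q, h1, hp, hq, rfl, rfl⟩ := hgm x y hxy
      have hx0 : x0 ∈ pw J b := by
        have h2 := (pw J b).sub_mem hx hp
        rwa [add_sub_cancel_right] at h2
      exact b.add_mem (hker x0 hx0 y0 h1) hq
  have hmax : img g H ≤ I m := hI.max m _ ⟨J, inferInstance, H, g, hOp, hHV, hHom, rfl⟩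
  intro v hv
  refine hmax ?_
  have h1 : Sum.elim u c = (re (Sum.map (Sum.inl : α → α ⊕ (J × ι)) (id : ι → ι)))
      (Sum.elim (Sum.elim u w) c) := by
    funext i
    rcases i with i | i
    · rfl
    · rfl
  have h2 : Sum.elim (0 : α → M) v ∈ S.pp (Sum.elim u c) := mem_fib.1 hv
  rw [h1, S.pp_map (isZ_re _)] at h2
  obtain ⟨z, hz, hzv⟩ := h2
  have h3 : z = Sum.elim (Sum.elim (0 : α → M) (fun j => z (Sum.inl (Sum.inr j)))) v := by
    funext i
    rcases i with (i | i) | i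
    · exact congrFun hzv (Sum.inl i)
    · rfl
    · exact congrFun hzv (Sum.inr i)
  rw [h3] at hz
  rw [mem_img]
  refine ⟨fun j => z (Sum.inl (Sum.inr j)), ?_, ?_⟩
  · exact AddSubgroup.mem_sup_left (mem_fib.2 (S.left_mem hz))
  · refine AddSubgroup.mem_sup_left ?_
    rw [AddSubgroup.mem_comap, MUI_h_elim]
    exact hz

end Pool.Agent.VMA
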