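import Pool.Agent.VMA.St
import Pool.Agent.VMA.Api

/-!
# VMA: NAK
-/

set_option autoImplicit false

namespace Pool.Agent.VMA

open Set

theorem thm_NAK (h : St_CNQ) : St_NAK := by
  intro M _ S ι _ r s hr hs hcs hsr hne
  obtain ⟨-, -, -, h4⟩ := h M S ι r hr
  obtain ⟨p, hp, hsp, hpr⟩ := (h4 s hs hcs hsr).2 hne
  obtain ⟨m, hm1, hm2, hm3, hm4, hm5⟩ := exists_max hp.2.2 (P := S.IsT) hp.1 le_rfl hp.2.1 hpr
  exact ⟨m, ⟨Abs.FI.mid S hp hm1 hm2 hm3, hm4, hm5⟩, hsp.trans hm2⟩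

end Pool.Agent.VMA
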