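import Pool.Agent.VMA.St
import Pool.Agent.VMA.Api

/-!
# VMA [NOE]: no expansion (helper73)
-/

set_option autoImplicit false
set_option linter.unusedSectionVars false
set_option linter.unusedVariables false

namespace Pool.Agent.VMA

open Set

private theorem NOE_le {M : Type} [AddCommGroup M] (S : Abs M) {ι : Type} :
    ∀ (t : ℕ) (c d : AddSubgroup (ι → M)), S.LL t c d → c ≤ d
  | 0, c, d, h => h.2.le
  | t + 1, c, d, h => by
    obtain ⟨e, he, hs⟩ := h
    exact (NOE_le S t c e he).trans hs.2.2.1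

private theorem NOE_pw (hSSP : St_SSP) {M : Type} [AddCommGroup M] (S : Abs M) {ι J : Type}
    [Finite ι] [Finite J] : ∀ (t : ℕ) (c d : AddSubgroup (ι → M)), S.LL t c d →
      S.LL t (pw J c) (pw J d)
  | 0, c, d, h => ⟨S.isT_pw h.1, by rw [h.2]⟩
  | t + 1, c, d, h => by
    obtain ⟨e, he, hs⟩ := h
    exact ⟨pw J e, NOE_pw hSSP S t c e he, hSSP M S ι J e d hs⟩

/-- [NOE] -/
theorem thm_NOE (hFLT : St_FLT) (hLAT : St_LAT) (hSSP : St_SSP) (hLLS : St_LLS)
    (hLLI : St_LLI) (hLLE : St_LLE) : St_NOE := by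
  intro M _ S ι _ r b R Rad V J _ H g hF hb hR hbR hRadR hRad hOp hHR hg himg
  obtain ⟨n1, hn1⟩ := hFLT.2.2 M S ι r b V hF J H hOp
  have hn2 : ∃ n, ¬ R ≤ V n := by
    by_contra hcon
    push Not at hcon
    have h1 : R ≤ b := by
      rw [← hF.inf]
      exact le_iInf hcon
    have h2 : R = b := le_antisymm h1 hbR
    exact hR.2.2 (h2 ▸ hb)
  obtain ⟨n2, hn2⟩ := hn2
  have hUH : pw J (V (max n1 n2)) ≤ H := (pw_mono (hF.anti (le_max_left _ _))).trans hn1
  have hRU : ¬ R ≤ V (max n1 n2) := fun h => hn2 (h.trans (hF.anti (le_max_right _ _)))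
  obtain ⟨U', hU', hbU', hU'U, hinv⟩ := hLAT M S ι r b (V (max n1 n2)) J H g hF.tr hF.tb hF.cb
    hF.br hOp hg (hF.fi _) (hF.bV _) hUH
  have hTs : S.IsT (R ⊔ U') := S.isT_sup hR.1 hU'.1
  have hFIs : S.FI U' (R ⊔ U') := hU'.sub S le_sup_right (sup_le hR.2.1 hU'.2.1)
  have hex : ∃ t, S.LL t U' (R ⊔ U') :=
    (hLLE M S ι).1 U' (R ⊔ U') hU'.1 hTs le_sup_right hFIs.2.2
  classical
  have hfind := Nat.find_spec hex
  have hmin := fun t (ht : t < Nat.find hex) => Nat.find_min hex ht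
  generalize Nat.find hex = t at hfind hmin
  cases t with
  | zero =>
    have h1 : U' = R ⊔ U' := hfind.2
    exact hRU (((le_sup_left : R ≤ R ⊔ U').trans h1.ge).trans hU'U)
  | succ t0 =>
    obtain ⟨e, hLL, hSS⟩ := hfind
    have hUe : U' ≤ e := NOE_le S t0 U' e hLL
    have hRe : Rad ≤ e := by
      intro x hx
      refine (hLLE M S ι).2 e (R ⊔ U') hSS x
        ((le_sup_left : R ≤ R ⊔ U') (hRadR hx)) fun m' hm' hem' => ?_
      have hUm : U' ≤ m' := hUe.trans hem'
      have hne : m' ⊓ R ≠ R := by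
        intro h
        have h1 : R ≤ m' := inf_eq_right.1 h
        exact hm'.2.1 (le_antisymm hm'.1.2.1 (sup_le h1 hUm))
      have hidx : (m' ⊓ R).relIndex R ≠ 0 := by
        rw [AddSubgroup.inf_relIndex_right]
        exact fun h0 => hm'.1.2.2
          (AddSubgroup.relIndex_eq_zero_of_le_right (le_sup_left : R ≤ R ⊔ U') h0)
      have hmx : S.IsMx (m' ⊓ R) R := by
        refine ⟨⟨S.isT_inf hm'.1.1 hR.1, inf_le_right, hidx⟩, hne, fun s hs h1 h2 => ?_⟩
        rcases hm'.2.2 (s ⊔ m') (S.isT_sup hs hm'.1.1) le_sup_right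
          (sup_le (h2.trans le_sup_left) hm'.1.2.1) with h3 | h3
        · left
          exact le_antisymm (le_inf (le_sup_left.trans h3.le) h2) h1
        · right
          apply le_antisymm h2
          intro y hy
          have h4 : y ∈ s ⊔ m' := by
            rw [h3]
            exact (le_sup_left : R ≤ R ⊔ U') hy
          obtain ⟨u, hu, v, hv, rfl⟩ := AddSubgroup.mem_sup.1 h4
          have hvR : v ∈ R := by
            have := R.sub_mem hy (h2 hu)
            rwa [add_sub_cancel_left] at this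
          exact s.add_mem hu (h1 ⟨hv, hvR⟩)
      exact (hRad _ hmx (le_inf (hbU'.trans hUm) hbR) hx).1
    have hHe : H ≤ pw J e := hHR.trans (pw_mono hRe)
    have hUH' : pw J U' ≤ H := (pw_mono hU'U).trans hUH
    have h1 : S.LL t0 (pw J U') H := hLLS M S (J × ι) t0 (pw J U') (pw J e) H
      (NOE_pw hSSP S t0 U' e hLL) hOp.1.1 hUH' hHe
    have h2 : S.LL t0 U' (R ⊔ U') := by
      refine hLLI M S (J × ι) ι t0 (pw J U') H U' (R ⊔ U') g hg.ty hU'.1 hTs le_sup_right h1
        (fun x hx y hxy => hinv (mem_img.2 ⟨x, hx, hxy⟩)) hg.ex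
        (fun x hx y hxy => ?_) fun y hy => ?_
      · have h3 : y ∈ img g H := mem_img.2 ⟨x, hx, hxy⟩
        rw [himg] at h3
        exact (le_sup_left : R ≤ R ⊔ U') h3
      · obtain ⟨y1, hy1, y2, hy2, rfl⟩ := AddSubgroup.mem_sup.1 hy
        rw [← himg] at hy1
        obtain ⟨x, hx, hxy⟩ := mem_img.1 hy1
        exact ⟨x, hx, y1, hxy, by rw [add_sub_cancel_left]; exact hy2⟩
    exact hmin t0 (Nat.lt_succ_self t0) h2

end Pool.Agent.VMA
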