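import Pool.Agent.VMA.St
import Pool.Agent.VMA.Api

/-!
# VMA: [NOP], the intersection of the ideals `I_m` is not of finite index
-/

set_option autoImplicit false
set_option linter.unusedSectionVars false
set_option linter.unusedVariables false

namespace Pool.Agent.VMA

open Set Abs

/-- a finite intersection of types of finite index is of finite index -/
theorem NOP_FI_sInf {M : Type} [AddCommGroup M] (S : Abs M) {ι : Type} {q : AddSubgroup (ι → M)}
    (hq : S.IsT q) {D : Set (AddSubgroup (ι → M))} (hD : D.Finite) (h : ∀ s ∈ D, S.FI s q) :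
    S.FI (q ⊓ sInf D) q := by
  induction D, hD using Set.Finite.induction_on with
  | empty =>
    rw [sInf_empty, inf_top_eq]
    exact FI.refl S hq
  | @insert a D ha hD ih =>
    have h1 := ih fun s hs => h s (Set.mem_insert_of_mem _ hs)
    have h2 := FI.inf S h1 (h a (Set.mem_insert _ _))
    have h3 : q ⊓ sInf (insert a D) = (q ⊓ sInf D) ⊓ a := by
      rw [sInf_insert, inf_assoc, inf_comm (sInf D) a]
    rw [h3]
    exact h2

theorem thm_NOP (h1 : St_TOP) (h2 : St_FLT) (h3 : St_NOE) : St_NOP := by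
  intro M _ S ι _ r b V I hV hb hI
  by_contra hne
  have hRT : S.IsT (⨅ m, I m) := S.isT_iInf hI.ty
  have hbR : b ≤ ⨅ m, I m := le_iInf hI.bI
  have hRr : (⨅ m, I m) ≤ r := (iInf_le I 0).trans (hI.Ir 0)
  have hR : S.FI (⨅ m, I m) r := ⟨hRT, hRr, hne⟩
  obtain ⟨N, hN⟩ := antitone_stab hne hI.anti (fun n => iInf_le I n) hI.Ir
  have hIN : ∀ n, N ≤ n → I n = ⨅ m, I m := by
    intro n hn
    refine le_antisymm (le_iInf fun m => ?_) (iInf_le I n)
    rw [hN n hn, ← hN (max N m) (le_max_left _ _)]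
    exact hI.anti (le_max_right _ _)
  have hfin : {m | S.IsMx m (⨅ m, I m) ∧ b ≤ m}.Finite :=
    (h1 M S ι _ hRT).subset fun m hm => hm.1
  have hRad : S.FI ((⨅ m, I m) ⊓ sInf {m | S.IsMx m (⨅ m, I m) ∧ b ≤ m}) (⨅ m, I m) :=
    NOP_FI_sInf S hRT hfin fun s hs => hs.1.1
  have hbRad : b ≤ (⨅ m, I m) ⊓ sInf {m | S.IsMx m (⨅ m, I m) ∧ b ≤ m} :=
    le_inf hbR (le_sInf fun m hm => hm.2)
  obtain ⟨n, hn⟩ := h2.2.1 M S ι r b V hV _ (FI.trans S hRad hR) hbRad
  obtain ⟨J, hJ, H, g, hH, hHV, hg, hT⟩ := hI.mem (max N n)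
  rw [hIN _ (le_max_left _ _)] at hT
  exact h3 M S ι r b _ _ V J H g hV hb hR hbR inf_le_left
    (fun m hm hbm => inf_le_right.trans
      (sInf_le (show m ∈ {m | S.IsMx m (⨅ m, I m) ∧ b ≤ m} from ⟨hm, hbm⟩))) hH
    (hHV.trans (pw_mono ((hV.anti (le_max_right _ _)).trans hn))) hg hT.symm

end Pool.Agent.VMA
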