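import Pool.Agent.VMA.St
import Pool.Agent.VMA.Api

/-!
# VMA: [OPH], finite index of the fibres
-/

set_option autoImplicit false
set_option linter.unusedSectionVars false
set_option linter.unusedVariables false

namespace Pool.Agent.VMA

open Set

namespace OPH

variable {M : Type} [AddCommGroup M] {ι J : Type}

/-- tuples of length `n` which are zero before `k` and in `r` otherwise -/
def Rn (r : AddSubgroup (ι → M)) (k n : ℕ) : AddSubgroup (Fin n × ι → M) where
  carrier := {z | ∀ i : Fin n, ((i : ℕ) < k → (fun x => z (i, x)) = 0) ∧ (fun x => z (i, x)) ∈ r}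
  zero_mem' := fun i => ⟨fun _ => rfl, r.zero_mem⟩
  add_mem' := by
    intro z w hz hw i
    refine ⟨fun h => ?_, r.add_mem (hz i).2 (hw i).2⟩
    have h1 := (hz i).1 h
    have h2 := (hw i).1 h
    funext x
    have h3 := congrFun h1 x
    have h4 := congrFun h2 x
    simp only [Pi.zero_apply] at h3 h4 ⊢
    show z (i, x) + w (i, x) = 0
    rw [h3, h4, add_zero]
  neg_mem' := by
    intro z hz i
    refine ⟨fun h => ?_, r.neg_mem (hz i).2⟩
    have h1 := (hz i).1 h
    funext x
    have h3 := congrFun h1 x
    simp only [Pi.zero_apply] at h3 ⊢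
    show -z (i, x) = 0
    rw [h3, neg_zero]

theorem mem_Rn {r : AddSubgroup (ι → M)} {k n : ℕ} {z : Fin n × ι → M} :
    z ∈ Rn r k n ↔ ∀ i : Fin n, ((i : ℕ) < k → (fun x => z (i, x)) = 0) ∧
      (fun x => z (i, x)) ∈ r := Iff.rfl

/-- the last place, zero elsewhere -/
def lst (n : ℕ) : (ι → M) →+ (Fin (n + 1) × ι → M) where
  toFun v := fun p => if (p.1 : ℕ) = n then v p.2 else 0
  map_zero' := by funext p; simp
  map_add' x y := by
    funext p
    by_cases h : (p.1 : ℕ) = n <;> simp [h]

theorem lst_apply (n : ℕ) (v : ι → M) (p : Fin (n + 1) × ι) :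
    lst n v p = if (p.1 : ℕ) = n then v p.2 else 0 := rfl

variable (S : Abs M)

/-- the type of the first `n` members of the sequence -/
def Pn (a : ℕ → ι → M) (n : ℕ) : AddSubgroup (Fin n × ι → M) :=
  S.pp (tup a fun j : Fin n => (j : ℕ))

theorem step [Finite ι] (r : AddSubgroup (ι → M)) (a : ℕ → ι → M) (hr : S.IsT r)
    (ha : ∀ k, a k ∈ r)
    (h : ∀ k, (fib (S.pp (Sum.elim (tup a fun j : Fin k => (j : ℕ)) (a k)))).relIndex r ≠ 0)
    (k n : ℕ) : (Pn S a n).relIndex (Rn r k n) ≠ 0 := by
  induction n with
  | zero =>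
    have : Rn r k 0 = ⊥ := by
      rw [eq_bot_iff]
      intro z _
      rw [AddSubgroup.mem_bot]
      funext p
      exact p.1.elim0
    rw [this, AddSubgroup.relIndex_bot_right]
    exact one_ne_zero
  | succ n ih =>
    by_cases hn : n < k
    · have : Rn r k (n + 1) = ⊥ := by
        rw [eq_bot_iff]
        intro z hz
        rw [AddSubgroup.mem_bot]
        funext p
        have h1 := (hz p.1).1 (by have := p.1.2; omega)
        exact congrFun h1 p.2
      rw [this, AddSubgroup.relIndex_bot_right]
      exact one_ne_zero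
    · -- the restriction
      let g : Fin n × ι → Fin (n + 1) × ι := fun p => (p.1.castSucc, p.2)
      have h1 : S.pp (tup a fun j : Fin n => (j : ℕ)) = (Pn S a (n + 1)).map (re g) := by
        rw [Pn, ← S.pp_map (isZ_re g)]
        rfl
      have hC : ((Pn S a n).comap (re g)).relIndex (Rn r k (n + 1)) ≠ 0 := by
        rw [AddSubgroup.relIndex_comap]
        refine fun h0 => ih (AddSubgroup.relIndex_eq_zero_of_le_right ?_ h0)
        rintro _ ⟨z, hz, rfl⟩ i
        have h2 := hz i.castSucc
        exact ⟨fun h3 => h2.1 h3, h2.2⟩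
      -- the last place
      have hB : (Pn S a (n + 1)).relIndex (r.map (lst n)) ≠ 0 := by
        rw [← AddSubgroup.relIndex_comap]
        refine fun h0 => h n (AddSubgroup.relIndex_eq_zero_of_le_left ?_ h0)
        intro v hv
        rw [mem_fib] at hv
        let g2 : Fin (n + 1) × ι → (Fin n × ι) ⊕ ι := fun p =>
          if hp : (p.1 : ℕ) < n then Sum.inl (⟨p.1, hp⟩, p.2) else Sum.inr p.2
        have h3 : re g2 (Sum.elim (tup a fun j : Fin n => (j : ℕ)) (a n)) =
            tup a fun j : Fin (n + 1) => (j : ℕ) := by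
          funext p
          by_cases hp : (p.1 : ℕ) < n
          · simp [g2, hp, tup]
          · have h4 : (p.1 : ℕ) = n := by have := p.1.2; omega
            simp [g2, tup, h4]
        have h5 : lst n v = re g2 (Sum.elim (0 : Fin n × ι → M) v) := by
          funext p
          by_cases hp : (p.1 : ℕ) < n
          · simp [g2, hp, lst_apply, hp.ne]
          · have h4 : (p.1 : ℕ) = n := by have := p.1.2; omega
            simp [g2, lst_apply, h4]
        show lst n v ∈ Pn S a (n + 1)
        rw [Pn, ← h3, S.pp_map (isZ_re g2), h5]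
        exact ⟨_, hv, rfl⟩
      have hAB : (Pn S a (n + 1)).relIndex (Pn S a (n + 1) ⊔ r.map (lst n)) ≠ 0 := by
        rw [sup_comm, AddSubgroup.relIndex_sup_right]
        exact hB
      have hA : (Pn S a (n + 1)).relIndex ((Pn S a n).comap (re g) ⊓ Rn r k (n + 1)) ≠ 0 := by
        refine fun h0 => hAB (AddSubgroup.relIndex_eq_zero_of_le_right ?_ h0)
        rintro z ⟨hz1, hz2⟩
        have h2 : re g z ∈ (Pn S a (n + 1)).map (re g) := by
          rw [← h1]
          exact hz1
        obtain ⟨w, hw, hwz⟩ := h2
        have hwr : (fun x => w (Fin.last n, x)) ∈ r := by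
          have h3 : Pn S a (n + 1) ≤ r.comap (re fun x => (Fin.last n, x)) := by
            refine (S.pp_le_iff (S.isT_comap (isZ_re _) hr)).2 ?_
            show (fun x => a n x) ∈ r
            exact ha n
          exact h3 hw
        have hzr := (hz2 (Fin.last n)).2
        have h4 : z = w + lst n ((fun x => z (Fin.last n, x)) - fun x => w (Fin.last n, x)) := by
          funext p
          obtain ⟨i, x⟩ := p
          by_cases hp : (i : ℕ) = n
          · have h5 : i = Fin.last n := Fin.ext hp
            subst h5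
            simp [lst_apply]
          · have h6 : (i : ℕ) < n := by have := i.2; omega
            have h7 := congrFun hwz (⟨i, h6⟩, x)
            have h8 : w (i, x) = z (i, x) := h7
            rw [Pi.add_apply, lst_apply, if_neg hp, add_zero, h8]
        rw [h4]
        exact AddSubgroup.add_mem_sup hw ⟨_, r.sub_mem hzr hwr, rfl⟩
      refine AddSubgroup.relIndex_ne_zero_trans hA ?_
      rw [AddSubgroup.inf_relIndex_right]
      exact hC

end OPH

theorem thm_OPH : St_OPH := by
  intro M _ S ι _ r a hr ha h α J _ _ f e k hf he hinj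
  classical
  have := Fintype.ofFinite J
  obtain ⟨n, hn⟩ : ∃ n : ℕ, k ≤ n ∧ ∀ j, e j < n := by
    refine ⟨k + (Finset.univ.sup e + 1), by omega, fun j => ?_⟩
    have : e j ≤ Finset.univ.sup e := Finset.le_sup (Finset.mem_univ j)
    omega
  have hfib : (fib (S.pp (Sum.elim (tup a f) (tup a e)))).relIndex (pw J r) ≠ 0 := by
    let g : (α × ι) ⊕ (J × ι) → Fin n × ι :=
      Sum.elim (fun p => (⟨f p.1, (hf p.1).trans_le hn.1⟩, p.2)) fun p => (⟨e p.1, hn.2 p.1⟩, p.2)
    have h1 : re g (tup a fun j : Fin n => (j : ℕ)) = Sum.elim (tup a f) (tup a e) := by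
      funext p
      rcases p with p | p <;> rfl
    let ins : (J × ι → M) →+ (Fin n × ι → M) :=
      { toFun := fun v p => if hp : ∃ j, e j = (p.1 : ℕ) then v (hp.choose, p.2) else 0
        map_zero' := by
          funext p
          by_cases hp : ∃ j, e j = (p.1 : ℕ) <;> simp [hp]
        map_add' := by
          intro x y
          funext p
          by_cases hp : ∃ j, e j = (p.1 : ℕ)
          · simp only [Pi.add_apply, dif_pos hp]
          · simp only [Pi.add_apply, dif_neg hp, add_zero] }
    have hins1 : ∀ (v : J × ι → M) (j : J) (x : ι), ins v (⟨e j, hn.2 j⟩, x) = v (j, x) := by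
      intro v j x
      have hp : ∃ j', e j' = e j := ⟨j, rfl⟩
      have h2 : hp.choose = j := hinj hp.choose_spec
      show (if hp : ∃ j', e j' = e j then v (hp.choose, x) else 0) = v (j, x)
      rw [dif_pos hp, h2]
    have hins2 : ∀ (v : J × ι → M) (i : Fin n) (x : ι), (i : ℕ) < k → ins v (i, x) = 0 := by
      intro v i x hi
      have hp : ¬ ∃ j, e j = (i : ℕ) := by
        rintro ⟨j, hj⟩
        have := he j
        omega
      show (if hp : ∃ j, e j = (i : ℕ) then v (hp.choose, x) else 0) = 0
      rw [dif_neg hp]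
    have hins3 : ∀ v ∈ pw J r, ins v ∈ OPH.Rn r k n := by
      intro v hv i
      rw [mem_pw] at hv
      refine ⟨fun hi => funext fun x => hins2 v i x hi, ?_⟩
      by_cases hp : ∃ j, e j = (i : ℕ)
      · obtain ⟨j, hj⟩ := hp
        have h2 : i = ⟨e j, hn.2 j⟩ := Fin.ext hj.symm
        have h3 : (fun x => ins v (i, x)) = fun x => v (j, x) := by
          funext x
          rw [h2]
          exact hins1 v j x
        rw [h3]
        exact hv j
      · have h3 : (fun x => ins v (i, x)) = 0 := by
          funext x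
          show (if hp : ∃ j, e j = (i : ℕ) then v (hp.choose, x) else 0) = 0
          rw [dif_neg hp]
        rw [h3]
        exact r.zero_mem
    have h4 : ((OPH.Pn S a n).comap ins).relIndex (pw J r) ≠ 0 := by
      rw [AddSubgroup.relIndex_comap]
      refine fun h0 => OPH.step S r a hr ha h k n (AddSubgroup.relIndex_eq_zero_of_le_right ?_ h0)
      rintro _ ⟨v, hv, rfl⟩
      exact hins3 v hv
    refine fun h0 => h4 (AddSubgroup.relIndex_eq_zero_of_le_left ?_ h0)
    intro v hv
    rw [mem_fib, ← h1, S.pp_map (isZ_re g)]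
    refine ⟨ins v, hv, ?_⟩
    funext p
    rcases p with p | p
    · exact hins2 v _ _ (hf p.1)
    · exact hins1 v p.1 p.2
  refine ⟨hfib, fun h0 => hfib (AddSubgroup.relIndex_eq_zero_of_le_left ?_ h0)⟩
  intro v hv
  exact S.right_mem (mem_fib.1 hv)

end Pool.Agent.VMA
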