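import Pool.Agent.VMA.St

/-!
# VMA, module OPN: open orbits (helper26)
-/

set_option autoImplicit false
set_option linter.unusedSectionVars false
set_option linter.unusedVariables false

namespace Pool.Agent.VMA

open Set

private theorem OPN_isZ {ι κ M : Type} [AddCommGroup M] :
    IsZ (iR : (κ → M) →+ (ι ⊕ κ → M)) := by
  classical
  refine ⟨Sum.elim (fun _ => 0) fun k => Finsupp.single k 1, fun x k => ?_⟩
  cases k with
  | inl i => simp [iR]
  | inr k => simp [iR]

private theorem OPN_unc {α : Type} [Countable α] (f : (ℕ → Bool) → α)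
    (hf : Function.Injective f) : False := by
  classical
  obtain ⟨g, hg⟩ := exists_injective_nat α
  refine Function.cantor_injective (fun s : Set ℕ => g (f fun n => decide (n ∈ s))) ?_
  intro s t h
  have h1 := hf (hg h)
  ext n
  have h2 := congrFun h1 n
  simpa using h2

private theorem OPN_mem_pp {M : Type} [AddCommGroup M] (S : Abs M) {ι : Type} {a z : ι → M} :
    z ∈ S.pp a ↔ ∀ φ ∈ S.PP ι, a ∈ φ → z ∈ φ := by
  unfold Abs.pp
  rw [AddSubgroup.mem_sInf]
  exact ⟨fun h φ h1 h2 => h φ ⟨h1, h2⟩, fun h φ hφ => h φ hφ.1 hφ.2⟩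

private theorem OPN_mem_fib {M : Type} [AddCommGroup M] {ι κ : Type}
    {G : AddSubgroup (ι ⊕ κ → M)} {v : κ → M} : v ∈ fib G ↔ Sum.elim (0 : ι → M) v ∈ G :=
  Iff.rfl

private theorem OPN_sub {M : Type} [AddCommGroup M] {ι κ : Type} (a : ι → M) (x z : κ → M) :
    (Sum.elim (0 : ι → M) (z - x) : ι ⊕ κ → M) = Sum.elim a z - Sum.elim a x := by
  funext i
  cases i <;> simp

theorem thm_OPN (hCHN : St_CHN) (hCNQ : St_CNQ) (hCNC : St_CNC) (hGEN : St_GEN) : St_OPN := by
  classical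
  intro M _ S ι κ _ _ q p a y hq hy hp
  by_contra hno
  push Not at hno
  obtain ⟨Q, hQa, hQf, hQc, hQi⟩ := hCHN M S κ q hq
  obtain ⟨_, hcq, hcf, _⟩ := hCNQ M S κ q hq
  have hconn : S.Conn (S.con q) := (hCNC M S κ q hq).1
  have hcT : S.IsT (S.con q) := hconn.1
  have hcp : S.con q ≤ p := sInf_le hp
  have hcfib : ∀ x φ, S.con q ≤ fib (S.pp (Sum.elim a x)) → φ ∈ S.PP (ι ⊕ κ) →
      Sum.elim a x ∈ φ → S.con q ≤ fib φ := by
    intro x φ h1 h2 h3 v hv
    exact (OPN_mem_pp S).1 (h1 hv) φ h2 h3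
  let State : Type := {s : (κ → M) × ℕ // s.1 - y ∈ p ∧
    S.con q ≤ fib (S.pp (Sum.elim a s.1)) ∧ Q s.2 ≤ p}
  have hstep : ∀ s : State, ∃ (φ : AddSubgroup (ι ⊕ κ → M)) (v : κ → M) (l r : State),
      φ ∈ S.PP (ι ⊕ κ) ∧ Sum.elim a s.1.1 ∈ φ ∧ v ∈ Q s.1.2 ∧ v ∉ fib φ ∧
      Q l.1.2 ≤ fib φ ∧ Q r.1.2 ≤ fib φ ∧ s.1.2 ≤ l.1.2 ∧ s.1.2 ≤ r.1.2 ∧
      l.1.1 = s.1.1 ∧ r.1.1 - s.1.1 - v ∈ S.con q := by
    rintro ⟨⟨x, n⟩, hx, hxc, hn⟩
    dsimp only at hx hxc hn
    have h0 := hno x hx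
    have h1 : ¬ Q n ≤ fib (S.pp (Sum.elim a x)) := by
      intro h
      exact (hQf n).2.2 (AddSubgroup.relIndex_eq_zero_of_le_left h h0)
    obtain ⟨v, hv, hv2⟩ := SetLike.not_le_iff_exists.1 h1
    rw [OPN_mem_fib, OPN_mem_pp] at hv2
    push Not at hv2
    obtain ⟨φ, hφ, hxφ, hvφ⟩ := hv2
    have h2 : S.con q ≤ fib φ := hcfib x φ hxc hφ hxφ
    obtain ⟨s, hs, hsφ⟩ := hcf (fib φ) (S.comap_mem κ (ι ⊕ κ) iR OPN_isZ φ hφ) h2
    obtain ⟨n', hn'⟩ := hQc s hs
    obtain ⟨z, hz, hzc⟩ := (hGEN M S ι κ (S.con q) a (x + v) hcT).2 hconn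
    have hzy : z - y ∈ p := by
      have h3 : z - y = (z - (x + v)) + (x - y) + v := by abel
      rw [h3]
      exact p.add_mem (p.add_mem (hcp hz) hx) (hn hv)
    have hm : Q (max n n') ≤ p := (hQa (le_max_left n n')).trans hn
    have hm2 : Q (max n n') ≤ fib φ := ((hQa (le_max_right n n')).trans hn').trans hsφ
    refine ⟨φ, v, ⟨(x, max n n'), hx, hxc, hm⟩, ⟨(z, max n n'), hzy, hzc, hm⟩, hφ, hxφ, hv, hvφ,
      hm2, hm2, le_max_left _ _, le_max_left _ _, rfl, ?_⟩
    have h4 : z - x - v = z - (x + v) := by abel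
    change z - x - v ∈ S.con q
    rw [h4]
    exact hz
  choose φ v l r hφ hxφ hv hvφ hlφ hrφ hl hr hlx hrx using hstep
  obtain ⟨x0, hx0, hx0c⟩ := (hGEN M S ι κ (S.con q) a y hcT).2 hconn
  obtain ⟨n0, hn0⟩ := hQc p hp
  let root : State := ⟨(x0, n0), hcp hx0, hx0c, hn0⟩
  let st : (ℕ → Bool) → ℕ → State := fun β n =>
    Nat.rec (motive := fun _ => State) root (fun k s => if β k = true then r s else l s) n
  have st_succ : ∀ β n, st β (n + 1) = if β n = true then r (st β n) else l (st β n) :=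
    fun β n => rfl
  have hmono : ∀ β n, (st β n).1.2 ≤ (st β (n + 1)).1.2 := by
    intro β n
    rw [st_succ]
    split_ifs
    · exact hr _
    · exact hl _
  have hmono' : ∀ β, Monotone fun n => (st β n).1.2 := fun β => monotone_nat_of_le_succ (hmono β)
  have hdiff : ∀ β n, (st β (n + 1)).1.1 - (st β n).1.1 ∈ Q (st β n).1.2 := by
    intro β n
    rw [st_succ]
    split_ifs
    · have h1 : S.con q ≤ Q (st β n).1.2 := sInf_le (hQf _)
      have h2 : (r (st β n)).1.1 - (st β n).1.1 =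
          ((r (st β n)).1.1 - (st β n).1.1 - v (st β n)) + v (st β n) := by abel
      rw [h2]
      exact AddSubgroup.add_mem _ (h1 (hrx _)) (hv _)
    · rw [hlx, sub_self]
      exact AddSubgroup.zero_mem _
  have hdiff' : ∀ β j n, j ≤ n → (st β n).1.1 - (st β j).1.1 ∈ Q (st β j).1.2 := by
    intro β j n hjn
    induction n, hjn using Nat.le_induction with
    | base =>
      rw [sub_self]
      exact AddSubgroup.zero_mem _
    | succ n hn ih =>
      have h1 : (st β (n + 1)).1.1 - (st β j).1.1 =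
          ((st β (n + 1)).1.1 - (st β n).1.1) + ((st β n).1.1 - (st β j).1.1) := by abel
      rw [h1]
      exact AddSubgroup.add_mem _ (hQa (hmono' β hn) (hdiff β n)) ih
  have hfin : ∀ β n j, j < n →
      (Sum.elim a (st β n).1.1 ∈ φ (st β j) ↔ β j = false) := by
    intro β n j hjn
    have h1 := hdiff' β (j + 1) n hjn
    rw [st_succ] at h1
    cases hb : β j with
    | false =>
      rw [hb, if_neg (by simp)] at h1
      refine iff_of_true ?_ rfl
      have h2 := hlφ _ h1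
      rw [hlx, OPN_mem_fib, OPN_sub a] at h2
      have h3 := AddSubgroup.add_mem _ h2 (hxφ (st β j))
      rwa [sub_add_cancel] at h3
    | true =>
      rw [hb, if_pos rfl] at h1
      refine iff_of_false (fun h2 => ?_) (by simp)
      apply hvφ (st β j)
      have h3 : (st β n).1.1 - (st β j).1.1 ∈ fib (φ (st β j)) := by
        rw [OPN_mem_fib, OPN_sub a]
        exact AddSubgroup.sub_mem _ h2 (hxφ _)
      have h4 := hrφ _ h1
      have h5 : (r (st β j)).1.1 - (st β j).1.1 - v (st β j) ∈ fib (φ (st β j)) :=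
        hcfib _ _ (st β j).2.2.1 (hφ _) (hxφ _) (hrx _)
      have h6 : v (st β j) = ((st β n).1.1 - (st β j).1.1) -
          ((st β n).1.1 - (r (st β j)).1.1) -
          ((r (st β j)).1.1 - (st β j).1.1 - v (st β j)) := by abel
      rw [h6]
      exact AddSubgroup.sub_mem _ (AddSubgroup.sub_mem _ h3 h4) h5
  have hsat : ∀ β : ℕ → Bool, ∃ z : κ → M, ∀ j, (Sum.elim a z ∈ φ (st β j) ↔ β j = false) :=
    fun β => S.sat ι κ a (fun j => φ (st β j)) (fun j => β j = false) (fun j => hφ _)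
      fun n => ⟨(st β n).1.1, fun j hj => hfin β n j hj⟩
  choose z hz using hsat
  have := S.ctbl
  refine OPN_unc z fun β β' hzz => ?_
  by_contra hne
  have hex : ∃ n, β n ≠ β' n := by
    by_contra h
    push Not at h
    exact hne (funext h)
  have h1 : ∀ j, j ≤ Nat.find hex → st β j = st β' j := by
    intro j
    induction j with
    | zero => intro _; rfl
    | succ j ih =>
      intro hj
      have h2 : β j = β' j := by
        by_contra h
        exact Nat.find_min hex hj h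
      rw [st_succ, st_succ, ih (by omega), h2]
  have h3 := hz β (Nat.find hex)
  have h4 := hz β' (Nat.find hex)
  rw [h1 _ le_rfl, hzz] at h3
  have h5 : β (Nat.find hex) = false ↔ β' (Nat.find hex) = false := h3.symm.trans h4
  apply Nat.find_spec hex
  cases h6 : β (Nat.find hex) <;> cases h7 : β' (Nat.find hex) <;> simp_all

end Pool.Agent.VMA
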