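import Pool.Agent.VMA.St
import Pool.Agent.VMA.Api

/-!
# VMA: Q1, the structure of `q1 q`
-/

set_option autoImplicit false
set_option linter.unusedSectionVars false
set_option linter.unusedVariables false

namespace Pool.Agent.VMA

theorem thm_Q1 (h1 : St_CNQ) (h2 : St_ACC) : St_Q1 := by
  intro M _ S ι _ q hq
  have hcon : S.IsT (S.con q) ∧ S.con q ≤ q := ⟨(h1 M S ι q hq).1, (h1 M S ι q hq).2.1⟩
  have hT : S.IsT (S.q1 q) := S.isT_sInf fun s hs => hs.1.1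
  have hc : S.con q ≤ S.q1 q := le_sInf fun s hs => S.con_le hs.1
  have hle : S.q1 q ≤ q := sInf_le ⟨Abs.FI.refl S hq, fun χ _ h => h⟩
  have hχ : ∀ χ ∈ S.PP ι, χ ≤ q → χ ≤ S.q1 q := fun χ hχ h => le_sInf fun s hs => hs.2 χ hχ h
  refine ⟨hT, hc, hle, ?_, hχ⟩
  obtain ⟨u, ⟨χ, hχm, hχq, rfl⟩, hmax⟩ := (h2 M S ι q hq).2
    {t | ∃ χ ∈ S.PP ι, χ ≤ q ∧ t = χ ⊔ S.con q}
    ⟨_, ⊥, S.bot_mem ι, bot_le, rfl⟩
    (by
      rintro _ ⟨χ, hχm, hχq, rfl⟩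
      exact ⟨S.isT_sup (S.isT_of_mem hχm) hcon.1, le_sup_right, sup_le hχq hcon.2⟩)
    (by
      rintro _ ⟨χ, hχm, hχq, rfl⟩ _ ⟨ψ, hψm, hψq, rfl⟩
      refine ⟨(χ ⊔ ψ) ⊔ S.con q, ⟨χ ⊔ ψ, S.pp_sup_mem hχm hψm, sup_le hχq hψq, rfl⟩, ?_, ?_⟩
      · exact sup_le_sup_right le_sup_left _
      · exact sup_le_sup_right le_sup_right _)
  refine ⟨χ, hχm, hχq, le_antisymm ?_ (sup_le (hχ χ hχm hχq) hc)⟩
  intro x hx
  refine ((h1 M S ι q hq).2.2.2 (χ ⊔ S.con q) (S.isT_sup (S.isT_of_mem hχm) hcon.1)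
    le_sup_right (sup_le hχq hcon.2)).1 x (hle hx) ?_
  intro p hp hup
  have h3 : S.q1 q ≤ p := sInf_le ⟨hp, fun ψ hψ hψq =>
    (le_sup_left.trans (hmax _ ⟨ψ, hψ, hψq, rfl⟩)).trans hup⟩
  exact h3 hx

end Pool.Agent.VMA
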