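import Pool.Agent.VMA.St
import Pool.Agent.VMA.Api

/-!
# VMA: SSP
-/

set_option autoImplicit false
set_option linter.unusedSectionVars false
set_option linter.unusedVariables false

namespace Pool.Agent.VMA

open Set

open Classical in
/-- the tuples with the components in `F` in `d` and the other components in `c` -/
private noncomputable def sspX {M ι J : Type} [AddCommGroup M] (c d : AddSubgroup (ι → M))
    (F : Finset J) : AddSubgroup (J × ι → M) :=
  ⨅ j : J, (if j ∈ F then d else c).comap (re fun i => (j, i))

open Classical in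
private theorem ssp_mem {M ι J : Type} [AddCommGroup M] (c d : AddSubgroup (ι → M))
    (F : Finset J) (x : J × ι → M) :
    x ∈ sspX c d F ↔ ∀ j, (fun i => x (j, i)) ∈ (if j ∈ F then d else c) := by
  simp only [sspX, AddSubgroup.mem_iInf]
  rfl

private theorem ssp_isT {M ι J : Type} [AddCommGroup M] (S : Abs M) [Finite ι] [Finite J]
    (c d : AddSubgroup (ι → M)) (hc : S.IsT c) (hd : S.IsT d) (F : Finset J) :
    S.IsT (sspX c d F) := by
  classical
  refine S.isT_iInf fun j => S.isT_comap (isZ_re _) ?_
  by_cases h : j ∈ F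
  · rw [if_pos h]
    exact hd
  · rw [if_neg h]
    exact hc

private theorem ssp_key {M ι J : Type} [AddCommGroup M] (S : Abs M) [Finite ι] [Finite J]
    (c d : AddSubgroup (ι → M)) (h : S.SS c d) (F : Finset J) :
    ∀ s, S.IsT s → pw J c ≤ s → s ≤ sspX c d F →
      ∃ t, S.IsT t ∧ pw J c ≤ t ∧ t ≤ sspX c d F ∧ s ⊓ t = pw J c ∧ s ⊔ t = sspX c d F := by
  classical
  obtain ⟨hc, hd, hcd, -, hcompl⟩ := h
  induction F using Finset.induction_on with
  | empty =>
    intro s hs hcs hsX
    have hX : sspX c d (∅ : Finset J) = pw J c := by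
      ext x
      rw [ssp_mem, mem_pw]
      simp
    rw [hX] at hsX ⊢
    have hss : s = pw J c := le_antisymm hsX hcs
    subst hss
    exact ⟨_, hs, le_rfl, le_rfl, inf_idem _, sup_idem _⟩
  | insert j F hj ih =>
    intro s hs hcs hsX
    have hcX : ∀ G : Finset J, pw J c ≤ sspX c d G := by
      intro G x hx
      rw [mem_pw] at hx
      rw [ssp_mem]
      intro k
      by_cases hk : k ∈ G
      · rw [if_pos hk]
        exact hcd (hx k)
      · rw [if_neg hk]
        exact hx k
    have hXX : sspX c d F ≤ sspX c d (insert j F) := by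
      intro x hx
      rw [ssp_mem] at hx ⊢
      intro k
      have hk := hx k
      by_cases hkF : k ∈ F
      · rw [if_pos hkF] at hk
        rw [if_pos (Finset.mem_insert_of_mem hkF)]
        exact hk
      · rw [if_neg hkF] at hk
        by_cases hkj : k ∈ insert j F
        · rw [if_pos hkj]
          exact hcd hk
        · rw [if_neg hkj]
          exact hk
    obtain ⟨t1, ht1, hct1, ht1X, h1, h2⟩ := ih (s ⊓ sspX c d F)
      (S.isT_inf hs (ssp_isT S c d hc hd F)) (le_inf hcs (hcX F)) inf_le_right
    obtain ⟨t2, ht2, hct2, ht2d, h3, h4⟩ := hcompl (s.map (re fun i => (j, i)))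
      (S.isT_map (isZ_re _) hs)
      (fun x hx => ⟨sg j x, hcs (sg_mem_pw hx), sg_same j x⟩)
      (by
        rintro _ ⟨z, hz, rfl⟩
        have := (ssp_mem c d _ z).1 (hsX hz) j
        rw [if_pos (Finset.mem_insert_self j F)] at this
        exact this)
    have hsgX : ∀ v ∈ d, sg j v ∈ sspX c d (insert j F) := by
      intro v hv
      rw [ssp_mem]
      intro k
      by_cases hkj : k = j
      · subst hkj
        rw [sg_same, if_pos (Finset.mem_insert_self k F)]
        exact hv
      · rw [sg_ne hkj]
        exact AddSubgroup.zero_mem _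
    have htX : t1 ⊔ t2.map (sg j) ≤ sspX c d (insert j F) := by
      refine sup_le (ht1X.trans hXX) ?_
      rintro _ ⟨v, hv, rfl⟩
      exact hsgX v (ht2d hv)
    refine ⟨t1 ⊔ t2.map (sg j), S.isT_sup ht1 (S.isT_map (isZ_sg j) ht2),
      hct1.trans le_sup_left, htX, ?_, ?_⟩
    · apply le_antisymm
      · rintro z ⟨hz, hz'⟩
        obtain ⟨u, hu, w, ⟨v, hv, rfl⟩, rfl⟩ := AddSubgroup.mem_sup.1 hz'
        have huj : (fun i => u (j, i)) ∈ c := by
          have := (ssp_mem c d _ u).1 (ht1X hu) j
          rw [if_neg hj] at this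
          exact this
        have h5 : (fun i => u (j, i)) + v ∈ s.map (re fun i => (j, i)) := by
          refine ⟨u + sg j v, hz, ?_⟩
          rw [map_add]
          exact congrArg (fun q => (fun i => u (j, i)) + q) (sg_same j v)
        have h6 : (fun i => u (j, i)) + v ∈ s.map (re fun i => (j, i)) ⊓ t2 :=
          ⟨h5, t2.add_mem (hct2 huj) hv⟩
        rw [h3] at h6
        have h7 : v ∈ c := by
          have h8 : v = ((fun i => u (j, i)) + v) - (fun i => u (j, i)) := by abel
          rw [h8]
          exact c.sub_mem h6 huj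
        have h9 : sg j v ∈ pw J c := sg_mem_pw h7
        have h10 : u ∈ s := by
          have h11 : u = (u + sg j v) - sg j v := by abel
          rw [h11]
          exact s.sub_mem hz (hcs h9)
        have h12 : u ∈ (s ⊓ sspX c d F) ⊓ t1 := ⟨⟨h10, ht1X hu⟩, hu⟩
        rw [h1] at h12
        exact (pw J c).add_mem h12 h9
      · exact le_inf hcs (hct1.trans le_sup_left)
    · apply le_antisymm (sup_le hsX htX)
      intro x hx
      have hxj : (fun i => x (j, i)) ∈ s.map (re fun i => (j, i)) ⊔ t2 := by
        rw [h4]
        have := (ssp_mem c d _ x).1 hx j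
        rw [if_pos (Finset.mem_insert_self j F)] at this
        exact this
      obtain ⟨p, ⟨z, hz, hzp⟩, v, hv, hpv⟩ := AddSubgroup.mem_sup.1 hxj
      have hy : x - z - sg j v ∈ sspX c d F := by
        have h5 : x - z - sg j v ∈ sspX c d (insert j F) :=
          AddSubgroup.sub_mem _ (AddSubgroup.sub_mem _ hx (hsX hz)) (hsgX v (ht2d hv))
        rw [ssp_mem] at h5 ⊢
        intro k
        have h6 := h5 k
        by_cases hkj : k = j
        · subst hkj
          have h7 : (fun i => (x - z - sg k v) (k, i)) = 0 := by
            funext i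
            have e1 := congrFun hpv i
            have e2 := congrFun hzp i
            have e3 := congrFun (sg_same k v) i
            simp only [Pi.add_apply, re_apply] at e1 e2 e3
            simp only [Pi.sub_apply, Pi.zero_apply]
            rw [e3, ← e1, e2]
            abel
          rw [h7]
          exact AddSubgroup.zero_mem _
        · by_cases hkF : k ∈ F
          · rw [if_pos hkF]
            rw [if_pos (Finset.mem_insert_of_mem hkF)] at h6
            exact h6
          · rw [if_neg hkF]
            rw [if_neg (fun h => (Finset.mem_insert.1 h).elim hkj hkF)] at h6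
            exact h6
      rw [← h2] at hy
      obtain ⟨a, ha, b, hb, hab⟩ := AddSubgroup.mem_sup.1 hy
      have h8 : x = (z + a) + (b + sg j v) := by
        have : x = (x - z - sg j v) + z + sg j v := by abel
        rw [this, ← hab]
        abel
      rw [h8]
      exact AddSubgroup.add_mem_sup (s.add_mem hz ha.1) (AddSubgroup.add_mem_sup hb ⟨v, hv, rfl⟩)

theorem thm_SSP : St_SSP := by
  intro M _ S ι J _ _ c d h
  classical
  have := Fintype.ofFinite J
  obtain ⟨hc, hd, hcd, hi, -⟩ := id h
  refine ⟨S.isT_pw hc, S.isT_pw hd, pw_mono hcd, Abs.relIndex_pw hi, ?_⟩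
  have hX : sspX c d (Finset.univ : Finset J) = pw J d := by
    ext x
    rw [ssp_mem, mem_pw]
    simp
  have h1 := ssp_key S c d h (Finset.univ : Finset J)
  rw [hX] at h1
  exact h1

end Pool.Agent.VMA
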