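import Pool.Agent.VMA.St
import Pool.Agent.VMA.Api

/-!
# VMA, module STP (helper95)
-/

set_option autoImplicit false

namespace Pool.Agent.VMA

open Set Filter

/-- `⨅ (V m ⊔ K) = K` -/
theorem STP_inf {M : Type} [AddCommGroup M] {S : Abs M} {ι : Type} [Finite ι]
    {r b K : AddSubgroup (ι → M)} {V : ℕ → AddSubgroup (ι → M)} (hF : S.Flt r b V)
    (hK : S.IsT K) (hb : b ≤ K) {e : ι → M} (he : ∀ m, e ∈ V m ⊔ K) : e ∈ K := by
  have hz : IsZ (pL - pR : (ι ⊕ ι → M) →+ (ι → M)) := isZ_pL.sub isZ_pR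
  obtain ⟨v, hv⟩ := S.sat_p (ι := ι) (κ := ι) e
    (fun n => (V n).comap pR ⊓ K.comap (pL - pR))
    (fun n => S.isT_inf (S.isT_comap isZ_pR (hF.fi n).1) (S.isT_comap hz hK))
    (fun n => by
      obtain ⟨v, hv, k, hk, hvk⟩ := AddSubgroup.mem_sup.1 (he n)
      refine ⟨v, fun j hj => ⟨hF.anti hj.le hv, ?_⟩⟩
      show e - v ∈ K
      rw [← hvk, add_sub_cancel_left]
      exact hk)
  have h1 : v ∈ b := by
    rw [← hF.inf, AddSubgroup.mem_iInf]
    exact fun n => (hv n).1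
  have h2 : e - v ∈ K := (hv 0).2
  have h3 := K.add_mem h2 (hb h1)
  rwa [sub_add_cancel] at h3

theorem thm_STP (h1 : St_OPN) (h2 : St_FIN) : St_STP := by
  intro M _ S ι α _ _ r b K V a n0 hF hK hb hr h0
  obtain ⟨E, hE, hEz⟩ := h2 M S α ι r K a hF.tr hK (hF.cb.trans hb) hr
  have hex : ∀ e, e ∉ K → ∃ m, ∀ n, m ≤ n → e ∉ V n ⊔ K := by
    intro e he
    by_contra hcon
    push Not at hcon
    refine he (STP_inf hF hK hb fun m => ?_)
    obtain ⟨n, hn, hen⟩ := hcon m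
    exact sup_le_sup_right (hF.anti hn) K hen
  have hev : ∀ᶠ m in atTop, ∀ e ∈ E, e ∉ K → e ∉ V m ⊔ K := by
    rw [eventually_all_finite hE]
    intro e _
    by_cases he : e ∈ K
    · exact Eventually.of_forall fun m h => absurd he h
    · obtain ⟨m, hm⟩ := hex e he
      filter_upwards [eventually_ge_atTop m] with n hn _ using hm n hn
  obtain ⟨m, hm, hn0⟩ := (hev.and (eventually_gt_atTop n0)).exists
  have hnot : ¬ V m ≤ K := fun hle => (Abs.FI.mid S (hF.fi m) hK hle hr).2.2 h0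
  obtain ⟨y, hy, hyK⟩ := SetLike.not_le_iff_exists.1 hnot
  obtain ⟨l0, hl0⟩ := hex y hyK
  obtain ⟨x, hxy, hx⟩ := h1 M S α ι r (V (max m l0)) a y hF.tr ((hF.fi m).2.1 hy)
    (hF.fi (max m l0))
  have hxm : x ∈ V m := by
    have h3 := (V m).add_mem (hF.anti (le_max_left m l0) hxy) hy
    rwa [sub_add_cancel] at h3
  have hxK : x ∉ K := by
    intro hxK
    refine hl0 (max m l0) (le_max_right m l0) ?_
    have h3 : y = -(x - y) + x := by abel
    rw [h3]
    exact AddSubgroup.add_mem_sup ((V (max m l0)).neg_mem hxy) hxK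
  refine ⟨m, x, hn0, hxm, hxK, hx, fun c hc hcx hcK => hxK ?_⟩
  have hcm : c ∈ V m := by
    have h3 : c ∈ S.pp c ⊔ b := AddSubgroup.mem_sup_left (S.mem_pp c)
    rw [hcx] at h3
    exact sup_le ((S.pp_le_iff (hF.fi m).1).2 hxm) (hF.bV m) h3
  obtain ⟨e, he, hce⟩ := hEz c hc hcK
  have heK : e ∈ K := by
    by_contra heK
    refine hm e he heK ?_
    have h3 : e = c + -(c - e) := by abel
    rw [h3]
    exact AddSubgroup.add_mem_sup hcm (K.neg_mem hce)
  have hcK' : c ∈ K := by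
    have h3 := K.add_mem hce heK
    rwa [sub_add_cancel] at h3
  have h3 : x ∈ S.pp x ⊔ b := AddSubgroup.mem_sup_left (S.mem_pp x)
  rw [← hcx] at h3
  exact sup_le ((S.pp_le_iff hK).2 hcK') hb h3

end Pool.Agent.VMA
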