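import Pool.Agent.VMA.Api
import Pool.Agent.VMA.St

/-!
# VMA, module STQ: one step of the construction of the sequence (helper26)
-/

set_option autoImplicit false
set_option linter.unusedSectionVars false
set_option linter.unusedVariables false

namespace Pool.Agent.VMA

open Set

/-- an element of all `I n ⊔ V n` is in all `I n` -/
private theorem STQ_inf {M : Type} [AddCommGroup M] (S : Abs M) {ι : Type} [Finite ι]
    {V I : ℕ → AddSubgroup (ι → M)} (hV : ∀ n, S.IsT (V n)) (hI : ∀ n, S.IsT (I n))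
    (hVa : Antitone V) (hIa : Antitone I) (hVI : ∀ x, (∀ n, x ∈ V n) → ∀ n, x ∈ I n)
    {v : ι → M} (hv : ∀ n, v ∈ I n ⊔ V n) (n : ℕ) : v ∈ I n := by
  obtain ⟨w, hw⟩ := S.sat_p (ι := ι) (κ := ι) v
    (fun j => (V j).comap pR ⊓ (I j).comap (pL - pR))
    (fun j => S.isT_inf (S.isT_comap isZ_pR (hV j)) (S.isT_comap (isZ_pL.sub isZ_pR) (hI j)))
    (fun n => by
      obtain ⟨i, hi, w, hw, h⟩ := AddSubgroup.mem_sup.1 (hv n)
      refine ⟨w, fun j hj => ⟨hVa hj.le hw, ?_⟩⟩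
      have h1 : v - w = i := by
        rw [← h, add_sub_cancel_right]
      have h2 : v - w ∈ I j := by
        rw [h1]
        exact hIa hj.le hi
      exact h2)
  have h1 : ∀ j, w ∈ I j := hVI w fun j => (hw j).1
  have h2 : v - w ∈ I n := (hw n).2
  have h3 := AddSubgroup.add_mem _ h2 (h1 n)
  rwa [sub_add_cancel] at h3

theorem thm_STQ (hFIF : St_FIF) (hCNC : St_CNC) (hTOP : St_TOP) (hNAK : St_NAK) : St_STQ := by
  classical
  intro M _ S ι α _ _ r b V I a x hF hIa hI hx hK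
  by_contra hno
  push Not at hno
  -- elements for all `m`
  have hex : ∀ m, ∃ c ∈ r, S.pp c ⊔ b = S.pp x ⊔ b ∧ fib (S.pp (Sum.elim a c)) ≤ I m := by
    intro m
    obtain ⟨m', hm', c, hc, h1, h2⟩ := hno m
    exact ⟨c, hc, h1, h2.trans (hIa hm')⟩
  choose c hcr hcx hcf using hex
  have hVT : ∀ n, S.IsT (V n) := fun n => (hF.fi n).1
  have hIT : ∀ n, S.IsT (I n) := fun n => (hI n).1
  -- the diagonal sequence
  have hlim : ∀ n, ∃ y : ι → M, {m | c m - y ∈ V n} ∈ Filter.hyperfilter ℕ := by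
    intro n
    let Q := ↥r ⧸ (V n).addSubgroupOf r
    have hQ : Finite Q := Nat.finite_of_card_ne_zero (hF.fi n).2.2
    let f : ℕ → Q := fun m => QuotientAddGroup.mk ⟨c m, hcr m⟩
    obtain ⟨κ, hκ⟩ := Ultrafilter.eq_pure_of_finite ((Filter.hyperfilter ℕ).map f)
    have h1 : ({κ} : Set Q) ∈ (Filter.hyperfilter ℕ).map f := by
      rw [hκ]
      exact Ultrafilter.mem_pure.2 rfl
    obtain ⟨y, rfl⟩ := QuotientAddGroup.mk_surjective κ
    refine ⟨y.1, Filter.mem_of_superset (Ultrafilter.mem_map.1 h1) fun m hm => ?_⟩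
    have h2 : (QuotientAddGroup.mk (⟨c m, hcr m⟩ : ↥r) : Q) = QuotientAddGroup.mk y := hm
    have h3 : -(⟨c m, hcr m⟩ : ↥r) + y ∈ (V n).addSubgroupOf r := QuotientAddGroup.eq.1 h2
    have h4 : -(c m) + y.1 ∈ V n := h3
    rw [← AddSubgroup.neg_mem_iff] at h4
    have h5 : -(-(c m) + y.1) = c m - y.1 := by abel
    rw [h5] at h4
    exact h4
  choose y hy using hlim
  have hz : ∀ n, ∃ m, n ≤ m ∧ c m - y n ∈ V n := by
    intro n
    have h1 : {m | n ≤ m} ∈ Filter.hyperfilter ℕ := by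
      refine Filter.hyperfilter_le_cofinite ?_
      rw [Filter.mem_cofinite]
      refine (Set.finite_lt_nat n).subset fun m hm => ?_
      simpa using hm
    obtain ⟨m, hm1, hm2⟩ := (Filter.hyperfilter ℕ).nonempty_of_mem (Filter.inter_mem h1 (hy n))
    exact ⟨m, hm1, hm2⟩
  choose μ hμ hμy using hz
  let z : ℕ → ι → M := fun n => c (μ n)
  have hzf : ∀ n, fib (S.pp (Sum.elim a (z n))) ≤ I n := fun n => (hcf (μ n)).trans (hIa (hμ n))
  have hzz : ∀ j n, j ≤ n → z n - z j ∈ V j := by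
    intro j n hjn
    obtain ⟨m, hm1, hm2⟩ := (Filter.hyperfilter ℕ).nonempty_of_mem
      (Filter.inter_mem (hy j) (hy n))
    have h1 : c m - y j ∈ V j := hm1
    have h2 : c m - y n ∈ V j := hF.anti hjn hm2
    have h3 : z j - y j ∈ V j := hμy j
    have h4 : z n - y n ∈ V j := hF.anti hjn (hμy n)
    have h5 : z n - z j = (z n - y n) - (c m - y n) + (c m - y j) - (z j - y j) := by abel
    rw [h5]
    exact AddSubgroup.sub_mem _ (AddSubgroup.add_mem _ (AddSubgroup.sub_mem _ h4 h2) h1) h3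
  -- the limit `c'`
  have hXT : ∀ n, S.IsT (S.pp (Sum.elim a (z n)) ⊔ (I n ⊔ V n).map iR) := fun n =>
    S.isT_sup (S.isT_pp _) (S.isT_map isZ_iR (S.isT_sup (hIT n) (hVT n)))
  obtain ⟨c', hc'⟩ := S.sat_p a (fun n => S.pp (Sum.elim a (z n)) ⊔ (I n ⊔ V n).map iR) hXT
    (fun n => ⟨z n, fun j hj => by
      rw [mem_sup_iR]
      refine ⟨z n - z j, AddSubgroup.mem_sup_right (hzz j n hj.le), ?_⟩
      rw [sub_sub_cancel]
      exact S.mem_pp _⟩)
  have hc'z : ∀ n, c' - z n ∈ I n ⊔ V n := by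
    intro n
    obtain ⟨v, hv, h⟩ := mem_sup_iR.1 (hc' n)
    have h1 : c' - v - z n ∈ fib (S.pp (Sum.elim a (z n))) := by
      rw [mem_fib]
      have h2 := AddSubgroup.sub_mem _ h (S.mem_pp (Sum.elim a (z n)))
      rwa [← elim_sub, sub_self] at h2
    have h2 : c' - z n = (c' - v - z n) + v := by abel
    rw [h2]
    exact AddSubgroup.add_mem _ (AddSubgroup.mem_sup_left (hzf n h1)) hv
  have hc'f : ∀ v ∈ fib (S.pp (Sum.elim a c')), ∀ n, v ∈ I n ⊔ V n := by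
    intro v hv n
    have h1 : S.pp (Sum.elim a c') ≤ _ := (S.pp_le_iff (hXT n)).2 (hc' n)
    obtain ⟨w, hw, h⟩ := mem_sup_iR.1 (h1 (mem_fib.1 hv))
    have h2 : v - w ∈ I n := hzf n (mem_fib.2 h)
    have h3 : v = (v - w) + w := by abel
    rw [h3]
    exact AddSubgroup.add_mem _ (AddSubgroup.mem_sup_left h2) hw
  have hVI : ∀ x, (∀ n, x ∈ V n) → ∀ n, x ∈ I n := by
    intro x hx n
    apply (hI n).2.1
    rw [← hF.inf]
    exact AddSubgroup.mem_iInf.2 hx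
  have hinf : ∀ v, (∀ n, v ∈ I n ⊔ V n) → ∀ n, v ∈ I n := fun v hv n =>
    STQ_inf S hVT hIT hF.anti hIa hVI hv n
  -- the type of `x` modulo `b`
  have hrxT : S.IsT (S.pp x ⊔ b) := S.isT_sup (S.isT_pp x) hF.tb
  have hrxr : S.pp x ⊔ b ≤ r := sup_le ((S.pp_le_iff hF.tr).2 hx) hF.br
  have hcon : S.con (S.pp x ⊔ b) ≤ b := by
    rw [(hCNC M S ι r hF.tr).2.1 (S.pp x ⊔ b) hrxT (hF.cb.trans le_sup_right) hrxr]
    exact hF.cb
  let β : Type := {m : AddSubgroup (ι → M) // S.IsMx m (S.pp x ⊔ b) ∧ b ≤ m}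
  have hβ : Finite β := ((hTOP M S ι (S.pp x ⊔ b) hrxT).subset fun m hm => hm.1).to_subtype
  have hψ : ∀ m : β, ∃ ψ ∈ S.PP ι, m.1 = (S.pp x ⊔ b) ⊓ ψ := fun m => hFIF M S ι _ _ m.2.1.1
  choose ψ hψ1 hψ2 using hψ
  -- the limit `c''`
  obtain ⟨c'', h1, h2⟩ := S.sat_t (β := β) c'
    (fun j => match j with
      | 0 => (S.pp x ⊔ b).comap pR
      | j + 1 => (I j ⊔ V j).comap (pR - pL))
    (fun j => match j with
      | 0 => S.isT_comap isZ_pR hrxT
      | j + 1 => S.isT_comap (isZ_pR.sub isZ_pL) (S.isT_sup (hIT j) (hVT j)))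
    (fun m => (ψ m).comap pR) (fun m => S.comap_mem _ _ _ isZ_pR _ (hψ1 m))
    (fun n F => by
      have hzx : S.pp (z n) ⊔ b = S.pp x ⊔ b := hcx (μ n)
      have hzm : z n ∈ S.pp x ⊔ b := by
        rw [← hzx]
        exact AddSubgroup.mem_sup_left (S.mem_pp _)
      refine ⟨z n, fun j hj => ?_, fun m _ hm => ?_⟩
      · match j, hj with
        | 0, _ => exact hzm
        | j + 1, hj =>
          have h3 : z n - c' ∈ I j ⊔ V j := by
            have h4 : z n - c' = (z n - z j) - (c' - z j) := by abel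
            rw [h4]
            exact AddSubgroup.sub_mem _ (AddSubgroup.mem_sup_right (hzz j n (by omega)))
              (hc'z j)
          exact h3
      · have h3 : z n ∈ m.1 := by
          rw [hψ2 m]
          exact ⟨hzm, hm⟩
        apply m.2.1.2.1
        exact le_antisymm m.2.1.1.2.1
          (hzx.ge.trans (sup_le ((S.pp_le_iff m.2.1.1.1).2 h3) m.2.2)))
  have h3 : c'' ∈ S.pp x ⊔ b := h1 0
  have h4 : ∀ j, c'' - c' ∈ I j ⊔ V j := fun j => h1 (j + 1)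
  have h5 : ∀ j, c'' - c' ∈ I j := hinf _ h4
  have h6 : S.pp c'' ⊔ b = S.pp x ⊔ b := by
    have hle : S.pp c'' ⊔ b ≤ S.pp x ⊔ b := sup_le ((S.pp_le_iff hrxT).2 h3) le_sup_right
    by_contra hne
    obtain ⟨m, hm, hle2⟩ := hNAK M S ι (S.pp x ⊔ b) (S.pp c'' ⊔ b) hrxT
      (S.isT_sup (S.isT_pp _) hF.tb) (hcon.trans le_sup_right) hle hne
    have hbm : b ≤ m := le_sup_right.trans hle2
    have h7 : c'' ∈ m := hle2 (AddSubgroup.mem_sup_left (S.mem_pp _))
    have h8 : c'' ∈ (S.pp x ⊔ b) ⊓ ψ ⟨m, hm, hbm⟩ := by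
      rw [← hψ2 ⟨m, hm, hbm⟩]
      exact h7
    exact h2 ⟨m, hm, hbm⟩ h8.2
  refine hK c'' (hrxr h3) h6 fun v hv => ?_
  rw [AddSubgroup.mem_iInf]
  -- `fib (pp (a, c'')) ≤ K`
  have hKT : S.IsT (⨅ m, I m) := S.isT_iInf hIT
  have h7 : S.pp (Sum.elim a c'') ≤ S.pp (Sum.elim a c') ⊔ (⨅ m, I m).map iR := by
    rw [S.pp_le_iff (S.isT_sup (S.isT_pp _) (S.isT_map isZ_iR hKT)), mem_sup_iR]
    refine ⟨c'' - c', AddSubgroup.mem_iInf.2 h5, ?_⟩
    rw [sub_sub_cancel]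
    exact S.mem_pp _
  obtain ⟨w, hw, h8⟩ := mem_sup_iR.1 (h7 (mem_fib.1 hv))
  intro n
  have h9 : v - w ∈ I n := hinf _ (fun j => hc'f _ (mem_fib.2 h8) j) n
  have h10 := AddSubgroup.add_mem _ h9 (AddSubgroup.mem_iInf.1 hw n)
  rwa [sub_add_cancel] at h10

end Pool.Agent.VMA
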