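import Pool.Agent.VMA.St
import Pool.Agent.VMA.Api

/-!
# VMA: [TOP] finitely many maximal types of finite index (helper6)
-/

set_option autoImplicit false

namespace Pool.Agent.VMA

open Set

theorem thm_TOP (hF : St_FIF) : St_TOP := by
  intro M _ S ι _ r hr
  by_contra hinf
  -- the next maximal type
  have hex : ∀ B : {B : AddSubgroup (ι → M) // S.FI B r}, ∃ m, S.IsMx m r ∧ ¬ B.1 ≤ m := by
    rintro ⟨B, hB⟩
    by_contra hcon
    push Not at hcon
    apply hinf
    refine (finite_between hB.2.2).subset fun m hm => ?_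
    exact ⟨hcon m hm, hm.1.2.1⟩
  choose f hf1 hf2 using hex
  let B : ℕ → {B : AddSubgroup (ι → M) // S.FI B r} := fun n =>
    Nat.rec ⟨r, Abs.FI.refl S hr⟩ (fun _ P => ⟨P.1 ⊓ f P, Abs.FI.inf S P.2 (hf1 P).1⟩) n
  obtain ⟨m, hmdef⟩ : ∃ m : ℕ → AddSubgroup (ι → M), ∀ n, m n = f (B n) := ⟨_, fun n => rfl⟩
  have hBs : ∀ n, (B (n + 1)).1 = (B n).1 ⊓ m n := fun n => by
    rw [hmdef]
  have hmx : ∀ n, S.IsMx (m n) r := fun n => by
    rw [hmdef]
    exact hf1 _
  have hnot : ∀ n, ¬ (B n).1 ≤ m n := fun n => by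
    rw [hmdef]
    exact hf2 _
  have hanti : Antitone fun n => (B n).1 := antitone_nat_of_succ_le fun n => by
    rw [hBs]
    exact inf_le_left
  have hBm : ∀ n j, j < n → (B n).1 ≤ m j := fun n j h => by
    refine (hanti (Nat.succ_le_of_lt h)).trans ?_
    change (B (j + 1)).1 ≤ m j
    rw [hBs]
    exact inf_le_right
  have hBr : ∀ n, (B n).1 ≤ r := fun n => (B n).2.2.1
  have hsup : ∀ n, m n ⊔ (B n).1 = r := by
    intro n
    rcases (hmx n).2.2 (m n ⊔ (B n).1) (S.isT_sup (hmx n).1.1 (B n).2.1) le_sup_left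
      (sup_le (hmx n).1.2.1 (hBr n)) with h | h
    · exact absurd (by rw [← h]; exact le_sup_right) (hnot n)
    · exact h
  -- patterns
  have hpat : ∀ (E : Set ℕ) (n : ℕ), ∃ x ∈ r, ∀ i < n, (x ∈ m i ↔ i ∈ E) := by
    intro E n
    induction n with
    | zero => exact ⟨0, r.zero_mem, fun i hi => absurd hi (Nat.not_lt_zero i)⟩
    | succ n ih =>
      obtain ⟨x, hx, hxE⟩ := ih
      by_cases hn : n ∈ E
      · rw [← hsup n, AddSubgroup.mem_sup] at hx
        obtain ⟨y, hy, b, hb, rfl⟩ := hx
        refine ⟨y, (hmx n).1.2.1 hy, fun i hi => ?_⟩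
        rcases Nat.lt_succ_iff_lt_or_eq.1 hi with h | rfl
        · rw [← hxE i h]
          exact ((m i).add_mem_cancel_right (hBm n i h hb)).symm
        · exact ⟨fun _ => hn, fun _ => hy⟩
      · by_cases hxm : x ∈ m n
        · obtain ⟨b, hb, hbm⟩ := SetLike.not_le_iff_exists.1 (hnot n)
          refine ⟨x + b, r.add_mem hx (hBr n hb), fun i hi => ?_⟩
          rcases Nat.lt_succ_iff_lt_or_eq.1 hi with h | rfl
          · rw [← hxE i h]
            exact (m i).add_mem_cancel_right (hBm n i h hb)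
          · refine ⟨fun h => ?_, fun h => absurd h hn⟩
            exact absurd (((m i).add_mem_cancel_left hxm).1 h) hbm
        · refine ⟨x, hx, fun i hi => ?_⟩
          rcases Nat.lt_succ_iff_lt_or_eq.1 hi with h | rfl
          · exact hxE i h
          · exact ⟨fun h => absurd h hxm, fun h => absurd h hn⟩
  -- saturation
  have hψ : ∀ n, ∃ ψ ∈ S.PP ι, m n = r ⊓ ψ := fun n => hF M S ι (m n) r (hmx n).1
  choose ψ hψ1 hψ2 using hψ
  have hsat : ∀ E : Set ℕ, ∃ x : ι → M, ∀ i, (x ∈ m i ↔ i ∈ E) := by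
    intro E
    classical
    obtain ⟨x, hx1, hx2⟩ := S.sat_0 (β := {i : ℕ // i ∉ E}) (fun j => if j ∈ E then m j else r)
      (fun j => by
        by_cases h : j ∈ E
        · simp only [h, if_true]
          exact (hmx j).1.1
        · simp only [h, if_false]
          exact hr)
      (fun i => ψ i.1) (fun i => hψ1 i.1) (fun n F => by
        obtain ⟨x, hx, hxE⟩ := hpat E (max n (F.sup (fun i => i.1) + 1))
        refine ⟨x, fun j hj => ?_, fun i hi h => ?_⟩
        · by_cases h : j ∈ E
          · simp only [h, if_true]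
            exact (hxE j (lt_of_lt_of_le hj (le_max_left _ _))).2 h
          · simp only [h, if_false]
            exact hx
        · have h1 : i.1 < max n (F.sup (fun i => i.1) + 1) :=
            lt_of_lt_of_le (Nat.lt_succ_of_le (Finset.le_sup (f := fun i => i.1) hi))
              (le_max_right _ _)
          have h2 : x ∈ m i.1 := by
            rw [hψ2]
            exact ⟨hx, h⟩
          exact i.2 ((hxE i.1 h1).1 h2))
    refine ⟨x, fun i => ⟨fun h => ?_, fun h => ?_⟩⟩
    · by_contra hi
      refine hx2 ⟨i, hi⟩ ?_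
      rw [hψ2] at h
      exact h.2
    · have h1 := hx1 i
      simp only [h, if_true] at h1
      exact h1
  choose x hx using hsat
  have hinj : Function.Injective x := by
    intro E E' h
    ext i
    rw [← hx E i, ← hx E' i, h]
  have := S.ctbl
  have hc : Countable (Set ℕ) := hinj.countable
  obtain ⟨g, hg⟩ := hc.exists_injective_nat
  exact Function.cantor_injective g hg

end Pool.Agent.VMA
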