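import Pool.Agent.VMA.St
import Pool.Agent.VMA.Api

/-!
# VMA: WDF, the map is well defined
-/

set_option autoImplicit false
set_option linter.unusedSectionVars false
set_option linter.unusedVariables false

namespace Pool.Agent.VMA

open Set

namespace WDF

theorem relIndex_map_ne {G G' : Type} [AddCommGroup G] [AddCommGroup G'] (f : G →+ G')
    {H K : AddSubgroup G} (h : H.relIndex K ≠ 0) : (H.map f).relIndex (K.map f) ≠ 0 := by
  rw [← AddSubgroup.relIndex_comap]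
  intro h0
  exact h (AddSubgroup.relIndex_eq_zero_of_le_left (AddSubgroup.le_comap_map f H) h0)

theorem split_pw {M : Type} [AddCommGroup M] {ι J : Type} {p q : AddSubgroup (ι → M)}
    {x : J × ι → M} (hx : x ∈ pw J (p ⊔ q)) : ∃ u ∈ pw J p, ∃ v ∈ pw J q, u + v = x := by
  rw [mem_pw] at hx
  choose u hu v hv huv using fun j => AddSubgroup.mem_sup.1 (hx j)
  refine ⟨fun a => u a.1 a.2, mem_pw.2 fun j => hu j, fun a => v a.1 a.2,
    mem_pw.2 fun j => hv j, ?_⟩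
  funext a
  exact congrFun (huv a.1) a.2

end WDF

theorem thm_WDF (h1 : St_FIF) (h2 : St_CNC) (h3 : St_Q1) : St_WDF := by
  intro M _ S ι _ r J _ d c hr hd hfd hc hiso x hx y hxy
  obtain ⟨Θ, hΘ, hG⟩ := hiso
  obtain ⟨hqT, hcq, hqr, ⟨χ, hχ, hχr, hqe⟩, hqmax⟩ := h3 M S ι r hr
  have hrT : S.IsT (pw J r) := S.isT_pw hr
  have hdr : S.pp d ≤ pw J r := (S.pp_le_iff hrT).2 hd
  have hFI : S.FI (S.pp d) (pw J r) := ⟨S.isT_pp d, hdr, hfd⟩
  have hconJ : S.con (pw J r) = pw J (S.con r) := (h2 M S ι r hr).2.2 J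
  have hW : S.Conn (pw J (S.con r)) := by
    rw [← hconJ]
    exact (h2 M S (J × ι) (pw J r) hrT).1
  have hWd : pw J (S.con r) ≤ S.pp d := by
    rw [← hconJ]
    exact S.con_le hFI
  obtain ⟨ψ, hψ, hψe⟩ := h1 M S (J × ι) (S.pp d) (pw J r) hFI
  have hcr : S.pp c ≤ r := (S.pp_le_iff hr).2 hc
  -- membership in G
  have hmem : ∀ (u : J × ι → M) (v : ι → M), Sum.elim u v ∈ S.pp (Sum.elim d c) ↔
      u ∈ S.pp d ∧ Sum.elim u v ∈ Θ := by
    intro u v
    rw [hG]
    exact Iff.rfl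
  -- (1) the fibre
  have hfib : fib (S.pp (Sum.elim d c)) = fib Θ := by
    ext v
    rw [mem_fib, mem_fib, hmem]
    exact ⟨fun h => h.2, fun h => ⟨(S.pp d).zero_mem, h⟩⟩
  have hfibr : fib Θ ≤ r := by
    rw [← hfib]
    intro v hv
    exact hcr (S.right_mem hv)
  have hfibm : fib Θ ∈ S.PP ι := S.pp_fib_mem hΘ
  have hfq : fib Θ ≤ S.q1 r := hqmax _ hfibm hfibr
  -- (2) the image of the formula part
  have himm : img Θ (pw J χ ⊓ ψ) ∈ S.PP ι :=
    S.pp_img_mem hΘ (S.inf_mem _ _ (S.pp_pw_mem hχ) _ hψ)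
  have himr : img Θ (pw J χ ⊓ ψ) ≤ r := by
    intro v hv
    obtain ⟨u, hu, huv⟩ := mem_img.1 hv
    have h4 : u ∈ S.pp d := by
      rw [hψe]
      exact ⟨pw_mono hχr hu.1, hu.2⟩
    exact hcr (S.right_mem ((hmem u v).2 ⟨h4, huv⟩))
  have himq : img Θ (pw J χ ⊓ ψ) ≤ S.q1 r := hqmax _ himm himr
  -- the decomposition
  rw [hqe] at hx
  obtain ⟨x1, hx1, x2, hx2, hx12⟩ := WDF.split_pw hx
  have hxd : x ∈ S.pp d := S.left_mem hxy
  have hx2d : x2 ∈ S.pp d := hWd hx2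
  have hx1d : x1 ∈ S.pp d := by
    have : x1 = x - x2 := by rw [← hx12, add_sub_cancel_right]
    rw [this]
    exact (S.pp d).sub_mem hxd hx2d
  obtain ⟨y1, hy1⟩ := S.exists_right (c := c) hx1d
  obtain ⟨y2, hy2⟩ := S.exists_right (c := c) hx2d
  have hy0 : y - y1 - y2 ∈ fib Θ := by
    rw [← hfib, mem_fib]
    have h5 : (Sum.elim (0 : J × ι → M) (y - y1 - y2) : (J × ι) ⊕ ι → M)
        = Sum.elim x y - Sum.elim x1 y1 - Sum.elim x2 y2 := by
      rw [← elim_sub, ← elim_sub, ← hx12]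
      congr 1
      abel
    rw [h5]
    exact AddSubgroup.sub_mem _ (AddSubgroup.sub_mem _ hxy hy1) hy2
  have hy1q : y1 ∈ S.q1 r := by
    refine himq (mem_img.2 ⟨x1, ⟨hx1, ?_⟩, ((hmem _ _).1 hy1).2⟩)
    have := hx1d
    rw [hψe] at this
    exact this.2
  -- (3) the connected part
  have hy2q : y2 ∈ S.q1 r := by
    unfold Abs.q1
    rw [AddSubgroup.mem_sInf]
    rintro s ⟨hs, hsχ⟩
    have hfs : fib Θ ≤ s := hsχ _ hfibm hfibr
    let W : AddSubgroup (J × ι → M) := pw J (S.con r)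
    let G' : AddSubgroup ((J × ι) ⊕ ι → M) := S.pp (Sum.elim d c) ⊓ W.comap pL
    have hG'T : S.IsT G' := S.isT_inf (S.isT_pp _) (S.isT_comap isZ_pL hW.1)
    let T : AddSubgroup (J × ι → M) := (s.comap pR ⊓ G').map pL
    have hTT : S.IsT T := S.isT_map isZ_pL (S.isT_inf (S.isT_comap isZ_pR hs.1) hG'T)
    have hTW : T ≤ W := by
      rintro _ ⟨z, hz, rfl⟩
      exact hz.2.2
    have hG'W : G'.map pL = W := by
      apply le_antisymm
      · rintro _ ⟨z, hz, rfl⟩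
        exact hz.2
      · intro w hw
        obtain ⟨v, hv⟩ := S.exists_right (c := c) (hWd hw)
        exact ⟨Sum.elim w v, ⟨hv, hw⟩, rfl⟩
    have hG'r : G' ≤ r.comap pR := by
      intro z hz
      have h6 : Sum.elim (pL z) (pR z) ∈ S.pp (Sum.elim d c) := by
        rw [elim_pL_pR]
        exact hz.1
      exact hcr (S.right_mem h6)
    have h7 : (s.comap pR ⊓ G').relIndex G' ≠ 0 := by
      have h8 : (s.comap (pR : ((J × ι) ⊕ ι → M) →+ (ι → M))).relIndex (r.comap pR) ≠ 0 :=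
        AddSubgroup.relIndex_comap_ne_zero _ hs.2.2
      have h9 := AddSubgroup.relIndex_inter_ne_zero h8 G'
      rw [inf_of_le_right hG'r] at h9
      exact h9
    have h10 : T.relIndex (G'.map pL) ≠ 0 :=
      WDF.relIndex_map_ne (pL : ((J × ι) ⊕ ι → M) →+ (J × ι → M)) h7
    rw [hG'W] at h10
    have h11 : T = W := hW.2 T ⟨hTT, hTW, h10⟩
    have h12 : x2 ∈ T := by
      rw [h11]
      exact hx2
    obtain ⟨z, hz, hz2⟩ := h12
    have hz3 : Sum.elim x2 (pR z) ∈ S.pp (Sum.elim d c) := by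
      rw [← hz2, elim_pL_pR]
      exact hz.2.1
    have hzs : pR z ∈ s := hz.1
    generalize pR z = w at hz3 hzs
    have h13 : y2 - w ∈ fib Θ := by
      rw [← hfib, mem_fib]
      have h14 : (Sum.elim (0 : J × ι → M) (y2 - w) : (J × ι) ⊕ ι → M)
          = Sum.elim x2 y2 - Sum.elim x2 w := by
        rw [← elim_sub, sub_self]
      rw [h14]
      exact AddSubgroup.sub_mem _ hy2 hz3
    have h15 : y2 = (y2 - w) + w := by abel
    rw [h15]
    exact s.add_mem (hfs h13) hzs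
  have hfin : y = (y - y1 - y2) + y1 + y2 := by abel
  rw [hfin]
  exact AddSubgroup.add_mem _ (AddSubgroup.add_mem _ (hfq hy0) hy1q) hy2q

end Pool.Agent.VMA
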