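import Pool.Agent.VMA.CPT
import Pool.Agent.VMA.FIF
import Pool.Agent.VMA.CHN
import Pool.Agent.VMA.CNQ
import Pool.Agent.VMA.CNC
import Pool.Agent.VMA.GEN
import Pool.Agent.VMA.CNJ
import Pool.Agent.VMA.TOP
import Pool.Agent.VMA.NAK
import Pool.Agent.VMA.ACC
import Pool.Agent.VMA.Q1
import Pool.Agent.VMA.OPN
import Pool.Agent.VMA.FIN
import Pool.Agent.VMA.FLT
import Pool.Agent.VMA.LCT
import Pool.Agent.VMA.LAT
import Pool.Agent.VMA.SSP
import Pool.Agent.VMA.LLS
import Pool.Agent.VMA.LLI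
import Pool.Agent.VMA.LLE
import Pool.Agent.VMA.NOE
import Pool.Agent.VMA.IDL
import Pool.Agent.VMA.NOP
import Pool.Agent.VMA.STP
import Pool.Agent.VMA.STQ
import Pool.Agent.VMA.CHO
import Pool.Agent.VMA.OPH
import Pool.Agent.VMA.WDF
import Pool.Agent.VMA.MUI
import Pool.Agent.VMA.LST
import Pool.Agent.VMA.ClaimA

/-!
# VMA: the assembly (helper73)
-/

set_option autoImplicit false

namespace Pool.Agent.VMA

theorem all_CHN : St_CHN := thm_CHN thm_FIF
theorem all_CNQ : St_CNQ := thm_CNQ all_CHN thm_CPT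
theorem all_CNC : St_CNC := thm_CNC thm_CPT thm_FIF all_CHN
theorem all_CNJ : St_CNJ := thm_CNJ thm_GEN
theorem all_TOP : St_TOP := thm_TOP thm_FIF
theorem all_NAK : St_NAK := thm_NAK all_CNQ
theorem all_ACC : St_ACC := thm_ACC all_CNC all_TOP all_NAK
theorem all_Q1 : St_Q1 := thm_Q1 all_CNQ all_ACC
theorem all_OPN : St_OPN := thm_OPN all_CHN all_CNQ all_CNC thm_GEN
theorem all_FIN : St_FIN := thm_FIN all_CHN all_CNQ
theorem all_FLT : St_FLT := thm_FLT thm_CPT thm_FIF all_CNQ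
theorem all_LCT : St_LCT := thm_LCT all_TOP all_NAK all_CNC all_CNJ all_OPN
theorem all_LAT : St_LAT := thm_LAT all_LCT
theorem all_NOE : St_NOE := thm_NOE all_FLT all_LAT thm_SSP thm_LLS thm_LLI thm_LLE
theorem all_IDL : St_IDL := thm_IDL all_ACC
theorem all_NOP : St_NOP := thm_NOP all_TOP all_FLT all_NOE
theorem all_STP : St_STP := thm_STP all_OPN all_FIN
theorem all_STQ : St_STQ := thm_STQ thm_FIF all_CNC all_TOP all_NAK
theorem all_CHO : St_CHO := thm_CHO all_NOP all_STP all_STQ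
theorem all_WDF : St_WDF := thm_WDF thm_FIF all_CNC all_Q1
theorem all_LST : St_LST := thm_LST thm_OPH all_WDF thm_MUI

/-- CLAIM A -/
theorem all_ClaimA : St_ClaimA := thm_ClaimA all_Q1 all_FLT all_IDL all_CHO all_LST

end Pool.Agent.VMA
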