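import Pool.Agent.VMA.AFO
import Pool.Agent.VMA.ALL

/-!
# VMA: Claim A in affine form (helper73)

`T : Aff S`, `S` the homogeneous reduct. The sets `O k` are invariant under all automorphisms of the
homogeneous reduct.
-/

set_option autoImplicit false
set_option linter.unusedSectionVars false
set_option linter.unusedVariables false

namespace Pool.Agent.VMA

open Set

namespace Aff

variable {M : Type} [AddCommGroup M] {S : Abs M} (T : Aff S)

theorem D_map {ι κ : Type} [Finite ι] [Finite κ] {h : (ι → M) →+ (κ → M)} (hz : IsZ h)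
    (x : ι → M) : T.D (h x) = (T.D x).map h := T.map ι κ h hz x

end Aff

/-- the choice of the sequence `a_k` -/
structure ChoA {M : Type} [AddCommGroup M] {S : Abs M} (T : Aff S) {ι : Type}
    (r b : AddSubgroup (ι → M)) (V I : ℕ → AddSubgroup (ι → M)) (a : ℕ → ι → M)
    (m : ℕ → ℕ) : Prop where
  mono : StrictMono m
  mem : ∀ k, a k ∈ V (m k)
  opn : ∀ k, (fib (T.D (Sum.elim (tup a fun j : Fin k => (j : ℕ)) (a k)))).relIndex r ≠ 0
  avd : ∀ k, ∀ c ∈ r, S.pp c ⊔ b = S.pp (a k) ⊔ b →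
    ¬ fib (T.D (Sum.elim (tup a fun j : Fin k => (j : ℕ)) c)) ≤ I (m (k + 1))

theorem cho_a {M : Type} [AddCommGroup M] {S : Abs M} (T : Aff S) {ι : Type} [Finite ι]
    (r b : AddSubgroup (ι → M)) (V I : ℕ → AddSubgroup (ι → M)) (hF : S.Flt r b V)
    (hb : b.relIndex r = 0) (hI : S.Idl r b V I) : ∃ a m, ChoA T r b V I a m := by
  have hKt : S.IsT (⨅ m, I m) := S.isT_iInf hI.ty
  have hbK : b ≤ ⨅ m, I m := le_iInf hI.bI
  have hKr : ⨅ m, I m ≤ r := (iInf_le _ 0).trans (hI.Ir 0)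
  have hK0 : (⨅ m, I m).relIndex r = 0 := all_NOP M S ι r b V I hF hb hI
  have key : ∀ (k : ℕ) (g : ℕ → ι → M) (n0 : ℕ), ∃ (m : ℕ) (x : ι → M) (m0 : ℕ), n0 < m ∧
      x ∈ V m ∧ (fib (T.D (Sum.elim (tup g fun j : Fin k => (j : ℕ)) x))).relIndex r ≠ 0 ∧
      ∀ m', m0 ≤ m' → ∀ c ∈ r, S.pp c ⊔ b = S.pp x ⊔ b →
        ¬ fib (T.D (Sum.elim (tup g fun j : Fin k => (j : ℕ)) c)) ≤ I m' := by
    intro k g n0
    obtain ⟨m, x, hm, hx, -, hfi, hav⟩ := (T.at' (tup g fun j : Fin k => (j : ℕ))).stp all_CHN all_CNQ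
      all_CNC r b (⨅ m, I m) V n0 hF hKt hbK hKr hK0
    obtain ⟨m0, hm0⟩ := (T.at' (tup g fun j : Fin k => (j : ℕ))).stq thm_FIF all_CNC
      all_TOP all_NAK r b V I x hF hI.anti (fun m => ⟨hI.ty m, hI.bI m, hI.Ir m⟩) ((hF.fi m).2.1 hx) hav
    exact ⟨m, x, m0, hm, hx, hfi, hm0⟩
  choose m x m0 hm hx hfi hav using key
  let s : ℕ → (ℕ → ι → M) × ℕ := fun n => Nat.rec (0, 0) (fun k p =>
    (Function.update p.1 k (x k p.1 p.2), max (m k p.1 p.2) (m0 k p.1 p.2))) n
  have hs : ∀ k, s (k + 1) = (Function.update (s k).1 k (x k (s k).1 (s k).2),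
    max (m k (s k).1 (s k).2) (m0 k (s k).1 (s k).2)) := fun k => rfl
  let a : ℕ → ι → M := fun k => x k (s k).1 (s k).2
  let μ : ℕ → ℕ := fun k => m k (s k).1 (s k).2
  have ha : ∀ k j, j < k → (s k).1 j = a j := by
    intro k
    induction k with
    | zero => exact fun j hj => absurd hj (Nat.not_lt_zero j)
    | succ k ih =>
      intro j hj
      rw [hs]
      by_cases hjk : j = k
      · subst hjk
        exact Function.update_self _ _ _
      · exact (Function.update_of_ne hjk _ _).trans (ih j (by omega))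
  have htup : ∀ k, tup (s k).1 (fun j : Fin k => (j : ℕ)) = tup a (fun j : Fin k => (j : ℕ)) := by
    intro k
    funext p
    show (s k).1 (p.1 : ℕ) p.2 = a (p.1 : ℕ) p.2
    rw [ha k p.1 p.1.2]
  have hn : ∀ k, (s (k + 1)).2 = max (μ k) (m0 k (s k).1 (s k).2) := fun k => by rw [hs]
  refine ⟨a, μ, ⟨strictMono_nat_of_lt_succ fun k => ?_, fun k => hx k _ _, fun k => ?_,
    fun k c hc hcb => ?_⟩⟩
  · refine lt_of_le_of_lt ?_ (hm (k + 1) (s (k + 1)).1 (s (k + 1)).2)
    rw [hn]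
    exact le_max_left _ _
  · rw [← htup]
    exact hfi k _ _
  · rw [← htup]
    refine hav k (s k).1 (s k).2 (μ (k + 1)) ?_ c hc hcb
    refine le_of_lt (lt_of_le_of_lt ?_ (hm (k + 1) (s (k + 1)).1 (s (k + 1)).2))
    rw [hn]
    exact le_max_right _ _

namespace OPH

variable {M : Type} [AddCommGroup M] {ι J : Type}

variable {S : Abs M} (T : Aff S)

/-- the direction of the type of the first `n` members of the sequence -/
def PnA (a : ℕ → ι → M) (n : ℕ) : AddSubgroup (Fin n × ι → M) :=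
  T.D (tup a fun j : Fin n => (j : ℕ))

theorem stepA [Finite ι] (r : AddSubgroup (ι → M)) (a : ℕ → ι → M) (hr : S.IsT r)
    (ha : ∀ k, a k ∈ r)
    (h : ∀ k, (fib (T.D (Sum.elim (tup a fun j : Fin k => (j : ℕ)) (a k)))).relIndex r ≠ 0)
    (k n : ℕ) : (PnA T a n).relIndex (Rn r k n) ≠ 0 := by
  induction n with
  | zero =>
    have : Rn r k 0 = ⊥ := by
      rw [eq_bot_iff]
      intro z _
      rw [AddSubgroup.mem_bot]
      funext p
      exact p.1.elim0
    rw [this, AddSubgroup.relIndex_bot_right]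
    exact one_ne_zero
  | succ n ih =>
    by_cases hn : n < k
    · have : Rn r k (n + 1) = ⊥ := by
        rw [eq_bot_iff]
        intro z hz
        rw [AddSubgroup.mem_bot]
        funext p
        have h1 := (hz p.1).1 (by have := p.1.2; omega)
        exact congrFun h1 p.2
      rw [this, AddSubgroup.relIndex_bot_right]
      exact one_ne_zero
    · -- the restriction
      let g : Fin n × ι → Fin (n + 1) × ι := fun p => (p.1.castSucc, p.2)
      have h1 : T.D (tup a fun j : Fin n => (j : ℕ)) = (PnA T a (n + 1)).map (re g) := by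
        rw [PnA, ← T.D_map (isZ_re g)]
        rfl
      have hC : ((PnA T a n).comap (re g)).relIndex (Rn r k (n + 1)) ≠ 0 := by
        rw [AddSubgroup.relIndex_comap]
        refine fun h0 => ih (AddSubgroup.relIndex_eq_zero_of_le_right ?_ h0)
        rintro _ ⟨z, hz, rfl⟩ i
        have h2 := hz i.castSucc
        exact ⟨fun h3 => h2.1 h3, h2.2⟩
      -- the last place
      have hB : (PnA T a (n + 1)).relIndex (r.map (lst n)) ≠ 0 := by
        rw [← AddSubgroup.relIndex_comap]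
        refine fun h0 => h n (AddSubgroup.relIndex_eq_zero_of_le_left ?_ h0)
        intro v hv
        rw [mem_fib] at hv
        let g2 : Fin (n + 1) × ι → (Fin n × ι) ⊕ ι := fun p =>
          if hp : (p.1 : ℕ) < n then Sum.inl (⟨p.1, hp⟩, p.2) else Sum.inr p.2
        have h3 : re g2 (Sum.elim (tup a fun j : Fin n => (j : ℕ)) (a n)) =
            tup a fun j : Fin (n + 1) => (j : ℕ) := by
          funext p
          by_cases hp : (p.1 : ℕ) < n
          · simp [g2, hp, tup]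
          · have h4 : (p.1 : ℕ) = n := by have := p.1.2; omega
            simp [g2, tup, h4]
        have h5 : lst n v = re g2 (Sum.elim (0 : Fin n × ι → M) v) := by
          funext p
          by_cases hp : (p.1 : ℕ) < n
          · simp [g2, hp, lst_apply, hp.ne]
          · have h4 : (p.1 : ℕ) = n := by have := p.1.2; omega
            simp [g2, lst_apply, h4]
        show lst n v ∈ PnA T a (n + 1)
        rw [PnA, ← h3, T.D_map (isZ_re g2), h5]
        exact ⟨_, hv, rfl⟩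
      have hAB : (PnA T a (n + 1)).relIndex (PnA T a (n + 1) ⊔ r.map (lst n)) ≠ 0 := by
        rw [sup_comm, AddSubgroup.relIndex_sup_right]
        exact hB
      have hA : (PnA T a (n + 1)).relIndex ((PnA T a n).comap (re g) ⊓ Rn r k (n + 1)) ≠ 0 := by
        refine fun h0 => hAB (AddSubgroup.relIndex_eq_zero_of_le_right ?_ h0)
        rintro z ⟨hz1, hz2⟩
        have h2 : re g z ∈ (PnA T a (n + 1)).map (re g) := by
          rw [← h1]
          exact hz1
        obtain ⟨w, hw, hwz⟩ := h2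
        have hwr : (fun x => w (Fin.last n, x)) ∈ r := by
          have h3 : PnA T a (n + 1) ≤ r.comap (re fun x => (Fin.last n, x)) := by
            refine T.le_t (S.isT_comap (isZ_re _) hr) ?_
            show (fun x => a n x) ∈ r
            exact ha n
          exact h3 hw
        have hzr := (hz2 (Fin.last n)).2
        have h4 : z = w + lst n ((fun x => z (Fin.last n, x)) - fun x => w (Fin.last n, x)) := by
          funext p
          obtain ⟨i, x⟩ := p
          by_cases hp : (i : ℕ) = n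
          · have h5 : i = Fin.last n := Fin.ext hp
            subst h5
            simp [lst_apply]
          · have h6 : (i : ℕ) < n := by have := i.2; omega
            have h7 := congrFun hwz (⟨i, h6⟩, x)
            have h8 : w (i, x) = z (i, x) := h7
            rw [Pi.add_apply, lst_apply, if_neg hp, add_zero, h8]
        rw [h4]
        exact AddSubgroup.add_mem_sup hw ⟨_, r.sub_mem hzr hwr, rfl⟩
      refine AddSubgroup.relIndex_ne_zero_trans hA ?_
      rw [AddSubgroup.inf_relIndex_right]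
      exact hC

end OPH

/-- finite index of the fibres -/
theorem oph_a {M : Type} [AddCommGroup M] {S : Abs M} (T : Aff S) {ι : Type} [Finite ι]
    (r : AddSubgroup (ι → M)) (a : ℕ → ι → M) (hr : S.IsT r) (ha : ∀ k, a k ∈ r)
    (h : ∀ k, (fib (T.D (Sum.elim (tup a fun j : Fin k => (j : ℕ)) (a k)))).relIndex r ≠ 0)
    (α J : Type) [Finite α] [Finite J] (f : α → ℕ) (e : J → ℕ) (k : ℕ) (hf : ∀ i, f i < k)
    (he : ∀ j, k ≤ e j) (hinj : Function.Injective e) :
    (fib (T.D (Sum.elim (tup a f) (tup a e)))).relIndex (pw J r) ≠ 0 ∧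
      (T.D (tup a e)).relIndex (pw J r) ≠ 0 := by
  classical
  have := Fintype.ofFinite J
  obtain ⟨n, hn⟩ : ∃ n : ℕ, k ≤ n ∧ ∀ j, e j < n := by
    refine ⟨k + (Finset.univ.sup e + 1), by omega, fun j => ?_⟩
    have : e j ≤ Finset.univ.sup e := Finset.le_sup (Finset.mem_univ j)
    omega
  have hfib : (fib (T.D (Sum.elim (tup a f) (tup a e)))).relIndex (pw J r) ≠ 0 := by
    let g : (α × ι) ⊕ (J × ι) → Fin n × ι :=
      Sum.elim (fun p => (⟨f p.1, (hf p.1).trans_le hn.1⟩, p.2)) fun p => (⟨e p.1, hn.2 p.1⟩, p.2)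
    have h1 : re g (tup a fun j : Fin n => (j : ℕ)) = Sum.elim (tup a f) (tup a e) := by
      funext p
      rcases p with p | p <;> rfl
    let ins : (J × ι → M) →+ (Fin n × ι → M) :=
      { toFun := fun v p => if hp : ∃ j, e j = (p.1 : ℕ) then v (hp.choose, p.2) else 0
        map_zero' := by
          funext p
          by_cases hp : ∃ j, e j = (p.1 : ℕ) <;> simp [hp]
        map_add' := by
          intro x y
          funext p
          by_cases hp : ∃ j, e j = (p.1 : ℕ)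
          · simp only [Pi.add_apply, dif_pos hp]
          · simp only [Pi.add_apply, dif_neg hp, add_zero] }
    have hins1 : ∀ (v : J × ι → M) (j : J) (x : ι), ins v (⟨e j, hn.2 j⟩, x) = v (j, x) := by
      intro v j x
      have hp : ∃ j', e j' = e j := ⟨j, rfl⟩
      have h2 : hp.choose = j := hinj hp.choose_spec
      show (if hp : ∃ j', e j' = e j then v (hp.choose, x) else 0) = v (j, x)
      rw [dif_pos hp, h2]
    have hins2 : ∀ (v : J × ι → M) (i : Fin n) (x : ι), (i : ℕ) < k → ins v (i, x) = 0 := by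
      intro v i x hi
      have hp : ¬ ∃ j, e j = (i : ℕ) := by
        rintro ⟨j, hj⟩
        have := he j
        omega
      show (if hp : ∃ j, e j = (i : ℕ) then v (hp.choose, x) else 0) = 0
      rw [dif_neg hp]
    have hins3 : ∀ v ∈ pw J r, ins v ∈ OPH.Rn r k n := by
      intro v hv i
      rw [mem_pw] at hv
      refine ⟨fun hi => funext fun x => hins2 v i x hi, ?_⟩
      by_cases hp : ∃ j, e j = (i : ℕ)
      · obtain ⟨j, hj⟩ := hp
        have h2 : i = ⟨e j, hn.2 j⟩ := Fin.ext hj.symm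
        have h3 : (fun x => ins v (i, x)) = fun x => v (j, x) := by
          funext x
          rw [h2]
          exact hins1 v j x
        rw [h3]
        exact hv j
      · have h3 : (fun x => ins v (i, x)) = 0 := by
          funext x
          show (if hp : ∃ j, e j = (i : ℕ) then v (hp.choose, x) else 0) = 0
          rw [dif_neg hp]
        rw [h3]
        exact r.zero_mem
    have h4 : ((OPH.PnA T a n).comap ins).relIndex (pw J r) ≠ 0 := by
      rw [AddSubgroup.relIndex_comap]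
      refine fun h0 => OPH.stepA T r a hr ha h k n (AddSubgroup.relIndex_eq_zero_of_le_right ?_ h0)
      rintro _ ⟨v, hv, rfl⟩
      exact hins3 v hv
    refine fun h0 => h4 (AddSubgroup.relIndex_eq_zero_of_le_left ?_ h0)
    intro v hv
    rw [mem_fib, ← h1, T.D_map (isZ_re g)]
    refine ⟨ins v, hv, ?_⟩
    funext p
    rcases p with p | p
    · exact hins2 v _ _ (hf p.1)
    · exact hins1 v p.1 p.2
  refine ⟨hfib, fun h0 => hfib (AddSubgroup.relIndex_eq_zero_of_le_left ?_ h0)⟩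
  intro v hv
  exact T.right_mem (mem_fib.1 hv)

/-- the map is well defined -/
theorem wdf_a {M : Type} [AddCommGroup M] {S : Abs M} (T : Aff S) {ι : Type} [Finite ι]
    (r : AddSubgroup (ι → M)) (J : Type) [Finite J] (d : J × ι → M) (c : ι → M) (hr : S.IsT r)
    (hd : d ∈ pw J r) (hfd : (T.D d).relIndex (pw J r) ≠ 0) (hc : c ∈ r) (hiso : T.Iso d c)
    (x : J × ι → M) (hx : x ∈ pw J (S.q1 r)) (y : ι → M)
    (hxy : Sum.elim x y ∈ T.D (Sum.elim d c)) : y ∈ S.q1 r := by
  obtain ⟨Θ, hΘ, hG⟩ := hiso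
  obtain ⟨hqT, hcq, hqr, ⟨χ, hχ, hχr, hqe⟩, hqmax⟩ := all_Q1 M S ι r hr
  have hrT : S.IsT (pw J r) := S.isT_pw hr
  have hdr : T.D d ≤ pw J r := T.le_t hrT hd
  have hFI : S.FI (T.D d) (pw J r) := ⟨T.isT _ d, hdr, hfd⟩
  have hconJ : S.con (pw J r) = pw J (S.con r) := (all_CNC M S ι r hr).2.2 J
  have hW : S.Conn (pw J (S.con r)) := by
    rw [← hconJ]
    exact (all_CNC M S (J × ι) (pw J r) hrT).1
  have hWd : pw J (S.con r) ≤ T.D d := by
    rw [← hconJ]
    exact S.con_le hFI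
  obtain ⟨ψ, hψ, hψe⟩ := thm_FIF M S (J × ι) (T.D d) (pw J r) hFI
  have hcr : T.D c ≤ r := T.le_t hr hc
  -- membership in G
  have hmem : ∀ (u : J × ι → M) (v : ι → M), Sum.elim u v ∈ T.D (Sum.elim d c) ↔
      u ∈ T.D d ∧ Sum.elim u v ∈ Θ := by
    intro u v
    rw [hG]
    exact Iff.rfl
  -- (1) the fibre
  have hfib : fib (T.D (Sum.elim d c)) = fib Θ := by
    ext v
    rw [mem_fib, mem_fib, hmem]
    exact ⟨fun h => h.2, fun h => ⟨(T.D d).zero_mem, h⟩⟩
  have hfibr : fib Θ ≤ r := by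
    rw [← hfib]
    intro v hv
    exact hcr (T.right_mem hv)
  have hfibm : fib Θ ∈ S.PP ι := S.pp_fib_mem hΘ
  have hfq : fib Θ ≤ S.q1 r := hqmax _ hfibm hfibr
  -- (2) the image of the formula part
  have himm : img Θ (pw J χ ⊓ ψ) ∈ S.PP ι :=
    S.pp_img_mem hΘ (S.inf_mem _ _ (S.pp_pw_mem hχ) _ hψ)
  have himr : img Θ (pw J χ ⊓ ψ) ≤ r := by
    intro v hv
    obtain ⟨u, hu, huv⟩ := mem_img.1 hv
    have h4 : u ∈ T.D d := by
      rw [hψe]
      exact ⟨pw_mono hχr hu.1, hu.2⟩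
    exact hcr (T.right_mem ((hmem u v).2 ⟨h4, huv⟩))
  have himq : img Θ (pw J χ ⊓ ψ) ≤ S.q1 r := hqmax _ himm himr
  -- the decomposition
  rw [hqe] at hx
  obtain ⟨x1, hx1, x2, hx2, hx12⟩ := WDF.split_pw hx
  have hxd : x ∈ T.D d := T.left_mem hxy
  have hx2d : x2 ∈ T.D d := hWd hx2
  have hx1d : x1 ∈ T.D d := by
    have : x1 = x - x2 := by rw [← hx12, add_sub_cancel_right]
    rw [this]
    exact (T.D d).sub_mem hxd hx2d
  obtain ⟨y1, hy1⟩ := T.exists_right (c := c) hx1d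
  obtain ⟨y2, hy2⟩ := T.exists_right (c := c) hx2d
  have hy0 : y - y1 - y2 ∈ fib Θ := by
    rw [← hfib, mem_fib]
    have h5 : (Sum.elim (0 : J × ι → M) (y - y1 - y2) : (J × ι) ⊕ ι → M)
        = Sum.elim x y - Sum.elim x1 y1 - Sum.elim x2 y2 := by
      rw [← elim_sub, ← elim_sub, ← hx12]
      congr 1
      abel
    rw [h5]
    exact AddSubgroup.sub_mem _ (AddSubgroup.sub_mem _ hxy hy1) hy2
  have hy1q : y1 ∈ S.q1 r := by
    refine himq (mem_img.2 ⟨x1, ⟨hx1, ?_⟩, ((hmem _ _).1 hy1).2⟩)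
    have := hx1d
    rw [hψe] at this
    exact this.2
  -- (3) the connected part
  have hy2q : y2 ∈ S.q1 r := by
    unfold Abs.q1
    rw [AddSubgroup.mem_sInf]
    rintro s ⟨hs, hsχ⟩
    have hfs : fib Θ ≤ s := hsχ _ hfibm hfibr
    let W : AddSubgroup (J × ι → M) := pw J (S.con r)
    let G' : AddSubgroup ((J × ι) ⊕ ι → M) := T.D (Sum.elim d c) ⊓ W.comap pL
    have hG'T : S.IsT G' := S.isT_inf (T.isT _ _) (S.isT_comap isZ_pL hW.1)
    let T0 : AddSubgroup (J × ι → M) := (s.comap pR ⊓ G').map pL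
    have hTT : S.IsT T0 := S.isT_map isZ_pL (S.isT_inf (S.isT_comap isZ_pR hs.1) hG'T)
    have hTW : T0 ≤ W := by
      rintro _ ⟨z, hz, rfl⟩
      exact hz.2.2
    have hG'W : G'.map pL = W := by
      apply le_antisymm
      · rintro _ ⟨z, hz, rfl⟩
        exact hz.2
      · intro w hw
        obtain ⟨v, hv⟩ := T.exists_right (c := c) (hWd hw)
        exact ⟨Sum.elim w v, ⟨hv, hw⟩, rfl⟩
    have hG'r : G' ≤ r.comap pR := by
      intro z hz
      have h6 : Sum.elim (pL z) (pR z) ∈ T.D (Sum.elim d c) := by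
        rw [elim_pL_pR]
        exact hz.1
      exact hcr (T.right_mem h6)
    have h7 : (s.comap pR ⊓ G').relIndex G' ≠ 0 := by
      have h8 : (s.comap (pR : ((J × ι) ⊕ ι → M) →+ (ι → M))).relIndex (r.comap pR) ≠ 0 :=
        AddSubgroup.relIndex_comap_ne_zero _ hs.2.2
      have h9 := AddSubgroup.relIndex_inter_ne_zero h8 G'
      rw [inf_of_le_right hG'r] at h9
      exact h9
    have h10 : T0.relIndex (G'.map pL) ≠ 0 :=
      WDF.relIndex_map_ne (pL : ((J × ι) ⊕ ι → M) →+ (J × ι → M)) h7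
    rw [hG'W] at h10
    have h11 : T0 = W := hW.2 T0 ⟨hTT, hTW, h10⟩
    have h12 : x2 ∈ T0 := by
      rw [h11]
      exact hx2
    obtain ⟨z, hz, hz2⟩ := h12
    have hz3 : Sum.elim x2 (pR z) ∈ T.D (Sum.elim d c) := by
      rw [← hz2, elim_pL_pR]
      exact hz.2.1
    have hzs : pR z ∈ s := hz.1
    generalize pR z = w at hz3 hzs
    have h13 : y2 - w ∈ fib Θ := by
      rw [← hfib, mem_fib]
      have h14 : (Sum.elim (0 : J × ι → M) (y2 - w) : (J × ι) ⊕ ι → M)
          = Sum.elim x2 y2 - Sum.elim x2 w := by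
        rw [← elim_sub, sub_self]
      rw [h14]
      exact AddSubgroup.sub_mem _ hy2 hz3
    have h15 : y2 = (y2 - w) + w := by abel
    rw [h15]
    exact s.add_mem (hfs h13) hzs
  have hfin : y = (y - y1 - y2) + y1 + y2 := by abel
  rw [hfin]
  exact AddSubgroup.add_mem _ (AddSubgroup.add_mem _ (hfq hy0) hy1q) hy2q

/-- the map `(y, z) ↦ ((0, y), z)` -/
private def MuA_h {M α β ι : Type} [AddCommGroup M] : (β ⊕ ι → M) →+ ((α ⊕ β) ⊕ ι → M) :=
  (re (Equiv.sumAssoc α β ι)).comp iR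

private theorem MuA_hZ {M α β ι : Type} [AddCommGroup M] :
    IsZ (MuA_h : (β ⊕ ι → M) →+ ((α ⊕ β) ⊕ ι → M)) := (isZ_re _).comp isZ_iR

private theorem MuA_h_elim {M α β ι : Type} [AddCommGroup M] (y : β → M) (z : ι → M) :
    (MuA_h (Sum.elim y z) : (α ⊕ β) ⊕ ι → M) = Sum.elim (Sum.elim (0 : α → M) y) z := by
  funext i
  rcases i with (i | i) | i
  · rfl
  · rfl
  · rfl

/-- the image of the later coordinates is in `I_m` -/
theorem mui_a {M : Type} [AddCommGroup M] {S : Abs M} (T : Aff S) {ι α J : Type} [Finite ι]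
    [Finite α] [Finite J] (r b : AddSubgroup (ι → M)) (V I : ℕ → AddSubgroup (ι → M)) (m : ℕ)
    (u : α → M) (w : J × ι → M) (c : ι → M) (hF : S.Flt r b V) (hI : S.Idl r b V I)
    (hw : w ∈ pw J (V m)) (hc : c ∈ r)
    (hidx : (fib (T.D (Sum.elim u w))).relIndex (pw J r) ≠ 0)
    (hker : ∀ y ∈ pw J b, ∀ z, Sum.elim (Sum.elim (0 : α → M) y) z ∈
      T.D (Sum.elim (Sum.elim u w) c) → z ∈ b) : fib (T.D (Sum.elim u c)) ≤ I m := by
  have hVr : V m ≤ r := (hF.fi m).le
  set H0 : AddSubgroup (J × ι → M) := fib (T.D (Sum.elim u w)) with hH0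
  have hH0T : S.IsT H0 := S.isT_fib (T.isT _ _)
  have hH0V : H0 ≤ pw J (V m) := by
    intro y hy
    have h1 : y ∈ T.D w := T.right_mem (mem_fib.1 hy)
    exact T.le_t (S.isT_pw (hF.fi m).ty) hw h1
  have hbV : pw J b ≤ pw J (V m) := pw_mono (hF.bV m)
  have hVr' : pw J (V m) ≤ pw J r := pw_mono hVr
  set H : AddSubgroup (J × ι → M) := H0 ⊔ pw J b with hH
  have hHV : H ≤ pw J (V m) := sup_le hH0V hbV
  set g : AddSubgroup ((J × ι) ⊕ ι → M) :=
    (T.D (Sum.elim (Sum.elim u w) c)).comap MuA_h ⊔ pr (pw J b) b with hg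
  have hgm : ∀ x y, Sum.elim x y ∈ g → ∃ x0 y0 p q, Sum.elim (Sum.elim (0 : α → M) x0) y0 ∈
      T.D (Sum.elim (Sum.elim u w) c) ∧ p ∈ pw J b ∧ q ∈ b ∧ x = x0 + p ∧ y = y0 + q := by
    intro x y hxy
    obtain ⟨s, hs, t, ht, hst⟩ := AddSubgroup.mem_sup.1 hxy
    refine ⟨pL s, pR s, pL t, pR t, ?_, ht.1, ht.2, ?_, ?_⟩
    · rw [← MuA_h_elim, elim_pL_pR]
      exact hs
    · have h1 := congrArg pL hst
      rw [map_add, pL_elim] at h1
      exact h1.symm
    · have h1 := congrArg pR hst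
      rw [map_add, pR_elim] at h1
      exact h1.symm
  have hOp : S.Op r b J H := by
    refine ⟨Abs.FI.mid S (p := H0) ⟨hH0T, hH0V.trans hVr', hidx⟩
      (S.isT_sup hH0T (S.isT_pw hF.tb)) le_sup_left (hHV.trans hVr'), le_sup_right⟩
  have hHom : S.HomR r b J H g := by
    refine ⟨?_, ?_, ?_, ?_, ?_, ?_⟩
    · exact S.isT_sup (S.isT_comap MuA_hZ (T.isT _ _)) (S.isT_pr (S.isT_pw hF.tb) hF.tb)
    · intro x y hxy
      obtain ⟨x0, y0, p, q, h1, hp, hq, rfl, rfl⟩ := hgm x y hxy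
      exact AddSubgroup.add_mem_sup (mem_fib.2 (T.left_mem h1)) hp
    · intro x y hxy
      obtain ⟨x0, y0, p, q, h1, hp, hq, rfl, rfl⟩ := hgm x y hxy
      exact r.add_mem (T.le_t hF.tr hc (T.right_mem h1)) (hF.br hq)
    · intro x hx
      obtain ⟨x0, hx0, p, hp, rfl⟩ := AddSubgroup.mem_sup.1 hx
      obtain ⟨z, hz⟩ := T.exists_right (c := c) (mem_fib.1 hx0)
      refine ⟨z, AddSubgroup.mem_sup.2 ⟨Sum.elim x0 z, ?_, Sum.elim p 0,
        elim_mem_pr.2 ⟨hp, b.zero_mem⟩, ?_⟩⟩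
      · rw [AddSubgroup.mem_comap, MuA_h_elim]
        exact hz
      · rw [← elim_add, add_zero]
    · intro x hx y hy
      exact AddSubgroup.mem_sup_right (elim_mem_pr.2 ⟨hx, hy⟩)
    · intro x y hxy hx
      obtain ⟨x0, y0, p, q, h1, hp, hq, rfl, rfl⟩ := hgm x y hxy
      have hx0 : x0 ∈ pw J b := by
        have h2 := (pw J b).sub_mem hx hp
        rwa [add_sub_cancel_right] at h2
      exact b.add_mem (hker x0 hx0 y0 h1) hq
  have hmax : img g H ≤ I m := hI.max m _ ⟨J, inferInstance, H, g, hOp, hHV, hHom, rfl⟩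
  intro v hv
  refine hmax ?_
  have h1 : Sum.elim u c = (re (Sum.map (Sum.inl : α → α ⊕ (J × ι)) (id : ι → ι)))
      (Sum.elim (Sum.elim u w) c) := by
    funext i
    rcases i with i | i
    · rfl
    · rfl
  have h2 : Sum.elim (0 : α → M) v ∈ T.D (Sum.elim u c) := mem_fib.1 hv
  rw [h1, T.D_map (isZ_re _)] at h2
  obtain ⟨z, hz, hzv⟩ := h2
  have h3 : z = Sum.elim (Sum.elim (0 : α → M) (fun j => z (Sum.inl (Sum.inr j)))) v := by
    funext i
    rcases i with (i | i) | i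
    · exact congrFun hzv (Sum.inl i)
    · rfl
    · exact congrFun hzv (Sum.inr i)
  rw [h3] at hz
  rw [mem_img]
  refine ⟨fun j => z (Sum.inl (Sum.inr j)), ?_, ?_⟩
  · exact AddSubgroup.mem_sup_left (mem_fib.2 (T.left_mem hz))
  · refine AddSubgroup.mem_sup_left ?_
    rw [AddSubgroup.mem_comap, MuA_h_elim]
    exact hz

open Classical in
/-- `(u, w, c) ↦ (d, c)` -/
private noncomputable def LsA_g {α ι : Type} (f : α → ℕ) (k : ℕ) (hk : ∀ i, f i ≠ k) :
    (α × ι) ⊕ ι → (({i // f i < k} × ι) ⊕ ({i // k < f i} × ι)) ⊕ ι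
  | Sum.inl p => if h : f p.1 < k then Sum.inl (Sum.inl (⟨p.1, h⟩, p.2))
      else Sum.inl (Sum.inr (⟨p.1, lt_of_le_of_ne (not_lt.1 h) (hk p.1).symm⟩, p.2))
  | Sum.inr t => Sum.inr t

/-- `(a_(<k), c) ↦ (u, c)` -/
private def LsA_g' {α ι : Type} (f : α → ℕ) (k : ℕ) :
    ({i // f i < k} × ι) ⊕ ι → (Fin k × ι) ⊕ ι
  | Sum.inl p => Sum.inl (⟨f p.1.1, p.1.2⟩, p.2)
  | Sum.inr t => Sum.inr t

/-- tuples isolated over `a_F`, `k ∉ F` -/
theorem lst_a {M : Type} [AddCommGroup M] {S : Abs M} (T : Aff S) {ι : Type} [Finite ι]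
    (r : AddSubgroup (ι → M)) (V I : ℕ → AddSubgroup (ι → M)) (a : ℕ → ι → M) (m : ℕ → ℕ)
    (hF : S.Flt r (S.q1 r) V) (hI : S.Idl r (S.q1 r) V I) (hC : ChoA T r (S.q1 r) V I a m)
    (α : Type) [Finite α] (f : α → ℕ) (hf : Function.Injective f) (k : ℕ) (hk : ∀ i, f i ≠ k)
    (c : ι → M) (hc : c ∈ r) (hIso : T.Iso (tup a f) c) :
    S.pp c ⊔ S.q1 r ≠ S.pp (a k) ⊔ S.q1 r := by
  classical
  intro hEq
  have hVr : ∀ j, V j ≤ r := fun j => (hF.fi j).le
  have har : ∀ j, a j ∈ r := fun j => hVr _ (hC.mem j)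
  have hop := oph_a T r a hF.tr har hC.opn
  set A : Type := {i // f i < k} with hA
  set J : Type := {i // k < f i} with hJ
  set u : A × ι → M := tup a fun i => f i.1 with hu
  set w : J × ι → M := tup a fun i => f i.1 with hw
  have hwV : w ∈ pw J (V (m (k + 1))) := by
    rw [mem_pw]
    intro j
    exact hF.anti (hC.mono.monotone (Nat.succ_le_of_lt j.2)) (hC.mem (f j.1))
  have hfib : (fib (T.D (Sum.elim u w))).relIndex (pw J r) ≠ 0 :=
    (hop A J (fun i => f i.1) (fun i => f i.1) k (fun i => i.2) (fun j => j.2.le)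
      fun i j hij => Subtype.ext (hf hij)).1
  have hwdf := wdf_a T r α (tup a f) c hF.tr
    (by rw [mem_pw]; exact fun j => har (f j))
    (hop Empty α (fun i => i.elim) f 0 (fun i => i.elim) (fun j => Nat.zero_le _) hf).2 hc hIso
  have hker : ∀ y ∈ pw J (S.q1 r), ∀ z, Sum.elim (Sum.elim (0 : A × ι → M) y) z ∈
      T.D (Sum.elim (Sum.elim u w) c) → z ∈ S.q1 r := by
    intro y hy z hz
    have hmap := T.D_map (isZ_re (M := M) (LsA_g (ι := ι) f k hk)) (Sum.elim (Sum.elim u w) c)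
    have h4 : re (LsA_g (ι := ι) f k hk) (Sum.elim (Sum.elim u w) c) = Sum.elim (tup a f) c := by
      funext p
      rcases p with p | t
      · rw [re_apply]
        simp only [LsA_g, Sum.elim_inl]
        split_ifs with h
        · rfl
        · rfl
      · rfl
    rw [h4] at hmap
    have h5 : re (LsA_g (ι := ι) f k hk) (Sum.elim (Sum.elim (0 : A × ι → M) y) z) ∈
        T.D (Sum.elim (tup a f) c) := by
      rw [hmap]
      exact ⟨_, hz, rfl⟩
    set x : α × ι → M := pL (re (LsA_g (ι := ι) f k hk)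
      (Sum.elim (Sum.elim (0 : A × ι → M) y) z)) with hx
    have h6 : re (LsA_g (ι := ι) f k hk) (Sum.elim (Sum.elim (0 : A × ι → M) y) z) =
        Sum.elim x z := by
      funext p
      rcases p with p | t
      · rfl
      · rfl
    rw [h6] at h5
    refine hwdf x ?_ z h5
    rw [mem_pw] at hy ⊢
    intro i
    by_cases h : f i < k
    · have h7 : (fun t => x (i, t)) = 0 := by
        funext t
        show re (LsA_g (ι := ι) f k hk) (Sum.elim (Sum.elim (0 : A × ι → M) y) z)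
          (Sum.inl (i, t)) = 0
        rw [re_apply]
        simp only [LsA_g]
        rw [dif_pos h]
        rfl
      rw [h7]
      exact AddSubgroup.zero_mem _
    · have h8 : k < f i := lt_of_le_of_ne (not_lt.1 h) (hk i).symm
      have h7 : (fun t => x (i, t)) = fun t => y (⟨i, h8⟩, t) := by
        funext t
        show re (LsA_g (ι := ι) f k hk) (Sum.elim (Sum.elim (0 : A × ι → M) y) z)
          (Sum.inl (i, t)) = _
        rw [re_apply]
        simp only [LsA_g]
        rw [dif_neg h]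
        rfl
      rw [h7]
      exact hy ⟨i, h8⟩
  have hmui := mui_a T r (S.q1 r) V I (m (k + 1)) u w c hF hI hwV hc hfib hker
  refine hC.avd k c hc hEq fun v hv => hmui ?_
  rw [mem_fib] at hv ⊢
  have hmap := T.D_map (isZ_re (M := M) (LsA_g' (ι := ι) f k))
    (Sum.elim (tup a fun j : Fin k => (j : ℕ)) c)
  have h4 : re (LsA_g' (ι := ι) f k) (Sum.elim (tup a fun j : Fin k => (j : ℕ)) c) =
      Sum.elim u c := by
    funext p
    rcases p with p | t
    · rfl
    · rfl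
  rw [h4] at hmap
  rw [hmap]
  refine ⟨_, hv, ?_⟩
  funext p
  rcases p with p | t
  · rfl
  · rfl

/-- CLAIM A in affine form -/
def St_ClaimAff : Prop :=
  ∀ (M : Type) [AddCommGroup M] (S : Abs M) (T : Aff S) (ι : Type) [Finite ι]
    (r : AddSubgroup (ι → M)), S.IsT r → S.FI (S.q1 r) r ∨
      ∃ (a : ℕ → ι → M) (O : ℕ → Set (ι → M)), (∀ k, a k ∈ O k) ∧
        (∀ k x y, S.pp x = S.pp y → x ∈ O k → y ∈ O k) ∧
        ∀ (α : Type) [Finite α] (f : α → ℕ), Function.Injective f → ∀ k, (∀ i, f i ≠ k) →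
          ∀ c, T.Iso (tup a f) c → c ∉ O k

/-- CLAIM A in affine form -/
theorem all_ClaimAff : St_ClaimAff := by
  intro M _ S T ι _ r hr
  obtain ⟨hq, hc, hqr, -, -⟩ := all_Q1 M S ι r hr
  by_cases h0 : (S.q1 r).relIndex r = 0
  · right
    obtain ⟨V, hV⟩ := all_FLT.1 M S ι r (S.q1 r) hr hq hc hqr
    obtain ⟨I, hI⟩ := all_IDL M S ι r (S.q1 r) V hV
    obtain ⟨a, m, ha⟩ := cho_a T r (S.q1 r) V I hV h0 hI
    have har : ∀ k, a k ∈ r := fun k => (hV.fi (m k)).2.1 (ha.mem k)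
    refine ⟨a, fun k => {c | c ∈ r ∧ S.pp c ⊔ S.q1 r = S.pp (a k) ⊔ S.q1 r},
      fun k => ⟨har k, rfl⟩, fun k x y hxy hx => ⟨?_, ?_⟩, ?_⟩
    · have h1 : S.pp y ≤ r := by
        rw [← hxy]
        exact (S.pp_le_iff hr).2 hx.1
      exact h1 (S.mem_pp y)
    · rw [← hxy]
      exact hx.2
    · intro α _ f hf k hk c hiso hcO
      exact lst_a T r V I a m hV hI ha α f hf k hk c hcO.1 hiso hcO.2
  · left
    exact ⟨hq, hqr, h0⟩

/-- isolated over `(e, d)` is isolated over `d` when `e` is named -/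
theorem Aff.iso_at {M : Type} [AddCommGroup M] {S : Abs M} (T : Aff S) {ε ι κ : Type}
    [Finite ε] [Finite ι] [Finite κ] (e : ε → M) (d : ι → M) (c : κ → M)
    (h : T.Iso (Sum.elim e d) c) : (T.at' e).Iso d c := by
  obtain ⟨Θ, hΘ, hD⟩ := h
  refine ⟨Θ.comap MuA_h, S.comap_mem _ _ _ MuA_hZ _ hΘ, ?_⟩
  let g : ε ⊕ (ι ⊕ κ) → (ε ⊕ ι) ⊕ κ := (Equiv.sumAssoc ε ι κ).symm
  have h1 : re g (Sum.elim (Sum.elim e d) c) = Sum.elim e (Sum.elim d c) := by
    funext i
    rcases i with i | i | i <;> rfl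
  have h2 := T.D_map (isZ_re g) (Sum.elim (Sum.elim e d) c)
  rw [h1] at h2
  have h3 : ∀ (x : ι → M) (y : κ → M),
      re g (Sum.elim (Sum.elim (0 : ε → M) x) y) = Sum.elim (0 : ε → M) (Sum.elim x y) := by
    intro x y
    funext i
    rcases i with i | i | i <;> rfl
  have h4 : ∀ z w : (ε ⊕ ι) ⊕ κ → M, re g z = re g w → z = w := by
    intro z w hzw
    funext i
    rcases i with (i | i) | i
    · exact congrFun hzw (Sum.inl i)
    · exact congrFun hzw (Sum.inr (Sum.inl i))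
    · exact congrFun hzw (Sum.inr (Sum.inr i))
  have h5 : ∀ (x : ι → M) (y : κ → M), Sum.elim x y ∈ fib (T.D (Sum.elim e (Sum.elim d c))) ↔
      Sum.elim (Sum.elim (0 : ε → M) x) y ∈ T.D (Sum.elim (Sum.elim e d) c) := by
    intro x y
    rw [mem_fib, h2, ← h3]
    constructor
    · rintro ⟨w, hw, hwz⟩
      rw [← h4 _ _ hwz]
      exact hw
    · intro hw
      exact ⟨_, hw, rfl⟩
  ext z
  rw [← elim_pL_pR z, at_D, at_D, h5, hD]
  show _ ∧ _ ↔ _ ∧ _
  refine and_congr Iff.rfl ?_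
  show _ ↔ MuA_h (Sum.elim (pL z) (pR z)) ∈ Θ
  rw [MuA_h_elim]
  exact Iff.rfl

/-- CLAIM A in affine form relative to a finite tuple `e` -/
theorem all_ClaimAffe (M : Type) [AddCommGroup M] (S : Abs M) (T : Aff S) (ι ε : Type)
    [Finite ι] [Finite ε] (e : ε → M) (r : AddSubgroup (ι → M)) (hr : S.IsT r) :
    S.FI (S.q1 r) r ∨
      ∃ (a : ℕ → ι → M) (O : ℕ → Set (ι → M)), (∀ k, a k ∈ O k) ∧
        (∀ k x y, S.pp x = S.pp y → x ∈ O k → y ∈ O k) ∧
        ∀ (α : Type) [Finite α] (f : α → ℕ), Function.Injective f → ∀ k, (∀ i, f i ≠ k) →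
          ∀ c, T.Iso (Sum.elim e (tup a f)) c → c ∉ O k := by
  rcases all_ClaimAff M S (T.at' e) ι r hr with h | ⟨a, O, h1, h2, h3⟩
  · exact Or.inl h
  · exact Or.inr ⟨a, O, h1, h2, fun α _ f hf k hk c hc => h3 α f hf k hk c (T.iso_at e _ c hc)⟩

end Pool.Agent.VMA
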