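import Pool.Agent.VMA.St
import Pool.Agent.VMA.Api

/-!
# VMA: affine structures over a saturated abelian structure (helper73)

`S` is the homogeneous reduct. For a finite tuple `x` the group `D x` is the direction of the affine type
of `x` (the affine type is the coset `x + D x`). The affine formulas are the cosets `w + φ`, `φ ∈ PP`,
`D w ≤ φ`. No homogeneity for affine types is needed.
-/

set_option autoImplicit false
set_option linter.unusedSectionVars false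
set_option linter.unusedVariables false

namespace Pool.Agent.VMA

open Set

/-- affine structures over `S` -/
structure Aff {M : Type} [AddCommGroup M] (S : Abs M) where
  /-- the direction of the affine type of a tuple -/
  D : {ι : Type} → (ι → M) → AddSubgroup (ι → M)
  isT : ∀ (ι : Type) [Finite ι] (x : ι → M), S.IsT (D x)
  map : ∀ (ι κ : Type) [Finite ι] [Finite κ] (h : (ι → M) →+ (κ → M)), IsZ h →
    ∀ x, D (h x) = (D x).map h
  le : ∀ (ι : Type) [Finite ι] (x : ι → M), ∀ φ ∈ S.PP ι, x ∈ φ → D x ≤ φ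
  /-- saturation over finite tuples for affine formulas -/
  sat : ∀ (ι κ : Type) [Finite ι] [Finite κ] (a : ι → M) (w : ℕ → κ → M)
    (φ : ℕ → AddSubgroup (κ → M)) (b : ℕ → Prop),
    (∀ j, φ j ∈ S.PP κ ∧ fib (D (Sum.elim a (w j))) ≤ φ j) →
    (∀ n, ∃ x : κ → M, ∀ j < n, (x - w j ∈ φ j ↔ b j)) →
    ∃ x : κ → M, ∀ j, (x - w j ∈ φ j ↔ b j)

namespace Aff

variable {M : Type} [AddCommGroup M] {S : Abs M} (T : Aff S) {ι κ J α : Type}

theorem le_t [Finite ι] {x : ι → M} {r : AddSubgroup (ι → M)} (hr : S.IsT r) (hx : x ∈ r) :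
    T.D x ≤ r := by
  intro u hu
  exact S.isT_iff.1 hr u fun φ hφ hrφ => T.le ι x φ hφ (hrφ hx) hu

theorem left_mem [Finite ι] [Finite κ] {a : ι → M} {c : κ → M} {x : ι → M} {y : κ → M}
    (h : Sum.elim x y ∈ T.D (Sum.elim a c)) : x ∈ T.D a := by
  have h1 := T.map _ _ pL isZ_pL (Sum.elim a c)
  rw [pL_elim] at h1
  rw [h1]
  exact ⟨_, h, rfl⟩

theorem right_mem [Finite ι] [Finite κ] {a : ι → M} {c : κ → M} {x : ι → M} {y : κ → M}
    (h : Sum.elim x y ∈ T.D (Sum.elim a c)) : y ∈ T.D c := by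
  have h1 := T.map _ _ pR isZ_pR (Sum.elim a c)
  rw [pR_elim] at h1
  rw [h1]
  exact ⟨_, h, rfl⟩

theorem exists_right [Finite ι] [Finite κ] {a : ι → M} {c : κ → M} {x : ι → M}
    (hx : x ∈ T.D a) : ∃ y, Sum.elim x y ∈ T.D (Sum.elim a c) := by
  have h1 := T.map _ _ pL isZ_pL (Sum.elim a c)
  rw [pL_elim] at h1
  rw [h1] at hx
  obtain ⟨z, hz, rfl⟩ := hx
  exact ⟨pR z, by rw [elim_pL_pR]; exact hz⟩

/-- the affine type of `x` is contained in the coset of a type which contains that of `w` -/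
theorem D_sub [Finite ι] {x w : ι → M} {t : AddSubgroup (ι → M)} (ht : S.IsT t)
    (h : x - w ∈ t) : T.D x ≤ T.D w ⊔ t := by
  have h1 := T.map _ _ (pL + pR) (isZ_pL.add isZ_pR) (Sum.elim w (x - w))
  have h2 : (pL + pR : (ι ⊕ ι → M) →+ (ι → M)) (Sum.elim w (x - w)) = x := by
    show w + (x - w) = x
    abel
  rw [h2] at h1
  rw [h1]
  rintro _ ⟨z, hz, rfl⟩
  have hz' : Sum.elim (pL z) (pR z) ∈ T.D (Sum.elim w (x - w)) := by
    rw [elim_pL_pR]
    exact hz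
  exact AddSubgroup.add_mem_sup (T.left_mem hz') (T.le_t ht h (T.right_mem hz'))

theorem D_coset [Finite ι] {x w : ι → M} {t : AddSubgroup (ι → M)} (ht : S.IsT t)
    (hw : T.D w ≤ t) (h : x - w ∈ t) : T.D x ≤ t :=
  (T.D_sub ht h).trans (sup_le hw le_rfl)

theorem D_zero [Finite ι] (I : AddSubgroup (ι → M)) : T.D (0 : ι → M) ≤ I :=
  (T.le_t S.isT_bot (AddSubgroup.zero_mem _)).trans bot_le

theorem D_neg [Finite ι] {x : ι → M} {I : AddSubgroup (ι → M)} (h : T.D x ≤ I) :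
    T.D (-x) ≤ I := by
  have hz : IsZ (-(AddMonoidHom.id (ι → M))) := isZ_id.neg
  have h1 := T.map _ _ (-(AddMonoidHom.id (ι → M))) hz x
  have h2 : (-(AddMonoidHom.id (ι → M)) : (ι → M) →+ (ι → M)) x = -x := rfl
  rw [h2] at h1
  rw [h1]
  rintro _ ⟨z, hz, rfl⟩
  exact I.neg_mem (h hz)

theorem D_add [Finite ι] {x y : ι → M} {I : AddSubgroup (ι → M)} (h : T.D x ≤ I)
    (h' : T.D y ≤ I) : T.D (x + y) ≤ I := by
  have h1 := T.map _ _ (pL + pR) (isZ_pL.add isZ_pR) (Sum.elim x y)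
  have h2 : (pL + pR : (ι ⊕ ι → M) →+ (ι → M)) (Sum.elim x y) = x + y := rfl
  rw [h2] at h1
  rw [h1]
  rintro _ ⟨z, hz, rfl⟩
  have hz' : Sum.elim (pL z) (pR z) ∈ T.D (Sum.elim x y) := by
    rw [elim_pL_pR]
    exact hz
  exact I.add_mem (h (T.left_mem hz')) (h' (T.right_mem hz'))

/-- SAT over `a` for cosets of types and excluded affine formulas -/
theorem sat_a [Finite ι] [Finite κ] {β : Type} [Countable β] (a : ι → M) (w : ℕ → κ → M)
    (t : ℕ → AddSubgroup (κ → M)) (ht : ∀ n, S.IsT (t n))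
    (htw : ∀ n, fib (T.D (Sum.elim a (w n))) ≤ t n) (v : β → κ → M)
    (φ : β → AddSubgroup (κ → M)) (hφ : ∀ i, φ i ∈ S.PP κ)
    (hφv : ∀ i, fib (T.D (Sum.elim a (v i))) ≤ φ i)
    (h : ∀ (n : ℕ) (F : Finset β), ∃ x : κ → M, (∀ j < n, x - w j ∈ t j) ∧
      ∀ i ∈ F, x - v i ∉ φ i) :
    ∃ x : κ → M, (∀ j, x - w j ∈ t j) ∧ ∀ i, x - v i ∉ φ i := by
  classical
  choose τ hanti hmem hle hinf hcof using fun n => S.isT_seq (ht n)
  obtain ⟨e, he⟩ := exists_surjective_nat ((ℕ × ℕ) ⊕ β)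
  let W : (ℕ × ℕ) ⊕ β → (κ → M) := Sum.elim (fun p => w p.1) v
  let Φ : (ℕ × ℕ) ⊕ β → AddSubgroup (κ → M) := Sum.elim (fun p => τ p.1 p.2) φ
  let B : (ℕ × ℕ) ⊕ β → Prop := Sum.elim (fun _ => True) fun _ => False
  obtain ⟨x, hx⟩ := T.sat ι κ a (fun j => W (e j)) (fun j => Φ (e j)) (fun j => B (e j))
    (fun j => by
      rcases e j with p | i
      · exact ⟨hmem p.1 p.2, (htw p.1).trans (hle p.1 p.2)⟩
      · exact ⟨hφ i, hφv i⟩) (fun n => by
    let F : Finset ((ℕ × ℕ) ⊕ β) := (Finset.range n).image e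
    obtain ⟨x, hx, hx'⟩ := h ((F.toLeft.sup Prod.fst) + 1) F.toRight
    refine ⟨x, fun j hj => ?_⟩
    have hF : e j ∈ F := Finset.mem_image_of_mem _ (Finset.mem_range.2 hj)
    show x - W (e j) ∈ Φ (e j) ↔ B (e j)
    rcases hej : e j with p | i
    · rw [hej] at hF
      have h1 : p ∈ F.toLeft := Finset.mem_toLeft.2 hF
      have h2 : p.1 < F.toLeft.sup Prod.fst + 1 :=
        Nat.lt_succ_of_le (Finset.le_sup (f := Prod.fst) h1)
      exact ⟨fun _ => trivial, fun _ => hle p.1 p.2 (hx p.1 h2)⟩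
    · rw [hej] at hF
      exact ⟨fun h => hx' i (Finset.mem_toRight.2 hF) h, fun h => h.elim⟩)
  refine ⟨x, fun j => hinf j _ fun m => ?_, fun i hi => ?_⟩
  · obtain ⟨k, hk⟩ := he (Sum.inl (j, m))
    have := hx k
    simp only [hk] at this
    exact this.2 trivial
  · obtain ⟨k, hk⟩ := he (Sum.inr i)
    have := hx k
    simp only [hk] at this
    exact this.1 hi

theorem fib_empty [Finite κ] (a : Empty → M) (w : κ → M) :
    fib (T.D (Sum.elim a w)) ≤ T.D w := by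
  intro v hv
  exact T.right_mem (mem_fib.1 hv)

/-- SAT for cosets of types and excluded affine formulas -/
theorem sat_c [Finite κ] {β : Type} [Countable β] (w : ℕ → κ → M)
    (t : ℕ → AddSubgroup (κ → M)) (ht : ∀ n, S.IsT (t n))
    (htw : ∀ n, T.D (w n) ≤ t n) (v : β → κ → M)
    (φ : β → AddSubgroup (κ → M)) (hφ : ∀ i, φ i ∈ S.PP κ)
    (hφv : ∀ i, T.D (v i) ≤ φ i)
    (h : ∀ (n : ℕ) (F : Finset β), ∃ x : κ → M, (∀ j < n, x - w j ∈ t j) ∧
      ∀ i ∈ F, x - v i ∉ φ i) :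
    ∃ x : κ → M, (∀ j, x - w j ∈ t j) ∧ ∀ i, x - v i ∉ φ i :=
  T.sat_a (ι := Empty) (fun i => i.elim) w t ht (fun n => (T.fib_empty _ _).trans (htw n)) v φ hφ
    (fun i => (T.fib_empty _ _).trans (hφv i)) h

/-- SAT for cosets of types -/
theorem sat_p [Finite κ] (w : ℕ → κ → M) (t : ℕ → AddSubgroup (κ → M))
    (ht : ∀ n, S.IsT (t n)) (htw : ∀ n, T.D (w n) ≤ t n)
    (h : ∀ n : ℕ, ∃ x : κ → M, ∀ j < n, x - w j ∈ t j) :
    ∃ x : κ → M, ∀ j, x - w j ∈ t j := by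
  obtain ⟨x, hx, -⟩ := T.sat_c (β := Empty) w t ht htw (fun i => i.elim) (fun i => i.elim)
    (fun i => i.elim) (fun i => i.elim) fun n F => by
      obtain ⟨x, hx⟩ := h n
      exact ⟨x, hx, fun i _ => i.elim⟩
  exact ⟨x, hx⟩

/-- SAT for affine formulas without parameters -/
theorem sat_0 [Finite κ] (w : ℕ → κ → M) (φ : ℕ → AddSubgroup (κ → M)) (b : ℕ → Prop)
    (hφ : ∀ j, φ j ∈ S.PP κ ∧ T.D (w j) ≤ φ j)
    (h : ∀ n : ℕ, ∃ x : κ → M, ∀ j < n, (x - w j ∈ φ j ↔ b j)) :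
    ∃ x : κ → M, ∀ j, (x - w j ∈ φ j ↔ b j) :=
  T.sat Empty κ (fun i => i.elim) w φ b
    (fun j => ⟨(hφ j).1, (T.fib_empty _ _).trans (hφ j).2⟩) h

/-- parameters named: `D x` over `a` is the fibre of `D (a, x)` -/
def at' [Finite α] (a : α → M) : Aff S where
  D := fun x => fib (T.D (Sum.elim a x))
  isT := fun ι _ x => S.isT_fib (T.isT _ _)
  map := by
    intro ι κ _ _ h hz x
    let h' : (α ⊕ ι → M) →+ (α ⊕ κ → M) := iL.comp pL + iR.comp (h.comp pR)
    have hz' : IsZ h' := (isZ_iL.comp isZ_pL).add (isZ_iR.comp (hz.comp isZ_pR))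
    have h1 : ∀ (u : α → M) (y : ι → M), h' (Sum.elim u y) = Sum.elim u (h y) := by
      intro u y
      show iL u + iR (h y) = _
      rw [iL_apply, iR_apply, ← elim_add, add_zero, zero_add]
    have h2 := T.map _ _ h' hz' (Sum.elim a x)
    rw [h1] at h2
    ext v
    rw [mem_fib, h2]
    constructor
    · rintro ⟨z, hz, hzv⟩
      rw [← elim_pL_pR z, h1] at hzv
      have h3 := congrArg pL hzv
      have h4 := congrArg pR hzv
      rw [pL_elim, pL_elim] at h3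
      rw [pR_elim, pR_elim] at h4
      refine ⟨pR z, ?_, h4⟩
      show Sum.elim (0 : α → M) (pR z) ∈ T.D (Sum.elim a x)
      rw [← h3, elim_pL_pR]
      exact hz
    · rintro ⟨y, hy, rfl⟩
      exact ⟨Sum.elim (0 : α → M) y, hy, h1 0 y⟩
  le := by
    intro ι _ x φ hφ hx u hu
    exact T.le_t (S.isT_of_mem hφ) hx (T.right_mem (mem_fib.1 hu))
  sat := by
    intro ι κ _ _ b w φ B hφ h
    refine T.sat (α ⊕ ι) κ (Sum.elim a b) w φ B (fun j => ⟨(hφ j).1, fun u hu => (hφ j).2 ?_⟩) h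
    rw [mem_fib] at hu
    show Sum.elim (0 : α → M) (Sum.elim (0 : ι → M) u) ∈ T.D (Sum.elim a (Sum.elim b (w j)))
    let g : α ⊕ (ι ⊕ κ) → (α ⊕ ι) ⊕ κ := (Equiv.sumAssoc α ι κ).symm
    have h1 := T.map _ _ (re g) (isZ_re g) (Sum.elim (Sum.elim a b) (w j))
    have h2 : re g (Sum.elim (Sum.elim a b) (w j)) = Sum.elim a (Sum.elim b (w j)) := by
      funext i
      rcases i with i | i | i <;> rfl
    rw [h2] at h1
    rw [h1]
    refine ⟨_, hu, ?_⟩
    funext i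
    rcases i with i | i | i <;> rfl

theorem at_D [Finite α] (a : α → M) {κ : Type} (x : κ → M) :
    (T.at' a).D x = fib (T.D (Sum.elim a x)) := rfl

/-- `c` is isolated over `d` -/
def Iso (d : ι → M) (c : κ → M) : Prop :=
  ∃ Θ ∈ S.PP (ι ⊕ κ), T.D (Sum.elim d c) = (T.D d).comap pL ⊓ Θ

end Aff

end Pool.Agent.VMA
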