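import Pool.Agent.VMA.AFD
import Pool.Agent.VMA.STP

/-!
# VMA: block A in affine form, the steps of the construction (helper73)

`T : Aff S` without parameters; parameters are named with `Aff.at'`.
-/

set_option autoImplicit false
set_option linter.unusedSectionVars false
set_option linter.unusedVariables false

namespace Pool.Agent.VMA

open Set Filter
open scoped Pointwise

/-- a coset is not covered by finitely many cosets of subgroups of infinite index -/
theorem aff_cover {G β : Type} [AddCommGroup G] (q : AddSubgroup G) (F : Finset β)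
    (H : β → AddSubgroup G) (v : β → G) (z : G)
    (hH : ∀ i ∈ F, (H i).relIndex q = 0) :
    ∃ x, x - z ∈ q ∧ ∀ i ∈ F, x - v i ∉ H i := by
  classical
  by_contra hno
  push Not at hno
  have hex : ∀ i, ∃ g : q, (∃ x, x - v i ∈ H i ∧ x - z ∈ q) → z + (g : G) - v i ∈ H i := by
    intro i
    by_cases h : ∃ x, x - v i ∈ H i ∧ x - z ∈ q
    · obtain ⟨x, hx, hxz⟩ := h
      refine ⟨⟨x - z, hxz⟩, fun _ => ?_⟩
      rw [add_sub_cancel]
      exact hx
    · exact ⟨0, fun h' => absurd h' h⟩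
  choose g hg using hex
  have hc : ⋃ i ∈ F, g i +ᵥ (((H i).addSubgroupOf q : AddSubgroup q) : Set q) = Set.univ := by
    rw [Set.eq_univ_iff_forall]
    intro y
    obtain ⟨i, hi, hy⟩ := hno (z + y) (by rw [add_sub_cancel_left]; exact y.2)
    refine Set.mem_biUnion hi ?_
    rw [Set.mem_vadd_set]
    have h1 := hg i ⟨z + y, hy, by rw [add_sub_cancel_left]; exact y.2⟩
    refine ⟨y - g i, ?_, ?_⟩
    · change ((y - g i : q) : G) ∈ H i
      have h2 := (H i).sub_mem hy h1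
      have h3 : z + (y : G) - v i - (z + (g i : G) - v i) = ((y - g i : q) : G) := by
        rw [AddSubgroup.coe_sub]
        abel
      rw [h3] at h2
      exact h2
    · change g i + (y - g i) = y
      exact add_sub_cancel _ _
  obtain ⟨i, hi, hfi⟩ := AddSubgroup.exists_finiteIndex_of_leftCoset_cover hc
  exact hfi.index_ne_zero (hH i hi)

namespace Aff

variable {M : Type} [AddCommGroup M] {S : Abs M} (T : Aff S) {ι κ J α : Type}

/-- the diagonal -/
theorem fib_diag [Finite κ] (z : κ → M) (q : AddSubgroup (κ → M)) :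
    fib (T.D (Sum.elim z z)) ≤ q := by
  have hz : IsZ (re (Sum.elim id id) : (κ → M) →+ (κ ⊕ κ → M)) := isZ_re _
  have h1 := T.map _ _ (re (Sum.elim id id)) hz z
  have h2 : re (Sum.elim id id) z = (Sum.elim z z : κ ⊕ κ → M) := by
    funext i
    rcases i with i | i <;> rfl
  rw [h2] at h1
  intro v hv
  rw [mem_fib, h1] at hv
  obtain ⟨u, -, hu⟩ := hv
  have h3 : u = 0 := by
    funext i
    exact congrFun hu (Sum.inl i)
  have h4 : v = 0 := by
    funext i
    have h5 := congrFun hu (Sum.inr i)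
    rw [h3] at h5
    exact h5.symm
  rw [h4]
  exact q.zero_mem

/-- generic elements -/
theorem gen [Finite κ] (q : AddSubgroup (κ → M)) (z : κ → M) (hq : S.Conn q) :
    ∃ z', z' - z ∈ q ∧ q ≤ T.D z' := by
  classical
  let B : Type := {p : (κ → M) × AddSubgroup (κ → M) // p.2 ∈ S.PP κ ∧ T.D p.1 ≤ p.2 ∧
    p.2.relIndex q = 0}
  have hct : Countable B := by
    have := S.ctbl
    have h1 : (Set.univ ×ˢ S.PP κ : Set ((κ → M) × AddSubgroup (κ → M))).Countable :=
      Set.countable_univ.prod (S.cnt κ)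
    have h2 : {p : (κ → M) × AddSubgroup (κ → M) | p.2 ∈ S.PP κ ∧ T.D p.1 ≤ p.2 ∧
        p.2.relIndex q = 0} ⊆ (Set.univ ×ˢ S.PP κ) := fun p hp => ⟨Set.mem_univ _, hp.1⟩
    exact (h1.mono h2).to_subtype
  obtain ⟨x, hx, hx'⟩ := T.sat_a (β := B) z (fun _ => z) (fun _ => q) (fun _ => hq.1)
    (fun _ => T.fib_diag z q) (fun p => p.1.1) (fun p => p.1.2) (fun p => p.2.1)
    (fun p u hu => p.2.2.1 (T.right_mem (mem_fib.1 hu))) (by
      intro n F
      obtain ⟨x, hx, hx'⟩ := aff_cover q F (fun p => p.1.2) (fun p => p.1.1) z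
        (fun p _ => p.2.2.2)
      exact ⟨x, fun j _ => hx, hx'⟩)
  refine ⟨x, hx 0, fun v hv => S.isT_iff.1 (T.isT κ x) v fun ψ hψ hle => ?_⟩
  have h1 : ψ.relIndex q ≠ 0 := by
    intro h0
    have h2 := hx' ⟨(x, ψ), hψ, hle, h0⟩
    apply h2
    show x - x ∈ ψ
    rw [sub_self]
    exact ψ.zero_mem
  have h2 : S.FI (q ⊓ ψ) q := ⟨S.isT_inf hq.1 (S.isT_of_mem hψ), inf_le_left, by
    rw [AddSubgroup.inf_relIndex_left]
    exact h1⟩
  have h3 := hq.2 _ h2
  rw [← h3] at hv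
  exact hv.2

private theorem unc {α : Type} [Countable α] (f : (ℕ → Bool) → α)
    (hf : Function.Injective f) : False := by
  classical
  obtain ⟨g, hg⟩ := exists_injective_nat α
  refine Function.cantor_injective (fun s : Set ℕ => g (f fun n => decide (n ∈ s))) ?_
  intro s t h
  have h1 := hf (hg h)
  ext n
  have h2 := congrFun h1 n
  simpa using h2

/-- open orbits -/
theorem opn (hCHN : St_CHN) (hCNQ : St_CNQ) (hCNC : St_CNC) [Finite κ]
    (q p : AddSubgroup (κ → M)) (y : κ → M) (hq : S.IsT q) (hy : y ∈ q) (hp : S.FI p q) :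
    ∃ x, x - y ∈ p ∧ (T.D x).relIndex q ≠ 0 := by
  classical
  by_contra hno
  push Not at hno
  obtain ⟨Q, hQa, hQf, hQc, hQi⟩ := hCHN M S κ q hq
  obtain ⟨_, hcq, hcf, _⟩ := hCNQ M S κ q hq
  have hconn : S.Conn (S.con q) := (hCNC M S κ q hq).1
  have hcT : S.IsT (S.con q) := hconn.1
  have hcp : S.con q ≤ p := sInf_le hp
  let State : Type := {s : (κ → M) × ℕ // s.1 - y ∈ p ∧ S.con q ≤ T.D s.1 ∧ Q s.2 ≤ p}
  have hstep : ∀ s : State, ∃ (φ : AddSubgroup (κ → M)) (v : κ → M) (l r : State),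
      φ ∈ S.PP κ ∧ T.D s.1.1 ≤ φ ∧ v ∈ Q s.1.2 ∧ v ∉ φ ∧
      Q l.1.2 ≤ φ ∧ Q r.1.2 ≤ φ ∧ s.1.2 ≤ l.1.2 ∧ s.1.2 ≤ r.1.2 ∧
      l.1.1 = s.1.1 ∧ r.1.1 - s.1.1 - v ∈ S.con q := by
    rintro ⟨⟨x, n⟩, hx, hxc, hn⟩
    dsimp only at hx hxc hn
    have h0 := hno x hx
    have h1 : ¬ Q n ≤ T.D x := by
      intro h
      exact (hQf n).2.2 (AddSubgroup.relIndex_eq_zero_of_le_left h h0)
    obtain ⟨v, hv, hv2⟩ := SetLike.not_le_iff_exists.1 h1
    have hex : ∃ φ ∈ S.PP κ, T.D x ≤ φ ∧ v ∉ φ := by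
      by_contra hcon
      push Not at hcon
      exact hv2 (S.isT_iff.1 (T.isT κ x) v hcon)
    obtain ⟨φ, hφ, hxφ, hvφ⟩ := hex
    have h2 : S.con q ≤ φ := hxc.trans hxφ
    obtain ⟨s, hs, hsφ⟩ := hcf φ hφ h2
    obtain ⟨n', hn'⟩ := hQc s hs
    obtain ⟨z, hz, hzc⟩ := T.gen (S.con q) (x + v) hconn
    have hzy : z - y ∈ p := by
      have h3 : z - y = (z - (x + v)) + (x - y) + v := by abel
      rw [h3]
      exact p.add_mem (p.add_mem (hcp hz) hx) (hn hv)
    have hm : Q (max n n') ≤ p := (hQa (le_max_left n n')).trans hn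
    have hm2 : Q (max n n') ≤ φ := ((hQa (le_max_right n n')).trans hn').trans hsφ
    refine ⟨φ, v, ⟨(x, max n n'), hx, hxc, hm⟩, ⟨(z, max n n'), hzy, hzc, hm⟩, hφ, hxφ, hv, hvφ,
      hm2, hm2, le_max_left _ _, le_max_left _ _, rfl, ?_⟩
    have h4 : z - x - v = z - (x + v) := by abel
    change z - x - v ∈ S.con q
    rw [h4]
    exact hz
  choose φ v l r hφ hxφ hv hvφ hlφ hrφ hl hr hlx hrx using hstep
  obtain ⟨x0, hx0, hx0c⟩ := T.gen (S.con q) y hconn
  obtain ⟨n0, hn0⟩ := hQc p hp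
  let root : State := ⟨(x0, n0), hcp hx0, hx0c, hn0⟩
  let st : (ℕ → Bool) → ℕ → State := fun β n =>
    Nat.rec (motive := fun _ => State) root (fun k s => if β k = true then r s else l s) n
  have st_succ : ∀ β n, st β (n + 1) = if β n = true then r (st β n) else l (st β n) :=
    fun β n => rfl
  have hmono : ∀ β n, (st β n).1.2 ≤ (st β (n + 1)).1.2 := by
    intro β n
    rw [st_succ]
    split_ifs
    · exact hr _
    · exact hl _
  have hmono' : ∀ β, Monotone fun n => (st β n).1.2 := fun β => monotone_nat_of_le_succ (hmono β)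
  have hdiff : ∀ β n, (st β (n + 1)).1.1 - (st β n).1.1 ∈ Q (st β n).1.2 := by
    intro β n
    rw [st_succ]
    split_ifs
    · have h1 : S.con q ≤ Q (st β n).1.2 := sInf_le (hQf _)
      have h2 : (r (st β n)).1.1 - (st β n).1.1 =
          ((r (st β n)).1.1 - (st β n).1.1 - v (st β n)) + v (st β n) := by abel
      rw [h2]
      exact AddSubgroup.add_mem _ (h1 (hrx _)) (hv _)
    · rw [hlx, sub_self]
      exact AddSubgroup.zero_mem _
  have hdiff' : ∀ β j n, j ≤ n → (st β n).1.1 - (st β j).1.1 ∈ Q (st β j).1.2 := by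
    intro β j n hjn
    induction n, hjn using Nat.le_induction with
    | base =>
      rw [sub_self]
      exact AddSubgroup.zero_mem _
    | succ n hn ih =>
      have h1 : (st β (n + 1)).1.1 - (st β j).1.1 =
          ((st β (n + 1)).1.1 - (st β n).1.1) + ((st β n).1.1 - (st β j).1.1) := by abel
      rw [h1]
      exact AddSubgroup.add_mem _ (hQa (hmono' β hn) (hdiff β n)) ih
  have hfin : ∀ β n j, j < n →
      ((st β n).1.1 - (st β j).1.1 ∈ φ (st β j) ↔ β j = false) := by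
    intro β n j hjn
    have h1 := hdiff' β (j + 1) n hjn
    rw [st_succ] at h1
    cases hb : β j with
    | false =>
      rw [hb, if_neg (by simp)] at h1
      refine iff_of_true ?_ rfl
      have h2 := hlφ _ h1
      rw [hlx] at h2
      exact h2
    | true =>
      rw [hb, if_pos rfl] at h1
      refine iff_of_false (fun h2 => ?_) (by simp)
      apply hvφ (st β j)
      have h4 := hrφ _ h1
      have h5 : (r (st β j)).1.1 - (st β j).1.1 - v (st β j) ∈ φ (st β j) :=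
        ((st β j).2.2.1.trans (hxφ _)) (hrx _)
      have h6 : v (st β j) = ((st β n).1.1 - (st β j).1.1) -
          ((st β n).1.1 - (r (st β j)).1.1) -
          ((r (st β j)).1.1 - (st β j).1.1 - v (st β j)) := by abel
      rw [h6]
      exact AddSubgroup.sub_mem _ (AddSubgroup.sub_mem _ h2 h4) h5
  have hsat : ∀ β : ℕ → Bool, ∃ z : κ → M, ∀ j,
      (z - (st β j).1.1 ∈ φ (st β j) ↔ β j = false) :=
    fun β => T.sat_0 (fun j => (st β j).1.1) (fun j => φ (st β j)) (fun j => β j = false)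
      (fun j => ⟨hφ _, hxφ _⟩) fun n => ⟨(st β n).1.1, fun j hj => hfin β n j hj⟩
  choose z hz using hsat
  have := S.ctbl
  refine unc z fun β β' hzz => ?_
  by_contra hne
  have hex : ∃ n, β n ≠ β' n := by
    by_contra h
    push Not at h
    exact hne (funext h)
  have h1 : ∀ j, j ≤ Nat.find hex → st β j = st β' j := by
    intro j
    induction j with
    | zero => intro _; rfl
    | succ j ih =>
      intro hj
      have h2 : β j = β' j := by
        by_contra h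
        exact Nat.find_min hex hj h
      rw [st_succ, st_succ, ih (by omega), h2]
  have h3 := hz β (Nat.find hex)
  have h4 := hz β' (Nat.find hex)
  rw [h1 _ le_rfl, hzz] at h3
  have h5 : β (Nat.find hex) = false ↔ β' (Nat.find hex) = false := h3.symm.trans h4
  apply Nat.find_spec hex
  cases h6 : β (Nat.find hex) <;> cases h7 : β' (Nat.find hex) <;> simp_all

/-- the affine definable closure modulo `I` is finite -/
theorem fin (hC : St_CHN) (hN : St_CNQ) [Finite κ] (q I : AddSubgroup (κ → M))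
    (hq : S.IsT q) (hI : S.IsT I) (hcI : S.con q ≤ I) (hIq : I ≤ q) :
    ∃ E : Set (κ → M), E.Finite ∧ ∀ z ∈ q, T.D z ≤ I → ∃ e ∈ E, z - e ∈ I := by
  classical
  obtain ⟨D, hD⟩ : ∃ D : AddSubgroup (κ → M), ∀ z, z ∈ D ↔
      z ∈ q ∧ T.D z ≤ I := ⟨{
    carrier := {z | z ∈ q ∧ T.D z ≤ I}
    zero_mem' := ⟨q.zero_mem, T.D_zero I⟩
    add_mem' := fun h h' => ⟨q.add_mem h.1 h'.1, T.D_add h.2 h'.2⟩
    neg_mem' := fun h => ⟨q.neg_mem h.1, T.D_neg h.2⟩ }, fun z => Iff.rfl⟩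
  obtain ⟨Q, hanti, hFI, hcof, -⟩ := hC M S κ q hq
  obtain ⟨-, -, -, h4⟩ := hN M S κ q hq
  have hint : ∀ x ∈ q, (∀ n, x ∈ Q n ⊔ I) → x ∈ I := fun x hx h =>
    (h4 I hI hcI hIq).1 x hx fun p hp hIp => by
      obtain ⟨n, hn⟩ := hcof p hp
      exact (sup_le hn hIp) (h n)
  by_contra hcon
  have hA : ∀ n, ∃ d, d ∈ D ∧ d ∈ Q n ⊔ I ∧ d ∉ I := by
    intro n
    by_contra hn
    push Not at hn
    apply hcon
    have hfi : ((Q n).addSubgroupOf q).FiniteIndex := ⟨(hFI n).2.2⟩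
    have hfin : Finite (q ⧸ (Q n).addSubgroupOf q) := AddSubgroup.finite_quotient_of_finiteIndex
    let P : (q ⧸ (Q n).addSubgroupOf q) → (κ → M) → Prop := fun c z =>
      z ∈ D ∧ ∃ hz : z ∈ q, (QuotientAddGroup.mk (⟨z, hz⟩ : q) : q ⧸ (Q n).addSubgroupOf q) = c
    let f : (q ⧸ (Q n).addSubgroupOf q) → (κ → M) := fun c =>
      if h : ∃ z, P c z then h.choose else 0
    refine ⟨Set.range f, Set.finite_range f, fun z hz hzI => ?_⟩
    have hex : ∃ w, P (QuotientAddGroup.mk (⟨z, hz⟩ : q)) w :=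
      ⟨z, (hD z).2 ⟨hz, hzI⟩, hz, rfl⟩
    have hf : f (QuotientAddGroup.mk (⟨z, hz⟩ : q)) = hex.choose := dif_pos hex
    obtain ⟨h1, h2, h3⟩ := hex.choose_spec
    refine ⟨hex.choose, ⟨_, hf⟩, hn _ (D.sub_mem ((hD z).2 ⟨hz, hzI⟩) h1) ?_⟩
    rw [QuotientAddGroup.eq] at h3
    have h4 : -hex.choose + z ∈ Q n := h3
    have h5 : z - hex.choose = -hex.choose + z := by abel
    rw [h5]
    exact (le_sup_left : Q n ≤ Q n ⊔ I) h4
  choose d hdD hdQ hdI using hA
  have hB : ∀ n, ∃ m, n < m ∧ d n ∉ Q m ⊔ I := by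
    intro n
    by_contra hn
    push Not at hn
    refine hdI n (hint _ ((hD _).1 (hdD n)).1 fun m => ?_)
    rcases lt_or_ge n m with h | h
    · exact hn m h
    · exact (sup_le_sup_right (hanti h) I) (hdQ n)
  choose nx hnx hnd using hB
  let N : ℕ → ℕ := fun k => Nat.rec 0 (fun _ m => nx m) k
  have hNs : ∀ k, N (k + 1) = nx (N k) := fun k => rfl
  have hmono : StrictMono N := strictMono_nat_of_lt_succ fun k => by
    rw [hNs]
    exact hnx _
  let z : Set ℕ → ℕ → κ → M := fun E k =>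
    ∑ i ∈ Finset.range k, if i ∈ E then d (N i) else 0
  have hzs : ∀ E k, z E (k + 1) = z E k + if k ∈ E then d (N k) else 0 := fun E k =>
    Finset.sum_range_succ _ _
  have hzD : ∀ E k, z E k ∈ D := fun E k => D.sum_mem fun i _ => by
    by_cases h : i ∈ E
    · rw [if_pos h]; exact hdD _
    · rw [if_neg h]; exact D.zero_mem
  have hdiff : ∀ E j l, z E (j + l) - z E j ∈ Q (N j) ⊔ I := by
    intro E j l
    induction l with
    | zero =>
      rw [Nat.add_zero, sub_self]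
      exact AddSubgroup.zero_mem _
    | succ l ih =>
      have e1 : z E (j + (l + 1)) - z E j =
          (z E (j + l) - z E j) + if (j + l) ∈ E then d (N (j + l)) else 0 := by
        rw [← add_assoc, hzs]
        abel
      rw [e1]
      refine AddSubgroup.add_mem _ ih ?_
      by_cases h : (j + l) ∈ E
      · rw [if_pos h]
        exact (sup_le_sup_right (hanti (hmono.monotone (Nat.le_add_right j l))) I) (hdQ _)
      · rw [if_neg h]; exact AddSubgroup.zero_mem _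
  have hsat : ∀ E : Set ℕ, ∃ x : κ → M, ∀ k, x - z E k ∈ I ⊔ Q (N k) := by
    intro E
    exact T.sat_p (z E) (fun k => I ⊔ Q (N k)) (fun k => S.isT_sup hI (hFI _).1)
      (fun k => ((hD _).1 (hzD E k)).2.trans le_sup_left)
      (fun n => ⟨z E n, fun j hj => by
        obtain ⟨l, rfl⟩ := Nat.exists_eq_add_of_le hj.le
        rw [sup_comm]
        exact hdiff E j l⟩)
  choose f hf using hsat
  have hinj : Function.Injective f := by
    intro E E' hEE
    by_contra hne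
    have hex : ∃ i, ¬ (i ∈ E ↔ i ∈ E') := by
      by_contra h
      push Not at h
      exact hne (Set.ext h)
    have hi := Nat.find_spec hex
    have hlt : ∀ j < Nat.find hex, (j ∈ E ↔ j ∈ E') := fun j hj =>
      not_not.1 (Nat.find_min hex hj)
    generalize Nat.find hex = i at hi hlt
    have hz : z E i = z E' i := Finset.sum_congr rfl fun j hj => by
      have h1 := hlt j (Finset.mem_range.1 hj)
      by_cases h2 : j ∈ E
      · rw [if_pos h2, if_pos (h1.1 h2)]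
      · rw [if_neg h2, if_neg (fun h3 => h2 (h1.2 h3))]
    have h1 := hf E (i + 1)
    have h2 := hf E' (i + 1)
    rw [← hEE] at h2
    have h3 := AddSubgroup.sub_mem _ h2 h1
    have h4 : f E - z E' (i + 1) - (f E - z E (i + 1)) = z E (i + 1) - z E' (i + 1) := by abel
    rw [h4, hzs, hzs, hz, sup_comm, hNs] at h3
    apply hnd (N i)
    by_cases h5 : i ∈ E
    · have h6 : i ∉ E' := fun h => hi ⟨fun _ => h, fun _ => h5⟩
      rw [if_pos h5, if_neg h6] at h3
      have h7 : z E' i + d (N i) - (z E' i + 0) = d (N i) := by abel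
      rw [h7] at h3
      exact h3
    · have h6 : i ∈ E' := by
        by_contra h
        exact hi ⟨fun h' => absurd h' h5, fun h' => absurd h' h⟩
      rw [if_neg h5, if_pos h6] at h3
      have h7 : z E' i + 0 - (z E' i + d (N i)) = -d (N i) := by abel
      rw [h7] at h3
      exact neg_mem_iff.1 h3
  have hcM : Countable M := S.ctbl
  obtain ⟨g, hg⟩ := exists_injective_nat (κ → M)
  exact Function.cantor_injective (g ∘ f) (hg.comp hinj)

/-- the next member of the sequence -/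
theorem stp (hCHN : St_CHN) (hCNQ : St_CNQ) (hCNC : St_CNC) [Finite ι]
    (r b K : AddSubgroup (ι → M)) (V : ℕ → AddSubgroup (ι → M)) (n0 : ℕ)
    (hF : S.Flt r b V) (hK : S.IsT K) (hb : b ≤ K) (hr : K ≤ r) (h0 : K.relIndex r = 0) :
    ∃ (m : ℕ) (x : ι → M), n0 < m ∧ x ∈ V m ∧ x ∉ K ∧ (T.D x).relIndex r ≠ 0 ∧
      ∀ c ∈ r, S.pp c ⊔ b = S.pp x ⊔ b → ¬ T.D c ≤ K := by
  obtain ⟨E, hE, hEz⟩ := T.fin hCHN hCNQ r K hF.tr hK (hF.cb.trans hb) hr
  have hex : ∀ e, e ∉ K → ∃ m, ∀ n, m ≤ n → e ∉ V n ⊔ K := by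
    intro e he
    by_contra hcon
    push Not at hcon
    refine he (STP_inf hF hK hb fun m => ?_)
    obtain ⟨n, hn, hen⟩ := hcon m
    exact sup_le_sup_right (hF.anti hn) K hen
  have hev : ∀ᶠ m in atTop, ∀ e ∈ E, e ∉ K → e ∉ V m ⊔ K := by
    rw [eventually_all_finite hE]
    intro e _
    by_cases he : e ∈ K
    · exact Eventually.of_forall fun m h => absurd he h
    · obtain ⟨m, hm⟩ := hex e he
      filter_upwards [eventually_ge_atTop m] with n hn _ using hm n hn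
  obtain ⟨m, hm, hn0⟩ := (hev.and (eventually_gt_atTop n0)).exists
  have hnot : ¬ V m ≤ K := fun hle => (Abs.FI.mid S (hF.fi m) hK hle hr).2.2 h0
  obtain ⟨y, hy, hyK⟩ := SetLike.not_le_iff_exists.1 hnot
  obtain ⟨l0, hl0⟩ := hex y hyK
  obtain ⟨x, hxy, hx⟩ := T.opn hCHN hCNQ hCNC r (V (max m l0)) y hF.tr ((hF.fi m).2.1 hy)
    (hF.fi (max m l0))
  have hxm : x ∈ V m := by
    have h3 := (V m).add_mem (hF.anti (le_max_left m l0) hxy) hy
    rwa [sub_add_cancel] at h3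
  have hxK : x ∉ K := by
    intro hxK
    refine hl0 (max m l0) (le_max_right m l0) ?_
    have h3 : y = -(x - y) + x := by abel
    rw [h3]
    exact AddSubgroup.add_mem_sup ((V (max m l0)).neg_mem hxy) hxK
  refine ⟨m, x, hn0, hxm, hxK, hx, fun c hc hcx hcK => hxK ?_⟩
  have hcm : c ∈ V m := by
    have h3 : c ∈ S.pp c ⊔ b := AddSubgroup.mem_sup_left (S.mem_pp c)
    rw [hcx] at h3
    exact sup_le ((S.pp_le_iff (hF.fi m).1).2 hxm) (hF.bV m) h3
  obtain ⟨e, he, hce⟩ := hEz c hc hcK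
  have heK : e ∈ K := by
    by_contra heK
    refine hm e he heK ?_
    have h3 : e = c + -(c - e) := by abel
    rw [h3]
    exact AddSubgroup.add_mem_sup hcm (K.neg_mem hce)
  have hcK' : c ∈ K := by
    have h3 := K.add_mem hce heK
    rwa [sub_add_cancel] at h3
  have h3 : x ∈ S.pp x ⊔ b := AddSubgroup.mem_sup_left (S.mem_pp x)
  rw [← hcx] at h3
  exact sup_le ((S.pp_le_iff hK).2 hcK') hb h3

/-- an element of all `I n ⊔ V n` is in all `I n` -/
private theorem stq_inf {M : Type} [AddCommGroup M] (S : Abs M) {ι : Type} [Finite ι]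
    {V I : ℕ → AddSubgroup (ι → M)} (hV : ∀ n, S.IsT (V n)) (hI : ∀ n, S.IsT (I n))
    (hVa : Antitone V) (hIa : Antitone I) (hVI : ∀ x, (∀ n, x ∈ V n) → ∀ n, x ∈ I n)
    {v : ι → M} (hv : ∀ n, v ∈ I n ⊔ V n) (n : ℕ) : v ∈ I n := by
  obtain ⟨w, hw⟩ := S.sat_p (ι := ι) (κ := ι) v
    (fun j => (V j).comap pR ⊓ (I j).comap (pL - pR))
    (fun j => S.isT_inf (S.isT_comap isZ_pR (hV j)) (S.isT_comap (isZ_pL.sub isZ_pR) (hI j)))
    (fun n => by
      obtain ⟨i, hi, w, hw, h⟩ := AddSubgroup.mem_sup.1 (hv n)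
      refine ⟨w, fun j hj => ⟨hVa hj.le hw, ?_⟩⟩
      have h1 : v - w = i := by
        rw [← h, add_sub_cancel_right]
      have h2 : v - w ∈ I j := by
        rw [h1]
        exact hIa hj.le hi
      exact h2)
  have h1 : ∀ j, w ∈ I j := hVI w fun j => (hw j).1
  have h2 : v - w ∈ I n := (hw n).2
  have h3 := AddSubgroup.add_mem _ h2 (h1 n)
  rwa [sub_add_cancel] at h3

/-- uniformity in `m` -/
theorem stq (hFIF : St_FIF) (hCNC : St_CNC) (hTOP : St_TOP) (hNAK : St_NAK) [Finite ι]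
    (r b : AddSubgroup (ι → M)) (V I : ℕ → AddSubgroup (ι → M)) (x : ι → M)
    (hF : S.Flt r b V) (hIa : Antitone I) (hI : ∀ m, S.IsT (I m) ∧ b ≤ I m ∧ I m ≤ r)
    (hx : x ∈ r)
    (hK : ∀ c ∈ r, S.pp c ⊔ b = S.pp x ⊔ b → ¬ T.D c ≤ ⨅ m, I m) :
    ∃ m0, ∀ m, m0 ≤ m → ∀ c ∈ r, S.pp c ⊔ b = S.pp x ⊔ b → ¬ T.D c ≤ I m := by
  classical
  by_contra hno
  push Not at hno
  -- elements for all `m`
  have hex : ∀ m, ∃ c ∈ r, S.pp c ⊔ b = S.pp x ⊔ b ∧ T.D c ≤ I m := by
    intro m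
    obtain ⟨m', hm', c, hc, h1, h2⟩ := hno m
    exact ⟨c, hc, h1, h2.trans (hIa hm')⟩
  choose c hcr hcx hcf using hex
  have hVT : ∀ n, S.IsT (V n) := fun n => (hF.fi n).1
  have hIT : ∀ n, S.IsT (I n) := fun n => (hI n).1
  -- the diagonal sequence
  have hlim : ∀ n, ∃ y : ι → M, {m | c m - y ∈ V n} ∈ Filter.hyperfilter ℕ := by
    intro n
    let Q := ↥r ⧸ (V n).addSubgroupOf r
    have hQ : Finite Q := Nat.finite_of_card_ne_zero (hF.fi n).2.2
    let f : ℕ → Q := fun m => QuotientAddGroup.mk ⟨c m, hcr m⟩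
    obtain ⟨κ, hκ⟩ := Ultrafilter.eq_pure_of_finite ((Filter.hyperfilter ℕ).map f)
    have h1 : ({κ} : Set Q) ∈ (Filter.hyperfilter ℕ).map f := by
      rw [hκ]
      exact Ultrafilter.mem_pure.2 rfl
    obtain ⟨y, rfl⟩ := QuotientAddGroup.mk_surjective κ
    refine ⟨y.1, Filter.mem_of_superset (Ultrafilter.mem_map.1 h1) fun m hm => ?_⟩
    have h2 : (QuotientAddGroup.mk (⟨c m, hcr m⟩ : ↥r) : Q) = QuotientAddGroup.mk y := hm
    have h3 : -(⟨c m, hcr m⟩ : ↥r) + y ∈ (V n).addSubgroupOf r := QuotientAddGroup.eq.1 h2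
    have h4 : -(c m) + y.1 ∈ V n := h3
    rw [← AddSubgroup.neg_mem_iff] at h4
    have h5 : -(-(c m) + y.1) = c m - y.1 := by abel
    rw [h5] at h4
    exact h4
  choose y hy using hlim
  have hz : ∀ n, ∃ m, n ≤ m ∧ c m - y n ∈ V n := by
    intro n
    have h1 : {m | n ≤ m} ∈ Filter.hyperfilter ℕ := by
      refine Filter.hyperfilter_le_cofinite ?_
      rw [Filter.mem_cofinite]
      refine (Set.finite_lt_nat n).subset fun m hm => ?_
      simpa using hm
    obtain ⟨m, hm1, hm2⟩ := (Filter.hyperfilter ℕ).nonempty_of_mem (Filter.inter_mem h1 (hy n))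
    exact ⟨m, hm1, hm2⟩
  choose μ hμ hμy using hz
  let z : ℕ → ι → M := fun n => c (μ n)
  have hzf : ∀ n, T.D (z n) ≤ I n := fun n => (hcf (μ n)).trans (hIa (hμ n))
  have hzz : ∀ j n, j ≤ n → z n - z j ∈ V j := by
    intro j n hjn
    obtain ⟨m, hm1, hm2⟩ := (Filter.hyperfilter ℕ).nonempty_of_mem
      (Filter.inter_mem (hy j) (hy n))
    have h1 : c m - y j ∈ V j := hm1
    have h2 : c m - y n ∈ V j := hF.anti hjn hm2
    have h3 : z j - y j ∈ V j := hμy j
    have h4 : z n - y n ∈ V j := hF.anti hjn (hμy n)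
    have h5 : z n - z j = (z n - y n) - (c m - y n) + (c m - y j) - (z j - y j) := by abel
    rw [h5]
    exact AddSubgroup.sub_mem _ (AddSubgroup.add_mem _ (AddSubgroup.sub_mem _ h4 h2) h1) h3
  -- the limit `c'`
  have hIV : ∀ n, S.IsT (I n ⊔ V n) := fun n => S.isT_sup (hIT n) (hVT n)
  obtain ⟨c', hc'z⟩ := T.sat_p z (fun n => I n ⊔ V n) hIV
    (fun n => (hzf n).trans le_sup_left)
    (fun n => ⟨z n, fun j hj => AddSubgroup.mem_sup_right (hzz j n hj.le)⟩)
  have hc'f : ∀ n, T.D c' ≤ I n ⊔ V n := fun n =>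
    T.D_coset (hIV n) ((hzf n).trans le_sup_left) (hc'z n)
  have hVI : ∀ x, (∀ n, x ∈ V n) → ∀ n, x ∈ I n := by
    intro x hx n
    apply (hI n).2.1
    rw [← hF.inf]
    exact AddSubgroup.mem_iInf.2 hx
  have hinf : ∀ v, (∀ n, v ∈ I n ⊔ V n) → ∀ n, v ∈ I n := fun v hv n =>
    stq_inf S hVT hIT hF.anti hIa hVI hv n
  -- the type of `x` modulo `b`
  have hrxT : S.IsT (S.pp x ⊔ b) := S.isT_sup (S.isT_pp x) hF.tb
  have hrxr : S.pp x ⊔ b ≤ r := sup_le ((S.pp_le_iff hF.tr).2 hx) hF.br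
  have hcon : S.con (S.pp x ⊔ b) ≤ b := by
    rw [(hCNC M S ι r hF.tr).2.1 (S.pp x ⊔ b) hrxT (hF.cb.trans le_sup_right) hrxr]
    exact hF.cb
  let β : Type := {m : AddSubgroup (ι → M) // S.IsMx m (S.pp x ⊔ b) ∧ b ≤ m}
  have hβ : Finite β := ((hTOP M S ι (S.pp x ⊔ b) hrxT).subset fun m hm => hm.1).to_subtype
  have hψ : ∀ m : β, ∃ ψ ∈ S.PP ι, m.1 = (S.pp x ⊔ b) ⊓ ψ := fun m => hFIF M S ι _ _ m.2.1.1
  choose ψ hψ1 hψ2 using hψ
  -- the limit `c''`
  obtain ⟨c'', h1, h2⟩ := S.sat_t (β := β) c'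
    (fun j => match j with
      | 0 => (S.pp x ⊔ b).comap pR
      | j + 1 => (I j ⊔ V j).comap (pR - pL))
    (fun j => match j with
      | 0 => S.isT_comap isZ_pR hrxT
      | j + 1 => S.isT_comap (isZ_pR.sub isZ_pL) (S.isT_sup (hIT j) (hVT j)))
    (fun m => (ψ m).comap pR) (fun m => S.comap_mem _ _ _ isZ_pR _ (hψ1 m))
    (fun n F => by
      have hzx : S.pp (z n) ⊔ b = S.pp x ⊔ b := hcx (μ n)
      have hzm : z n ∈ S.pp x ⊔ b := by
        rw [← hzx]
        exact AddSubgroup.mem_sup_left (S.mem_pp _)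
      refine ⟨z n, fun j hj => ?_, fun m _ hm => ?_⟩
      · match j, hj with
        | 0, _ => exact hzm
        | j + 1, hj =>
          have h3 : z n - c' ∈ I j ⊔ V j := by
            have h4 : z n - c' = (z n - z j) - (c' - z j) := by abel
            rw [h4]
            exact AddSubgroup.sub_mem _ (AddSubgroup.mem_sup_right (hzz j n (by omega)))
              (hc'z j)
          exact h3
      · have h3 : z n ∈ m.1 := by
          rw [hψ2 m]
          exact ⟨hzm, hm⟩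
        apply m.2.1.2.1
        exact le_antisymm m.2.1.1.2.1
          (hzx.ge.trans (sup_le ((S.pp_le_iff m.2.1.1.1).2 h3) m.2.2)))
  have h3 : c'' ∈ S.pp x ⊔ b := h1 0
  have h4 : ∀ j, c'' - c' ∈ I j ⊔ V j := fun j => h1 (j + 1)
  have h5 : ∀ j, c'' - c' ∈ I j := hinf _ h4
  have h6 : S.pp c'' ⊔ b = S.pp x ⊔ b := by
    have hle : S.pp c'' ⊔ b ≤ S.pp x ⊔ b := sup_le ((S.pp_le_iff hrxT).2 h3) le_sup_right
    by_contra hne
    obtain ⟨m, hm, hle2⟩ := hNAK M S ι (S.pp x ⊔ b) (S.pp c'' ⊔ b) hrxT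
      (S.isT_sup (S.isT_pp _) hF.tb) (hcon.trans le_sup_right) hle hne
    have hbm : b ≤ m := le_sup_right.trans hle2
    have h7 : c'' ∈ m := hle2 (AddSubgroup.mem_sup_left (S.mem_pp _))
    have h8 : c'' ∈ (S.pp x ⊔ b) ⊓ ψ ⟨m, hm, hbm⟩ := by
      rw [← hψ2 ⟨m, hm, hbm⟩]
      exact h7
    exact h2 ⟨m, hm, hbm⟩ h8.2
  refine hK c'' (hrxr h3) h6 fun v hv => ?_
  rw [AddSubgroup.mem_iInf]
  have hKT : S.IsT (⨅ m, I m) := S.isT_iInf hIT
  have h7 : v ∈ T.D c' ⊔ ⨅ m, I m := T.D_sub hKT (AddSubgroup.mem_iInf.2 h5) hv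
  obtain ⟨u, hu, w, hw, huw⟩ := AddSubgroup.mem_sup.1 h7
  intro n
  rw [← huw]
  exact AddSubgroup.add_mem _ (hinf _ (fun j => hc'f j hu) n) (AddSubgroup.mem_iInf.1 hw n)

end Aff

end Pool.Agent.VMA
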