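import Mathlib

/-!
# VMA: saturated abelian structures (Claim A of Vaught's conjecture for modules)

Text: GC_VMF_helper73.md (helper21's proof of Claim A in a countable saturated model).
A member of `PP ι` is called a formula, an intersection of formulas a type.
-/

set_option autoImplicit false
set_option linter.unusedSectionVars false
set_option linter.unusedVariables false

namespace Pool.Agent.VMA

open Set

/-- maps given by integer matrices -/
def IsZ {ι κ M : Type} [AddCommGroup M] (h : (ι → M) →+ (κ → M)) : Prop :=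
  ∃ A : κ → ι →₀ ℤ, ∀ x k, h x k = (A k).sum fun i n => n • x i

/-- A countable saturated abelian structure. -/
structure Abs (M : Type) [AddCommGroup M] where
  /-- the formulas -/
  PP : (ι : Type) → Set (AddSubgroup (ι → M))
  /-- the automorphisms -/
  Gam : Set (M ≃+ M)
  g_refl : AddEquiv.refl M ∈ Gam
  g_symm : ∀ γ ∈ Gam, γ.symm ∈ Gam
  g_trans : ∀ γ ∈ Gam, ∀ δ ∈ Gam, γ.trans δ ∈ Gam
  ctbl : Countable M
  cnt : ∀ (ι : Type) [Finite ι], (PP ι).Countable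
  top_mem : ∀ (ι : Type) [Finite ι], ⊤ ∈ PP ι
  bot_mem : ∀ (ι : Type) [Finite ι], ⊥ ∈ PP ι
  inf_mem : ∀ (ι : Type) [Finite ι], ∀ φ ∈ PP ι, ∀ ψ ∈ PP ι, φ ⊓ ψ ∈ PP ι
  comap_mem : ∀ (ι κ : Type) [Finite ι] [Finite κ] (h : (ι → M) →+ (κ → M)), IsZ h →
    ∀ φ ∈ PP κ, φ.comap h ∈ PP ι
  map_mem : ∀ (ι κ : Type) [Finite ι] [Finite κ] (h : (ι → M) →+ (κ → M)), IsZ h →
    ∀ φ ∈ PP ι, φ.map h ∈ PP κ
  inv : ∀ (ι : Type) [Finite ι], ∀ φ ∈ PP ι, ∀ γ ∈ Gam, ∀ x ∈ φ, (fun i => γ (x i)) ∈ φ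
  /-- saturation over finite tuples -/
  sat : ∀ (ι κ : Type) [Finite ι] [Finite κ] (a : ι → M) (φ : ℕ → AddSubgroup (ι ⊕ κ → M))
    (b : ℕ → Prop), (∀ j, φ j ∈ PP (ι ⊕ κ)) →
    (∀ n, ∃ x : κ → M, ∀ j < n, (Sum.elim a x ∈ φ j ↔ b j)) →
    ∃ x : κ → M, ∀ j, (Sum.elim a x ∈ φ j ↔ b j)
  /-- homogeneity -/
  hom : ∀ (ι : Type) [Finite ι] (a b : ι → M), (∀ φ ∈ PP ι, (a ∈ φ ↔ b ∈ φ)) →
    ∃ γ ∈ Gam, ∀ i, γ (a i) = b i

/-! ### maps -/

section

variable {M : Type} [AddCommGroup M] {ι κ J : Type}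

/-- reindexing -/
def re (f : ι → κ) : (κ → M) →+ (ι → M) where
  toFun x := fun i => x (f i)
  map_zero' := rfl
  map_add' _ _ := rfl

/-- the first part of a tuple -/
def pL : (ι ⊕ κ → M) →+ (ι → M) := re Sum.inl

/-- the second part of a tuple -/
def pR : (ι ⊕ κ → M) →+ (κ → M) := re Sum.inr

/-- insertion of zeros on the left: `v ↦ (0, v)` -/
def iR : (κ → M) →+ (ι ⊕ κ → M) where
  toFun v := Sum.elim 0 v
  map_zero' := by funext i; cases i <;> rfl
  map_add' x y := by funext i; cases i <;> simp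

/-- insertion of zeros on the right: `x ↦ (x, 0)` -/
def iL : (ι → M) →+ (ι ⊕ κ → M) where
  toFun v := Sum.elim v 0
  map_zero' := by funext i; cases i <;> rfl
  map_add' x y := by funext i; cases i <;> simp

/-- the product of two subgroups -/
def pr (s : AddSubgroup (ι → M)) (t : AddSubgroup (κ → M)) : AddSubgroup (ι ⊕ κ → M) :=
  s.comap pL ⊓ t.comap pR

/-- the powers of a subgroup -/
def pw (J : Type) (r : AddSubgroup (ι → M)) : AddSubgroup (J × ι → M) :=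
  ⨅ j : J, r.comap (re fun i => (j, i))

/-- the fibre over zero: `{v | (0, v) ∈ G}` -/
def fib (G : AddSubgroup (ι ⊕ κ → M)) : AddSubgroup (κ → M) := G.comap iR

/-- the image of `s` under the relation `G` -/
def img (G : AddSubgroup (ι ⊕ κ → M)) (s : AddSubgroup (ι → M)) : AddSubgroup (κ → M) :=
  (G ⊓ s.comap pL).map pR

/-- tuples of tuples -/
def tup (a : ℕ → ι → M) (f : J → ℕ) : J × ι → M := fun p => a (f p.1) p.2

end

namespace Abs

variable {M : Type} [AddCommGroup M] (S : Abs M) {ι κ J : Type}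

/-- types: intersections of formulas -/
def IsT (q : AddSubgroup (ι → M)) : Prop := ∃ P ⊆ S.PP ι, q = sInf P

/-- the type of a tuple -/
def pp (a : ι → M) : AddSubgroup (ι → M) := sInf {φ | φ ∈ S.PP ι ∧ a ∈ φ}

/-- types of finite index in `q` -/
def FI (s q : AddSubgroup (ι → M)) : Prop := S.IsT s ∧ s ≤ q ∧ s.relIndex q ≠ 0

/-- the connected component -/
def con (q : AddSubgroup (ι → M)) : AddSubgroup (ι → M) := sInf {s | S.FI s q}

/-- the least type of finite index which contains all formulas contained in `q` (if there is one) -/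
def q1 (q : AddSubgroup (ι → M)) : AddSubgroup (ι → M) :=
  sInf {s | S.FI s q ∧ ∀ χ ∈ S.PP ι, χ ≤ q → χ ≤ s}

/-- connected -/
def Conn (q : AddSubgroup (ι → M)) : Prop := S.IsT q ∧ ∀ s, S.FI s q → s = q

/-- maximal proper types of finite index -/
def IsMx (m r : AddSubgroup (ι → M)) : Prop :=
  S.FI m r ∧ m ≠ r ∧ ∀ s, S.IsT s → m ≤ s → s ≤ r → s = m ∨ s = r

/-- `c` is isolated over `d`: `pp (d, c) = pp d & Θ` for a formula `Θ` -/
def Iso (d : ι → M) (c : κ → M) : Prop :=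
  ∃ Θ ∈ S.PP (ι ⊕ κ), S.pp (Sum.elim d c) = (S.pp d).comap pL ⊓ Θ

/-- `b` is a type between the connected component of `r` and `r`, `V` is a cofinal chain of the
types of finite index in `r` which contain `b` -/
structure Flt (r b : AddSubgroup (ι → M)) (V : ℕ → AddSubgroup (ι → M)) : Prop where
  tr : S.IsT r
  tb : S.IsT b
  cb : S.con r ≤ b
  br : b ≤ r
  anti : Antitone V
  fi : ∀ n, S.FI (V n) r
  bV : ∀ n, b ≤ V n
  inf : ⨅ n, V n = b

/-- open subgroups of `r ^ J` -/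
def Op (r b : AddSubgroup (ι → M)) (J : Type) (H : AddSubgroup (J × ι → M)) : Prop :=
  S.FI H (pw J r) ∧ pw J b ≤ H

/-- homomorphisms from `H ≤ r ^ J` to `r / b`, as relations -/
structure HomR (r b : AddSubgroup (ι → M)) (J : Type) (H : AddSubgroup (J × ι → M))
    (g : AddSubgroup ((J × ι) ⊕ ι → M)) : Prop where
  ty : S.IsT g
  src : ∀ x y, Sum.elim x y ∈ g → x ∈ H
  tgt : ∀ x y, Sum.elim x y ∈ g → y ∈ r
  ex : ∀ x ∈ H, ∃ y, Sum.elim x y ∈ g
  bb : ∀ x ∈ pw J b, ∀ y ∈ b, Sum.elim x y ∈ g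
  ker : ∀ x y, Sum.elim x y ∈ g → x ∈ pw J b → y ∈ b

/-- `T` is the image of an open subgroup `H ≤ W ^ J` under a homomorphism -/
def InJ (r b W T : AddSubgroup (ι → M)) : Prop :=
  ∃ (J : Type) (_ : Finite J) (H : AddSubgroup (J × ι → M))
    (g : AddSubgroup ((J × ι) ⊕ ι → M)),
    S.Op r b J H ∧ H ≤ pw J W ∧ S.HomR r b J H g ∧ T = img g H

/-- semisimple pairs -/
def SS (c d : AddSubgroup (ι → M)) : Prop :=
  S.IsT c ∧ S.IsT d ∧ c ≤ d ∧ c.relIndex d ≠ 0 ∧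
    ∀ s, S.IsT s → c ≤ s → s ≤ d → ∃ t, S.IsT t ∧ c ≤ t ∧ t ≤ d ∧ s ⊓ t = c ∧ s ⊔ t = d

/-- the Loewy length of `d / c` is at most `t` -/
def LL : ℕ → AddSubgroup (ι → M) → AddSubgroup (ι → M) → Prop
  | 0, c, d => S.IsT c ∧ c = d
  | t + 1, c, d => ∃ e, LL t c e ∧ S.SS e d

/-- the ideals `I_m` -/
structure Idl (r b : AddSubgroup (ι → M)) (V I : ℕ → AddSubgroup (ι → M)) : Prop where
  anti : Antitone I
  ty : ∀ m, S.IsT (I m)
  bI : ∀ m, b ≤ I m
  Ir : ∀ m, I m ≤ r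
  mem : ∀ m, S.InJ r b (V m) (I m)
  max : ∀ m T, S.InJ r b (V m) T → T ≤ I m

/-- the choice of the sequence `a_k` -/
structure Cho (r b : AddSubgroup (ι → M)) (V I : ℕ → AddSubgroup (ι → M)) (a : ℕ → ι → M)
    (m : ℕ → ℕ) : Prop where
  mono : StrictMono m
  mem : ∀ k, a k ∈ V (m k)
  opn : ∀ k, (fib (S.pp (Sum.elim (tup a fun j : Fin k => (j : ℕ)) (a k)))).relIndex r ≠ 0
  avd : ∀ k, ∀ c ∈ r, S.pp c ⊔ b = S.pp (a k) ⊔ b →
    ¬ fib (S.pp (Sum.elim (tup a fun j : Fin k => (j : ℕ)) c)) ≤ I (m (k + 1))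

end Abs

end Pool.Agent.VMA
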