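import Pool.Agent.VMA.St
import Pool.Agent.VMA.Api

/-!
# VMA: LLI
-/

set_option autoImplicit false
set_option linter.unusedSectionVars false
set_option linter.unusedVariables false

namespace Pool.Agent.VMA

open Set

private theorem lli_basic {M : Type} [AddCommGroup M] (S : Abs M) {ι : Type} [Finite ι] (t : ℕ)
    (c d : AddSubgroup (ι → M)) (h : S.LL t c d) : S.IsT c ∧ S.IsT d ∧ c ≤ d := by
  induction t generalizing d with
  | zero => exact ⟨h.1, h.2 ▸ h.1, h.2.le⟩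
  | succ t ih =>
    obtain ⟨e, he, hed⟩ := h
    obtain ⟨h1, -, h3⟩ := ih e he
    exact ⟨h1, hed.2.1, h3.trans hed.2.2.1⟩

private theorem lli_idx {M : Type} [AddCommGroup M] {ι κ : Type} (e s : AddSubgroup (ι → M))
    (d : AddSubgroup (κ → M)) (g : AddSubgroup (ι ⊕ κ → M)) (h : e.relIndex s ≠ 0) :
    (img g e ⊔ d).relIndex (img g s ⊔ (img g e ⊔ d)) ≠ 0 := by
  rw [AddSubgroup.relIndex_sup_right]
  show (img g e ⊔ d).relIndex ((g ⊓ s.comap pL).map pR) ≠ 0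
  rw [← AddSubgroup.relIndex_comap]
  have h1 : (e.comap (pL : (ι ⊕ κ → M) →+ (ι → M))).relIndex (g ⊓ s.comap pL) ≠ 0 := by
    intro h0
    refine AddSubgroup.relIndex_comap_ne_zero (pL : (ι ⊕ κ → M) →+ (ι → M)) h ?_
    exact AddSubgroup.relIndex_eq_zero_of_le_right inf_le_right h0
  intro h0
  apply h1
  rw [← AddSubgroup.inf_relIndex_left]
  refine AddSubgroup.relIndex_eq_zero_of_le_left ?_ h0
  rintro z ⟨⟨hz, -⟩, hz'⟩
  show pR z ∈ img g e ⊔ d
  refine (le_sup_left : img g e ≤ _) (mem_img.2 ⟨pL z, hz', ?_⟩)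
  rw [elim_pL_pR]
  exact hz

private theorem lli_ss {M : Type} [AddCommGroup M] (S : Abs M) {ι κ : Type} [Finite ι] [Finite κ]
    (e s : AddSubgroup (ι → M)) (d s' : AddSubgroup (κ → M)) (g : AddSubgroup (ι ⊕ κ → M))
    (hg : S.IsT g) (hd : S.IsT d) (hs' : S.IsT s') (hds : d ≤ s') (h : S.SS e s)
    (h1 : ∀ x ∈ s, ∃ y, Sum.elim x y ∈ g)
    (h2 : ∀ x ∈ s, ∀ y, Sum.elim x y ∈ g → y ∈ s')
    (h3 : ∀ y ∈ s', ∃ x ∈ s, ∃ y0, Sum.elim x y0 ∈ g ∧ y - y0 ∈ d) :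
    S.SS (img g e ⊔ d) s' := by
  obtain ⟨he, hs, hes, hi, hc⟩ := h
  have hle : img g e ⊔ d ≤ s' := by
    refine sup_le (fun y hy => ?_) hds
    obtain ⟨x, hx, hxy⟩ := mem_img.1 hy
    exact h2 x (hes hx) y hxy
  have hle2 : img g s ≤ s' := by
    intro y hy
    obtain ⟨x, hx, hxy⟩ := mem_img.1 hy
    exact h2 x hx y hxy
  have hss : s' = img g s ⊔ (img g e ⊔ d) := by
    apply le_antisymm
    · intro y hy
      obtain ⟨x, hx, y0, hxy, hyd⟩ := h3 y hy
      have h4 : y = y0 + (y - y0) := by abel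
      rw [h4]
      exact AddSubgroup.add_mem_sup (mem_img.2 ⟨x, hx, hxy⟩)
        ((le_sup_right : d ≤ img g e ⊔ d) hyd)
    · exact sup_le hle2 hle
  have he' : S.IsT (img g e ⊔ d) := S.isT_sup (S.isT_img hg he) hd
  refine ⟨he', hs', hle, ?_, ?_⟩
  · rw [hss]
    exact lli_idx e s d g hi
  · intro w hw hew hws
    let w' : AddSubgroup (ι → M) := s ⊓ (g ⊓ w.comap pR).map pL
    have hw' : S.IsT w' := S.isT_inf hs (S.isT_map isZ_pL (S.isT_inf hg (S.isT_comap isZ_pR hw)))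
    have hmw' : ∀ x, x ∈ w' ↔ x ∈ s ∧ ∃ y ∈ w, Sum.elim x y ∈ g := by
      intro x
      constructor
      · rintro ⟨hx, z, ⟨hz, hz'⟩, rfl⟩
        refine ⟨hx, pR z, hz', ?_⟩
        rw [elim_pL_pR]
        exact hz
      · rintro ⟨hx, y, hy, hxy⟩
        exact ⟨hx, Sum.elim x y, ⟨hxy, hy⟩, rfl⟩
    have hew' : e ≤ w' := by
      intro x hx
      rw [hmw']
      obtain ⟨y, hy⟩ := h1 x (hes hx)
      exact ⟨hes hx, y, hew ((le_sup_left : img g e ≤ _) (mem_img.2 ⟨x, hx, hy⟩)), hy⟩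
    obtain ⟨k, hk, hek, hks, h5, h6⟩ := hc w' hw' hew' inf_le_left
    have hkk : img g k ⊔ d ≤ s' := by
      refine sup_le (fun y hy => ?_) hds
      obtain ⟨x, hx, hxy⟩ := mem_img.1 hy
      exact h2 x (hks hx) y hxy
    refine ⟨img g k ⊔ d, S.isT_sup (S.isT_img hg hk) hd, ?_, hkk, ?_, ?_⟩
    · refine sup_le (fun y hy => ?_) le_sup_right
      obtain ⟨x, hx, hxy⟩ := mem_img.1 hy
      exact (le_sup_left : img g k ≤ _) (mem_img.2 ⟨x, hek hx, hxy⟩)
    · apply le_antisymm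
      · rintro y ⟨hy, hy'⟩
        obtain ⟨y1, hy1, y2, hy2, rfl⟩ := AddSubgroup.mem_sup.1 hy'
        obtain ⟨x, hx, hxy⟩ := mem_img.1 hy1
        have hdw : d ≤ w := le_sup_right.trans hew
        have h7 : y1 ∈ w := by
          have h8 : y1 = (y1 + y2) - y2 := by abel
          rw [h8]
          exact w.sub_mem hy (hdw hy2)
        have h9 : x ∈ w' ⊓ k := ⟨(hmw' x).2 ⟨hks hx, y1, h7, hxy⟩, hx⟩
        rw [h5] at h9
        exact AddSubgroup.add_mem_sup (mem_img.2 ⟨x, h9, hxy⟩) hy2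
      · refine le_inf hew (sup_le (fun y hy => ?_) le_sup_right)
        obtain ⟨x, hx, hxy⟩ := mem_img.1 hy
        exact (le_sup_left : img g k ≤ _) (mem_img.2 ⟨x, hek hx, hxy⟩)
    · apply le_antisymm (sup_le hws hkk)
      intro y hy
      obtain ⟨x, hx, y0, hxy, hyd⟩ := h3 y hy
      have h7 : x ∈ w' ⊔ k := by
        rw [h6]
        exact hx
      obtain ⟨a, ha, b, hb, rfl⟩ := AddSubgroup.mem_sup.1 h7
      obtain ⟨ha1, ya, hya, hya'⟩ := (hmw' a).1 ha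
      have h8 : Sum.elim b (y0 - ya) ∈ g := by
        have h9 : (Sum.elim b (y0 - ya) : ι ⊕ κ → M) = Sum.elim (a + b) y0 - Sum.elim a ya := by
          rw [← elim_sub]
          congr 1
          abel
        rw [h9]
        exact g.sub_mem hxy hya'
      have h10 : y = ya + ((y0 - ya) + (y - y0)) := by abel
      rw [h10]
      exact AddSubgroup.add_mem_sup hya (AddSubgroup.add_mem_sup (mem_img.2 ⟨b, hb, h8⟩) hyd)

theorem thm_LLI : St_LLI := by
  intro M _ S ι κ _ _ t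
  induction t with
  | zero =>
    intro c s d s' g hg hd hs' hds h h1 h2 h3 h4
    refine ⟨hd, le_antisymm hds ?_⟩
    intro y hy
    obtain ⟨x, hx, y0, hxy, hyd⟩ := h4 y hy
    have hxc : x ∈ c := by
      rw [h.2]
      exact hx
    have h5 : y = y0 + (y - y0) := by abel
    rw [h5]
    exact d.add_mem (h1 x hxc y0 hxy) hyd
  | succ t ih =>
    intro c s d s' g hg hd hs' hds h h1 h2 h3 h4
    obtain ⟨e, he, hes⟩ := h
    obtain ⟨-, he1, hce⟩ := lli_basic S t c e he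
    refine ⟨img g e ⊔ d, ?_, lli_ss S e s d s' g hg hd hs' hds hes h2 h3 h4⟩
    refine ih c e d (img g e ⊔ d) g hg hd (S.isT_sup (S.isT_img hg he1) hd) le_sup_right he h1
      (fun x hx => h2 x (hes.2.2.1 hx))
      (fun x hx y hxy => (le_sup_left : img g e ≤ _) (mem_img.2 ⟨x, hx, hxy⟩)) ?_
    intro y hy
    obtain ⟨y1, hy1, y2, hy2, rfl⟩ := AddSubgroup.mem_sup.1 hy
    obtain ⟨x, hx, hxy⟩ := mem_img.1 hy1
    refine ⟨x, hx, y1, hxy, ?_⟩
    rw [add_sub_cancel_left]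
    exact hy2

end Pool.Agent.VMA
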