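import Pool.Agent.VMA.St
import Pool.Agent.VMA.Api

/-!
# VMA: Claim A relative to a finite tuple `e` (helper73)

The sequence `a` is chosen over `e`, the coding models contain `e`.
-/

set_option autoImplicit false
set_option linter.unusedSectionVars false
set_option linter.unusedVariables false

namespace Pool.Agent.VMA

open Set

/-- the choice of the sequence `a_k` over `e` -/
structure ChoE {M : Type} [AddCommGroup M] (S : Abs M) {ε ι : Type} (e : ε → M)
    (r b : AddSubgroup (ι → M)) (V I : ℕ → AddSubgroup (ι → M)) (a : ℕ → ι → M)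
    (m : ℕ → ℕ) : Prop where
  mono : StrictMono m
  mem : ∀ k, a k ∈ V (m k)
  opn : ∀ k, (fib (S.pp (Sum.elim (Sum.elim e (tup a fun j : Fin k => (j : ℕ)))
    (a k)))).relIndex r ≠ 0
  avd : ∀ k, ∀ c ∈ r, S.pp c ⊔ b = S.pp (a k) ⊔ b →
    ¬ fib (S.pp (Sum.elim (Sum.elim e (tup a fun j : Fin k => (j : ℕ))) c)) ≤ I (m (k + 1))

theorem cho_e (h1 : St_NOP) (h2 : St_STP) (h3 : St_STQ) (M : Type) [AddCommGroup M] (S : Abs M)
    (ι ε : Type) [Finite ι] [Finite ε] (e : ε → M) (r b : AddSubgroup (ι → M))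
    (V I : ℕ → AddSubgroup (ι → M)) (hF : S.Flt r b V) (hb : b.relIndex r = 0)
    (hI : S.Idl r b V I) : ∃ a m, ChoE S e r b V I a m := by
  have hKt : S.IsT (⨅ m, I m) := S.isT_iInf hI.ty
  have hbK : b ≤ ⨅ m, I m := le_iInf hI.bI
  have hKr : ⨅ m, I m ≤ r := (iInf_le _ 0).trans (hI.Ir 0)
  have hK0 : (⨅ m, I m).relIndex r = 0 := h1 M S ι r b V I hF hb hI
  have key : ∀ (k : ℕ) (g : ℕ → ι → M) (n0 : ℕ), ∃ (m : ℕ) (x : ι → M) (m0 : ℕ), n0 < m ∧
      x ∈ V m ∧ (fib (S.pp (Sum.elim (Sum.elim e (tup g fun j : Fin k => (j : ℕ)))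
        x))).relIndex r ≠ 0 ∧
      ∀ m', m0 ≤ m' → ∀ c ∈ r, S.pp c ⊔ b = S.pp x ⊔ b →
        ¬ fib (S.pp (Sum.elim (Sum.elim e (tup g fun j : Fin k => (j : ℕ))) c)) ≤ I m' := by
    intro k g n0
    obtain ⟨m, x, hm, hx, -, hfi, hav⟩ := h2 M S ι (ε ⊕ (Fin k × ι)) r b (⨅ m, I m) V
      (Sum.elim e (tup g fun j : Fin k => (j : ℕ))) n0 hF hKt hbK hKr hK0
    obtain ⟨m0, hm0⟩ := h3 M S ι (ε ⊕ (Fin k × ι)) r b V I
      (Sum.elim e (tup g fun j : Fin k => (j : ℕ))) x hF hI.anti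
      (fun m => ⟨hI.ty m, hI.bI m, hI.Ir m⟩) ((hF.fi m).2.1 hx) hav
    exact ⟨m, x, m0, hm, hx, hfi, hm0⟩
  choose m x m0 hm hx hfi hav using key
  let s : ℕ → (ℕ → ι → M) × ℕ := fun n => Nat.rec (0, 0) (fun k p =>
    (Function.update p.1 k (x k p.1 p.2), max (m k p.1 p.2) (m0 k p.1 p.2))) n
  have hs : ∀ k, s (k + 1) = (Function.update (s k).1 k (x k (s k).1 (s k).2),
    max (m k (s k).1 (s k).2) (m0 k (s k).1 (s k).2)) := fun k => rfl
  let a : ℕ → ι → M := fun k => x k (s k).1 (s k).2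
  let μ : ℕ → ℕ := fun k => m k (s k).1 (s k).2
  have ha : ∀ k j, j < k → (s k).1 j = a j := by
    intro k
    induction k with
    | zero => exact fun j hj => absurd hj (Nat.not_lt_zero j)
    | succ k ih =>
      intro j hj
      rw [hs]
      by_cases hjk : j = k
      · subst hjk
        exact Function.update_self _ _ _
      · exact (Function.update_of_ne hjk _ _).trans (ih j (by omega))
  have htup : ∀ k, tup (s k).1 (fun j : Fin k => (j : ℕ)) = tup a (fun j : Fin k => (j : ℕ)) := by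
    intro k
    funext p
    show (s k).1 (p.1 : ℕ) p.2 = a (p.1 : ℕ) p.2
    rw [ha k p.1 p.1.2]
  have hn : ∀ k, (s (k + 1)).2 = max (μ k) (m0 k (s k).1 (s k).2) := fun k => by rw [hs]
  refine ⟨a, μ, ⟨strictMono_nat_of_lt_succ fun k => ?_, fun k => hx k _ _, fun k => ?_,
    fun k c hc hcb => ?_⟩⟩
  · refine lt_of_le_of_lt ?_ (hm (k + 1) (s (k + 1)).1 (s (k + 1)).2)
    rw [hn]
    exact le_max_left _ _
  · rw [← htup]
    exact hfi k _ _
  · rw [← htup]
    refine hav k (s k).1 (s k).2 (μ (k + 1)) ?_ c hc hcb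
    refine le_of_lt (lt_of_le_of_lt ?_ (hm (k + 1) (s (k + 1)).1 (s (k + 1)).2))
    rw [hn]
    exact le_max_right _ _

namespace RelE

variable {M : Type} [AddCommGroup M] {ι ε J : Type}

/-- tuples of length `n` which are zero before `k` and in `r` otherwise -/
def Rn (r : AddSubgroup (ι → M)) (k n : ℕ) : AddSubgroup (Fin n × ι → M) where
  carrier := {z | ∀ i : Fin n, ((i : ℕ) < k → (fun x => z (i, x)) = 0) ∧ (fun x => z (i, x)) ∈ r}
  zero_mem' := fun i => ⟨fun _ => rfl, r.zero_mem⟩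
  add_mem' := by
    intro z w hz hw i
    refine ⟨fun h => ?_, r.add_mem (hz i).2 (hw i).2⟩
    have h1 := (hz i).1 h
    have h2 := (hw i).1 h
    funext x
    have h3 := congrFun h1 x
    have h4 := congrFun h2 x
    simp only [Pi.zero_apply] at h3 h4 ⊢
    show z (i, x) + w (i, x) = 0
    rw [h3, h4, add_zero]
  neg_mem' := by
    intro z hz i
    refine ⟨fun h => ?_, r.neg_mem (hz i).2⟩
    have h1 := (hz i).1 h
    funext x
    have h3 := congrFun h1 x
    simp only [Pi.zero_apply] at h3 ⊢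
    show -z (i, x) = 0
    rw [h3, neg_zero]

/-- the last place, zero elsewhere -/
def lst (n : ℕ) : (ι → M) →+ (Fin (n + 1) × ι → M) where
  toFun v := fun p => if (p.1 : ℕ) = n then v p.2 else 0
  map_zero' := by funext p; simp
  map_add' x y := by
    funext p
    by_cases h : (p.1 : ℕ) = n <;> simp [h]

theorem lst_apply (n : ℕ) (v : ι → M) (p : Fin (n + 1) × ι) :
    lst n v p = if (p.1 : ℕ) = n then v p.2 else 0 := rfl

variable (S : Abs M)

/-- the fibre of the type of the first `n` members of the sequence over `e` -/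
def Pn (e : ε → M) (a : ℕ → ι → M) (n : ℕ) : AddSubgroup (Fin n × ι → M) :=
  fib (S.pp (Sum.elim e (tup a fun j : Fin n => (j : ℕ))))

theorem step [Finite ι] [Finite ε] (e : ε → M) (r : AddSubgroup (ι → M)) (a : ℕ → ι → M)
    (hr : S.IsT r) (ha : ∀ k, a k ∈ r)
    (h : ∀ k, (fib (S.pp (Sum.elim (Sum.elim e (tup a fun j : Fin k => (j : ℕ)))
      (a k)))).relIndex r ≠ 0)
    (k n : ℕ) : (Pn S e a n).relIndex (Rn r k n) ≠ 0 := by
  induction n with
  | zero =>
    have : Rn r k 0 = ⊥ := by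
      rw [eq_bot_iff]
      intro z _
      rw [AddSubgroup.mem_bot]
      funext p
      exact p.1.elim0
    rw [this, AddSubgroup.relIndex_bot_right]
    exact one_ne_zero
  | succ n ih =>
    by_cases hn : n < k
    · have : Rn r k (n + 1) = ⊥ := by
        rw [eq_bot_iff]
        intro z hz
        rw [AddSubgroup.mem_bot]
        funext p
        have h1 := (hz p.1).1 (by have := p.1.2; omega)
        exact congrFun h1 p.2
      rw [this, AddSubgroup.relIndex_bot_right]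
      exact one_ne_zero
    · -- the restriction
      let g : Fin n × ι → Fin (n + 1) × ι := fun p => (p.1.castSucc, p.2)
      let g' : ε ⊕ (Fin n × ι) → ε ⊕ (Fin (n + 1) × ι) := Sum.map id g
      have h1 : S.pp (Sum.elim e (tup a fun j : Fin n => (j : ℕ))) =
          (S.pp (Sum.elim e (tup a fun j : Fin (n + 1) => (j : ℕ)))).map (re g') := by
        rw [← S.pp_map (isZ_re g')]
        refine congrArg S.pp ?_
        funext p
        rcases p with p | p
        · rfl
        · rfl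
      have hC : ((Pn S e a n).comap (re g)).relIndex (Rn r k (n + 1)) ≠ 0 := by
        rw [AddSubgroup.relIndex_comap]
        refine fun h0 => ih (AddSubgroup.relIndex_eq_zero_of_le_right ?_ h0)
        rintro _ ⟨z, hz, rfl⟩ i
        have h2 := hz i.castSucc
        exact ⟨fun h3 => h2.1 h3, h2.2⟩
      -- the last place
      have hB : (Pn S e a (n + 1)).relIndex (r.map (lst n)) ≠ 0 := by
        rw [← AddSubgroup.relIndex_comap]
        refine fun h0 => h n (AddSubgroup.relIndex_eq_zero_of_le_left ?_ h0)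
        intro v hv
        rw [mem_fib] at hv
        let g2 : ε ⊕ (Fin (n + 1) × ι) → (ε ⊕ (Fin n × ι)) ⊕ ι := Sum.elim (fun i =>
          Sum.inl (Sum.inl i)) fun p =>
          if hp : (p.1 : ℕ) < n then Sum.inl (Sum.inr (⟨p.1, hp⟩, p.2)) else Sum.inr p.2
        have h3 : re g2 (Sum.elim (Sum.elim e (tup a fun j : Fin n => (j : ℕ))) (a n)) =
            Sum.elim e (tup a fun j : Fin (n + 1) => (j : ℕ)) := by
          funext p
          rcases p with p | p
          · rfl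
          by_cases hp : (p.1 : ℕ) < n
          · simp [g2, hp, tup]
          · have h4 : (p.1 : ℕ) = n := by have := p.1.2; omega
            simp [g2, tup, h4]
        have h5 : (Sum.elim (0 : ε → M) (lst n v) : ε ⊕ (Fin (n + 1) × ι) → M) =
            re g2 (Sum.elim (0 : ε ⊕ (Fin n × ι) → M) v) := by
          funext p
          rcases p with p | p
          · rfl
          by_cases hp : (p.1 : ℕ) < n
          · simp [g2, hp, lst_apply, hp.ne]
          · have h4 : (p.1 : ℕ) = n := by have := p.1.2; omega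
            simp [g2, lst_apply, h4]
        show lst n v ∈ Pn S e a (n + 1)
        rw [Pn, mem_fib, ← h3, S.pp_map (isZ_re g2), h5]
        exact ⟨_, hv, rfl⟩
      have hAB : (Pn S e a (n + 1)).relIndex (Pn S e a (n + 1) ⊔ r.map (lst n)) ≠ 0 := by
        rw [sup_comm, AddSubgroup.relIndex_sup_right]
        exact hB
      have hA : (Pn S e a (n + 1)).relIndex ((Pn S e a n).comap (re g) ⊓ Rn r k (n + 1)) ≠ 0 := by
        refine fun h0 => hAB (AddSubgroup.relIndex_eq_zero_of_le_right ?_ h0)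
        rintro z ⟨hz1, hz2⟩
        have h2 : Sum.elim (0 : ε → M) (re g z) ∈
            (S.pp (Sum.elim e (tup a fun j : Fin (n + 1) => (j : ℕ)))).map (re g') := by
          rw [← h1]
          exact hz1
        obtain ⟨w', hw', hwz'⟩ := h2
        have hw0 : w' = Sum.elim (0 : ε → M) (pR w') := by
          funext p
          rcases p with p | p
          · exact congrFun hwz' (Sum.inl p)
          · rfl
        set w : Fin (n + 1) × ι → M := pR w' with hwd
        have hw : w ∈ Pn S e a (n + 1) := by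
          rw [Pn, mem_fib, ← hw0]
          exact hw'
        have hwz : re g w = re g z := by
          funext p
          exact congrFun hwz' (Sum.inr p)
        have hwr : (fun x => w (Fin.last n, x)) ∈ r := by
          have h3 : S.pp (Sum.elim e (tup a fun j : Fin (n + 1) => (j : ℕ))) ≤
              r.comap (re fun x => Sum.inr (Fin.last n, x)) := by
            refine (S.pp_le_iff (S.isT_comap (isZ_re _) hr)).2 ?_
            show (fun x => a n x) ∈ r
            exact ha n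
          exact h3 hw'
        have hzr := (hz2 (Fin.last n)).2
        have h4 : z = w + lst n ((fun x => z (Fin.last n, x)) - fun x => w (Fin.last n, x)) := by
          funext p
          obtain ⟨i, x⟩ := p
          by_cases hp : (i : ℕ) = n
          · have h5 : i = Fin.last n := Fin.ext hp
            subst h5
            simp [lst_apply]
          · have h6 : (i : ℕ) < n := by have := i.2; omega
            have h7 := congrFun hwz (⟨i, h6⟩, x)
            have h8 : w (i, x) = z (i, x) := h7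
            rw [Pi.add_apply, lst_apply, if_neg hp, add_zero, h8]
        rw [h4]
        exact AddSubgroup.add_mem_sup hw ⟨_, r.sub_mem hzr hwr, rfl⟩
      refine AddSubgroup.relIndex_ne_zero_trans hA ?_
      rw [AddSubgroup.inf_relIndex_right]
      exact hC

end RelE

/-- finite index of the fibres, over `e` -/
theorem oph_e (M : Type) [AddCommGroup M] (S : Abs M) (ι ε : Type) [Finite ι] [Finite ε]
    (e : ε → M) (r : AddSubgroup (ι → M)) (a : ℕ → ι → M) (hr : S.IsT r) (ha : ∀ k, a k ∈ r)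
    (h : ∀ k, (fib (S.pp (Sum.elim (Sum.elim e (tup a fun j : Fin k => (j : ℕ)))
      (a k)))).relIndex r ≠ 0)
    (α J : Type) [Finite α] [Finite J] (f : α → ℕ) (e' : J → ℕ) (k : ℕ)
    (hf : ∀ i, f i < k) (he : ∀ j, k ≤ e' j) (hinj : Function.Injective e') :
    (fib (S.pp (Sum.elim (Sum.elim e (tup a f)) (tup a e')))).relIndex (pw J r) ≠ 0 ∧
    (fib (S.pp (Sum.elim e (tup a e')))).relIndex (pw J r) ≠ 0 := by
  classical
  have := Fintype.ofFinite J
  obtain ⟨n, hn⟩ : ∃ n : ℕ, k ≤ n ∧ ∀ j, e' j < n := by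
    refine ⟨k + (Finset.univ.sup e' + 1), by omega, fun j => ?_⟩
    have : e' j ≤ Finset.univ.sup e' := Finset.le_sup (Finset.mem_univ j)
    omega
  have hfib : (fib (S.pp (Sum.elim (Sum.elim e (tup a f)) (tup a e')))).relIndex (pw J r) ≠ 0 := by
    let g : (ε ⊕ (α × ι)) ⊕ (J × ι) → ε ⊕ (Fin n × ι) :=
      Sum.elim (Sum.elim Sum.inl fun p => Sum.inr (⟨f p.1, (hf p.1).trans_le hn.1⟩, p.2))
        fun p => Sum.inr (⟨e' p.1, hn.2 p.1⟩, p.2)
    have h1 : re g (Sum.elim e (tup a fun j : Fin n => (j : ℕ))) =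
        Sum.elim (Sum.elim e (tup a f)) (tup a e') := by
      funext p
      rcases p with (p | p) | p <;> rfl
    let ins : (J × ι → M) →+ (Fin n × ι → M) :=
      { toFun := fun v p => if hp : ∃ j, e' j = (p.1 : ℕ) then v (hp.choose, p.2) else 0
        map_zero' := by
          funext p
          by_cases hp : ∃ j, e' j = (p.1 : ℕ) <;> simp [hp]
        map_add' := by
          intro x y
          funext p
          by_cases hp : ∃ j, e' j = (p.1 : ℕ)
          · simp only [Pi.add_apply, dif_pos hp]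
          · simp only [Pi.add_apply, dif_neg hp, add_zero] }
    have hins1 : ∀ (v : J × ι → M) (j : J) (x : ι), ins v (⟨e' j, hn.2 j⟩, x) = v (j, x) := by
      intro v j x
      have hp : ∃ j', e' j' = e' j := ⟨j, rfl⟩
      have h2 : hp.choose = j := hinj hp.choose_spec
      show (if hp : ∃ j', e' j' = e' j then v (hp.choose, x) else 0) = v (j, x)
      rw [dif_pos hp, h2]
    have hins2 : ∀ (v : J × ι → M) (i : Fin n) (x : ι), (i : ℕ) < k → ins v (i, x) = 0 := by
      intro v i x hi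
      have hp : ¬ ∃ j, e' j = (i : ℕ) := by
        rintro ⟨j, hj⟩
        have := he j
        omega
      show (if hp : ∃ j, e' j = (i : ℕ) then v (hp.choose, x) else 0) = 0
      rw [dif_neg hp]
    have hins3 : ∀ v ∈ pw J r, ins v ∈ RelE.Rn r k n := by
      intro v hv i
      rw [mem_pw] at hv
      refine ⟨fun hi => funext fun x => hins2 v i x hi, ?_⟩
      by_cases hp : ∃ j, e' j = (i : ℕ)
      · obtain ⟨j, hj⟩ := hp
        have h2 : i = ⟨e' j, hn.2 j⟩ := Fin.ext hj.symm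
        have h3 : (fun x => ins v (i, x)) = fun x => v (j, x) := by
          funext x
          rw [h2]
          exact hins1 v j x
        rw [h3]
        exact hv j
      · have h3 : (fun x => ins v (i, x)) = 0 := by
          funext x
          show (if hp : ∃ j, e' j = (i : ℕ) then v (hp.choose, x) else 0) = 0
          rw [dif_neg hp]
        rw [h3]
        exact r.zero_mem
    have h4 : ((RelE.Pn S e a n).comap ins).relIndex (pw J r) ≠ 0 := by
      rw [AddSubgroup.relIndex_comap]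
      refine fun h0 => RelE.step S e r a hr ha h k n
        (AddSubgroup.relIndex_eq_zero_of_le_right ?_ h0)
      rintro _ ⟨v, hv, rfl⟩
      exact hins3 v hv
    refine fun h0 => h4 (AddSubgroup.relIndex_eq_zero_of_le_left ?_ h0)
    intro v hv
    rw [mem_fib, ← h1, S.pp_map (isZ_re g)]
    refine ⟨Sum.elim (0 : ε → M) (ins v), hv, ?_⟩
    funext p
    rcases p with (p | p) | p
    · rfl
    · exact hins2 v _ _ (hf p.1)
    · exact hins1 v p.1 p.2
  refine ⟨hfib, fun h0 => hfib (AddSubgroup.relIndex_eq_zero_of_le_left ?_ h0)⟩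
  intro v hv
  let g3 : ε ⊕ (J × ι) → (ε ⊕ (α × ι)) ⊕ (J × ι) := Sum.map Sum.inl id
  have h5 : Sum.elim e (tup a e') = re g3 (Sum.elim (Sum.elim e (tup a f)) (tup a e')) := by
    funext p
    rcases p with p | p <;> rfl
  rw [mem_fib] at hv ⊢
  rw [h5, S.pp_map (isZ_re g3)]
  refine ⟨_, hv, ?_⟩
  funext p
  rcases p with p | p <;> rfl

/-- the map `(y, z) ↦ ((0, y), z)` -/
def relh {M α β ι : Type} [AddCommGroup M] : (β ⊕ ι → M) →+ ((α ⊕ β) ⊕ ι → M) :=
  (re (Equiv.sumAssoc α β ι)).comp iR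

theorem relhZ {M α β ι : Type} [AddCommGroup M] :
    IsZ (relh : (β ⊕ ι → M) →+ ((α ⊕ β) ⊕ ι → M)) := (isZ_re _).comp isZ_iR

theorem relh_elim {M α β ι : Type} [AddCommGroup M] (y : β → M) (z : ι → M) :
    (relh (Sum.elim y z) : (α ⊕ β) ⊕ ι → M) = Sum.elim (Sum.elim (0 : α → M) y) z := by
  funext i
  rcases i with (i | i) | i
  · rfl
  · rfl
  · rfl

theorem rel_map_ne {G G' : Type} [AddCommGroup G] [AddCommGroup G'] (f : G →+ G')
    {H K : AddSubgroup G} (h : H.relIndex K ≠ 0) : (H.map f).relIndex (K.map f) ≠ 0 := by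
  rw [← AddSubgroup.relIndex_comap]
  intro h0
  exact h (AddSubgroup.relIndex_eq_zero_of_le_left (AddSubgroup.le_comap_map f H) h0)

theorem rel_split {M : Type} [AddCommGroup M] {ι J : Type} {p q : AddSubgroup (ι → M)}
    {x : J × ι → M} (hx : x ∈ pw J (p ⊔ q)) : ∃ u ∈ pw J p, ∃ v ∈ pw J q, u + v = x := by
  rw [mem_pw] at hx
  choose u hu v hv huv using fun j => AddSubgroup.mem_sup.1 (hx j)
  refine ⟨fun a => u a.1 a.2, mem_pw.2 fun j => hu j, fun a => v a.1 a.2,
    mem_pw.2 fun j => hv j, ?_⟩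
  funext a
  exact congrFun (huv a.1) a.2

/-- the map is well defined, over `e` -/
theorem wdf_e (h1 : St_FIF) (h2 : St_CNC) (h3 : St_Q1) (M : Type) [AddCommGroup M] (S : Abs M)
    (ι ε : Type) [Finite ι] [Finite ε] (e : ε → M) (r : AddSubgroup (ι → M)) (J : Type)
    [Finite J] (d : J × ι → M) (c : ι → M) (hr : S.IsT r) (hd : d ∈ pw J r)
    (hfd : (fib (S.pp (Sum.elim e d))).relIndex (pw J r) ≠ 0) (hc : c ∈ r)
    (hiso : S.Iso (Sum.elim e d) c) (x : J × ι → M) (hx : x ∈ pw J (S.q1 r)) (y : ι → M)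
    (hxy : Sum.elim (Sum.elim (0 : ε → M) x) y ∈ S.pp (Sum.elim (Sum.elim e d) c)) :
    y ∈ S.q1 r := by
  obtain ⟨Θ', hΘ', hG⟩ := hiso
  obtain ⟨hqT, hcq, hqr, ⟨χ, hχ, hχr, hqe⟩, hqmax⟩ := h3 M S ι r hr
  have hrT : S.IsT (pw J r) := S.isT_pw hr
  -- the fibres over `e`
  set D : AddSubgroup (J × ι → M) := fib (S.pp (Sum.elim e d)) with hDd
  set G : AddSubgroup ((J × ι) ⊕ ι → M) := (S.pp (Sum.elim (Sum.elim e d) c)).comap relh with hGd
  set Θ : AddSubgroup ((J × ι) ⊕ ι → M) := Θ'.comap relh with hΘd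
  have hΘ : Θ ∈ S.PP ((J × ι) ⊕ ι) := S.comap_mem _ _ _ relhZ _ hΘ'
  have hGm : ∀ (u : J × ι → M) (v : ι → M), Sum.elim u v ∈ G ↔
      Sum.elim (Sum.elim (0 : ε → M) u) v ∈ S.pp (Sum.elim (Sum.elim e d) c) := by
    intro u v
    rw [hGd, AddSubgroup.mem_comap, relh_elim]
  have hDr : D ≤ pw J r := by
    intro v hv
    have h4 : S.pp d ≤ pw J r := (S.pp_le_iff hrT).2 hd
    exact h4 (S.right_mem (mem_fib.1 hv))
  have hDT : S.IsT D := S.isT_fib (S.isT_pp _)
  have hGT : S.IsT G := S.isT_comap relhZ (S.isT_pp _)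
  have hFI : S.FI D (pw J r) := ⟨hDT, hDr, hfd⟩
  have hconJ : S.con (pw J r) = pw J (S.con r) := (h2 M S ι r hr).2.2 J
  have hW : S.Conn (pw J (S.con r)) := by
    rw [← hconJ]
    exact (h2 M S (J × ι) (pw J r) hrT).1
  have hWd : pw J (S.con r) ≤ D := by
    rw [← hconJ]
    exact S.con_le hFI
  obtain ⟨ψ, hψ, hψe⟩ := h1 M S (J × ι) D (pw J r) hFI
  have hcr : S.pp c ≤ r := (S.pp_le_iff hr).2 hc
  -- the properties of `G`
  have hmem : ∀ (u : J × ι → M) (v : ι → M), Sum.elim u v ∈ G ↔ u ∈ D ∧ Sum.elim u v ∈ Θ := by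
    intro u v
    rw [hGm, hG, hΘd, AddSubgroup.mem_comap, relh_elim]
    exact Iff.rfl
  have hleft : ∀ (u : J × ι → M) (v : ι → M), Sum.elim u v ∈ G → u ∈ D :=
    fun u v huv => ((hmem u v).1 huv).1
  have hright : ∀ (u : J × ι → M) (v : ι → M), Sum.elim u v ∈ G → v ∈ r :=
    fun u v huv => hcr (S.right_mem ((hGm u v).1 huv))
  have hexr : ∀ u ∈ D, ∃ v, Sum.elim u v ∈ G := by
    intro u hu
    obtain ⟨v, hv⟩ := S.exists_right (c := c) (mem_fib.1 hu)
    exact ⟨v, (hGm u v).2 hv⟩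
  -- (1) the fibre
  have hfib : fib G = fib Θ := by
    ext v
    rw [mem_fib, mem_fib, hmem]
    exact ⟨fun h => h.2, fun h => ⟨D.zero_mem, h⟩⟩
  have hfibr : fib Θ ≤ r := by
    rw [← hfib]
    intro v hv
    exact hright _ _ (mem_fib.1 hv)
  have hfibm : fib Θ ∈ S.PP ι := S.pp_fib_mem hΘ
  have hfq : fib Θ ≤ S.q1 r := hqmax _ hfibm hfibr
  -- (2) the image of the formula part
  have himm : img Θ (pw J χ ⊓ ψ) ∈ S.PP ι :=
    S.pp_img_mem hΘ (S.inf_mem _ _ (S.pp_pw_mem hχ) _ hψ)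
  have himr : img Θ (pw J χ ⊓ ψ) ≤ r := by
    intro v hv
    obtain ⟨u, hu, huv⟩ := mem_img.1 hv
    have h4 : u ∈ D := by
      rw [hψe]
      exact ⟨pw_mono hχr hu.1, hu.2⟩
    exact hright u v ((hmem u v).2 ⟨h4, huv⟩)
  have himq : img Θ (pw J χ ⊓ ψ) ≤ S.q1 r := hqmax _ himm himr
  -- the decomposition
  rw [← hGm] at hxy
  rw [hqe] at hx
  obtain ⟨x1, hx1, x2, hx2, hx12⟩ := rel_split hx
  have hxd : x ∈ D := hleft _ _ hxy
  have hx2d : x2 ∈ D := hWd hx2
  have hx1d : x1 ∈ D := by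
    have : x1 = x - x2 := by rw [← hx12, add_sub_cancel_right]
    rw [this]
    exact D.sub_mem hxd hx2d
  obtain ⟨y1, hy1⟩ := hexr x1 hx1d
  obtain ⟨y2, hy2⟩ := hexr x2 hx2d
  have hy0 : y - y1 - y2 ∈ fib Θ := by
    rw [← hfib, mem_fib]
    have h5 : (Sum.elim (0 : J × ι → M) (y - y1 - y2) : (J × ι) ⊕ ι → M)
        = Sum.elim x y - Sum.elim x1 y1 - Sum.elim x2 y2 := by
      rw [← elim_sub, ← elim_sub, ← hx12]
      congr 1
      abel
    rw [h5]
    exact AddSubgroup.sub_mem _ (AddSubgroup.sub_mem _ hxy hy1) hy2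
  have hy1q : y1 ∈ S.q1 r := by
    refine himq (mem_img.2 ⟨x1, ⟨hx1, ?_⟩, ((hmem _ _).1 hy1).2⟩)
    have := hx1d
    rw [hψe] at this
    exact this.2
  -- (3) the connected part
  have hy2q : y2 ∈ S.q1 r := by
    unfold Abs.q1
    rw [AddSubgroup.mem_sInf]
    rintro s ⟨hs, hsχ⟩
    have hfs : fib Θ ≤ s := hsχ _ hfibm hfibr
    let W : AddSubgroup (J × ι → M) := pw J (S.con r)
    let G' : AddSubgroup ((J × ι) ⊕ ι → M) := G ⊓ W.comap pL
    have hG'T : S.IsT G' := S.isT_inf hGT (S.isT_comap isZ_pL hW.1)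
    let T : AddSubgroup (J × ι → M) := (s.comap pR ⊓ G').map pL
    have hTT : S.IsT T := S.isT_map isZ_pL (S.isT_inf (S.isT_comap isZ_pR hs.1) hG'T)
    have hTW : T ≤ W := by
      rintro _ ⟨z, hz, rfl⟩
      exact hz.2.2
    have hG'W : G'.map pL = W := by
      apply le_antisymm
      · rintro _ ⟨z, hz, rfl⟩
        exact hz.2
      · intro w hw
        obtain ⟨v, hv⟩ := hexr w (hWd hw)
        exact ⟨Sum.elim w v, ⟨hv, hw⟩, rfl⟩
    have hG'r : G' ≤ r.comap pR := by
      intro z hz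
      have h6 : Sum.elim (pL z) (pR z) ∈ G := by
        rw [elim_pL_pR]
        exact hz.1
      exact hright _ _ h6
    have h7 : (s.comap pR ⊓ G').relIndex G' ≠ 0 := by
      have h8 : (s.comap (pR : ((J × ι) ⊕ ι → M) →+ (ι → M))).relIndex (r.comap pR) ≠ 0 :=
        AddSubgroup.relIndex_comap_ne_zero _ hs.2.2
      have h9 := AddSubgroup.relIndex_inter_ne_zero h8 G'
      rw [inf_of_le_right hG'r] at h9
      exact h9
    have h10 : T.relIndex (G'.map pL) ≠ 0 :=
      rel_map_ne (pL : ((J × ι) ⊕ ι → M) →+ (J × ι → M)) h7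
    rw [hG'W] at h10
    have h11 : T = W := hW.2 T ⟨hTT, hTW, h10⟩
    have h12 : x2 ∈ T := by
      rw [h11]
      exact hx2
    obtain ⟨z, hz, hz2⟩ := h12
    have hz3 : Sum.elim x2 (pR z) ∈ G := by
      rw [← hz2, elim_pL_pR]
      exact hz.2.1
    have hzs : pR z ∈ s := hz.1
    generalize pR z = w at hz3 hzs
    have h13 : y2 - w ∈ fib Θ := by
      rw [← hfib, mem_fib]
      have h14 : (Sum.elim (0 : J × ι → M) (y2 - w) : (J × ι) ⊕ ι → M)
          = Sum.elim x2 y2 - Sum.elim x2 w := by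
        rw [← elim_sub, sub_self]
      rw [h14]
      exact AddSubgroup.sub_mem _ hy2 hz3
    have h15 : y2 = (y2 - w) + w := by abel
    rw [h15]
    exact s.add_mem (hfs h13) hzs
  have hfin : y = (y - y1 - y2) + y1 + y2 := by abel
  rw [hfin]
  exact AddSubgroup.add_mem _ (AddSubgroup.add_mem _ (hfq hy0) hy1q) hy2q

open Classical in
/-- `((e, u), w), c) ↦ ((e, d), c)` -/
private noncomputable def RelE_g {ε α ι : Type} (f : α → ℕ) (k : ℕ) (hk : ∀ i, f i ≠ k) :
    (ε ⊕ (α × ι)) ⊕ ι → ((ε ⊕ ({i // f i < k} × ι)) ⊕ ({i // k < f i} × ι)) ⊕ ι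
  | Sum.inl (Sum.inl i) => Sum.inl (Sum.inl (Sum.inl i))
  | Sum.inl (Sum.inr p) => if h : f p.1 < k then Sum.inl (Sum.inl (Sum.inr (⟨p.1, h⟩, p.2)))
      else Sum.inl (Sum.inr (⟨p.1, lt_of_le_of_ne (not_lt.1 h) (hk p.1).symm⟩, p.2))
  | Sum.inr t => Sum.inr t

/-- `((e, a_(<k)), c) ↦ ((e, u), c)` -/
private def RelE_g' {ε α ι : Type} (f : α → ℕ) (k : ℕ) :
    (ε ⊕ ({i // f i < k} × ι)) ⊕ ι → (ε ⊕ (Fin k × ι)) ⊕ ι
  | Sum.inl (Sum.inl i) => Sum.inl (Sum.inl i)
  | Sum.inl (Sum.inr p) => Sum.inl (Sum.inr (⟨f p.1.1, p.1.2⟩, p.2))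
  | Sum.inr t => Sum.inr t

/-- tuples isolated over `(e, a_F)`, `k ∉ F` -/
theorem lst_e (h1 : St_FIF) (h2 : St_CNC) (h4 : St_Q1) (h3 : St_MUI)
    (M : Type) [AddCommGroup M] (S : Abs M) (ι ε : Type) [Finite ι] [Finite ε] (e : ε → M)
    (r : AddSubgroup (ι → M)) (V I : ℕ → AddSubgroup (ι → M)) (a : ℕ → ι → M) (m : ℕ → ℕ)
    (hF : S.Flt r (S.q1 r) V) (hI : S.Idl r (S.q1 r) V I) (hC : ChoE S e r (S.q1 r) V I a m)
    (α : Type) [Finite α] (f : α → ℕ) (hf : Function.Injective f) (k : ℕ) (hk : ∀ i, f i ≠ k)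
    (c : ι → M) (hc : c ∈ r) (hIso : S.Iso (Sum.elim e (tup a f)) c) :
    S.pp c ⊔ S.q1 r ≠ S.pp (a k) ⊔ S.q1 r := by
  classical
  intro hEq
  have hVr : ∀ j, V j ≤ r := fun j => (hF.fi j).le
  have har : ∀ j, a j ∈ r := fun j => hVr _ (hC.mem j)
  have hop := oph_e M S ι ε e r a hF.tr har hC.opn
  set A : Type := {i // f i < k} with hA
  set J : Type := {i // k < f i} with hJ
  set u : A × ι → M := tup a fun i => f i.1 with hu
  set w : J × ι → M := tup a fun i => f i.1 with hw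
  have hwV : w ∈ pw J (V (m (k + 1))) := by
    rw [mem_pw]
    intro j
    exact hF.anti (hC.mono.monotone (Nat.succ_le_of_lt j.2)) (hC.mem (f j.1))
  have hfib : (fib (S.pp (Sum.elim (Sum.elim e u) w))).relIndex (pw J r) ≠ 0 :=
    (hop A J (fun i => f i.1) (fun i => f i.1) k (fun i => i.2) (fun j => j.2.le)
      fun i j hij => Subtype.ext (hf hij)).1
  have hwdf := wdf_e h1 h2 h4 M S ι ε e r α (tup a f) c hF.tr
    (by rw [mem_pw]; exact fun j => har (f j))
    (hop Empty α (fun i => i.elim) f 0 (fun i => i.elim) (fun j => Nat.zero_le _) hf).2 hc hIso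
  have hker : ∀ y ∈ pw J (S.q1 r), ∀ z, Sum.elim (Sum.elim (0 : ε ⊕ (A × ι) → M) y) z ∈
      S.pp (Sum.elim (Sum.elim (Sum.elim e u) w) c) → z ∈ S.q1 r := by
    intro y hy z hz
    have hmap := S.pp_map (isZ_re (M := M) (RelE_g (ε := ε) (ι := ι) f k hk))
      (Sum.elim (Sum.elim (Sum.elim e u) w) c)
    have h4 : re (RelE_g (ε := ε) (ι := ι) f k hk) (Sum.elim (Sum.elim (Sum.elim e u) w) c) =
        Sum.elim (Sum.elim e (tup a f)) c := by
      funext p
      rcases p with (p | p) | t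
      · rfl
      · rw [re_apply]
        simp only [RelE_g, Sum.elim_inl, Sum.elim_inr]
        split_ifs with h
        · rfl
        · rfl
      · rfl
    rw [h4] at hmap
    have h5 : re (RelE_g (ε := ε) (ι := ι) f k hk)
        (Sum.elim (Sum.elim (0 : ε ⊕ (A × ι) → M) y) z) ∈
        S.pp (Sum.elim (Sum.elim e (tup a f)) c) := by
      rw [hmap]
      exact ⟨_, hz, rfl⟩
    set x : α × ι → M := pR (pL (re (RelE_g (ε := ε) (ι := ι) f k hk)
      (Sum.elim (Sum.elim (0 : ε ⊕ (A × ι) → M) y) z))) with hx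
    have h6 : re (RelE_g (ε := ε) (ι := ι) f k hk)
        (Sum.elim (Sum.elim (0 : ε ⊕ (A × ι) → M) y) z) =
        Sum.elim (Sum.elim (0 : ε → M) x) z := by
      funext p
      rcases p with (p | p) | t
      · rfl
      · rfl
      · rfl
    rw [h6] at h5
    refine hwdf x ?_ z h5
    rw [mem_pw] at hy ⊢
    intro i
    by_cases h : f i < k
    · have h7 : (fun t => x (i, t)) = 0 := by
        funext t
        show re (RelE_g (ε := ε) (ι := ι) f k hk)
          (Sum.elim (Sum.elim (0 : ε ⊕ (A × ι) → M) y) z) (Sum.inl (Sum.inr (i, t))) = 0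
        rw [re_apply]
        simp only [RelE_g]
        rw [dif_pos h]
        rfl
      rw [h7]
      exact AddSubgroup.zero_mem _
    · have h8 : k < f i := lt_of_le_of_ne (not_lt.1 h) (hk i).symm
      have h7 : (fun t => x (i, t)) = fun t => y (⟨i, h8⟩, t) := by
        funext t
        show re (RelE_g (ε := ε) (ι := ι) f k hk)
          (Sum.elim (Sum.elim (0 : ε ⊕ (A × ι) → M) y) z) (Sum.inl (Sum.inr (i, t))) = _
        rw [re_apply]
        simp only [RelE_g]
        rw [dif_neg h]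
        rfl
      rw [h7]
      exact hy ⟨i, h8⟩
  have hmui := h3 M S ι (ε ⊕ (A × ι)) J r (S.q1 r) V I (m (k + 1)) (Sum.elim e u) w c hF hI hwV
    hc hfib hker
  refine hC.avd k c hc hEq fun v hv => hmui ?_
  rw [mem_fib] at hv ⊢
  have hmap := S.pp_map (isZ_re (M := M) (RelE_g' (ε := ε) (ι := ι) f k))
    (Sum.elim (Sum.elim e (tup a fun j : Fin k => (j : ℕ))) c)
  have h4 : re (RelE_g' (ε := ε) (ι := ι) f k)
      (Sum.elim (Sum.elim e (tup a fun j : Fin k => (j : ℕ))) c) =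
      Sum.elim (Sum.elim e u) c := by
    funext p
    rcases p with (p | p) | t
    · rfl
    · rfl
    · rfl
  rw [h4] at hmap
  rw [hmap]
  refine ⟨_, hv, ?_⟩
  funext p
  rcases p with (p | p) | t
  · rfl
  · rfl
  · rfl

/-- CLAIM A relative to a finite tuple `e`. The sets `O k` are invariant under all automorphisms. -/
def St_ClaimAe : Prop :=
  ∀ (M : Type) [AddCommGroup M] (S : Abs M) (ι ε : Type) [Finite ι] [Finite ε] (e : ε → M)
    (r : AddSubgroup (ι → M)), S.IsT r → S.FI (S.q1 r) r ∨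
      ∃ (a : ℕ → ι → M) (O : ℕ → Set (ι → M)), (∀ k, a k ∈ O k) ∧
        (∀ k x y, S.pp x = S.pp y → x ∈ O k → y ∈ O k) ∧
        ∀ (α : Type) [Finite α] (f : α → ℕ), Function.Injective f → ∀ k, (∀ i, f i ≠ k) →
          ∀ c, S.Iso (Sum.elim e (tup a f)) c → c ∉ O k

theorem thm_ClaimAe (hQ1 : St_Q1) (hFLT : St_FLT) (hIDL : St_IDL) (hNOP : St_NOP)
    (hSTP : St_STP) (hSTQ : St_STQ) (hFIF : St_FIF) (hCNC : St_CNC) (hMUI : St_MUI) :
    St_ClaimAe := by
  intro M _ S ι ε _ _ e r hr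
  obtain ⟨hq, hc, hqr, -, -⟩ := hQ1 M S ι r hr
  by_cases h0 : (S.q1 r).relIndex r = 0
  · right
    obtain ⟨V, hV⟩ := hFLT.1 M S ι r (S.q1 r) hr hq hc hqr
    obtain ⟨I, hI⟩ := hIDL M S ι r (S.q1 r) V hV
    obtain ⟨a, m, ha⟩ := cho_e hNOP hSTP hSTQ M S ι ε e r (S.q1 r) V I hV h0 hI
    have har : ∀ k, a k ∈ r := fun k => (hV.fi (m k)).2.1 (ha.mem k)
    refine ⟨a, fun k => {c | c ∈ r ∧ S.pp c ⊔ S.q1 r = S.pp (a k) ⊔ S.q1 r},
      fun k => ⟨har k, rfl⟩, fun k x y hxy hx => ⟨?_, ?_⟩, ?_⟩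
    · have h1 : S.pp y ≤ r := by
        rw [← hxy]
        exact (S.pp_le_iff hr).2 hx.1
      exact h1 (S.mem_pp y)
    · rw [← hxy]
      exact hx.2
    · intro α _ f hf k hk c hiso hcO
      exact lst_e hFIF hCNC hQ1 hMUI M S ι ε e r V I a m hV hI ha α f hf k hk c hcO.1 hiso hcO.2
  · left
    exact ⟨hq, hqr, h0⟩

end Pool.Agent.VMA
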