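import Pool.Agent.VMA.REL
import Pool.Agent.VMA.ALL

/-!
# VMA: Claim A relative to a finite tuple, without hypotheses (helper73)
-/

set_option autoImplicit false

namespace Pool.Agent.VMA

/-- CLAIM A relative to a finite tuple -/
theorem all_ClaimAe : St_ClaimAe :=
  thm_ClaimAe all_Q1 all_FLT all_IDL all_NOP all_STP all_STQ thm_FIF all_CNC thm_MUI

end Pool.Agent.VMA
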